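import Pool.Agent.Lib.MP_4952d6_mp.Pk.G53

/-!
# Pq.P01: the gapped energy functional, definitions

`H + Lam * ∑ᵢ (1 - Pᵢ)`, `Pᵢ` = average over the position of particle `i`. The gap term of a particle is
`½ ∫∫ |f(x) - f(x^{i → z})|² dz dx = ‖(1 - Pᵢ) f‖² = nuQ (fc f) i`.
-/

set_option autoImplicit false
set_option linter.unusedSectionVars false
set_option linter.unusedVariables false
open MeasureTheory Function Filter Topology Set ComplexConjugate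
open scoped ENNReal

namespace Pool.Agent.Lib.MP_4952d6_mp.LG

open LA

variable {ι : Type*} [Fintype ι] [DecidableEq ι]

/-- gap term of particle `i` with a weight `w` -/
noncomputable def gqW (w : (ι → T3) → ℝ≥0∞) (i : ι) (f : (ι → T3) → ℂ) : ℝ≥0∞ :=
  2⁻¹ * ∫⁻ x, ∫⁻ z, w x * ‖f x - f (update x i z)‖ₑ ^ 2 ∂lam3 ∂(piN ι)

/-- gap term of particle `i` -/
noncomputable def gq (i : ι) (f : (ι → T3) → ℂ) : ℝ≥0∞ :=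
  2⁻¹ * ∫⁻ x, ∫⁻ z, ‖f x - f (update x i z)‖ₑ ^ 2 ∂lam3 ∂(piN ι)

/-- the same as a real number -/
noncomputable def rq (i : ι) (f : (ι → T3) → ℂ) : ℝ :=
  1 / 2 * ∫ x, ∫ z, ‖f x - f (update x i z)‖ ^ 2 ∂lam3 ∂(piN ι)

/-- `Re ⟨G ψ, (1 - Pᵢ) ψ⟩` -/
noncomputable def bq (i : ι) (ψ : (ι → T3) → ℂ) (G : (ι → T3) → ℝ) : ℝ :=
  ∫ x, ∫ z, G x * (‖ψ x‖ ^ 2 - (conj (ψ x) * ψ (update x i z)).re) ∂lam3 ∂(piN ι)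

/-- the commutator term `½ ∫∫ (F(x) - F(x^{i → z}))² Re (conj ψ(x) ψ(x^{i → z})) dz dx` -/
noncomputable def cq (i : ι) (ψ : (ι → T3) → ℂ) (F : (ι → T3) → ℝ) : ℝ :=
  1 / 2 * ∫ x, ∫ z, (F x - F (update x i z)) ^ 2 * (conj (ψ x) * ψ (update x i z)).re
    ∂lam3 ∂(piN ι)

/-- `½ ∫∫ (F(x) - F(x^{i → z}))² ‖ψ(x)‖² dz dx` -/
noncomputable def dq (i : ι) (ψ : (ι → T3) → ℂ) (F : (ι → T3) → ℝ) : ℝ :=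
  1 / 2 * ∫ x, ∫ z, (F x - F (update x i z)) ^ 2 * ‖ψ x‖ ^ 2 ∂lam3 ∂(piN ι)

/-- Gapped ground state energy of `n` particles. -/
noncomputable def E0G (R₀ : ℝ) (𝒱 : T3 → ℝ≥0∞) (Lam : ℝ) (n : ℕ) : ℝ≥0∞ :=
  ⨅ (φ : (Fin n → T3) → ℂ) (_ : tAdm R₀ 𝒱 φ), (tE 𝒱 φ + ENNReal.ofReal Lam * ∑ i, gq i φ)

/-- A minimiser of the gapped functional with chemical potential `μ` and energy `e`. -/
structure MiniG (l Lam R₀ : ℝ) (𝒱 : T3 → ℝ≥0∞) (μ e : ℝ) (ψ : (ι → T3) → ℂ)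
    (g : ι → Fin 3 → (ι → T3) → ℂ) : Prop where
  hv : AEMeasurable 𝒱 lam3
  hev : ∀ y, 𝒱 (-y) = 𝒱 y
  fe : FE R₀ 𝒱 ψ g
  nrm : ∫ x, ‖ψ x‖ ^ 2 ∂(piN ι) = 1
  mu0 : 0 ≤ μ
  e0 : 0 ≤ e
  la0 : 0 ≤ Lam
  la1 : Lam * l ^ 2 ≤ 1
  hmin : ∀ (φ : (ι → T3) → ℂ) (f : ι → Fin 3 → (ι → T3) → ℂ), HG φ f → Core R₀ φ →
    ENNReal.ofReal e * ∫⁻ x, ‖φ x‖ₑ ^ 2 ∂(piN ι)
      ≤ eS 𝒱 Finset.univ φ f + ENNReal.ofReal Lam * ∑ i, gq i φ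
  heq : rE 𝒱 Finset.univ ψ g + Lam * ∑ i, rq i ψ = e
  chem : ∀ T : Finset ι, ENNReal.ofReal (e - (T.card : ℝ) * μ) ≤ E0G R₀ 𝒱 Lam Tᶜ.card

end Pool.Agent.Lib.MP_4952d6_mp.LG
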