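import Pool.Agent.Lib.MP_4952d6_mp.Pq.P01
import Pool.Agent.Lib.MP_4952d6_mp.Pk.G37

/-!
# Pq.P02 (leaf A): the gap term of one particle, two forms

The function `(x, z) ↦ f (update x i z)` is in `L²((piN ι).prod lam3)` with the norm of `f` (`LB.mp_upd`); `‖a - b‖² ≤ 2‖a‖² + 2‖b‖²`.
`rq_eq`: `½ ∫∫ ‖f x - f x'‖² = ∫‖f‖² - Re ∫∫ conj (f x) f x' = ∫‖f - avj i f‖²` (`avj i f x = ∫ f (update x i z) dz`), `avj_sub` and
`nuQ (fc f) i ≤ ∫ ‖f - g‖²` for every `g` which does not depend on `x i`.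
-/

set_option autoImplicit false
set_option linter.unusedSectionVars false
set_option linter.unusedVariables false
open MeasureTheory Function Filter Topology Set ComplexConjugate
open scoped ENNReal

namespace Pool.Agent.Lib.MP_4952d6_mp.LG

open LA

variable {ι : Type*} [Fintype ι] [DecidableEq ι]

/-! ### functions which do not depend on one particle -/

theorem P02_fc_translate {φ : (ι → T3) → ℂ} (c : ι → T3)
    (k : ι → Fin 3 → ℤ) : fc (fun x => φ (x + c)) k = chN k c * fc φ k := by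
  have hb := borel_config ι
  have hh := piN_haar ι
  unfold fc
  have e : ∀ x : ι → T3, conj (chN k x) * φ (x + c)
      = chN k c * (conj (chN k (x + c)) * φ (x + c)) := by
    intro x
    rw [chN_add_arg, map_mul]
    have h := conj_chN_mul_self k c
    calc conj (chN k x) * φ (x + c) = conj (chN k x) * φ (x + c) * (conj (chN k c) * chN k c) := by
          rw [h, mul_one]
      _ = _ := by ring
  rw [integral_congr_ae (Eventually.of_forall e), integral_const_mul]
  congr 1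
  exact integral_add_right_eq_self (μ := piN ι) (fun x => conj (chN k x) * φ x) c

theorem P02_fc_zero {g : (ι → T3) → ℂ} {i : ι}
    (hg : ∀ (x : ι → T3) (z : T3), g (update x i z) = g x) {k : ι → Fin 3 → ℤ} (hk : k i ≠ 0) :
    fc g k = 0 := by
  obtain ⟨s, hs⟩ := exists_ch_eq_neg_one hk
  have h1 := P02_fc_translate (φ := g) (Pi.single i s) k
  have h2 : (fun x : ι → T3 => g (x + Pi.single i s)) = g := by
    funext x
    have h3 : x + Pi.single i s = update x i (x i + s) := by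
      funext j
      rcases eq_or_ne j i with h | h
      · subst h
        rw [Pi.add_apply, Pi.single_eq_same, update_self]
      · rw [Pi.add_apply, Pi.single_eq_of_ne h, add_zero, update_of_ne h]
    rw [h3, hg]
  rw [h2, chN_single, hs] at h1
  have h3 : (2 : ℂ) * fc g k = 0 := by linear_combination h1
  exact (mul_eq_zero.1 h3).resolve_left two_ne_zero

theorem P02_nuQ_le {φ g : (ι → T3) → ℂ}
    (hφ : MemLp φ 2 (piN ι)) (hg2 : MemLp g 2 (piN ι)) {i : ι}
    (hg : ∀ (x : ι → T3) (z : T3), g (update x i z) = g x) :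
    nuQ (fc φ) i ≤ ∫ x, ‖φ x - g x‖ ^ 2 ∂(piN ι) := by
  have hd : MemLp (fun x => φ x - g x) 2 (piN ι) := hφ.sub hg2
  have h1 := parseval_sq hd
  have hfc : ∀ k, fc (fun x => φ x - g x) k = fc φ k - fc g k := by
    intro k
    unfold fc
    have hi : ∀ {u : (ι → T3) → ℂ}, MemLp u 2 (piN ι) →
        Integrable (fun x => conj (chN k x) * u x) (piN ι) := by
      intro u hu
      have h2 : Integrable u (piN ι) := hu.integrable (by norm_num)
      refine h2.bdd_mul (c := 1) ?_ (Eventually.of_forall fun x => ?_)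
      · exact (Complex.continuous_conj.comp (chN_continuous k)).aestronglyMeasurable
      · rw [Complex.norm_conj, chN_norm]
    rw [← integral_sub (hi hφ) (hi hg2)]
    refine integral_congr_ae (Eventually.of_forall fun x => ?_)
    dsimp only
    ring
  rw [← h1.tsum_eq]
  unfold nuQ
  refine Summable.tsum_le_tsum (fun k => ?_) ?_ h1.summable
  · split_ifs with hk
    · rw [hfc, P02_fc_zero hg hk, sub_zero]
    · exact sq_nonneg _
  · refine Summable.of_nonneg_of_le (fun k => ?_) (fun k => ?_) h1.summable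
    · split_ifs
      · exact sq_nonneg _
      · exact le_rfl
    · split_ifs with hk
      · rw [hfc, P02_fc_zero hg hk, sub_zero]
      · exact sq_nonneg _

/-! ### product integrals -/

lemma P02_m1 {f : (ι → T3) → ℂ} (hf : MemLp f 2 (piN ι)) :
    MemLp (fun q : (ι → T3) × T3 => f q.1) 2 ((piN ι).prod lam3) :=
  hf.comp_measurePreserving measurePreserving_fst

lemma P02_m2 {f : (ι → T3) → ℂ} (hf : MemLp f 2 (piN ι)) (i : ι) :
    MemLp (fun q : (ι → T3) × T3 => f (update q.1 i q.2)) 2 ((piN ι).prod lam3) :=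
  hf.comp_measurePreserving (LB.mp_upd i)

lemma P02_norm_sub (z w : ℂ) : ‖z - w‖ ^ 2 = ‖z‖ ^ 2 + ‖w‖ ^ 2 - 2 * (conj z * w).re := by
  simp only [Complex.sq_norm, Complex.normSq_apply, Complex.sub_re, Complex.sub_im,
    Complex.mul_re, Complex.conj_re, Complex.conj_im]
  ring

lemma P02_lin3 {X : Type*} [MeasurableSpace X] {μ : Measure X} {a b c : X → ℝ}
    (ha : Integrable a μ) (hb : Integrable b μ) (hc : Integrable c μ) (s : ℝ) :
    (∫ x, a x ∂μ) + (∫ x, b x ∂μ) - s * ∫ x, c x ∂μ = ∫ x, (a x + b x - s * c x) ∂μ := by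
  have h1 : Integrable (fun x => a x + b x) μ := ha.add hb
  have h2 : Integrable (fun x => s * c x) μ := hc.const_mul s
  rw [integral_sub h1 h2, integral_add ha hb, integral_const_mul]

lemma P02_re {X : Type*} [MeasurableSpace X] {μ : Measure X} {f g : X → ℂ} (hf : MemLp f 2 μ)
    (hg : MemLp g 2 μ) : Integrable (fun x => conj (f x) * g x) μ := by
  have h1 : MemLp (fun x => conj (f x)) 2 μ := by
    have := hf.star
    exact this
  have h2 : Integrable ((fun x => conj (f x)) * g) μ := h1.integrable_mul hg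
  exact h2

theorem pair_int {f : (ι → T3) → ℂ} (hf : MemLp f 2 (piN ι)) (i : ι) :
    Integrable (fun q : (ι → T3) × T3 => ‖f q.1 - f (update q.1 i q.2)‖ ^ 2)
      ((piN ι).prod lam3) :=
  int_sq ((P02_m1 hf).sub (P02_m2 hf i))

theorem rq_nonneg (i : ι) (f : (ι → T3) → ℂ) : 0 ≤ rq i f := by
  unfold rq
  exact mul_nonneg (by norm_num) (integral_nonneg fun x => integral_nonneg fun z => sq_nonneg _)

theorem gqW_one (i : ι) (f : (ι → T3) → ℂ) : gqW (fun _ => 1) i f = gq i f := by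
  unfold gqW gq
  simp only [one_mul]

/-- weighted form; the weight need not be independent of `x i` -/
theorem gqW_eq {f : (ι → T3) → ℂ} (hf : MemLp f 2 (piN ι)) (i : ι) {Z : (ι → T3) → ℝ} (hZ : BM Z)
    (hZ0 : ∀ x, 0 ≤ Z x) :
    gqW (fun x => ENNReal.ofReal (Z x)) i f
      = ENNReal.ofReal (1 / 2 * ∫ x, ∫ z, Z x * ‖f x - f (update x i z)‖ ^ 2 ∂lam3 ∂(piN ι)) := by
  obtain ⟨C, hC⟩ := hZ.bdd
  have hi : Integrable (fun q : (ι → T3) × T3 => Z q.1 * ‖f q.1 - f (update q.1 i q.2)‖ ^ 2)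
      ((piN ι).prod lam3) :=
    (pair_int hf i).bdd_mul (hZ.meas.comp measurable_fst).aestronglyMeasurable
      (Eventually.of_forall fun q => hC q.1)
  have e0 : ∫ x, ∫ z, Z x * ‖f x - f (update x i z)‖ ^ 2 ∂lam3 ∂(piN ι)
      = ∫ q : (ι → T3) × T3, Z q.1 * ‖f q.1 - f (update q.1 i q.2)‖ ^ 2 ∂((piN ι).prod lam3) :=
    (integral_prod _ hi).symm
  rw [e0, ENNReal.ofReal_mul (by norm_num),
    ofReal_integral_eq_lintegral_ofReal hi
      (Eventually.of_forall fun q => mul_nonneg (hZ0 _) (sq_nonneg _))]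
  unfold gqW
  congr 1
  · rw [one_div, ENNReal.ofReal_inv_of_pos (by norm_num)]
    norm_num
  · have e1 : ∀ q : (ι → T3) × T3, ENNReal.ofReal (Z q.1 * ‖f q.1 - f (update q.1 i q.2)‖ ^ 2)
        = ENNReal.ofReal (Z q.1) * ‖f q.1 - f (update q.1 i q.2)‖ₑ ^ 2 := by
      intro q
      rw [ENNReal.ofReal_mul (hZ0 _), ENNReal.ofReal_pow (norm_nonneg _), ofReal_norm]
    simp only [e1]
    have hm : AEMeasurable (fun q : (ι → T3) × T3 => ENNReal.ofReal (Z q.1)
        * ‖f q.1 - f (update q.1 i q.2)‖ₑ ^ 2) ((piN ι).prod lam3) :=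
      (hZ.meas.ennreal_ofReal.comp measurable_fst).aemeasurable.mul
        (((P02_m1 hf).1.sub (P02_m2 hf i).1).enorm.pow_const 2)
    rw [lintegral_prod _ hm]

theorem gq_eq {f : (ι → T3) → ℂ} (hf : MemLp f 2 (piN ι)) (i : ι) :
    gq i f = ENNReal.ofReal (rq i f) := by
  have h := gqW_eq hf i (BM.const 1) fun _ => zero_le_one
  simp only [ENNReal.ofReal_one, gqW_one, one_mul] at h
  rw [h]
  rfl

/-- the form as a norm minus a mixed term -/
lemma P02_rq {f : (ι → T3) → ℂ} (hf : MemLp f 2 (piN ι)) (i : ι) :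
    rq i f = (∫ x, ‖f x‖ ^ 2 ∂(piN ι)) - ∫ x, (conj (f x) * avj i f x).re ∂(piN ι) := by
  have m1 := P02_m1 hf
  have m2 := P02_m2 hf i
  have i3 := P02_re m1 m2
  have i3r : Integrable (fun q : (ι → T3) × T3 => (conj (f q.1) * f (update q.1 i q.2)).re)
      ((piN ι).prod lam3) := i3.re
  have e0 : ∫ x, ∫ z, ‖f x - f (update x i z)‖ ^ 2 ∂lam3 ∂(piN ι)
      = ∫ q : (ι → T3) × T3, ‖f q.1 - f (update q.1 i q.2)‖ ^ 2 ∂((piN ι).prod lam3) :=
    (integral_prod _ (pair_int hf i)).symm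
  have e1 : ∫ q : (ι → T3) × T3, ‖f q.1 - f (update q.1 i q.2)‖ ^ 2 ∂((piN ι).prod lam3)
      = (∫ q : (ι → T3) × T3, ‖f q.1‖ ^ 2 ∂((piN ι).prod lam3))
        + (∫ q : (ι → T3) × T3, ‖f (update q.1 i q.2)‖ ^ 2 ∂((piN ι).prod lam3))
        - 2 * ∫ q : (ι → T3) × T3, (conj (f q.1) * f (update q.1 i q.2)).re
          ∂((piN ι).prod lam3) := by
    rw [P02_lin3 (int_sq m1) (int_sq m2) i3r 2]
    refine integral_congr_ae (Eventually.of_forall fun q => ?_)
    simp only
    rw [P02_norm_sub]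
  have e2 : ∫ q : (ι → T3) × T3, ‖f q.1‖ ^ 2 ∂((piN ι).prod lam3) = ∫ x, ‖f x‖ ^ 2 ∂(piN ι) :=
    mp_integral (measurePreserving_fst (μ := piN ι) (ν := lam3)) (int_sq hf).aestronglyMeasurable
  have e3 : ∫ q : (ι → T3) × T3, ‖f (update q.1 i q.2)‖ ^ 2 ∂((piN ι).prod lam3)
      = ∫ x, ‖f x‖ ^ 2 ∂(piN ι) :=
    mp_integral (LB.mp_upd i) (int_sq hf).aestronglyMeasurable
  have e4 : ∫ q : (ι → T3) × T3, (conj (f q.1) * f (update q.1 i q.2)).re ∂((piN ι).prod lam3)
      = ∫ x, (conj (f x) * avj i f x).re ∂(piN ι) := by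
    have h1 := integral_prod _ i3r
    refine h1.trans (integral_congr_ae ?_)
    have h2 : Integrable (fun q : (ι → T3) × T3 => f (update q.1 i q.2)) ((piN ι).prod lam3) :=
      m2.integrable one_le_two
    filter_upwards [h2.prod_right_ae] with x hx
    have h3 := integral_re (hx.const_mul (conj (f x)))
    refine h3.trans ?_
    rw [integral_const_mul]
    rfl
  unfold rq
  rw [e0, e1, e2, e3, e4]
  ring

lemma P02_avj {f : (ι → T3) → ℂ} (hf : MemLp f 2 (piN ι)) (i : ι) :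
    ∫ x, ‖avj i f x‖ ^ 2 ∂(piN ι) = ∫ x, (conj (f x) * avj i f x).re ∂(piN ι) := by
  have hA := avj_memLp hf i
  have h1 : Integrable (fun x => conj (avj i f x) * f x) (piN ι) := P02_re hA hf
  have h2 := LB.integral_upd i h1
  have h3 : ∀ x : ι → T3, ∀ y : T3, avj i f (update x i y) = avj i f x := by
    intro x y
    unfold avj
    simp only [update_idem]
  have h4 : ∀ x : ι → T3, ∫ y, conj (avj i f (update x i y)) * f (update x i y) ∂lam3
      = ((‖avj i f x‖ ^ 2 : ℝ) : ℂ) := by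
    intro x
    simp only [h3]
    rw [integral_const_mul]
    have h5 : (∫ y, f (update x i y) ∂lam3) = avj i f x := rfl
    rw [h5, mul_comm, Complex.mul_conj, Complex.normSq_eq_norm_sq]
  simp only [h4] at h2
  have h6 : (∫ x, ((‖avj i f x‖ ^ 2 : ℝ) : ℂ) ∂(piN ι))
      = ((∫ x, ‖avj i f x‖ ^ 2 ∂(piN ι) : ℝ) : ℂ) := integral_ofReal
  rw [h6] at h2
  have h7 := congrArg Complex.re h2
  rw [Complex.ofReal_re] at h7
  have h8 : (∫ x, conj (avj i f x) * f x ∂(piN ι)).re
      = ∫ x, (conj (avj i f x) * f x).re ∂(piN ι) := (integral_re h1).symm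
  rw [h7, h8]
  refine integral_congr_ae (Eventually.of_forall fun x => ?_)
  simp only [Complex.mul_re, Complex.conj_re, Complex.conj_im]
  ring

lemma P02_rq_avj {f : (ι → T3) → ℂ} (hf : MemLp f 2 (piN ι)) (i : ι) :
    rq i f = ∫ x, ‖f x - avj i f x‖ ^ 2 ∂(piN ι) := by
  have hA := avj_memLp hf i
  have h1 : ∫ x, ‖f x - avj i f x‖ ^ 2 ∂(piN ι) = (∫ x, ‖f x‖ ^ 2 ∂(piN ι))
      + (∫ x, ‖avj i f x‖ ^ 2 ∂(piN ι)) - 2 * ∫ x, (conj (f x) * avj i f x).re ∂(piN ι) := by
    have i3r : Integrable (fun x => (conj (f x) * avj i f x).re) (piN ι) := (P02_re hf hA).re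
    rw [P02_lin3 (int_sq hf) (int_sq hA) i3r 2]
    refine integral_congr_ae (Eventually.of_forall fun x => ?_)
    simp only
    rw [P02_norm_sub]
  rw [h1, P02_avj hf i, P02_rq hf i]
  ring

theorem rq_eq {f : (ι → T3) → ℂ} (hf : MemLp f 2 (piN ι)) (i : ι) : rq i f = nuQ (fc f) i := by
  rw [P02_rq_avj hf i]
  refine le_antisymm (avj_sub hf i) (P02_nuQ_le hf (avj_memLp hf i) fun x z => ?_)
  unfold avj
  simp only [update_idem]

theorem rq_le {f : (ι → T3) → ℂ} (hf : MemLp f 2 (piN ι)) (i : ι) :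
    rq i f ≤ ∫ x, ‖f x‖ ^ 2 ∂(piN ι) := by
  rw [P02_rq hf i, ← P02_avj hf i]
  have h : 0 ≤ ∫ x, ‖avj i f x‖ ^ 2 ∂(piN ι) := integral_nonneg fun x => sq_nonneg _
  linarith

theorem gq_const_mul (i : ι) (c : ℂ) (f : (ι → T3) → ℂ) :
    gq i (fun x => c * f x) = ‖c‖ₑ ^ 2 * gq i f := by
  unfold gq
  have e : ∀ x z : _, ‖c * f x - c * f (update x i z)‖ₑ ^ 2
      = ‖c‖ₑ ^ 2 * ‖f x - f (update x i z)‖ₑ ^ 2 := by
    intro x z
    rw [← mul_sub, enorm_mul, mul_pow]
  have hc : ‖c‖ₑ ^ 2 ≠ ⊤ := ENNReal.pow_ne_top enorm_ne_top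
  simp only [e]
  simp only [lintegral_const_mul' _ _ hc]
  ring

end Pool.Agent.Lib.MP_4952d6_mp.LG
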