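import Pool.Agent.Lib.MP_4952d6_mp.Pq.P02

/-!
# Pq.P03 (leaf B): multipliers and the gap term

All integrands are integrable: `Z, G, F` bounded measurable, `ψ, ψ ∘ upd` in `L²` (`pair_int`, `LB.mp_upd`), symmetrisation by `LB.integral_swj i`
(`swj i (x, z) = (update x i z, x i)`, and `update (update x i z) i (x i) = x`).
-/

set_option autoImplicit false
set_option linter.unusedSectionVars false
set_option linter.unusedVariables false
open MeasureTheory Function Filter Topology Set ComplexConjugate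
open scoped ENNReal

namespace Pool.Agent.Lib.MP_4952d6_mp.LG

open LA

variable {ι : Type*} [Fintype ι] [DecidableEq ι]

/-! ### Integrals over configurations and one extra particle -/

/-- `Re (conj ψ(x) ψ(x^{i → z}))` -/
noncomputable def P03_re (i : ι) (ψ : (ι → T3) → ℂ) (q : (ι → T3) × T3) : ℝ :=
  (conj (ψ q.1) * ψ (update q.1 i q.2)).re

theorem P03_upd_memLp {ψ : (ι → T3) → ℂ} (hψ : MemLp ψ 2 (piN ι)) (i : ι) :
    MemLp (fun q : (ι → T3) × T3 => ψ (update q.1 i q.2)) 2 ((piN ι).prod lam3) :=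
  hψ.comp_measurePreserving (LB.mp_upd i)

theorem P03_fst_memLp {ψ : (ι → T3) → ℂ} (hψ : MemLp ψ 2 (piN ι)) :
    MemLp (fun q : (ι → T3) × T3 => ψ q.1) 2 ((piN ι).prod lam3) :=
  hψ.comp_measurePreserving measurePreserving_fst

theorem P03_sq1 {ψ : (ι → T3) → ℂ} (hψ : MemLp ψ 2 (piN ι)) :
    Integrable (fun q : (ι → T3) × T3 => ‖ψ q.1‖ ^ 2) ((piN ι).prod lam3) :=
  (P03_fst_memLp hψ).integrable_norm_pow two_ne_zero

theorem P03_sq2 {ψ : (ι → T3) → ℂ} (hψ : MemLp ψ 2 (piN ι)) (i : ι) :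
    Integrable (fun q : (ι → T3) × T3 => ‖ψ (update q.1 i q.2)‖ ^ 2) ((piN ι).prod lam3) :=
  (P03_upd_memLp hψ i).integrable_norm_pow two_ne_zero

theorem P03_re_int {ψ : (ι → T3) → ℂ} (hψ : MemLp ψ 2 (piN ι)) (i : ι) :
    Integrable (P03_re i ψ) ((piN ι).prod lam3) := by
  have h1 := P03_fst_memLp hψ
  have h2 := P03_upd_memLp hψ i
  have hc : MemLp (fun q : (ι → T3) × T3 => conj (ψ q.1)) 2 ((piN ι).prod lam3) := by
    refine h1.of_le_mul (c := 1) (Complex.continuous_conj.comp_aestronglyMeasurable h1.1) ?_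
    exact Eventually.of_forall fun x => by simp
  exact (MemLp.integrable_mul hc h2).re

theorem P03_norm (a b : ℂ) : ‖a - b‖ ^ 2 = ‖a‖ ^ 2 + ‖b‖ ^ 2 - 2 * (conj a * b).re := by
  rw [← Complex.normSq_eq_norm_sq, ← Complex.normSq_eq_norm_sq, ← Complex.normSq_eq_norm_sq,
    Complex.normSq_apply, Complex.normSq_apply, Complex.normSq_apply]
  simp only [Complex.mul_re, Complex.conj_re, Complex.conj_im, Complex.sub_re, Complex.sub_im]
  ring

theorem P03_re_le (a b : ℂ) : (conj a * b).re ≤ (‖a‖ ^ 2 + ‖b‖ ^ 2) / 2 := by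
  have h := P03_norm a b
  have h2 := sq_nonneg ‖a - b‖
  linarith

/-- bounded measurable weights -/
theorem P03_mul {f : (ι → T3) × T3 → ℝ} (hf : Integrable f ((piN ι).prod lam3))
    {H : (ι → T3) × T3 → ℝ} (hH : BM H) :
    Integrable (fun q => H q * f q) ((piN ι).prod lam3) := by
  obtain ⟨C, hC⟩ := hH.bdd
  exact hf.bdd_mul hH.meas.aestronglyMeasurable (Eventually.of_forall hC)

theorem P03_bm1 {G : (ι → T3) → ℝ} (hG : BM G) : BM (fun q : (ι → T3) × T3 => G q.1) :=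
  hG.comp measurable_fst

theorem P03_bm2 {G : (ι → T3) → ℝ} (hG : BM G) (i : ι) :
    BM (fun q : (ι → T3) × T3 => G (update q.1 i q.2)) :=
  hG.comp (measurable_upd i)

/-- exchange of the particle and the extra particle -/
theorem P03_swap (i : ι) {ψ : (ι → T3) → ℂ} (hψ : MemLp ψ 2 (piN ι))
    {H : (ι → T3) × T3 → ℝ} (hH : BM H) :
    (∫ q, H q * ‖ψ (update q.1 i q.2)‖ ^ 2 ∂((piN ι).prod lam3)
        = ∫ q, H (LB.swj i q) * ‖ψ q.1‖ ^ 2 ∂((piN ι).prod lam3)) ∧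
    (∫ q, H (LB.swj i q) * P03_re i ψ q ∂((piN ι).prod lam3)
        = ∫ q, H q * P03_re i ψ q ∂((piN ι).prod lam3)) := by
  constructor
  · rw [← LB.integral_swj i (P03_mul (P03_sq2 hψ i) hH).aestronglyMeasurable]
    refine integral_congr_ae (Eventually.of_forall fun q => ?_)
    dsimp only
    have e : update (LB.swj i q).1 i (LB.swj i q).2 = q.1 := by
      simp [LB.swj]
    rw [e]
  · rw [← LB.integral_swj i (P03_mul (P03_re_int hψ i) hH).aestronglyMeasurable]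
    refine integral_congr_ae (Eventually.of_forall fun q => ?_)
    dsimp only
    have e : P03_re i ψ (LB.swj i q) = P03_re i ψ q := by
      unfold P03_re LB.swj
      dsimp only
      rw [update_idem, update_eq_self]
      simp only [Complex.mul_re, Complex.conj_re, Complex.conj_im]
      ring
    rw [e]

theorem P03_swj_bm (i : ι) {H : (ι → T3) × T3 → ℝ} (hH : BM H) : BM (fun q => H (LB.swj i q)) :=
  hH.comp (LB.mp_swj i).measurable

/-! ### The forms as integrals over the product space -/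

theorem P03_bq {ψ : (ι → T3) → ℂ} (hψ : MemLp ψ 2 (piN ι)) (i : ι) {G : (ι → T3) → ℝ}
    (hG : BM G) :
    bq i ψ G = (∫ q, G q.1 * ‖ψ q.1‖ ^ 2 ∂((piN ι).prod lam3))
      - ∫ q, G q.1 * P03_re i ψ q ∂((piN ι).prod lam3) := by
  have i1 := P03_mul (P03_sq1 hψ) (P03_bm1 hG)
  have i2 := P03_mul (P03_re_int hψ i) (P03_bm1 hG)
  rw [← integral_sub i1 i2]
  have e : bq i ψ G = ∫ x, ∫ z, (fun q : (ι → T3) × T3 => G q.1 * ‖ψ q.1‖ ^ 2
      - G q.1 * P03_re i ψ q) (x, z) ∂lam3 ∂(piN ι) := by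
    unfold bq P03_re
    refine integral_congr_ae (Eventually.of_forall fun x => ?_)
    dsimp only
    refine integral_congr_ae (Eventually.of_forall fun z => ?_)
    dsimp only
    ring
  rw [e]
  exact (integral_prod _ (i1.sub i2)).symm

theorem P03_rq {f : (ι → T3) → ℂ} (hf : MemLp f 2 (piN ι)) (i : ι) :
    rq i f = 1 / 2 * ∫ q, ‖f q.1 - f (update q.1 i q.2)‖ ^ 2 ∂((piN ι).prod lam3) := by
  have h1 : Integrable (fun q : (ι → T3) × T3 => ‖f q.1 - f (update q.1 i q.2)‖ ^ 2)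
      ((piN ι).prod lam3) :=
    ((P03_fst_memLp hf).sub (P03_upd_memLp hf i)).integrable_norm_pow two_ne_zero
  unfold rq
  rw [integral_prod _ h1]

theorem P03_rq2 {f : (ι → T3) → ℂ} (hf : MemLp f 2 (piN ι)) (i : ι) :
    rq i f = (∫ q, ‖f q.1‖ ^ 2 ∂((piN ι).prod lam3))
      - ∫ q, P03_re i f q ∂((piN ι).prod lam3) := by
  have i1 := P03_sq1 (ι := ι) hf
  have i2 := P03_sq2 hf i
  have i3 := P03_re_int hf i
  have h1 := (P03_swap i hf (H := fun _ => 1) (BM.const 1)).1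
  simp only [one_mul] at h1
  rw [P03_rq hf i]
  have e : ∫ q : (ι → T3) × T3, ‖f q.1 - f (update q.1 i q.2)‖ ^ 2 ∂((piN ι).prod lam3)
      = ∫ q : (ι → T3) × T3, (‖f q.1‖ ^ 2 + ‖f (update q.1 i q.2)‖ ^ 2 - 2 * P03_re i f q)
        ∂((piN ι).prod lam3) := by
    refine integral_congr_ae (Eventually.of_forall fun q => ?_)
    exact P03_norm _ _
  have i12 : Integrable (fun q : (ι → T3) × T3 => ‖f q.1‖ ^ 2 + ‖f (update q.1 i q.2)‖ ^ 2)
      ((piN ι).prod lam3) := i1.add i2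
  rw [e, integral_sub i12 (i3.const_mul 2), integral_add i1 i2, integral_const_mul, h1]
  ring

theorem bq_one {ψ : (ι → T3) → ℂ} (hψ : MemLp ψ 2 (piN ι)) (i : ι) :
    bq i ψ (fun _ => 1) = rq i ψ := by
  rw [P03_bq hψ i (BM.const 1), P03_rq2 hψ i]
  simp only [one_mul]

/-- `Re ⟨(1 - s G)² ψ, (1 - Pᵢ) ψ⟩` -/
theorem bq_expand {ψ : (ι → T3) → ℂ} (hψ : MemLp ψ 2 (piN ι)) (i : ι) {G : (ι → T3) → ℝ}
    (hG : BM G) (s : ℝ) :
    bq i ψ (fun x => (1 - s * G x) ^ 2)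
      = rq i ψ - 2 * s * bq i ψ G + s ^ 2 * bq i ψ (fun x => G x ^ 2) := by
  have hG2 : BM (fun x => G x ^ 2) := hG.pow 2
  have hG1 : BM (fun x => (1 - s * G x) ^ 2) := ((BM.const 1).sub (hG.const_mul s)).pow 2
  rw [← bq_one hψ i, P03_bq hψ i hG1, P03_bq hψ i (BM.const 1), P03_bq hψ i hG, P03_bq hψ i hG2]
  have key : ∀ {f : (ι → T3) × T3 → ℝ}, Integrable f ((piN ι).prod lam3) →
      ∫ q, (1 - s * G q.1) ^ 2 * f q ∂((piN ι).prod lam3)
        = (∫ q, 1 * f q ∂((piN ι).prod lam3)) - 2 * s * (∫ q, G q.1 * f q ∂((piN ι).prod lam3))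
          + s ^ 2 * ∫ q, G q.1 ^ 2 * f q ∂((piN ι).prod lam3) := by
    intro f hf
    have j1 : Integrable (fun q => 1 * f q) ((piN ι).prod lam3) := by simpa only [one_mul] using hf
    have j2 := (P03_mul hf (P03_bm1 hG)).const_mul (2 * s)
    have j3 := (P03_mul hf (P03_bm1 hG2)).const_mul (s ^ 2)
    have j12 : Integrable (fun q => 1 * f q - 2 * s * (G q.1 * f q)) ((piN ι).prod lam3) := j1.sub j2
    rw [← integral_const_mul, ← integral_const_mul, ← integral_sub j1 j2, ← integral_add j12 j3]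
    refine integral_congr_ae (Eventually.of_forall fun q => ?_)
    dsimp only
    ring
  rw [key (P03_sq1 hψ), key (P03_re_int hψ i)]
  ring

theorem P03_cq {ψ : (ι → T3) → ℂ} (hψ : MemLp ψ 2 (piN ι)) (i : ι) {F : (ι → T3) → ℝ} (hF : BM F) :
    cq i ψ F = 1 / 2 * ∫ q, (F q.1 - F (update q.1 i q.2)) ^ 2 * P03_re i ψ q
      ∂((piN ι).prod lam3) := by
  have hH : BM (fun q : (ι → T3) × T3 => (F q.1 - F (update q.1 i q.2)) ^ 2) :=
    ((P03_bm1 hF).sub (P03_bm2 hF i)).pow 2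
  have h1 := P03_mul (P03_re_int hψ i) hH
  unfold cq
  rw [integral_prod _ h1]
  rfl

theorem P03_dq {ψ : (ι → T3) → ℂ} (hψ : MemLp ψ 2 (piN ι)) (i : ι) {F : (ι → T3) → ℝ} (hF : BM F) :
    dq i ψ F = 1 / 2 * ∫ q, (F q.1 - F (update q.1 i q.2)) ^ 2 * ‖ψ q.1‖ ^ 2
      ∂((piN ι).prod lam3) := by
  have hH : BM (fun q : (ι → T3) × T3 => (F q.1 - F (update q.1 i q.2)) ^ 2) :=
    ((P03_bm1 hF).sub (P03_bm2 hF i)).pow 2
  have h1 := P03_mul (P03_sq1 hψ) hH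
  unfold dq
  rw [integral_prod _ h1]

/-- gap term of `G ψ` -/
theorem rq_mG {ψ : (ι → T3) → ℂ} (hψ : MemLp ψ 2 (piN ι)) (i : ι) {G : (ι → T3) → ℝ} (hG : BM G) :
    rq i (mG G ψ) = bq i ψ (fun x => G x ^ 2) + cq i ψ G := by
  have hGψ : MemLp (mG G ψ) 2 (piN ι) := by
    obtain ⟨C, hC0, hC⟩ := hG.exists_nonneg_bound
    refine hψ.of_le_mul (c := C) ?_ (Eventually.of_forall fun x => ?_)
    · exact (Complex.measurable_ofReal.comp hG.meas).aestronglyMeasurable.mul hψ.1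
    · unfold mG
      rw [norm_mul, Complex.norm_real]
      exact mul_le_mul_of_nonneg_right (hC x) (norm_nonneg _)
  have hG2 : BM (fun x => G x ^ 2) := hG.pow 2
  have hGG : BM (fun q : (ι → T3) × T3 => G q.1 * G (update q.1 i q.2)) :=
    (P03_bm1 hG).mul (P03_bm2 hG i)
  have hH1 : BM (fun q : (ι → T3) × T3 => G q.1 ^ 2) := P03_bm1 hG2
  have hH2 : BM (fun q : (ι → T3) × T3 => G (update q.1 i q.2) ^ 2) := P03_bm2 hG2 i
  rw [P03_rq2 hGψ i, P03_bq hψ i hG2, P03_cq hψ i hG]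
  have e1 : ∫ q : (ι → T3) × T3, ‖mG G ψ q.1‖ ^ 2 ∂((piN ι).prod lam3)
      = ∫ q : (ι → T3) × T3, G q.1 ^ 2 * ‖ψ q.1‖ ^ 2 ∂((piN ι).prod lam3) := by
    refine integral_congr_ae (Eventually.of_forall fun q => ?_)
    unfold mG
    dsimp only
    rw [norm_mul, Complex.norm_real, Real.norm_eq_abs, mul_pow, sq_abs]
  have e2 : ∫ q : (ι → T3) × T3, P03_re i (mG G ψ) q ∂((piN ι).prod lam3)
      = ∫ q : (ι → T3) × T3, G q.1 * G (update q.1 i q.2) * P03_re i ψ q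
        ∂((piN ι).prod lam3) := by
    refine integral_congr_ae (Eventually.of_forall fun q => ?_)
    unfold P03_re mG
    dsimp only
    simp only [map_mul, Complex.conj_ofReal, Complex.mul_re, Complex.mul_im, Complex.ofReal_re,
      Complex.ofReal_im, Complex.conj_re, Complex.conj_im]
    ring
  have e3 : ∫ q : (ι → T3) × T3, (G q.1 - G (update q.1 i q.2)) ^ 2 * P03_re i ψ q
      ∂((piN ι).prod lam3)
      = 2 * (∫ q : (ι → T3) × T3, G q.1 ^ 2 * P03_re i ψ q ∂((piN ι).prod lam3))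
        - 2 * ∫ q : (ι → T3) × T3, G q.1 * G (update q.1 i q.2) * P03_re i ψ q
          ∂((piN ι).prod lam3) := by
    have j1 := P03_mul (P03_re_int hψ i) hH1
    have j2 := P03_mul (P03_re_int hψ i) hH2
    have j3 := (P03_mul (P03_re_int hψ i) hGG).const_mul 2
    have h1 : ∫ q : (ι → T3) × T3, G (update q.1 i q.2) ^ 2 * P03_re i ψ q ∂((piN ι).prod lam3)
        = ∫ q : (ι → T3) × T3, G q.1 ^ 2 * P03_re i ψ q ∂((piN ι).prod lam3) :=
      (P03_swap i hψ (H := fun q : (ι → T3) × T3 => G q.1 ^ 2) hH1).2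
    have h2 : 2 * (∫ q : (ι → T3) × T3, G q.1 ^ 2 * P03_re i ψ q ∂((piN ι).prod lam3))
        = (∫ q : (ι → T3) × T3, G q.1 ^ 2 * P03_re i ψ q ∂((piN ι).prod lam3))
          + ∫ q : (ι → T3) × T3, G (update q.1 i q.2) ^ 2 * P03_re i ψ q ∂((piN ι).prod lam3) := by
      rw [h1]
      ring
    have j12 : Integrable (fun q : (ι → T3) × T3 => G q.1 ^ 2 * P03_re i ψ q
        + G (update q.1 i q.2) ^ 2 * P03_re i ψ q) ((piN ι).prod lam3) := j1.add j2
    rw [h2, ← integral_const_mul, ← integral_add j1 j2, ← integral_sub j12 j3]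
    refine integral_congr_ae (Eventually.of_forall fun q => ?_)
    dsimp only
    ring
  rw [e1, e2, e3]
  ring

/-- quadratic in `s` -/
theorem cq_affine {ψ : (ι → T3) → ℂ} (i : ι) (G : (ι → T3) → ℝ) (s : ℝ) :
    cq i ψ (fun x => 1 - s * G x) = s ^ 2 * cq i ψ G := by
  unfold cq
  have h1 : ∀ x : ι → T3, ∫ z, (1 - s * G x - (1 - s * G (update x i z))) ^ 2
      * (conj (ψ x) * ψ (update x i z)).re ∂lam3
      = s ^ 2 * ∫ z, (G x - G (update x i z)) ^ 2 * (conj (ψ x) * ψ (update x i z)).re ∂lam3 := by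
    intro x
    rw [← integral_const_mul]
    refine integral_congr_ae (Eventually.of_forall fun z => ?_)
    dsimp only
    ring
  simp only [h1]
  rw [integral_const_mul]
  ring

theorem cq_le {ψ : (ι → T3) → ℂ} (hψ : MemLp ψ 2 (piN ι)) (i : ι) {F : (ι → T3) → ℝ} (hF : BM F) :
    cq i ψ F ≤ dq i ψ F := by
  have hH : BM (fun q : (ι → T3) × T3 => (F q.1 - F (update q.1 i q.2)) ^ 2) :=
    ((P03_bm1 hF).sub (P03_bm2 hF i)).pow 2
  rw [P03_cq hψ i hF, P03_dq hψ i hF]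
  refine mul_le_mul_of_nonneg_left ?_ (by norm_num)
  have j1 := P03_mul (P03_sq1 hψ) hH
  have j2 := P03_mul (P03_sq2 hψ i) hH
  have j3 := P03_mul (P03_re_int hψ i) hH
  have h1 : ∫ q : (ι → T3) × T3, (F q.1 - F (update q.1 i q.2)) ^ 2 * ‖ψ (update q.1 i q.2)‖ ^ 2
      ∂((piN ι).prod lam3)
      = ∫ q : (ι → T3) × T3, (F q.1 - F (update q.1 i q.2)) ^ 2 * ‖ψ q.1‖ ^ 2
        ∂((piN ι).prod lam3) := by
    rw [(P03_swap i hψ hH).1]
    refine integral_congr_ae (Eventually.of_forall fun q => ?_)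
    unfold LB.swj
    dsimp only
    rw [update_idem, update_eq_self]
    ring
  have h2 : ∫ q : (ι → T3) × T3, (F q.1 - F (update q.1 i q.2)) ^ 2 * P03_re i ψ q
      ∂((piN ι).prod lam3)
      ≤ ∫ q : (ι → T3) × T3, (1 / 2 * ((F q.1 - F (update q.1 i q.2)) ^ 2 * ‖ψ q.1‖ ^ 2)
        + 1 / 2 * ((F q.1 - F (update q.1 i q.2)) ^ 2 * ‖ψ (update q.1 i q.2)‖ ^ 2))
        ∂((piN ι).prod lam3) := by
    refine integral_mono j3 ((j1.const_mul _).add (j2.const_mul _)) fun q => ?_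
    have h3 := mul_le_mul_of_nonneg_left (P03_re_le (ψ q.1) (ψ (update q.1 i q.2)))
      (sq_nonneg (F q.1 - F (update q.1 i q.2)))
    refine h3.trans (le_of_eq ?_)
    ring
  rw [integral_add (j1.const_mul _) (j2.const_mul _), integral_const_mul, integral_const_mul,
    h1] at h2
  linarith

/-- a weight which does not depend on `x i` -/
theorem bq_indep {ψ : (ι → T3) → ℂ} (hψ : MemLp ψ 2 (piN ι)) (i : ι) {Z : (ι → T3) → ℝ} (hZ : BM Z)
    (hdep : ∀ x z, Z (update x i z) = Z x) :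
    bq i ψ Z = 1 / 2 * ∫ x, ∫ z, Z x * ‖ψ x - ψ (update x i z)‖ ^ 2 ∂lam3 ∂(piN ι) := by
  have j1 := P03_mul (P03_sq1 hψ) (P03_bm1 hZ)
  have j2 := P03_mul (P03_sq2 hψ i) (P03_bm1 hZ)
  have j3 := P03_mul (P03_re_int hψ i) (P03_bm1 hZ)
  have hI : Integrable (fun q : (ι → T3) × T3 => Z q.1 * ‖ψ q.1 - ψ (update q.1 i q.2)‖ ^ 2)
      ((piN ι).prod lam3) :=
    P03_mul (((P03_fst_memLp hψ).sub (P03_upd_memLp hψ i)).integrable_norm_pow two_ne_zero)
      (P03_bm1 hZ)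
  have e0 : ∫ x, ∫ z, Z x * ‖ψ x - ψ (update x i z)‖ ^ 2 ∂lam3 ∂(piN ι)
      = ∫ q : (ι → T3) × T3, Z q.1 * ‖ψ q.1 - ψ (update q.1 i q.2)‖ ^ 2 ∂((piN ι).prod lam3) :=
    (integral_prod _ hI).symm
  have h1 : ∫ q : (ι → T3) × T3, Z q.1 * ‖ψ (update q.1 i q.2)‖ ^ 2 ∂((piN ι).prod lam3)
      = ∫ q : (ι → T3) × T3, Z q.1 * ‖ψ q.1‖ ^ 2 ∂((piN ι).prod lam3) := by
    rw [(P03_swap i hψ (P03_bm1 hZ)).1]
    refine integral_congr_ae (Eventually.of_forall fun q => ?_)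
    unfold LB.swj
    dsimp only
    rw [hdep]
  have e1 : ∫ q : (ι → T3) × T3, Z q.1 * ‖ψ q.1 - ψ (update q.1 i q.2)‖ ^ 2 ∂((piN ι).prod lam3)
      = (∫ q : (ι → T3) × T3, Z q.1 * ‖ψ q.1‖ ^ 2 ∂((piN ι).prod lam3))
        + (∫ q : (ι → T3) × T3, Z q.1 * ‖ψ (update q.1 i q.2)‖ ^ 2 ∂((piN ι).prod lam3))
        - 2 * ∫ q : (ι → T3) × T3, Z q.1 * P03_re i ψ q ∂((piN ι).prod lam3) := by
    have j12 : Integrable (fun q : (ι → T3) × T3 => Z q.1 * ‖ψ q.1‖ ^ 2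
        + Z q.1 * ‖ψ (update q.1 i q.2)‖ ^ 2) ((piN ι).prod lam3) := j1.add j2
    rw [← integral_add j1 j2, ← integral_const_mul, ← integral_sub j12 (j3.const_mul 2)]
    refine integral_congr_ae (Eventually.of_forall fun q => ?_)
    dsimp only
    rw [P03_norm]
    unfold P03_re
    ring
  rw [e0, e1, h1, P03_bq hψ i hZ]
  ring

/-- a nonnegative weight -/
theorem bq_ge {ψ : (ι → T3) → ℂ} (hψ : MemLp ψ 2 (piN ι)) (i : ι) {Z : (ι → T3) → ℝ} (hZ : BM Z)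
    (hZ0 : ∀ x, 0 ≤ Z x) :
    -(1 / 2 * ∫ x, (∫ z, Z (update x i z) ∂lam3) * ‖ψ x‖ ^ 2 ∂(piN ι)) ≤ bq i ψ Z := by
  have j1 := P03_mul (P03_sq1 hψ) (P03_bm1 hZ)
  have j2 := P03_mul (P03_sq2 hψ i) (P03_bm1 hZ)
  have j3 := P03_mul (P03_re_int hψ i) (P03_bm1 hZ)
  have j4 := P03_mul (P03_sq1 hψ) (P03_bm2 hZ i)
  have h1 : ∫ q : (ι → T3) × T3, Z q.1 * ‖ψ (update q.1 i q.2)‖ ^ 2 ∂((piN ι).prod lam3)
      = ∫ x, (∫ z, Z (update x i z) ∂lam3) * ‖ψ x‖ ^ 2 ∂(piN ι) := by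
    rw [(P03_swap i hψ (P03_bm1 hZ)).1]
    have e1 : ∫ q : (ι → T3) × T3, Z (LB.swj i q).1 * ‖ψ q.1‖ ^ 2 ∂((piN ι).prod lam3)
        = ∫ q : (ι → T3) × T3, Z (update q.1 i q.2) * ‖ψ q.1‖ ^ 2 ∂((piN ι).prod lam3) := rfl
    rw [e1, integral_prod _ j4]
    refine integral_congr_ae (Eventually.of_forall fun x => ?_)
    dsimp only
    rw [integral_mul_const]
  have h2 : ∫ q : (ι → T3) × T3, Z q.1 * P03_re i ψ q ∂((piN ι).prod lam3)
      ≤ ∫ q : (ι → T3) × T3, (1 / 2 * (Z q.1 * ‖ψ q.1‖ ^ 2)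
        + 1 / 2 * (Z q.1 * ‖ψ (update q.1 i q.2)‖ ^ 2)) ∂((piN ι).prod lam3) := by
    refine integral_mono j3 ((j1.const_mul _).add (j2.const_mul _)) fun q => ?_
    have h3 := mul_le_mul_of_nonneg_left (P03_re_le (ψ q.1) (ψ (update q.1 i q.2))) (hZ0 q.1)
    refine h3.trans (le_of_eq ?_)
    ring
  rw [integral_add (j1.const_mul _) (j2.const_mul _), integral_const_mul, integral_const_mul,
    h1] at h2
  have h3 : 0 ≤ ∫ q : (ι → T3) × T3, Z q.1 * ‖ψ q.1‖ ^ 2 ∂((piN ι).prod lam3) :=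
    integral_nonneg fun q => mul_nonneg (hZ0 _) (sq_nonneg _)
  rw [P03_bq hψ i hZ]
  linarith

end Pool.Agent.Lib.MP_4952d6_mp.LG
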