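import Pool.Agent.Lib.MP_4952d6_mp.Pq.P03

/-!
# Pq.P05 (leaf D): first variation of the gapped energy

Model `A5_real`, `var_cs`, `min_id`, `min_F` (Pk/G36 l.560-660) with `rq_mG`, `bq_expand`, `cq_affine`, `bq_one`.
-/

set_option autoImplicit false
set_option linter.unusedSectionVars false
set_option linter.unusedVariables false
open MeasureTheory Function Filter Topology Set ComplexConjugate
open scoped ENNReal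

namespace Pool.Agent.Lib.MP_4952d6_mp.LG

open LA

variable {ι : Type*} [Fintype ι] [DecidableEq ι]

/-- the minimality inequality in real form -/
lemma P05_real {R₀ Lam : ℝ} {𝒱 : T3 → ℝ≥0∞} (hv : AEMeasurable 𝒱 lam3) {φ : (ι → T3) → ℂ}
    {f : ι → Fin 3 → (ι → T3) → ℂ} (h : FE R₀ 𝒱 φ f) (hL : 0 ≤ Lam) {e : ℝ} (he : 0 ≤ e)
    (hmin : ENNReal.ofReal e * ∫⁻ x, ‖φ x‖ₑ ^ 2 ∂(piN ι)
      ≤ eS 𝒱 Finset.univ φ f + ENNReal.ofReal Lam * ∑ i, gq i φ) :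
    e * ∫ x, ‖φ x‖ ^ 2 ∂(piN ι) ≤ rE 𝒱 Finset.univ φ f + Lam * ∑ i, rq i φ := by
  obtain ⟨_, h1, h2⟩ := rE_eq hv h.hg h.fin
  have h3 : ∑ i, gq i φ = ENNReal.ofReal (∑ i, rq i φ) := by
    rw [ENNReal.ofReal_sum_of_nonneg fun i _ => rq_nonneg i φ]
    exact Finset.sum_congr rfl fun i _ => gq_eq h.hg.mem i
  have h4 : 0 ≤ ∑ i, rq i φ := Finset.sum_nonneg fun i _ => rq_nonneg i φ
  have h5 : 0 ≤ Lam * ∑ i, rq i φ := mul_nonneg hL h4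
  rw [lint_sq h.hg.mem, ← h1, ← ENNReal.ofReal_mul he, h3, ← ENNReal.ofReal_mul hL,
    ← ENNReal.ofReal_add h2 h5] at hmin
  exact (ENNReal.ofReal_le_ofReal_iff (add_nonneg h2 h5)).mp hmin

/-- Cauchy-Schwarz inequality for the first variation of the gapped energy -/
theorem var_csG {R₀ Lam : ℝ} {𝒱 : T3 → ℝ≥0∞} (hv : AEMeasurable 𝒱 lam3) {ψ : (ι → T3) → ℂ}
    {g : ι → Fin 3 → (ι → T3) → ℂ} (h : FE R₀ 𝒱 ψ g) (hL : 0 ≤ Lam) {G : (ι → T3) → ℝ}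
    {G' : ι → Fin 3 → (ι → T3) → ℝ} (w : WDN G G') {e : ℝ} (he : 0 ≤ e)
    (hmin : ∀ (φ : (ι → T3) → ℂ) (f : ι → Fin 3 → (ι → T3) → ℂ), HG φ f → Core R₀ φ →
      ENNReal.ofReal e * ∫⁻ x, ‖φ x‖ₑ ^ 2 ∂(piN ι)
        ≤ eS 𝒱 Finset.univ φ f + ENNReal.ofReal Lam * ∑ i, gq i φ) :
    (bG 𝒱 ψ g G G' + Lam * ∑ i, bq i ψ G - e * ∫ x, G x * ‖ψ x‖ ^ 2 ∂(piN ι)) ^ 2
      ≤ (rE 𝒱 Finset.univ ψ g + Lam * ∑ i, rq i ψ - e * ∫ x, ‖ψ x‖ ^ 2 ∂(piN ι))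
        * (rE 𝒱 Finset.univ (mG G ψ) (mGg G G' ψ g) + Lam * ∑ i, rq i (mG G ψ)
          - e * ∫ x, G x ^ 2 * ‖ψ x‖ ^ 2 ∂(piN ι)) := by
  apply cs_of_quadratic
  intro s
  have hG := A5_bm w
  have hG2 : BM (fun x => G x ^ 2) := hG.pow 2
  have ws := A5_wdn w s
  have hF : FE R₀ 𝒱 (mG (fun x => 1 - s * G x) ψ)
      (mGg (fun x => 1 - s * G x) (fun i α x => -(s * G' i α x)) ψ g) := h.mul ws
  have h1 := P05_real hv hF hL he (hmin _ _ hF.hg hF.core)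
  rw [rE_mG hv h ws, A5_bG hv h w s] at h1
  have hψ2 := int_sq h.hg.mem
  have h2 : ∫ x, ‖mG (fun x => 1 - s * G x) ψ x‖ ^ 2 ∂(piN ι)
      = (∫ x, ‖ψ x‖ ^ 2 ∂(piN ι)) - 2 * s * (∫ x, G x * ‖ψ x‖ ^ 2 ∂(piN ι))
        + s ^ 2 * ∫ x, G x ^ 2 * ‖ψ x‖ ^ 2 ∂(piN ι) := by
    rw [← A5_expand hψ2 (A5_int_bm hψ2 hG) (A5_int_bm hψ2 hG2) s]
    congr 1
    funext x
    unfold mG
    rw [norm_mul, mul_pow, Complex.norm_real, Real.norm_eq_abs, sq_abs]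
    ring
  have h3 : ∑ i, ∑ α, ∫ x, (-(s * G' i α x)) ^ 2 * ‖ψ x‖ ^ 2 ∂(piN ι)
      = s ^ 2 * ∑ i, ∑ α, ∫ x, G' i α x ^ 2 * ‖ψ x‖ ^ 2 ∂(piN ι) := by
    rw [Finset.mul_sum]
    refine Finset.sum_congr rfl fun i _ => ?_
    rw [Finset.mul_sum]
    refine Finset.sum_congr rfl fun α _ => ?_
    rw [← integral_const_mul]
    congr 1
    funext x
    ring
  have h4 : ∑ i, rq i (mG (fun x => 1 - s * G x) ψ)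
      = (∑ i, rq i ψ) - 2 * s * (∑ i, bq i ψ G) + s ^ 2 * ∑ i, rq i (mG G ψ) := by
    rw [Finset.mul_sum, Finset.mul_sum, ← Finset.sum_sub_distrib, ← Finset.sum_add_distrib]
    refine Finset.sum_congr rfl fun i _ => ?_
    rw [rq_mG h.hg.mem i (A5_bm ws), rq_mG h.hg.mem i hG, bq_expand h.hg.mem i hG s, cq_affine i G s]
    ring
  rw [h2, h3, h4] at h1
  rw [rE_mG hv h w]
  linarith

theorem min_idG {R₀ Lam : ℝ} {𝒱 : T3 → ℝ≥0∞} (hv : AEMeasurable 𝒱 lam3) {ψ : (ι → T3) → ℂ}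
    {g : ι → Fin 3 → (ι → T3) → ℂ} (h : FE R₀ 𝒱 ψ g) (hL : 0 ≤ Lam) {G : (ι → T3) → ℝ}
    {G' : ι → Fin 3 → (ι → T3) → ℝ} (w : WDN G G') {e : ℝ} (he : 0 ≤ e)
    (hmin : ∀ (φ : (ι → T3) → ℂ) (f : ι → Fin 3 → (ι → T3) → ℂ), HG φ f → Core R₀ φ →
      ENNReal.ofReal e * ∫⁻ x, ‖φ x‖ₑ ^ 2 ∂(piN ι)
        ≤ eS 𝒱 Finset.univ φ f + ENNReal.ofReal Lam * ∑ i, gq i φ)
    (heq : rE 𝒱 Finset.univ ψ g + Lam * ∑ i, rq i ψ = e * ∫ x, ‖ψ x‖ ^ 2 ∂(piN ι)) :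
    bG 𝒱 ψ g G G' + Lam * ∑ i, bq i ψ G = e * ∫ x, G x * ‖ψ x‖ ^ 2 ∂(piN ι) := by
  have h1 := var_csG hv h hL w he hmin
  rw [heq, sub_self, zero_mul] at h1
  have h2 : bG 𝒱 ψ g G G' + Lam * ∑ i, bq i ψ G - e * ∫ x, G x * ‖ψ x‖ ^ 2 ∂(piN ι) = 0 :=
    pow_eq_zero_iff (two_ne_zero) |>.mp (le_antisymm h1 (sq_nonneg _))
  linarith

/-- energy of `F ψ` for a minimiser -/
theorem min_FG {R₀ Lam : ℝ} {𝒱 : T3 → ℝ≥0∞} (hv : AEMeasurable 𝒱 lam3) {ψ : (ι → T3) → ℂ}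
    {g : ι → Fin 3 → (ι → T3) → ℂ} (h : FE R₀ 𝒱 ψ g) (hL : 0 ≤ Lam) {F : (ι → T3) → ℝ}
    {F' : ι → Fin 3 → (ι → T3) → ℝ} (w : WDN F F') {e : ℝ} (he : 0 ≤ e)
    (hmin : ∀ (φ : (ι → T3) → ℂ) (f : ι → Fin 3 → (ι → T3) → ℂ), HG φ f → Core R₀ φ →
      ENNReal.ofReal e * ∫⁻ x, ‖φ x‖ₑ ^ 2 ∂(piN ι)
        ≤ eS 𝒱 Finset.univ φ f + ENNReal.ofReal Lam * ∑ i, gq i φ)
    (heq : rE 𝒱 Finset.univ ψ g + Lam * ∑ i, rq i ψ = e * ∫ x, ‖ψ x‖ ^ 2 ∂(piN ι)) :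
    rE 𝒱 Finset.univ (mG F ψ) (mGg F F' ψ g) + Lam * ∑ i, rq i (mG F ψ)
      = e * (∫ x, F x ^ 2 * ‖ψ x‖ ^ 2 ∂(piN ι))
        + (∑ i, ∑ α, ∫ x, F' i α x ^ 2 * ‖ψ x‖ ^ 2 ∂(piN ι)) + Lam * ∑ i, cq i ψ F := by
  have h1 := min_idG hv h hL (A5_wdn_sq w) he hmin heq
  have h2 : ∑ i, rq i (mG F ψ) = (∑ i, bq i ψ (fun x => F x ^ 2)) + ∑ i, cq i ψ F := by
    rw [← Finset.sum_add_distrib]
    exact Finset.sum_congr rfl fun i _ => rq_mG h.hg.mem i (A5_bm w)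
  rw [rE_mG hv h w, h2]
  linarith

end Pool.Agent.Lib.MP_4952d6_mp.LG
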