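import Pool.Agent.Lib.MP_4952d6_mp.Pq.P04
import Pool.Agent.Lib.MP_4952d6_mp.Pk.G28

/-!
# Pq.P06 (leaf E): energy bound with localisation, gapped

`exists_Loc2'`: the proof of `exists_Loc2` (Pk/G28 l.151; `θ₂ = sin (π/2 e4cl)`, `e4cl ∈ [0,1]`).
`ims_gap`: `∑_S Th(x) Th(update x i z) = θ₁θ₁' + θ₂θ₂'` (arguments `x i - y`, `z - y`; the other factors are squares with sum 1, `E1_sum_one`), hence
`∑_S rq i (Th_S Φ) = rq i Φ + ∫∫ (1 - θ₁θ₁' - θ₂θ₂') Re (conj Φ(x) Φ(update x i z))`; the weight is in `[0,1]`, symmetric, and `0` if both points are outside of the ball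
`rr ≤ 2l` (then `θ₁ = 0`, `θ₂ = 1` at both): at most `1_B(x i - y) + 1_B(z - y)`; `Re(conj a b) ≤ (‖a‖²+‖b‖²)/2`, symmetrise (`LB.integral_swj`); `ball_vol`.
`loc_energyG`: model `E3_one`, `loc_energy` (Pk/G53 l.1204-1410) with `slice_energyG` (`w = 1`, `gqW_one`) for the particles outside, `0 ≤ gq` for those inside, `ims`, `ims_gap`.
-/

set_option autoImplicit false
set_option linter.unusedSectionVars false
set_option linter.unusedVariables false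
open MeasureTheory Function Filter Topology Set ComplexConjugate
open scoped ENNReal

namespace Pool.Agent.Lib.MP_4952d6_mp.LG

open LA

variable {ι : Type*} [Fintype ι] [DecidableEq ι]

theorem exists_Loc2' {l : ℝ} (hl : 0 < l) (hl8 : l ≤ 1 / 8) :
    ∃ (θ₁ θ₂ : T3 → ℝ) (θ₁' θ₂' : Fin 3 → T3 → ℝ), Loc2 l θ₁ θ₂ θ₁' θ₂' ∧ ∀ x, 0 ≤ θ₂ x := by
  have P1 := e4_prof hl hl8 (F := Real.cos) (F' := fun y => -Real.sin y)
    Real.hasDerivAt_cos Real.abs_cos_sub_cos_le Real.abs_cos_le_one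
  have P2 := e4_prof hl hl8 (F := Real.sin) (F' := Real.cos)
    Real.hasDerivAt_sin Real.abs_sin_sub_sin_le Real.abs_sin_le_one
  refine ⟨fun x => Real.cos (Real.pi / 2 * e4cl l (rr x)),
    fun x => Real.sin (Real.pi / 2 * e4cl l (rr x)),
    fun α x => e4g (fun y => -Real.sin y) l (rr x) * crd x α,
    fun α x => e4g Real.cos l (rr x) * crd x α, ?_, fun x => ?_⟩
  · refine ⟨fun α => P1.rad_WD α, fun α => P2.rad_WD α, fun x => ?_, fun x hx => ?_, fun x hx => ?_,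
      fun x => ?_, fun x => ?_, fun x hx => ?_, ?_, fun α => ?_, fun α => ?_⟩
    · exact Real.cos_sq_add_sin_sq _
    · show Real.cos (Real.pi / 2 * e4cl l (rr x)) = 1
      rw [e4cl_of_le hl hx, mul_zero, Real.cos_zero]
    · show Real.cos (Real.pi / 2 * e4cl l (rr x)) = 0
      rw [e4cl_of_ge hl hx, mul_one, Real.cos_pi_div_two]
    · have h1 := e4cl_nonneg l (rr x)
      have h2 := e4cl_le_one l (rr x)
      have hp := Real.pi_pos
      refine Real.cos_nonneg_of_mem_Icc ⟨?_, ?_⟩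
      · have : 0 ≤ Real.pi / 2 * e4cl l (rr x) := by positivity
        linarith
      · nlinarith
    · rw [e4_sum hl]
      split_ifs with h
      · rw [div_pow, mul_pow, div_le_div_iff₀ (by positivity) (by positivity)]
        have hp := Real.pi_pos
        have hp2 := Real.pi_lt_d2
        have : Real.pi ^ 2 ≤ 12 := by nlinarith
        have hl2 : 0 < l ^ 2 := by positivity
        nlinarith
      · positivity
    · rw [e4_sum hl, if_neg (fun hh => absurd hh.2 (not_lt.2 hx.le))]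
    · refine Filter.Eventually.of_forall fun x α => ?_
      show Real.cos (Real.pi / 2 * e4cl l (rr x)) * (e4g (fun y => -Real.sin y) l (rr x) * crd x α)
        + Real.sin (Real.pi / 2 * e4cl l (rr x)) * (e4g Real.cos l (rr x) * crd x α) = 0
      unfold e4g
      split_ifs with h
      · ring
      · ring
    · exact ((e4g_meas Real.measurable_sin.neg l).comp rr_measurable).mul (crd_measurable α)
    · exact ((e4g_meas Real.measurable_cos l).comp rr_measurable).mul (crd_measurable α)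
  · have h1 := e4cl_nonneg l (rr x)
    have h2 := e4cl_le_one l (rr x)
    have hp := Real.pi_pos
    refine Real.sin_nonneg_of_nonneg_of_le_pi (by positivity) ?_
    nlinarith

/-! ### product integrals -/

lemma P06_m1 {ψ : (ι → T3) → ℂ} (hψ : MemLp ψ 2 (piN ι)) :
    MemLp (fun q : (ι → T3) × T3 => ψ q.1) 2 ((piN ι).prod lam3) :=
  hψ.comp_measurePreserving measurePreserving_fst

lemma P06_m2 {ψ : (ι → T3) → ℂ} (hψ : MemLp ψ 2 (piN ι)) (i : ι) :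
    MemLp (fun q : (ι → T3) × T3 => ψ (update q.1 i q.2)) 2 ((piN ι).prod lam3) :=
  hψ.comp_measurePreserving (LB.mp_upd i)

lemma P06_re_le (z w : ℂ) : (conj z * w).re ≤ 1 / 2 * (‖z‖ ^ 2 + ‖w‖ ^ 2) := by
  have h1 : (conj z * w).re ≤ ‖z‖ * ‖w‖ := by
    have := (Complex.re_le_norm (conj z * w))
    rwa [norm_mul, Complex.norm_conj] at this
  nlinarith [sq_nonneg (‖z‖ - ‖w‖)]

lemma P06_re {ψ : (ι → T3) → ℂ} (hψ : MemLp ψ 2 (piN ι)) (i : ι) :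
    Integrable (fun q : (ι → T3) × T3 => (conj (ψ q.1) * ψ (update q.1 i q.2)).re)
      ((piN ι).prod lam3) := by
  have h1 := P06_m1 hψ
  have h2 := P06_m2 hψ i
  refine ((int_sq h1).add (int_sq h2)).mono' ?_ (Eventually.of_forall fun q => ?_)
  · exact Complex.continuous_re.comp_aestronglyMeasurable
      ((Complex.continuous_conj.comp_aestronglyMeasurable h1.1).mul h2.1)
  · have h3 : |(conj (ψ q.1) * ψ (update q.1 i q.2)).re| ≤ ‖ψ q.1‖ * ‖ψ (update q.1 i q.2)‖ := by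
      have := Complex.abs_re_le_norm (conj (ψ q.1) * ψ (update q.1 i q.2))
      rwa [norm_mul, Complex.norm_conj] at this
    show ‖(conj (ψ q.1) * ψ (update q.1 i q.2)).re‖ ≤ ‖ψ q.1‖ ^ 2 + ‖ψ (update q.1 i q.2)‖ ^ 2
    rw [Real.norm_eq_abs]
    nlinarith [sq_nonneg (‖ψ q.1‖ - ‖ψ (update q.1 i q.2)‖), sq_nonneg ‖ψ q.1‖,
      sq_nonneg ‖ψ (update q.1 i q.2)‖]

lemma P06_w {H f : (ι → T3) × T3 → ℝ} (hH : BM H) (hf : Integrable f ((piN ι).prod lam3)) :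
    Integrable (fun q => H q * f q) ((piN ι).prod lam3) := by
  obtain ⟨C, hC⟩ := hH.bdd
  exact hf.bdd_mul hH.meas.aestronglyMeasurable (Eventually.of_forall fun x => hC x)

lemma P06_fst {G : (ι → T3) → ℝ} (hG : BM G) : BM (fun q : (ι → T3) × T3 => G q.1) :=
  hG.comp measurable_fst

lemma P06_snd {G : (ι → T3) → ℝ} (hG : BM G) (i : ι) :
    BM (fun q : (ι → T3) × T3 => G (update q.1 i q.2)) :=
  hG.comp (LB.mp_upd i).measurable

/-- resampling of the square -/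
lemma P06_swap_sq {ψ : (ι → T3) → ℂ} (hψ : MemLp ψ 2 (piN ι)) (i : ι) {H : (ι → T3) × T3 → ℝ}
    (hH : BM H) :
    ∫ q, H q * ‖ψ (update q.1 i q.2)‖ ^ 2 ∂((piN ι).prod lam3)
      = ∫ q, H (LB.swj i q) * ‖ψ q.1‖ ^ 2 ∂((piN ι).prod lam3) := by
  have h1 := P06_w hH (int_sq (P06_m2 hψ i))
  rw [← LB.integral_swj i h1.aestronglyMeasurable]
  refine integral_congr_ae (Eventually.of_forall fun q => ?_)
  simp only [LB.swj, update_idem, update_eq_self]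

/-- integrals of functions of the first variable -/
lemma P06_fst_int {f : (ι → T3) → ℝ} (hf : Integrable f (piN ι)) :
    ∫ q : (ι → T3) × T3, f q.1 ∂((piN ι).prod lam3) = ∫ x, f x ∂(piN ι) := by
  have h1 : Integrable (fun q : (ι → T3) × T3 => f q.1) ((piN ι).prod lam3) :=
    hf.comp_fst lam3
  rw [integral_prod _ h1]
  refine integral_congr_ae (Eventually.of_forall fun x => ?_)
  simp

lemma P06_lin3 {X : Type*} [MeasurableSpace X] {μ : Measure X} {a b c : X → ℝ}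
    (ha : Integrable a μ) (hb : Integrable b μ) (hc : Integrable c μ) (s : ℝ) :
    (∫ x, a x ∂μ) + (∫ x, b x ∂μ) - s * ∫ x, c x ∂μ = ∫ x, (a x + b x - s * c x) ∂μ := by
  have h1 : Integrable (fun x => a x + b x) μ := ha.add hb
  have h2 : Integrable (fun x => s * c x) μ := hc.const_mul s
  rw [integral_sub h1 h2, integral_add ha hb, integral_const_mul]

lemma P06_norm_sub (z w : ℂ) : ‖z - w‖ ^ 2 = ‖z‖ ^ 2 + ‖w‖ ^ 2 - 2 * (conj z * w).re := by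
  simp only [Complex.sq_norm, Complex.normSq_apply, Complex.sub_re, Complex.sub_im,
    Complex.mul_re, Complex.conj_re, Complex.conj_im]
  ring

/-- the gap term as a norm minus a mixed term -/
lemma P06_rq {f : (ι → T3) → ℂ} (hf : MemLp f 2 (piN ι)) (i : ι) :
    rq i f = (∫ x, ‖f x‖ ^ 2 ∂(piN ι))
      - ∫ q : (ι → T3) × T3, (conj (f q.1) * f (update q.1 i q.2)).re ∂((piN ι).prod lam3) := by
  have i1 := int_sq (P06_m1 hf)
  have i2 := int_sq (P06_m2 hf i)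
  have i3 := P06_re hf i
  have e0 : ∫ x, ∫ z, ‖f x - f (update x i z)‖ ^ 2 ∂lam3 ∂(piN ι)
      = ∫ q : (ι → T3) × T3, ‖f q.1 - f (update q.1 i q.2)‖ ^ 2 ∂((piN ι).prod lam3) :=
    (integral_prod _ (pair_int hf i)).symm
  have e1 : ∫ q : (ι → T3) × T3, ‖f q.1 - f (update q.1 i q.2)‖ ^ 2 ∂((piN ι).prod lam3)
      = (∫ q : (ι → T3) × T3, ‖f q.1‖ ^ 2 ∂((piN ι).prod lam3))
        + (∫ q : (ι → T3) × T3, ‖f (update q.1 i q.2)‖ ^ 2 ∂((piN ι).prod lam3))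
        - 2 * ∫ q : (ι → T3) × T3, (conj (f q.1) * f (update q.1 i q.2)).re
          ∂((piN ι).prod lam3) := by
    rw [P06_lin3 i1 i2 i3 2]
    refine integral_congr_ae (Eventually.of_forall fun q => ?_)
    simp only
    rw [P06_norm_sub]
  have e2 := P06_swap_sq hf i (H := fun _ => 1) (BM.const 1)
  simp only [one_mul] at e2
  unfold rq
  rw [e0, e1, e2, P06_fst_int (int_sq hf)]
  ring

/-- pointwise product in the mixed term -/
lemma P06_mG_re (F : (ι → T3) → ℝ) (ψ : (ι → T3) → ℂ) (a b : ι → T3) :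
    (conj (mG F ψ a) * mG F ψ b).re = F a * F b * (conj (ψ a) * ψ b).re := by
  unfold mG
  simp only [Complex.mul_re, Complex.mul_im, Complex.conj_re, Complex.conj_im, Complex.ofReal_re,
    Complex.ofReal_im]
  ring

lemma P06_mG_mem {F : (ι → T3) → ℝ} (hF : BM F) {ψ : (ι → T3) → ℂ} (hψ : MemLp ψ 2 (piN ι)) :
    MemLp (mG F ψ) 2 (piN ι) := by
  have hm : AEStronglyMeasurable (mG F ψ) (piN ι) :=
    (Complex.continuous_ofReal.measurable.comp hF.meas).aestronglyMeasurable.mul hψ.1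
  rw [memLp_two_iff_integrable_sq_norm hm]
  obtain ⟨D, hD0, hD⟩ := (hF.pow 2).exists_nonneg_bound
  have h2 : Integrable (fun x => F x ^ 2 * ‖ψ x‖ ^ 2) (piN ι) :=
    (int_sq hψ).bdd_mul (hF.pow 2).meas.aestronglyMeasurable (Eventually.of_forall fun x => hD x)
  refine h2.congr (Eventually.of_forall fun x => ?_)
  unfold mG
  simp only
  rw [norm_mul, mul_pow, Complex.norm_real, Real.norm_eq_abs, sq_abs]

lemma P06_Th_bm {l : ℝ} {θ₁ θ₂ : T3 → ℝ} {θ₁' θ₂' : Fin 3 → T3 → ℝ} (hL : Loc2 l θ₁ θ₂ θ₁' θ₂')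
    (y : T3) (S : Finset ι) : BM (fun x : ι → T3 => Th θ₁ θ₂ y S x) := by
  refine ⟨E3_meas hL y S, 1, fun x => ?_⟩
  have h1 := E3_le hL y S x
  rw [← sq_abs] at h1
  nlinarith [abs_nonneg (Th θ₁ θ₂ y S x)]

lemma P06_sumTh {l : ℝ} {θ₁ θ₂ : T3 → ℝ} {θ₁' θ₂' : Fin 3 → T3 → ℝ} (hL : Loc2 l θ₁ θ₂ θ₁' θ₂')
    (y : T3) (i : ι) (x : ι → T3) (z : T3) :
    ∑ S ∈ (Finset.univ : Finset ι).powerset, Th θ₁ θ₂ y S x * Th θ₁ θ₂ y S (update x i z)
      = θ₁ (x i - y) * θ₁ (z - y) + θ₂ (x i - y) * θ₂ (z - y) := by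
  have h1 := E1_sum_one i (θ₁ (x i - y) * θ₁ (z - y)) (θ₂ (x i - y) * θ₂ (z - y))
    (fun j => θ₁ (x j - y) ^ 2) (fun j => θ₂ (x j - y) ^ 2) (fun j => hL.sum (x j - y))
  rw [← h1]
  refine Finset.sum_congr rfl fun S _ => ?_
  unfold Th
  rw [← Finset.mul_prod_erase Finset.univ (fun j => if j ∈ S then θ₁ (x j - y) else θ₂ (x j - y))
      (Finset.mem_univ i),
    ← Finset.mul_prod_erase Finset.univ
      (fun j => if j ∈ S then θ₁ (update x i z j - y) else θ₂ (update x i z j - y))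
      (Finset.mem_univ i)]
  have e1 : ∏ j ∈ Finset.univ.erase i,
      (if j ∈ S then θ₁ (update x i z j - y) else θ₂ (update x i z j - y))
      = ∏ j ∈ Finset.univ.erase i, (if j ∈ S then θ₁ (x j - y) else θ₂ (x j - y)) := by
    refine Finset.prod_congr rfl fun j hj => ?_
    rw [update_of_ne (Finset.ne_of_mem_erase hj)]
  have e2 : ∏ j ∈ Finset.univ.erase i, (if j ∈ S then θ₁ (x j - y) ^ 2 else θ₂ (x j - y) ^ 2)
      = (∏ j ∈ Finset.univ.erase i, (if j ∈ S then θ₁ (x j - y) else θ₂ (x j - y)))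
        * ∏ j ∈ Finset.univ.erase i, (if j ∈ S then θ₁ (x j - y) else θ₂ (x j - y)) := by
    rw [← Finset.prod_mul_distrib]
    refine Finset.prod_congr rfl fun j _ => ?_
    split_ifs <;> ring
  rw [e1, e2, update_self]
  split_ifs <;> ring

/-- the localisation error of one jump -/
lemma P06_weight {l : ℝ} (hl : 0 < l) {θ₁ θ₂ : T3 → ℝ} {θ₁' θ₂' : Fin 3 → T3 → ℝ}
    (hL : Loc2 l θ₁ θ₂ θ₁' θ₂') (h2 : ∀ x, 0 ≤ θ₂ x) (u v : T3) :
    0 ≤ 1 - (θ₁ u * θ₁ v + θ₂ u * θ₂ v) ∧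
      1 - (θ₁ u * θ₁ v + θ₂ u * θ₂ v) ≤ F2_chi (2 * l) u + F2_chi (2 * l) v := by
  have hu := hL.sum u
  have hv := hL.sum v
  have a1 := hL.nonneg u
  have a2 := hL.nonneg v
  have a3 := h2 u
  have a4 := h2 v
  have c0 := F2_chi_nonneg (2 * l) u
  have c1 := F2_chi_nonneg (2 * l) v
  refine ⟨by nlinarith [sq_nonneg (θ₁ u - θ₁ v), sq_nonneg (θ₂ u - θ₂ v)], ?_⟩
  have h0 : 0 ≤ θ₁ u * θ₁ v + θ₂ u * θ₂ v := by positivity
  by_cases h3 : rr u ≤ 2 * l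
  · have e1 : F2_chi (2 * l) u = 1 := by
      unfold F2_chi
      rw [Set.indicator_of_mem (show u ∈ {z : T3 | rr z ≤ 2 * l} from h3)]
    linarith
  · by_cases h4 : rr v ≤ 2 * l
    · have e1 : F2_chi (2 * l) v = 1 := by
        unfold F2_chi
        rw [Set.indicator_of_mem (show v ∈ {z : T3 | rr z ≤ 2 * l} from h4)]
      linarith
    · have b1 := hL.zero u (not_le.1 h3).le
      have b2 := hL.zero v (not_le.1 h4).le
      rw [b1] at hu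
      rw [b2] at hv
      have b3 : θ₂ u = 1 := by nlinarith
      have b4 : θ₂ v = 1 := by nlinarith
      rw [b1, b2, b3, b4]
      linarith

/-- one particle -/
lemma P06_ims_one {l : ℝ} (hl : 0 < l) (hl8 : l ≤ 1 / 8) {θ₁ θ₂ : T3 → ℝ}
    {θ₁' θ₂' : Fin 3 → T3 → ℝ} (hL : Loc2 l θ₁ θ₂ θ₁' θ₂') (h2 : ∀ x, 0 ≤ θ₂ x) (y : T3)
    {Φ : (ι → T3) → ℂ} (hΦ : MemLp Φ 2 (piN ι)) (i : ι) :
    ∑ S ∈ (Finset.univ : Finset ι).powerset, rq i (mG (Th θ₁ θ₂ y S) Φ)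
      ≤ rq i Φ + ∫ x, (F2_chi (2 * l) (x i - y) + sig / 3 * (2 * l) ^ 3) * ‖Φ x‖ ^ 2 ∂(piN ι) := by
  have hre := P06_re hΦ i
  have hΦ2 := int_sq hΦ
  have hB : ∀ S : Finset ι, BM (fun x : ι → T3 => Th θ₁ θ₂ y S x) := fun S => P06_Th_bm hL y S
  have hmi : Measurable fun x : ι → T3 => x i - y := (measurable_pi_apply i).sub measurable_const
  have hmq : Measurable fun q : (ι → T3) × T3 => q.2 - y := measurable_snd.sub measurable_const
  -- sum over `S`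
  have s1 : ∀ S : Finset ι, rq i (mG (Th θ₁ θ₂ y S) Φ)
      = (∫ x, Th θ₁ θ₂ y S x ^ 2 * ‖Φ x‖ ^ 2 ∂(piN ι))
        - ∫ q : (ι → T3) × T3, Th θ₁ θ₂ y S q.1 * Th θ₁ θ₂ y S (update q.1 i q.2)
          * (conj (Φ q.1) * Φ (update q.1 i q.2)).re ∂((piN ι).prod lam3) := by
    intro S
    rw [P06_rq (P06_mG_mem (hB S) hΦ) i]
    simp only [P06_mG_re, F3_norm]
  have i1 : ∀ S : Finset ι, Integrable (fun x => Th θ₁ θ₂ y S x ^ 2 * ‖Φ x‖ ^ 2) (piN ι) :=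
    fun S => F3_x hΦ ((hB S).pow 2)
  have i2 : ∀ S : Finset ι, Integrable (fun q : (ι → T3) × T3 => Th θ₁ θ₂ y S q.1
      * Th θ₁ θ₂ y S (update q.1 i q.2) * (conj (Φ q.1) * Φ (update q.1 i q.2)).re)
      ((piN ι).prod lam3) := fun S => P06_w ((P06_fst (hB S)).mul (P06_snd (hB S) i)) hre
  have s2 : ∑ S ∈ (Finset.univ : Finset ι).powerset, rq i (mG (Th θ₁ θ₂ y S) Φ)
      = (∫ x, ‖Φ x‖ ^ 2 ∂(piN ι))
        - ∫ q : (ι → T3) × T3, (θ₁ (q.1 i - y) * θ₁ (q.2 - y) + θ₂ (q.1 i - y) * θ₂ (q.2 - y))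
          * (conj (Φ q.1) * Φ (update q.1 i q.2)).re ∂((piN ι).prod lam3) := by
    rw [Finset.sum_congr rfl fun S _ => s1 S, Finset.sum_sub_distrib,
      ← integral_finsetSum _ fun S _ => i1 S, ← integral_finsetSum _ fun S _ => i2 S]
    congr 1
    · refine integral_congr_ae (Eventually.of_forall fun x => ?_)
      beta_reduce
      rw [← Finset.sum_mul, Th_sum hL y x, one_mul]
    · refine integral_congr_ae (Eventually.of_forall fun q => ?_)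
      beta_reduce
      rw [← Finset.sum_mul, P06_sumTh hL y i q.1 q.2]
  have bθ₁ : BM θ₁ := ⟨(hL.wd1 0).sm.measurable, (hL.wd1 0).bdd⟩
  have bθ₂ : BM θ₂ := ⟨(hL.wd2 0).sm.measurable, (hL.wd2 0).bdd⟩
  have hmf : Measurable fun q : (ι → T3) × T3 => q.1 i - y := hmi.comp measurable_fst
  have bW : BM (fun q : (ι → T3) × T3 => θ₁ (q.1 i - y) * θ₁ (q.2 - y)
      + θ₂ (q.1 i - y) * θ₂ (q.2 - y)) :=
    ((bθ₁.comp hmf).mul (bθ₁.comp hmq)).add ((bθ₂.comp hmf).mul (bθ₂.comp hmq))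
  have bW1 : BM (fun q : (ι → T3) × T3 => 1 - (θ₁ (q.1 i - y) * θ₁ (q.2 - y)
      + θ₂ (q.1 i - y) * θ₂ (q.2 - y))) := (BM.const 1).sub bW
  have bc : BM (fun q : (ι → T3) × T3 => F2_chi (2 * l) (q.1 i - y) + F2_chi (2 * l) (q.2 - y)) :=
    ((F2_chi_bm (2 * l)).comp hmf).add ((F2_chi_bm (2 * l)).comp hmq)
  have s3 : ∑ S ∈ (Finset.univ : Finset ι).powerset, rq i (mG (Th θ₁ θ₂ y S) Φ)
      = rq i Φ + ∫ q : (ι → T3) × T3, (1 - (θ₁ (q.1 i - y) * θ₁ (q.2 - y)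
        + θ₂ (q.1 i - y) * θ₂ (q.2 - y))) * (conj (Φ q.1) * Φ (update q.1 i q.2)).re
          ∂((piN ι).prod lam3) := by
    rw [s2, P06_rq hΦ i]
    have e1 : ∫ q : (ι → T3) × T3, (1 - (θ₁ (q.1 i - y) * θ₁ (q.2 - y)
        + θ₂ (q.1 i - y) * θ₂ (q.2 - y))) * (conj (Φ q.1) * Φ (update q.1 i q.2)).re
          ∂((piN ι).prod lam3)
        = (∫ q : (ι → T3) × T3, (conj (Φ q.1) * Φ (update q.1 i q.2)).re ∂((piN ι).prod lam3))
          - ∫ q : (ι → T3) × T3, (θ₁ (q.1 i - y) * θ₁ (q.2 - y)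
            + θ₂ (q.1 i - y) * θ₂ (q.2 - y)) * (conj (Φ q.1) * Φ (update q.1 i q.2)).re
          ∂((piN ι).prod lam3) := by
      rw [← integral_sub hre (P06_w bW hre)]
      refine integral_congr_ae (Eventually.of_forall fun q => ?_)
      ring
    rw [e1]
    ring
  have j1 := int_sq (P06_m1 hΦ)
  have j2 := int_sq (P06_m2 hΦ i)
  have k1 := P06_w bc j1
  have k2 := P06_w bc j2
  have s4 : ∫ q : (ι → T3) × T3, (1 - (θ₁ (q.1 i - y) * θ₁ (q.2 - y)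
        + θ₂ (q.1 i - y) * θ₂ (q.2 - y))) * (conj (Φ q.1) * Φ (update q.1 i q.2)).re
          ∂((piN ι).prod lam3)
      ≤ ∫ q : (ι → T3) × T3, (1 / 2 * ((F2_chi (2 * l) (q.1 i - y) + F2_chi (2 * l) (q.2 - y))
          * ‖Φ q.1‖ ^ 2) + 1 / 2 * ((F2_chi (2 * l) (q.1 i - y) + F2_chi (2 * l) (q.2 - y))
          * ‖Φ (update q.1 i q.2)‖ ^ 2)) ∂((piN ι).prod lam3) := by
    refine integral_mono (P06_w bW1 hre) ((k1.const_mul _).add (k2.const_mul _)) fun q => ?_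
    obtain ⟨w0, w1⟩ := P06_weight hl hL h2 (q.1 i - y) (q.2 - y)
    have h3 := mul_le_mul_of_nonneg_left (P06_re_le (Φ q.1) (Φ (update q.1 i q.2))) w0
    have h4 : 0 ≤ 1 / 2 * (‖Φ q.1‖ ^ 2 + ‖Φ (update q.1 i q.2)‖ ^ 2) := by positivity
    have h5 := mul_le_mul_of_nonneg_right w1 h4
    refine (h3.trans h5).trans (le_of_eq ?_)
    ring
  have s5 : ∫ q : (ι → T3) × T3, (1 / 2 * ((F2_chi (2 * l) (q.1 i - y) + F2_chi (2 * l) (q.2 - y))
          * ‖Φ q.1‖ ^ 2) + 1 / 2 * ((F2_chi (2 * l) (q.1 i - y) + F2_chi (2 * l) (q.2 - y))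
          * ‖Φ (update q.1 i q.2)‖ ^ 2)) ∂((piN ι).prod lam3)
      = ∫ q : (ι → T3) × T3, (F2_chi (2 * l) (q.1 i - y) + F2_chi (2 * l) (q.2 - y))
          * ‖Φ q.1‖ ^ 2 ∂((piN ι).prod lam3) := by
    have e2 := P06_swap_sq hΦ i bc
    simp only [LB.swj, update_self] at e2
    have e3 : ∫ q : (ι → T3) × T3, (F2_chi (2 * l) (q.2 - y) + F2_chi (2 * l) (q.1 i - y))
          * ‖Φ q.1‖ ^ 2 ∂((piN ι).prod lam3)
        = ∫ q : (ι → T3) × T3, (F2_chi (2 * l) (q.1 i - y) + F2_chi (2 * l) (q.2 - y))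
          * ‖Φ q.1‖ ^ 2 ∂((piN ι).prod lam3) := by
      refine integral_congr_ae (Eventually.of_forall fun q => ?_)
      ring
    rw [integral_add (k1.const_mul _) (k2.const_mul _), integral_const_mul, integral_const_mul, e2, e3]
    ring
  have s6 : ∫ q : (ι → T3) × T3, (F2_chi (2 * l) (q.1 i - y) + F2_chi (2 * l) (q.2 - y))
          * ‖Φ q.1‖ ^ 2 ∂((piN ι).prod lam3)
      = ∫ x, (F2_chi (2 * l) (x i - y) + sig / 3 * (2 * l) ^ 3) * ‖Φ x‖ ^ 2 ∂(piN ι) := by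
    rw [integral_prod _ k1]
    refine integral_congr_ae (Eventually.of_forall fun x => ?_)
    simp only
    rw [integral_mul_const]
    congr 1
    have h5 : Integrable (fun z : T3 => F2_chi (2 * l) (z - y)) lam3 :=
      ((F2_chi_bm (2 * l)).comp (measurable_id.sub measurable_const)).integrable lam3
    rw [integral_add (integrable_const _) h5, integral_sub_right_eq_self (F2_chi (2 * l)) y,
      F2_chi_int (by linarith) (by linarith)]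
    simp
  rw [s3]
  linarith [s4.trans (le_of_eq (s5.trans s6))]

theorem ims_gap {l : ℝ} (hl : 0 < l) (hl8 : l ≤ 1 / 8) {θ₁ θ₂ : T3 → ℝ}
    {θ₁' θ₂' : Fin 3 → T3 → ℝ} (hL : Loc2 l θ₁ θ₂ θ₁' θ₂') (h2 : ∀ x, 0 ≤ θ₂ x) (y : T3)
    {Φ : (ι → T3) → ℂ} (hΦ : MemLp Φ 2 (piN ι)) :
    ∑ S ∈ (Finset.univ : Finset ι).powerset, ∑ i, rq i (mG (Th θ₁ θ₂ y S) Φ)
      ≤ (∑ i, rq i Φ) + ∫ x, (nB l y x + Fintype.card ι * (sig / 3 * (2 * l) ^ 3)) * ‖Φ x‖ ^ 2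
        ∂(piN ι) := by
  rw [Finset.sum_comm]
  refine (Finset.sum_le_sum fun i _ => P06_ims_one hl hl8 hL h2 y hΦ i).trans (le_of_eq ?_)
  rw [Finset.sum_add_distrib]
  congr 1
  have hmi : ∀ i : ι, Measurable fun x : ι → T3 => x i - y := fun i =>
    (measurable_pi_apply i).sub measurable_const
  rw [← integral_finsetSum _ fun i _ => F3_x hΦ
    (((F2_chi_bm (2 * l)).comp (hmi i)).add (BM.const (sig / 3 * (2 * l) ^ 3)))]
  refine integral_congr_ae (Eventually.of_forall fun x => ?_)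
  beta_reduce
  rw [← Finset.sum_mul, Finset.sum_add_distrib, Finset.sum_const, Finset.card_univ, nsmul_eq_mul]
  rfl

/-- the bound for one set of particles -/
lemma P06_E3_one {R₀ Lam l μ e κ : ℝ} {𝒱 : T3 → ℝ≥0∞} (hv : AEMeasurable 𝒱 lam3)
    (hev : ∀ y, 𝒱 (-y) = 𝒱 y) (hLam : 0 ≤ Lam) {θ₁ θ₂ : T3 → ℝ}
    {θ₁' θ₂' : Fin 3 → T3 → ℝ} (hL : Loc2 l θ₁ θ₂ θ₁' θ₂') (y : T3) {Φ : (ι → T3) → ℂ}
    {g : ι → Fin 3 → (ι → T3) → ℂ} (h : FE R₀ 𝒱 Φ g)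
    (hchem : ∀ T : Finset ι, ENNReal.ofReal (e - (T.card : ℝ) * μ) ≤ E0G R₀ 𝒱 Lam Tᶜ.card)
    {v : T3 → ℝ≥0∞} (hvm : Measurable v) (hle : ∀ᵐ z ∂lam3, R₀ ≤ rr z → v z ≤ 𝒱 z)
    {C : Type*} [Fintype C] {q : C → Set T3} (hq : ∀ c, MeasurableSet (q c))
    (hdis : ∀ c c', c ≠ c' → Disjoint (q c) (q c')) (hκ : 0 ≤ κ)
    (hbox : ∀ c, BoxIneq (ENNReal.ofReal κ) v (q c))
    (hcov : ∀ x, rr (x - y) < 2 * l → ∃ c, x ∈ q c) (S : Finset ι) :
    ((κ - μ) * (S.card : ℝ) + (e - κ * (Fintype.card C : ℝ))) *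
        ∫ x, Th θ₁ θ₂ y S x ^ 2 * ‖Φ x‖ ^ 2 ∂(piN ι)
      ≤ rE 𝒱 Finset.univ (mG (Th θ₁ θ₂ y S) Φ)
        (mGg (Th θ₁ θ₂ y S) (Thg θ₁ θ₂ θ₁' θ₂' y S) Φ g)
        + Lam * ∑ i, rq i (mG (Th θ₁ θ₂ y S) Φ) := by
  have hχ := h.mul (Th_WDN hL y S)
  set χ := mG (Th θ₁ θ₂ y S) Φ with hχd
  set γ := mGg (Th θ₁ θ₂ y S) (Thg θ₁ θ₂ θ₁' θ₂' y S) Φ g with hγd
  -- the norm
  have hJ : ∫ x, Th θ₁ θ₂ y S x ^ 2 * ‖Φ x‖ ^ 2 ∂(piN ι) = ∫ x, ‖χ x‖ ^ 2 ∂(piN ι) := by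
    refine integral_congr_ae (Eventually.of_forall fun x => ?_)
    simp only [hχd, mG]
    rw [norm_mul, mul_pow, Complex.norm_real, Real.norm_eq_abs, sq_abs]
  set J := ∫ x, ‖χ x‖ ^ 2 ∂(piN ι) with hJd
  have hJ0 : 0 ≤ J := integral_nonneg fun x => sq_nonneg _
  have hI : ∫⁻ x, ‖χ x‖ₑ ^ 2 ∂(piN ι) = ENNReal.ofReal J := lint_sq hχ.hg.mem
  have hrE := rE_eq hv hχ.hg hχ.fin
  have hgq : ∀ i : ι, gq i χ = ENNReal.ofReal (rq i χ) := fun i => gq_eq hχ.hg.mem i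
  have hrq0 : 0 ≤ ∑ i, rq i χ := Finset.sum_nonneg fun i _ => rq_nonneg i χ
  have hG : ENNReal.ofReal Lam * ∑ i, gq i χ = ENNReal.ofReal (Lam * ∑ i, rq i χ) := by
    rw [ENNReal.ofReal_mul hLam, ENNReal.ofReal_sum_of_nonneg fun i _ => rq_nonneg i χ]
    simp only [hgq]
  -- splitting of the energy
  have hsplit : eS 𝒱 S χ γ + eS 𝒱 Sᶜ χ γ ≤ eS 𝒱 Finset.univ χ γ := by
    unfold eS
    have h1 : (∑ i ∈ S, ∑ α, ∫⁻ x, ‖γ i α x‖ₑ ^ 2 ∂(piN ι))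
        + (∑ i ∈ Sᶜ, ∑ α, ∫⁻ x, ‖γ i α x‖ₑ ^ 2 ∂(piN ι))
        = ∑ i, ∑ α, ∫⁻ x, ‖γ i α x‖ₑ ^ 2 ∂(piN ι) := Finset.sum_add_sum_compl S _
    have hm : AEMeasurable (fun x => potS 𝒱 S x * ‖χ x‖ₑ ^ 2) (piN ι) :=
      (aem_potS hv S).mul (hχ.hg.mem.aestronglyMeasurable.enorm.pow_const 2)
    have h2 : (∫⁻ x, potS 𝒱 S x * ‖χ x‖ₑ ^ 2 ∂(piN ι))
        + (∫⁻ x, potS 𝒱 Sᶜ x * ‖χ x‖ₑ ^ 2 ∂(piN ι))
        ≤ ∫⁻ x, potS 𝒱 Finset.univ x * ‖χ x‖ₑ ^ 2 ∂(piN ι) := by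
      rw [← lintegral_add_left' hm]
      refine lintegral_mono fun x => ?_
      simp only [← add_mul]
      exact mul_le_mul_left (potS_split S x) _
    calc _ = ((∑ i ∈ S, ∑ α, ∫⁻ x, ‖γ i α x‖ₑ ^ 2 ∂(piN ι))
        + (∑ i ∈ Sᶜ, ∑ α, ∫⁻ x, ‖γ i α x‖ₑ ^ 2 ∂(piN ι)))
        + ((∫⁻ x, potS 𝒱 S x * ‖χ x‖ₑ ^ 2 ∂(piN ι))
        + (∫⁻ x, potS 𝒱 Sᶜ x * ‖χ x‖ₑ ^ 2 ∂(piN ι))) := by
          rw [add_add_add_comm]
      _ ≤ _ := by
          rw [h1]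
          exact add_le_add le_rfl h2
  have hgsplit : ∑ i ∈ Sᶜ, gq i χ ≤ ∑ i, gq i χ :=
    Finset.sum_le_sum_of_subset (Finset.subset_univ _)
  -- the particles outside
  have hout : ENNReal.ofReal (e - (S.card : ℝ) * μ) * ENNReal.ofReal J
      ≤ eS 𝒱 Sᶜ χ γ + ENNReal.ofReal Lam * ∑ i ∈ Sᶜ, gq i χ := by
    have h1 := slice_energyG (Lam := Lam) hv hev (S := S) (w := fun _ => 1) measurable_const
      (fun _ _ _ => rfl) hχ.hg hχ.core
    have h2 : eW 𝒱 Sᶜ (fun _ => 1) χ γ = eS 𝒱 Sᶜ χ γ := by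
      unfold eW eS
      simp only [one_mul]
    rw [h2] at h1
    simp only [one_mul, gqW_one] at h1
    rw [hI] at h1
    exact (mul_le_mul_left (hchem S) _).trans h1
  -- the particles inside
  have hin : ENNReal.ofReal κ * ((S.card : ℝ≥0∞) * ENNReal.ofReal J)
      ≤ eS 𝒱 S χ γ + ENNReal.ofReal κ * (Fintype.card C : ℝ≥0∞) * ENNReal.ofReal J := by
    have h1 := crowd_ineq hv hvm hle hq hdis ENNReal.ofReal_ne_top hbox hχ.hg hχ.core S
    rw [hI] at h1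
    refine le_trans (mul_le_mul_right ?_ _) h1
    rw [← hI, ← lintegral_const_mul' _ _ (ENNReal.natCast_ne_top _)]
    refine lintegral_mono fun x => ?_
    by_cases hx : Th θ₁ θ₂ y S x = 0
    · have : χ x = 0 := by simp only [hχd, mG, hx]; simp
      simp [this]
    · refine mul_le_mul_left ?_ _
      have h2 : ∀ i ∈ S, (1 : ℝ≥0∞) ≤ ∑ c, (q c).indicator (fun _ => (1 : ℝ≥0∞)) (x i) := by
        intro i hi
        obtain ⟨c, hc⟩ := hcov (x i) (Th_supp hL hx i hi)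
        calc (1 : ℝ≥0∞) = (q c).indicator (fun _ => (1 : ℝ≥0∞)) (x i) := by
              rw [Set.indicator_of_mem hc]
          _ ≤ _ := Finset.single_le_sum
              (f := fun c => (q c).indicator (fun _ => (1 : ℝ≥0∞)) (x i))
              (fun _ _ => zero_le) (Finset.mem_univ c)
      calc (S.card : ℝ≥0∞) = ∑ i ∈ S, (1 : ℝ≥0∞) := by simp
        _ ≤ _ := Finset.sum_le_sum h2
  -- in reals
  have h3 : ENNReal.ofReal (κ * ((S.card : ℝ) * J)) + ENNReal.ofReal (max (e - (S.card : ℝ) * μ) 0 * J)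
      ≤ (ENNReal.ofReal (rE 𝒱 Finset.univ χ γ) + ENNReal.ofReal (Lam * ∑ i, rq i χ))
        + ENNReal.ofReal (κ * (Fintype.card C : ℝ) * J) := by
    rw [hrE.2.1, ← hG]
    have e1 : ENNReal.ofReal (κ * ((S.card : ℝ) * J)) =
        ENNReal.ofReal κ * ((S.card : ℝ≥0∞) * ENNReal.ofReal J) := by
      rw [ENNReal.ofReal_mul hκ, ENNReal.ofReal_mul (Nat.cast_nonneg _), ENNReal.ofReal_natCast]
    have e2 : ENNReal.ofReal (max (e - (S.card : ℝ) * μ) 0 * J) =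
        ENNReal.ofReal (e - (S.card : ℝ) * μ) * ENNReal.ofReal J := by
      rw [ENNReal.ofReal_mul (le_max_right _ _)]
      congr 1
      rw [ENNReal.ofReal_max]
      simp
    have e3 : ENNReal.ofReal (κ * (Fintype.card C : ℝ) * J) =
        ENNReal.ofReal κ * (Fintype.card C : ℝ≥0∞) * ENNReal.ofReal J := by
      rw [ENNReal.ofReal_mul (by positivity), ENNReal.ofReal_mul hκ, ENNReal.ofReal_natCast]
    rw [e1, e2, e3]
    calc _ ≤ (eS 𝒱 S χ γ + ENNReal.ofReal κ * (Fintype.card C : ℝ≥0∞) * ENNReal.ofReal J)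
        + (eS 𝒱 Sᶜ χ γ + ENNReal.ofReal Lam * ∑ i ∈ Sᶜ, gq i χ) := add_le_add hin hout
      _ = ((eS 𝒱 S χ γ + eS 𝒱 Sᶜ χ γ) + ENNReal.ofReal Lam * ∑ i ∈ Sᶜ, gq i χ)
        + ENNReal.ofReal κ * (Fintype.card C : ℝ≥0∞) * ENNReal.ofReal J := by
          ring
      _ ≤ _ := add_le_add (add_le_add hsplit (mul_le_mul_right hgsplit _)) le_rfl
  have hLq : 0 ≤ Lam * ∑ i, rq i χ := mul_nonneg hLam hrq0
  rw [← ENNReal.ofReal_add (by positivity) (mul_nonneg (le_max_right _ _) hJ0),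
    ← ENNReal.ofReal_add hrE.2.2 hLq,
    ← ENNReal.ofReal_add (add_nonneg hrE.2.2 hLq) (by positivity)] at h3
  have h4 := (ENNReal.ofReal_le_ofReal_iff (add_nonneg (add_nonneg hrE.2.2 hLq)
    (by positivity))).mp h3
  have h5 : (e - (S.card : ℝ) * μ) * J ≤ max (e - (S.card : ℝ) * μ) 0 * J :=
    mul_le_mul_of_nonneg_right (le_max_left _ _) hJ0
  rw [hJ]
  linarith

theorem loc_energyG {R₀ Lam l μ e κ : ℝ} {𝒱 : T3 → ℝ≥0∞} (hv : AEMeasurable 𝒱 lam3)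
    (hev : ∀ y, 𝒱 (-y) = 𝒱 y) (hl : 0 < l) (hl8 : l ≤ 1 / 8) (hLam : 0 ≤ Lam) {θ₁ θ₂ : T3 → ℝ}
    {θ₁' θ₂' : Fin 3 → T3 → ℝ} (hL : Loc2 l θ₁ θ₂ θ₁' θ₂') (h2 : ∀ x, 0 ≤ θ₂ x) (y : T3)
    {Φ : (ι → T3) → ℂ} {g : ι → Fin 3 → (ι → T3) → ℂ} (h : FE R₀ 𝒱 Φ g)
    (hchem : ∀ T : Finset ι, ENNReal.ofReal (e - (T.card : ℝ) * μ) ≤ E0G R₀ 𝒱 Lam Tᶜ.card)
    {v : T3 → ℝ≥0∞} (hvm : Measurable v) (hle : ∀ᵐ z ∂lam3, R₀ ≤ rr z → v z ≤ 𝒱 z)
    {C : Type*} [Fintype C] {q : C → Set T3} (hq : ∀ c, MeasurableSet (q c))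
    (hdis : ∀ c c', c ≠ c' → Disjoint (q c) (q c')) (hκ : 0 ≤ κ)
    (hbox : ∀ c, BoxIneq (ENNReal.ofReal κ) v (q c))
    (hcov : ∀ x, rr (x - y) < 2 * l → ∃ c, x ∈ q c) :
    ∫ x, ((κ - μ) * nTh θ₁ y x - κ * (Fintype.card C : ℝ) + e - Dth θ₁' θ₂' y x
        - Lam * (nB l y x + Fintype.card ι * (sig / 3 * (2 * l) ^ 3))) * ‖Φ x‖ ^ 2 ∂(piN ι)
      ≤ rE 𝒱 Finset.univ Φ g + Lam * ∑ i, rq i Φ := by
  have hΦ := h.hg.mem
  have hint : ∀ S : Finset ι, Integrable (fun x => Th θ₁ θ₂ y S x ^ 2 * ‖Φ x‖ ^ 2) (piN ι) :=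
    fun S => E3_int h.hg.mem ((E3_meas hL y S).pow_const 2) (C := 1) fun x => by
      rw [abs_of_nonneg (sq_nonneg _)]
      exact E3_le hL y S x
  obtain ⟨hn, hn0, hn1, hB⟩ := nTh_bm (ι := ι) hL
  have hNB : BM (fun x : ι → T3 => nB l y x + Fintype.card ι * (sig / 3 * (2 * l) ^ 3)) :=
    (F3_slice hB y).add (BM.const _)
  have hG : Integrable (fun x : ι → T3 => (nB l y x + Fintype.card ι * (sig / 3 * (2 * l) ^ 3))
      * ‖Φ x‖ ^ 2) (piN ι) := F3_x hΦ hNB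
  have hsum : ∑ S ∈ (Finset.univ : Finset ι).powerset,
      ((κ - μ) * (S.card : ℝ) + (e - κ * (Fintype.card C : ℝ))) *
        ∫ x, Th θ₁ θ₂ y S x ^ 2 * ‖Φ x‖ ^ 2 ∂(piN ι)
      ≤ (rE 𝒱 Finset.univ Φ g + ∫ x, Dth θ₁' θ₂' y x * ‖Φ x‖ ^ 2 ∂(piN ι))
        + Lam * ((∑ i, rq i Φ)
          + ∫ x, (nB l y x + Fintype.card ι * (sig / 3 * (2 * l) ^ 3)) * ‖Φ x‖ ^ 2 ∂(piN ι)) := by
    rw [← ims hv hL y h]
    refine le_trans (Finset.sum_le_sum fun S _ =>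
      P06_E3_one hv hev hLam hL y h hchem hvm hle hq hdis hκ hbox hcov S) ?_
    rw [Finset.sum_add_distrib, ← Finset.mul_sum]
    have h3 := mul_le_mul_of_nonneg_left (ims_gap hl hl8 hL h2 y hΦ) hLam
    linarith
  have hD : Integrable (fun x : ι → T3 => Dth θ₁' θ₂' y x * ‖Φ x‖ ^ 2) (piN ι) := by
    refine E3_int h.hg.mem (C := ∑ _i : ι, 3 / l ^ 2) ?_ fun x => ?_
    · unfold Dth
      refine Finset.measurable_sum _ fun i _ => Finset.measurable_sum _ fun α _ => ?_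
      have h1 : Measurable fun x : ι → T3 => x i - y := (measurable_pi_apply i).sub measurable_const
      exact (((hL.meas1 α).comp h1).pow_const 2).add (((hL.meas2 α).comp h1).pow_const 2)
    · unfold Dth
      rw [abs_of_nonneg (Finset.sum_nonneg fun i _ => Finset.sum_nonneg fun α _ => by positivity)]
      exact Finset.sum_le_sum fun i _ => hL.grad (x i - y)
  have hA : ∑ S ∈ (Finset.univ : Finset ι).powerset,
      ((κ - μ) * (S.card : ℝ) + (e - κ * (Fintype.card C : ℝ))) *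
        ∫ x, Th θ₁ θ₂ y S x ^ 2 * ‖Φ x‖ ^ 2 ∂(piN ι)
      = ∫ x, ((κ - μ) * nTh θ₁ y x + (e - κ * (Fintype.card C : ℝ))) * ‖Φ x‖ ^ 2 ∂(piN ι) := by
    simp only [← integral_const_mul]
    rw [← integral_finsetSum _ fun S _ => (hint S).const_mul _]
    refine integral_congr_ae (Eventually.of_forall fun x => ?_)
    simp only
    have h1 := Th_sum hL y x
    have h2 := Th_card hL y x
    calc ∑ S ∈ (Finset.univ : Finset ι).powerset,
          ((κ - μ) * (S.card : ℝ) + (e - κ * (Fintype.card C : ℝ)))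
            * (Th θ₁ θ₂ y S x ^ 2 * ‖Φ x‖ ^ 2)
        = ((κ - μ) * (∑ S ∈ (Finset.univ : Finset ι).powerset, (S.card : ℝ) * Th θ₁ θ₂ y S x ^ 2)
          + (e - κ * (Fintype.card C : ℝ))
            * ∑ S ∈ (Finset.univ : Finset ι).powerset, Th θ₁ θ₂ y S x ^ 2) * ‖Φ x‖ ^ 2 := by
          rw [Finset.mul_sum, Finset.mul_sum, ← Finset.sum_add_distrib, Finset.sum_mul]
          exact Finset.sum_congr rfl fun S _ => by ring
      _ = _ := by rw [h1, h2, mul_one]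
  have hN : Integrable (fun x : ι → T3 => ((κ - μ) * nTh θ₁ y x + (e - κ * (Fintype.card C : ℝ)))
      * ‖Φ x‖ ^ 2) (piN ι) :=
    F3_x hΦ (((F3_slice hn y).const_mul _).add (BM.const _))
  have hfin : ∫ x, ((κ - μ) * nTh θ₁ y x - κ * (Fintype.card C : ℝ) + e - Dth θ₁' θ₂' y x
        - Lam * (nB l y x + Fintype.card ι * (sig / 3 * (2 * l) ^ 3)))
        * ‖Φ x‖ ^ 2 ∂(piN ι)
      = (∫ x, ((κ - μ) * nTh θ₁ y x + (e - κ * (Fintype.card C : ℝ))) * ‖Φ x‖ ^ 2 ∂(piN ι))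
        - (∫ x, Dth θ₁' θ₂' y x * ‖Φ x‖ ^ 2 ∂(piN ι))
        - Lam * ∫ x, (nB l y x + Fintype.card ι * (sig / 3 * (2 * l) ^ 3)) * ‖Φ x‖ ^ 2 ∂(piN ι) := by
    have hND : Integrable (fun x : ι → T3 => ((κ - μ) * nTh θ₁ y x
        + (e - κ * (Fintype.card C : ℝ))) * ‖Φ x‖ ^ 2 - Dth θ₁' θ₂' y x * ‖Φ x‖ ^ 2) (piN ι) :=
      hN.sub hD
    rw [← integral_sub hN hD, ← integral_const_mul, ← integral_sub hND (hG.const_mul Lam)]
    refine integral_congr_ae (Eventually.of_forall fun x => ?_)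
    simp only
    ring
  rw [hfin, ← hA]
  linarith

end Pool.Agent.Lib.MP_4952d6_mp.LG
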