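import Pool.Agent.Lib.MP_4952d6_mp.Pq.P05
import Pool.Agent.Lib.MP_4952d6_mp.Pq.P06
import Pool.Agent.Lib.MP_4952d6_mp.Pk.G54

/-!
# Pq.P07 (leaf F): moments at the scale `l` for gapped minimisers

Model `F3_one`, `mom_rec` (Pk/G53 l.1865-2160), `moments`, `hk_moments` (Pk/G54 l.133-330, l.664-760). Changes: `loc_energyG`, `min_FG`, `cq_le`;
with `n = nTh θ₁ y`, `n' = n (update x i z)`: `n - n' = θ₁(x i - y)² - θ₁(z - y)²`, `(n^q - n'^q)² ≤ q² (n+1)^(2q-2) (θ₁(x i - y)² + θ₁(z - y)²)`, so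
`∑ᵢ dq i ψ n^q ≤ ½ q² ∫ (n+1)^(2q-2) (n + N V) ‖ψ‖²`, `V = ∫ θ₁² ≤ sig/3 (2l)³`.  After multiplication with `l²` (`Lam l² ≤ 1`), integration over `y`, `cover`:
`(κ l² - μ l² - 216) Xm (2q+1) ≤ κ l² m³ Xm (2q) + 12 q² Xm (2q-1) + B (1 + N l³) (1 + Xm (2q))`, `B` depending on `q` only (crude bounds `n^j ≤ 1 + n^(2q)`), and `N l³ = 1/Y ≥ 1`.
In `moments` replace 162, 163 by 216, 217. `θ₁, θ₂` from `exists_Loc2'`.
-/

set_option autoImplicit false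
set_option linter.unusedSectionVars false
set_option linter.unusedVariables false
open MeasureTheory Function Filter Topology Set ComplexConjugate
open scoped ENNReal

namespace Pool.Agent.Lib.MP_4952d6_mp.LG

open LA

variable {ι : Type*} [Fintype ι] [DecidableEq ι]

lemma P07_pow {a b M : ℝ} (ha : 0 ≤ a) (hb : 0 ≤ b) (haM : a ≤ M) (hbM : b ≤ M) (p : ℕ) :
    |a ^ (p + 1) - b ^ (p + 1)| ≤ (p + 1) * M ^ p * |a - b| := by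
  have hM : 0 ≤ M := ha.trans haM
  induction p with
  | zero => simp
  | succ p ih =>
    have e : a ^ (p + 1 + 1) - b ^ (p + 1 + 1) = a * (a ^ (p + 1) - b ^ (p + 1))
        + (a - b) * b ^ (p + 1) := by ring
    rw [e]
    refine (abs_add_le _ _).trans ?_
    rw [abs_mul, abs_mul, abs_of_nonneg ha, abs_of_nonneg (pow_nonneg hb (p + 1))]
    have h1 : a * |a ^ (p + 1) - b ^ (p + 1)| ≤ M * ((p + 1) * M ^ p * |a - b|) :=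
      mul_le_mul haM ih (abs_nonneg _) hM
    have h2 : |a - b| * b ^ (p + 1) ≤ |a - b| * M ^ (p + 1) :=
      mul_le_mul_of_nonneg_left (pow_le_pow_left₀ hb hbM _) (abs_nonneg _)
    refine (add_le_add h1 h2).trans (le_of_eq ?_)
    push_cast
    ring

lemma P07_two {t : ℝ} (ht : 0 ≤ t) (q : ℕ) : (t + 1) ^ (2 * q) ≤ 4 ^ q * (1 + t ^ (2 * q)) := by
  have h4 : (4 : ℝ) ^ q = 2 ^ (2 * q) := by
    rw [pow_mul]
    norm_num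
  rw [h4]
  rcases le_total t 1 with h | h
  · have h1 : (t + 1) ^ (2 * q) ≤ 2 ^ (2 * q) := pow_le_pow_left₀ (by linarith) (by linarith) _
    have h2 : 0 ≤ t ^ (2 * q) := pow_nonneg ht _
    have h3 : (0 : ℝ) ≤ 2 ^ (2 * q) := by positivity
    nlinarith
  · have h1 : (t + 1) ^ (2 * q) ≤ (2 * t) ^ (2 * q) :=
      pow_le_pow_left₀ (by linarith) (by linarith) _
    rw [mul_pow] at h1
    have h3 : (0 : ℝ) ≤ 2 ^ (2 * q) := by positivity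
    linarith

/-- change of the number of particles in a jump -/
lemma P07_nTh (θ : T3 → ℝ) (y : T3) (x : ι → T3) (i : ι) (z : T3) :
    nTh θ y (update x i z) = nTh θ y x - θ (x i - y) ^ 2 + θ (z - y) ^ 2 := by
  unfold nTh
  rw [← Finset.add_sum_erase Finset.univ (fun j => θ (update x i z j - y) ^ 2) (Finset.mem_univ i),
    ← Finset.add_sum_erase Finset.univ (fun j => θ (x j - y) ^ 2) (Finset.mem_univ i)]
  have e : ∑ j ∈ Finset.univ.erase i, θ (update x i z j - y) ^ 2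
      = ∑ j ∈ Finset.univ.erase i, θ (x j - y) ^ 2 := by
    refine Finset.sum_congr rfl fun j hj => ?_
    rw [update_of_ne (Finset.ne_of_mem_erase hj)]
  rw [e, update_self]
  ring

lemma P07_theta {l : ℝ} {θ₁ θ₂ : T3 → ℝ} {θ₁' θ₂' : Fin 3 → T3 → ℝ}
    (hL : Loc2 l θ₁ θ₂ θ₁' θ₂') (z : T3) : θ₁ z ^ 2 ≤ F2_chi (2 * l) z := by
  by_cases h : rr z ≤ 2 * l
  · have e : F2_chi (2 * l) z = 1 := by
      unfold F2_chi
      rw [Set.indicator_of_mem (show z ∈ {z : T3 | rr z ≤ 2 * l} from h)]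
    rw [e]
    exact F1_theta hL z
  · rw [hL.zero z (not_le.1 h).le]
    have := F2_chi_nonneg (2 * l) z
    simpa using this

lemma P07_V {l : ℝ} (hl : 0 < l) (hl8 : l ≤ 1 / 8) {θ₁ θ₂ : T3 → ℝ} {θ₁' θ₂' : Fin 3 → T3 → ℝ}
    (hL : Loc2 l θ₁ θ₂ θ₁' θ₂') (y : T3) :
    ∫ z, θ₁ (z - y) ^ 2 ∂lam3 ≤ sig / 3 * (2 * l) ^ 3 := by
  have hT := H3_theta hL
  have hm : Measurable fun z : T3 => z - y := measurable_id.sub measurable_const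
  rw [← F2_chi_int (ρ := 2 * l) (by linarith) (by linarith),
    ← integral_sub_right_eq_self (F2_chi (2 * l)) y]
  exact integral_mono (((hT.comp hm).pow 2).integrable lam3)
    (((F2_chi_bm (2 * l)).comp hm).integrable lam3) fun z => P07_theta hL (z - y)

/-- pointwise bound of the commutator -/
lemma P07_point {l : ℝ} {θ₁ θ₂ : T3 → ℝ} {θ₁' θ₂' : Fin 3 → T3 → ℝ}
    (hL : Loc2 l θ₁ θ₂ θ₁' θ₂') (y : T3) (p : ℕ) (i : ι) (x : ι → T3) (z : T3) :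
    (nTh θ₁ y x ^ (p + 1) - nTh θ₁ y (update x i z) ^ (p + 1)) ^ 2
      ≤ ((p : ℝ) + 1) ^ 2 * (nTh θ₁ y x + 1) ^ (2 * p) * (θ₁ (x i - y) ^ 2 + θ₁ (z - y) ^ 2) := by
  have h0 := F1_nonneg θ₁ y x
  have h0' := F1_nonneg θ₁ y (update x i z)
  have ha := F1_theta hL (x i - y)
  have hb := F1_theta hL (z - y)
  have ha0 := sq_nonneg (θ₁ (x i - y))
  have hb0 := sq_nonneg (θ₁ (z - y))
  have e := P07_nTh θ₁ y x i z
  have h1 : nTh θ₁ y (update x i z) ≤ nTh θ₁ y x + 1 := by rw [e]; linarith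
  have h2 := P07_pow h0 h0' (by linarith) h1 p
  have h3 : |nTh θ₁ y x - nTh θ₁ y (update x i z)| ^ 2
      ≤ θ₁ (x i - y) ^ 2 + θ₁ (z - y) ^ 2 := by
    rw [sq_abs, e]
    nlinarith
  have h4 : 0 ≤ ((p : ℝ) + 1) * (nTh θ₁ y x + 1) ^ p := by positivity
  rw [← sq_abs]
  refine (pow_le_pow_left₀ (abs_nonneg _) h2 2).trans ?_
  rw [mul_pow]
  have h5 := mul_le_mul_of_nonneg_left h3 (sq_nonneg (((p : ℝ) + 1) * (nTh θ₁ y x + 1) ^ p))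
  refine h5.trans (le_of_eq ?_)
  ring

/-- the commutator terms of all particles -/
lemma P07_dq {l : ℝ} (hl : 0 < l) (hl8 : l ≤ 1 / 8) {θ₁ θ₂ : T3 → ℝ} {θ₁' θ₂' : Fin 3 → T3 → ℝ}
    (hL : Loc2 l θ₁ θ₂ θ₁' θ₂') (y : T3) (q : ℕ) {ψ : (ι → T3) → ℂ} (hψ : MemLp ψ 2 (piN ι)) :
    ∑ i, dq i ψ (fun x => nTh θ₁ y x ^ q)
      ≤ 1 / 2 * (q : ℝ) ^ 2 * 4 ^ q * (1 + Fintype.card ι * (sig / 3 * (2 * l) ^ 3))
        * ∫ x, (1 + nTh θ₁ y x ^ (2 * q)) * ‖ψ x‖ ^ 2 ∂(piN ι) := by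
  rcases Nat.eq_zero_or_pos q with hq | hq
  · subst hq
    have e : ∀ i : ι, dq i ψ (fun x => nTh θ₁ y x ^ 0) = 0 := by
      intro i
      unfold dq
      simp
    rw [Finset.sum_eq_zero fun i _ => e i]
    simp
  obtain ⟨p, rfl⟩ : ∃ p, q = p + 1 := ⟨q - 1, by omega⟩
  obtain ⟨hn, hn0, hn1, hB⟩ := nTh_bm (ι := ι) hL
  have hny : BM (fun x : ι → T3 => nTh θ₁ y x) := F3_slice hn y
  have hT := H3_theta hL
  obtain ⟨V, hV⟩ : ∃ V : ℝ, V = sig / 3 * (2 * l) ^ 3 := ⟨_, rfl⟩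
  have hV0 : 0 ≤ V := by
    have := sig_pos
    rw [hV]
    positivity
  have hVz := P07_V hl hl8 hL y
  rw [← hV] at hVz ⊢
  have hmi : ∀ i : ι, Measurable fun x : ι → T3 => x i - y := fun i =>
    (measurable_pi_apply i).sub measurable_const
  have hmz : Measurable fun z : T3 => z - y := measurable_id.sub measurable_const
  -- one particle
  have h1 : ∀ i : ι, dq i ψ (fun x => nTh θ₁ y x ^ (p + 1))
      ≤ 1 / 2 * ∫ x, (((p : ℝ) + 1) ^ 2 * (nTh θ₁ y x + 1) ^ (2 * p)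
        * (θ₁ (x i - y) ^ 2 + V)) * ‖ψ x‖ ^ 2 ∂(piN ι) := by
    intro i
    unfold dq
    refine mul_le_mul_of_nonneg_left ?_ (by norm_num)
    have bQ : BM (fun r : (ι → T3) × T3 =>
        (nTh θ₁ y r.1 ^ (p + 1) - nTh θ₁ y (update r.1 i r.2) ^ (p + 1)) ^ 2) :=
      ((P06_fst (hny.pow (p + 1))).sub (P06_snd (hny.pow (p + 1)) i)).pow 2
    have bI : BM (fun x : ι → T3 => ∫ z, (nTh θ₁ y x ^ (p + 1)
        - nTh θ₁ y (update x i z) ^ (p + 1)) ^ 2 ∂lam3) :=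
      BM.integral_right (f := fun x z => (nTh θ₁ y x ^ (p + 1)
        - nTh θ₁ y (update x i z) ^ (p + 1)) ^ 2) bQ lam3
    have bR : BM (fun x : ι → T3 => ((p : ℝ) + 1) ^ 2 * (nTh θ₁ y x + 1) ^ (2 * p)
        * (θ₁ (x i - y) ^ 2 + V)) :=
      (((hny.add (BM.const 1)).pow (2 * p)).const_mul (((p : ℝ) + 1) ^ 2)).mul
        (((hT.comp (hmi i)).pow 2).add (BM.const V))
    have e1 : ∫ x, ∫ z, (nTh θ₁ y x ^ (p + 1) - nTh θ₁ y (update x i z) ^ (p + 1)) ^ 2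
        * ‖ψ x‖ ^ 2 ∂lam3 ∂(piN ι)
        = ∫ x, (∫ z, (nTh θ₁ y x ^ (p + 1) - nTh θ₁ y (update x i z) ^ (p + 1)) ^ 2 ∂lam3)
          * ‖ψ x‖ ^ 2 ∂(piN ι) := by
      refine integral_congr_ae (Eventually.of_forall fun x => ?_)
      exact integral_mul_const _ _
    rw [e1]
    refine integral_mono (F3_x hψ bI) (F3_x hψ bR) fun x => ?_
    refine mul_le_mul_of_nonneg_right ?_ (sq_nonneg _)
    have bx : BM (fun z : T3 => (nTh θ₁ y x ^ (p + 1)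
        - nTh θ₁ y (update x i z) ^ (p + 1)) ^ 2) :=
      bQ.comp (φ := fun z : T3 => (x, z)) (measurable_const.prodMk measurable_id)
    have bz : BM (fun z : T3 => ((p : ℝ) + 1) ^ 2 * (nTh θ₁ y x + 1) ^ (2 * p)
        * (θ₁ (x i - y) ^ 2 + θ₁ (z - y) ^ 2)) :=
      ((BM.const (θ₁ (x i - y) ^ 2)).add ((hT.comp hmz).pow 2)).const_mul _
    refine (integral_mono (bx.integrable lam3) (bz.integrable lam3)
      fun z => P07_point hL y p i x z).trans ?_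
    rw [integral_const_mul, integral_add (integrable_const _)
      (((hT.comp hmz).pow 2).integrable lam3)]
    refine mul_le_mul_of_nonneg_left ?_ (by have := hn0 y x; positivity)
    have e2 : ∫ _z : T3, θ₁ (x i - y) ^ 2 ∂lam3 = θ₁ (x i - y) ^ 2 := by simp
    rw [e2]
    linarith
  refine (Finset.sum_le_sum fun i _ => h1 i).trans ?_
  rw [← Finset.mul_sum]
  have bR : ∀ i : ι, BM (fun x : ι → T3 => ((p : ℝ) + 1) ^ 2 * (nTh θ₁ y x + 1) ^ (2 * p)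
      * (θ₁ (x i - y) ^ 2 + V)) := fun i =>
    (((hny.add (BM.const 1)).pow (2 * p)).const_mul (((p : ℝ) + 1) ^ 2)).mul
      (((hT.comp (hmi i)).pow 2).add (BM.const V))
  rw [← integral_finsetSum _ fun i _ => F3_x hψ (bR i)]
  have h2 : ∫ x, ∑ i, (((p : ℝ) + 1) ^ 2 * (nTh θ₁ y x + 1) ^ (2 * p)
        * (θ₁ (x i - y) ^ 2 + V)) * ‖ψ x‖ ^ 2 ∂(piN ι)
      ≤ ∫ x, (((p : ℝ) + 1) ^ 2 * 4 ^ (p + 1) * (1 + Fintype.card ι * V))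
        * ((1 + nTh θ₁ y x ^ (2 * (p + 1))) * ‖ψ x‖ ^ 2) ∂(piN ι) := by
    refine integral_mono (integrable_finsetSum _ fun i _ => F3_x hψ (bR i))
      ((F3_x hψ ((BM.const 1).add (hny.pow (2 * (p + 1))))).const_mul _) fun x => ?_
    simp only
    rw [← Finset.sum_mul, ← mul_assoc]
    refine mul_le_mul_of_nonneg_right ?_ (sq_nonneg _)
    have e3 : ∑ i, (((p : ℝ) + 1) ^ 2 * (nTh θ₁ y x + 1) ^ (2 * p) * (θ₁ (x i - y) ^ 2 + V))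
        = ((p : ℝ) + 1) ^ 2 * (nTh θ₁ y x + 1) ^ (2 * p) * (nTh θ₁ y x + Fintype.card ι * V) := by
      rw [← Finset.mul_sum, Finset.sum_add_distrib, Finset.sum_const, Finset.card_univ,
        nsmul_eq_mul]
      rfl
    rw [e3]
    have ht := hn0 y x
    have hNV : 0 ≤ (Fintype.card ι : ℝ) * V := by positivity
    have h3 : nTh θ₁ y x + Fintype.card ι * V
        ≤ (1 + Fintype.card ι * V) * (nTh θ₁ y x + 1) ^ 2 := by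
      have a1 : 1 ≤ (nTh θ₁ y x + 1) ^ 2 := one_le_pow₀ (by linarith)
      have a2 : nTh θ₁ y x ≤ (nTh θ₁ y x + 1) ^ 2 := by nlinarith
      have a3 := mul_le_mul_of_nonneg_left a1 hNV
      linarith
    have h4 : (nTh θ₁ y x + 1) ^ (2 * p) * (nTh θ₁ y x + Fintype.card ι * V)
        ≤ (1 + Fintype.card ι * V) * (nTh θ₁ y x + 1) ^ (2 * (p + 1)) := by
      have h5 := mul_le_mul_of_nonneg_left h3 (show 0 ≤ (nTh θ₁ y x + 1) ^ (2 * p) by positivity)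
      refine h5.trans (le_of_eq ?_)
      ring
    have h6 := P07_two ht (p + 1)
    have h7 := mul_le_mul_of_nonneg_left h6 (show 0 ≤ 1 + (Fintype.card ι : ℝ) * V by linarith)
    have h8 := mul_le_mul_of_nonneg_left (h4.trans h7) (sq_nonneg ((p : ℝ) + 1))
    refine le_trans (le_of_eq ?_) (h8.trans (le_of_eq ?_))
    · ring
    · ring
  rw [integral_const_mul] at h2
  have h3 := mul_le_mul_of_nonneg_left h2 (show (0 : ℝ) ≤ 1 / 2 by norm_num)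
  refine h3.trans (le_of_eq ?_)
  push_cast
  ring

/-- the inequality for one `y` -/
theorem P07_one {R₀ Lam l μ e κ : ℝ} {𝒱 : T3 → ℝ≥0∞} {ψ : (ι → T3) → ℂ}
    {g : ι → Fin 3 → (ι → T3) → ℂ} (hM : MiniG l Lam R₀ 𝒱 μ e ψ g) (hl : 0 < l) (hl8 : l ≤ 1 / 8)
    {θ₁ θ₂ : T3 → ℝ} {θ₁' θ₂' : Fin 3 → T3 → ℝ} (hL : Loc2 l θ₁ θ₂ θ₁' θ₂')
    (hθ₂ : ∀ x, 0 ≤ θ₂ x) {v : T3 → ℝ≥0∞}
    (hvm : Measurable v) (hle : ∀ᵐ z ∂lam3, R₀ ≤ rr z → v z ≤ 𝒱 z) {m : ℕ} (hm : 0 < m)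
    (hκ : 0 ≤ κ) (hbox : ∀ b : Fin 3 → ℝ, BoxIneq (ENNReal.ofReal κ) v (tbox b (4 * l / m)))
    (q : ℕ) (y : T3) :
    (κ - μ) * (∫ x, nTh θ₁ y x ^ (2 * q + 1) * ‖ψ x‖ ^ 2 ∂(piN ι))
      - κ * (m : ℝ) ^ 3 * (∫ x, nTh θ₁ y x ^ (2 * q) * ‖ψ x‖ ^ 2 ∂(piN ι))
      - (3 / l ^ 2 + Lam) * (∫ x, (nB l y x * nTh θ₁ y x ^ (2 * q)) * ‖ψ x‖ ^ 2 ∂(piN ι))
      - Lam * (Fintype.card ι * (sig / 3 * (2 * l) ^ 3))
        * (∫ x, nTh θ₁ y x ^ (2 * q) * ‖ψ x‖ ^ 2 ∂(piN ι))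
      ≤ 12 * (q : ℝ) ^ 2 / l ^ 2 * (∫ x, nTh θ₁ y x ^ (2 * q - 1) * ‖ψ x‖ ^ 2 ∂(piN ι))
        + Lam * (1 / 2 * (q : ℝ) ^ 2 * 4 ^ q * (1 + Fintype.card ι * (sig / 3 * (2 * l) ^ 3)))
          * (1 + ∫ x, nTh θ₁ y x ^ (2 * q) * ‖ψ x‖ ^ 2 ∂(piN ι)) := by
  have hψ := hM.fe.hg.mem
  obtain ⟨hn, hn0, hn1, hB⟩ := nTh_bm (ι := ι) hL
  have hny : BM (fun x : ι → T3 => nTh θ₁ y x) := F3_slice hn y
  have hBy : BM (fun x : ι → T3 => nB l y x) := F3_slice hB y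
  have hw := nTh_pow_WDN (ι := ι) hL y q
  have hFE := hM.fe.mul hw
  have h4l : (0 : ℝ) < 4 * l := by linarith
  have hm1 : (1 : ℝ) ≤ m := by exact_mod_cast hm
  have hmr : 4 * l / m ≤ 1 := by
    rw [div_le_one (by linarith)]
    linarith
  have hloc := loc_energyG (C := Fin 3 → Fin m) hM.hv hM.hev hl hl8 hM.la0 hL hθ₂ y hFE hM.chem
    hvm hle
    (q := fun c => tbox (cellc (fun α => crd y α - 4 * l / 2) (4 * l) m c) (4 * l / m))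
    (fun c => tbox_meas _ hmr)
    (fun c c' hcc => cells_disj _ h4l (by linarith) hm hcc) hκ
    (fun c => hbox _)
    (fun x hx => cells_cover _ h4l hm (mem_tbox (by linarith)))
  have hcard : (Fintype.card (Fin 3 → Fin m) : ℝ) = (m : ℝ) ^ 3 := by
    rw [Fintype.card_fun, Fintype.card_fin, Fintype.card_fin]
    push_cast
    rfl
  rw [hcard] at hloc
  have hmin := min_FG hM.hv hM.fe hM.la0 hw hM.e0 hM.hmin (by rw [hM.nrm, mul_one]; exact hM.heq)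
  rw [hmin] at hloc
  have hpow : ∀ k : ℕ, BM (fun x : ι → T3 => nTh θ₁ y x ^ k) := fun k => hny.pow k
  -- the commutator of the gap term
  have hcq : Lam * ∑ i, cq i ψ (fun x => nTh θ₁ y x ^ q)
      ≤ Lam * (1 / 2 * (q : ℝ) ^ 2 * 4 ^ q * (1 + Fintype.card ι * (sig / 3 * (2 * l) ^ 3)))
          * (1 + ∫ x, nTh θ₁ y x ^ (2 * q) * ‖ψ x‖ ^ 2 ∂(piN ι)) := by
    have h1 : ∑ i, cq i ψ (fun x => nTh θ₁ y x ^ q) ≤ ∑ i, dq i ψ (fun x => nTh θ₁ y x ^ q) :=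
      Finset.sum_le_sum fun i _ => cq_le hψ i (hpow q)
    have h2 := P07_dq hl hl8 hL y q hψ
    have h3 : ∫ x, (1 + nTh θ₁ y x ^ (2 * q)) * ‖ψ x‖ ^ 2 ∂(piN ι)
        = 1 + ∫ x, nTh θ₁ y x ^ (2 * q) * ‖ψ x‖ ^ 2 ∂(piN ι) := by
      have h5 : ∫ x, (1 + nTh θ₁ y x ^ (2 * q)) * ‖ψ x‖ ^ 2 ∂(piN ι)
          = (∫ x, ‖ψ x‖ ^ 2 ∂(piN ι)) + ∫ x, nTh θ₁ y x ^ (2 * q) * ‖ψ x‖ ^ 2 ∂(piN ι) := by
        rw [← integral_add (int_sq hψ) (F3_x hψ (hpow (2 * q)))]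
        refine integral_congr_ae (Eventually.of_forall fun x => ?_)
        ring
      rw [h5, hM.nrm]
    rw [h3] at h2
    have h4 := mul_le_mul_of_nonneg_left (h1.trans h2) hM.la0
    refine h4.trans (le_of_eq ?_)
    ring
  -- bounded measurable functions
  have hDm : BM (fun x : ι → T3 => Dth θ₁' θ₂' y x) := by
    have hms : ∀ i : ι, Measurable (fun x : ι → T3 => x i - y) := fun i =>
      measurable_sub' (measurable_pi_apply i) measurable_const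
    refine ⟨?_, 3 / l ^ 2 * Fintype.card ι, fun x => ?_⟩
    · unfold Dth
      exact Finset.measurable_sum _ fun i _ => Finset.measurable_sum _ fun α _ =>
        (((hL.meas1 α).comp (hms i)).pow_const 2).add (((hL.meas2 α).comp (hms i)).pow_const 2)
    · have h0 : 0 ≤ Dth θ₁' θ₂' y x := Finset.sum_nonneg fun i _ =>
        Finset.sum_nonneg fun α _ => add_nonneg (sq_nonneg _) (sq_nonneg _)
      rw [abs_of_nonneg h0]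
      unfold Dth
      refine (Finset.sum_le_sum fun i _ => hL.grad (x i - y)).trans (le_of_eq ?_)
      rw [Finset.sum_const, Finset.card_univ, nsmul_eq_mul, mul_comm]
  obtain ⟨W, hW⟩ : ∃ W : ℝ, W = Fintype.card ι * (sig / 3 * (2 * l) ^ 3) := ⟨_, rfl⟩
  rw [← hW] at hloc hcq ⊢
  -- the left side
  have e1 : ∫ x, ((κ - μ) * nTh θ₁ y x - κ * (m : ℝ) ^ 3 + e - Dth θ₁' θ₂' y x
        - Lam * (nB l y x + W))
        * ‖mG (fun x => nTh θ₁ y x ^ q) ψ x‖ ^ 2 ∂(piN ι)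
      = (κ - μ) * (∫ x, nTh θ₁ y x ^ (2 * q + 1) * ‖ψ x‖ ^ 2 ∂(piN ι))
        - κ * (m : ℝ) ^ 3 * (∫ x, nTh θ₁ y x ^ (2 * q) * ‖ψ x‖ ^ 2 ∂(piN ι))
        + e * (∫ x, (nTh θ₁ y x ^ q) ^ 2 * ‖ψ x‖ ^ 2 ∂(piN ι))
        - (∫ x, (Dth θ₁' θ₂' y x * nTh θ₁ y x ^ (2 * q)) * ‖ψ x‖ ^ 2 ∂(piN ι))
        - Lam * (∫ x, (nB l y x * nTh θ₁ y x ^ (2 * q)) * ‖ψ x‖ ^ 2 ∂(piN ι))
        - Lam * W * (∫ x, nTh θ₁ y x ^ (2 * q) * ‖ψ x‖ ^ 2 ∂(piN ι)) := by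
    have i1 := (F3_x hψ (hpow (2 * q + 1))).const_mul (κ - μ)
    have i2 := (F3_x hψ (hpow (2 * q))).const_mul (κ * (m : ℝ) ^ 3)
    have i3 := (F3_x hψ ((hpow q).pow 2)).const_mul e
    have i4 := F3_x hψ (hDm.mul (hpow (2 * q)))
    have i5 := (F3_x hψ (hBy.mul (hpow (2 * q)))).const_mul Lam
    have i6 := (F3_x hψ (hpow (2 * q))).const_mul (Lam * W)
    have i12 : Integrable (fun x => (κ - μ) * (nTh θ₁ y x ^ (2 * q + 1) * ‖ψ x‖ ^ 2)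
        - κ * (m : ℝ) ^ 3 * (nTh θ₁ y x ^ (2 * q) * ‖ψ x‖ ^ 2)) (piN ι) := i1.sub i2
    have i123 : Integrable (fun x => (κ - μ) * (nTh θ₁ y x ^ (2 * q + 1) * ‖ψ x‖ ^ 2)
        - κ * (m : ℝ) ^ 3 * (nTh θ₁ y x ^ (2 * q) * ‖ψ x‖ ^ 2)
        + e * ((nTh θ₁ y x ^ q) ^ 2 * ‖ψ x‖ ^ 2)) (piN ι) := i12.add i3
    have i1234 : Integrable (fun x => (κ - μ) * (nTh θ₁ y x ^ (2 * q + 1) * ‖ψ x‖ ^ 2)
        - κ * (m : ℝ) ^ 3 * (nTh θ₁ y x ^ (2 * q) * ‖ψ x‖ ^ 2)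
        + e * ((nTh θ₁ y x ^ q) ^ 2 * ‖ψ x‖ ^ 2)
        - (Dth θ₁' θ₂' y x * nTh θ₁ y x ^ (2 * q)) * ‖ψ x‖ ^ 2) (piN ι) := i123.sub i4
    have i12345 : Integrable (fun x => (κ - μ) * (nTh θ₁ y x ^ (2 * q + 1) * ‖ψ x‖ ^ 2)
        - κ * (m : ℝ) ^ 3 * (nTh θ₁ y x ^ (2 * q) * ‖ψ x‖ ^ 2)
        + e * ((nTh θ₁ y x ^ q) ^ 2 * ‖ψ x‖ ^ 2)
        - (Dth θ₁' θ₂' y x * nTh θ₁ y x ^ (2 * q)) * ‖ψ x‖ ^ 2
        - Lam * ((nB l y x * nTh θ₁ y x ^ (2 * q)) * ‖ψ x‖ ^ 2)) (piN ι) := i1234.sub i5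
    rw [← integral_const_mul (κ - μ), ← integral_const_mul (κ * (m : ℝ) ^ 3),
      ← integral_const_mul e, ← integral_const_mul Lam, ← integral_const_mul (Lam * W),
      ← integral_sub i1 i2,
      ← integral_add i12 i3, ← integral_sub i123 i4, ← integral_sub i1234 i5,
      ← integral_sub i12345 i6]
    refine integral_congr_ae (Eventually.of_forall fun x => ?_)
    dsimp only
    rw [F3_norm]
    ring
  rw [e1] at hloc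
  have hD : ∫ x, (Dth θ₁' θ₂' y x * nTh θ₁ y x ^ (2 * q)) * ‖ψ x‖ ^ 2 ∂(piN ι)
      ≤ 3 / l ^ 2 * ∫ x, (nB l y x * nTh θ₁ y x ^ (2 * q)) * ‖ψ x‖ ^ 2 ∂(piN ι) := by
    rw [← integral_const_mul]
    refine integral_mono (F3_x hψ (hDm.mul (hpow (2 * q))))
      ((F3_x hψ (hBy.mul (hpow (2 * q)))).const_mul _) fun x => ?_
    dsimp only
    have h1 := Dth_le hl hL y x
    have h2 : 0 ≤ nTh θ₁ y x ^ (2 * q) := pow_nonneg (hn0 y x) _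
    have h3 := mul_le_mul_of_nonneg_right (mul_le_mul_of_nonneg_right h1 h2)
      (sq_nonneg ‖ψ x‖)
    refine h3.trans (le_of_eq ?_)
    ring
  -- the right side
  have hP : ∑ i, ∑ α, ∫ x, nP θ₁ θ₁' y q i α x ^ 2 * ‖ψ x‖ ^ 2 ∂(piN ι)
      ≤ 12 * (q : ℝ) ^ 2 / l ^ 2 * ∫ x, nTh θ₁ y x ^ (2 * q - 1) * ‖ψ x‖ ^ 2 ∂(piN ι) := by
    have hPm : ∀ i α, Measurable (nP θ₁ θ₁' y q i α : (ι → T3) → ℝ) := by
      intro i α
      have hms : Measurable (fun x : ι → T3 => x i - y) :=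
        measurable_sub' (measurable_pi_apply i) measurable_const
      unfold nP
      have h1 : Measurable (fun x : ι → T3 => (q : ℝ) * nTh θ₁ y x ^ (q - 1)) :=
        ((hpow (q - 1)).1).const_mul _
      have h2 : Measurable (fun x : ι → T3 => 2 * θ₁ (x i - y)) :=
        (((hL.wd1 0).sm.measurable).comp hms).const_mul 2
      exact h1.mul (h2.mul ((hL.meas1 α).comp hms))
    have hint : ∀ i α, Integrable (fun x => nP θ₁ θ₁' y q i α x ^ 2 * ‖ψ x‖ ^ 2) (piN ι) := by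
      intro i α
      have h1 := (F3_x hψ (hpow (2 * q - 1))).const_mul (12 * (q : ℝ) ^ 2 / l ^ 2)
      refine Integrable.mono' h1 ?_ (Eventually.of_forall fun x => ?_)
      · exact (((hPm i α).pow_const 2).aestronglyMeasurable).mul
          ((hψ.1.norm).pow 2)
      · rw [Real.norm_eq_abs, abs_of_nonneg (mul_nonneg (sq_nonneg _) (sq_nonneg _)), ← mul_assoc]
        refine mul_le_mul_of_nonneg_right ?_ (sq_nonneg _)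
        refine le_trans ?_ (nP_sq hl hL y q x)
        have h2 : nP θ₁ θ₁' y q i α x ^ 2 ≤ ∑ α, nP θ₁ θ₁' y q i α x ^ 2 :=
          Finset.single_le_sum (f := fun α => nP θ₁ θ₁' y q i α x ^ 2)
            (fun α _ => sq_nonneg _) (Finset.mem_univ α)
        exact h2.trans (Finset.single_le_sum (f := fun i => ∑ α, nP θ₁ θ₁' y q i α x ^ 2)
          (fun i _ => Finset.sum_nonneg fun α _ => sq_nonneg _) (Finset.mem_univ i))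
    have h1 : ∑ i, ∑ α, ∫ x, nP θ₁ θ₁' y q i α x ^ 2 * ‖ψ x‖ ^ 2 ∂(piN ι)
        = ∫ x, ∑ i, ∑ α, nP θ₁ θ₁' y q i α x ^ 2 * ‖ψ x‖ ^ 2 ∂(piN ι) := by
      rw [integral_finsetSum _ (fun i _ => integrable_finsetSum _ fun α _ => hint i α)]
      refine Finset.sum_congr rfl fun i _ => ?_
      rw [integral_finsetSum _ (fun α _ => hint i α)]
    rw [h1, ← integral_const_mul]
    refine integral_mono (integrable_finsetSum _ fun i _ => integrable_finsetSum _ fun α _ =>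
      hint i α) ((F3_x hψ (hpow (2 * q - 1))).const_mul _) fun x => ?_
    dsimp only
    simp only [← Finset.sum_mul]
    rw [← mul_assoc]
    exact mul_le_mul_of_nonneg_right (nP_sq hl hL y q x) (sq_nonneg _)
  have e5 : (3 / l ^ 2 + Lam) * (∫ x, (nB l y x * nTh θ₁ y x ^ (2 * q)) * ‖ψ x‖ ^ 2 ∂(piN ι))
      = 3 / l ^ 2 * (∫ x, (nB l y x * nTh θ₁ y x ^ (2 * q)) * ‖ψ x‖ ^ 2 ∂(piN ι))
        + Lam * (∫ x, (nB l y x * nTh θ₁ y x ^ (2 * q)) * ‖ψ x‖ ^ 2 ∂(piN ι)) := by ring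
  rw [e5]
  linarith

theorem P07_rec {R₀ Lam l μ e κ : ℝ} {𝒱 : T3 → ℝ≥0∞} {ψ : (ι → T3) → ℂ}
    {g : ι → Fin 3 → (ι → T3) → ℂ} (hM : MiniG l Lam R₀ 𝒱 μ e ψ g) (hl : 0 < l) (hl8 : l ≤ 1 / 8)
    {θ₁ θ₂ : T3 → ℝ} {θ₁' θ₂' : Fin 3 → T3 → ℝ} (hL : Loc2 l θ₁ θ₂ θ₁' θ₂')
    (hθ₂ : ∀ x, 0 ≤ θ₂ x) {v : T3 → ℝ≥0∞}
    (hvm : Measurable v) (hle : ∀ᵐ z ∂lam3, R₀ ≤ rr z → v z ≤ 𝒱 z) {m : ℕ} (hm : 0 < m)
    (hκ : 0 ≤ κ) (hbox : ∀ b : Fin 3 → ℝ, BoxIneq (ENNReal.ofReal κ) v (tbox b (4 * l / m))) (q : ℕ) :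
    (κ * l ^ 2 - μ * l ^ 2 - 216) * Xm θ₁ ψ (2 * q + 1)
      ≤ κ * l ^ 2 * (m : ℝ) ^ 3 * Xm θ₁ ψ (2 * q) + 12 * (q : ℝ) ^ 2 * Xm θ₁ ψ (2 * q - 1)
        + (Fintype.card ι * (sig / 3 * (2 * l) ^ 3)) * Xm θ₁ ψ (2 * q)
        + (1 / 2 * (q : ℝ) ^ 2 * 4 ^ q * (1 + Fintype.card ι * (sig / 3 * (2 * l) ^ 3)))
          * (1 + Xm θ₁ ψ (2 * q)) := by
  have hψ := hM.fe.hg.mem
  obtain ⟨hn, hn0, hn1, hB⟩ := nTh_bm (ι := ι) hL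
  have hpow : ∀ k : ℕ, BM (fun p : T3 × (ι → T3) => nTh θ₁ p.1 p.2 ^ k) := fun k => hn.pow k
  have j1 := F3_y hψ (hpow (2 * q + 1))
  have j2 := F3_y hψ (hpow (2 * q))
  have j3 := F3_y hψ (hB.mul (hpow (2 * q)))
  have j4 := F3_y hψ (hpow (2 * q - 1))
  dsimp only at j1 j2 j3 j4
  obtain ⟨W, hW⟩ : ∃ W : ℝ, W = Fintype.card ι * (sig / 3 * (2 * l) ^ 3) := ⟨_, rfl⟩
  have hW0 : 0 ≤ W := by
    have := sig_pos
    rw [hW]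
    positivity
  obtain ⟨B, hBd⟩ : ∃ B : ℝ, B = 1 / 2 * (q : ℝ) ^ 2 * 4 ^ q * (1 + W) := ⟨_, rfl⟩
  have hB0 : 0 ≤ B := by
    rw [hBd]
    positivity
  rw [← hW, ← hBd]
  have hone : ∀ y : T3, (κ - μ) * (∫ x, nTh θ₁ y x ^ (2 * q + 1) * ‖ψ x‖ ^ 2 ∂(piN ι))
      - κ * (m : ℝ) ^ 3 * (∫ x, nTh θ₁ y x ^ (2 * q) * ‖ψ x‖ ^ 2 ∂(piN ι))
      - (3 / l ^ 2 + Lam) * (∫ x, (nB l y x * nTh θ₁ y x ^ (2 * q)) * ‖ψ x‖ ^ 2 ∂(piN ι))
      - Lam * W * (∫ x, nTh θ₁ y x ^ (2 * q) * ‖ψ x‖ ^ 2 ∂(piN ι))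
      ≤ 12 * (q : ℝ) ^ 2 / l ^ 2 * (∫ x, nTh θ₁ y x ^ (2 * q - 1) * ‖ψ x‖ ^ 2 ∂(piN ι))
        + (Lam * B + Lam * B * ∫ x, nTh θ₁ y x ^ (2 * q) * ‖ψ x‖ ^ 2 ∂(piN ι)) := by
    intro y
    have h1 := P07_one hM hl hl8 hL hθ₂ hvm hle hm hκ hbox q y
    rw [← hW, ← hBd] at h1
    linarith
  have k1 := (((j1.const_mul (κ - μ)).sub (j2.const_mul (κ * (m : ℝ) ^ 3))).sub
    (j3.const_mul (3 / l ^ 2 + Lam))).sub (j2.const_mul (Lam * W))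
  have k2 := (j4.const_mul (12 * (q : ℝ) ^ 2 / l ^ 2)).add
    ((integrable_const (Lam * B)).add (j2.const_mul (Lam * B)))
  have hmono := integral_mono k1 k2 hone
  have j12 : Integrable (fun y => (κ - μ) * (∫ x, nTh θ₁ y x ^ (2 * q + 1) * ‖ψ x‖ ^ 2 ∂(piN ι))
      - κ * (m : ℝ) ^ 3 * (∫ x, nTh θ₁ y x ^ (2 * q) * ‖ψ x‖ ^ 2 ∂(piN ι))) lam3 :=
    (j1.const_mul _).sub (j2.const_mul _)
  have j123 : Integrable (fun y => (κ - μ) * (∫ x, nTh θ₁ y x ^ (2 * q + 1) * ‖ψ x‖ ^ 2 ∂(piN ι))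
      - κ * (m : ℝ) ^ 3 * (∫ x, nTh θ₁ y x ^ (2 * q) * ‖ψ x‖ ^ 2 ∂(piN ι))
      - (3 / l ^ 2 + Lam) * (∫ x, (nB l y x * nTh θ₁ y x ^ (2 * q)) * ‖ψ x‖ ^ 2 ∂(piN ι))) lam3 :=
    j12.sub (j3.const_mul _)
  have eL : ∫ y, ((κ - μ) * (∫ x, nTh θ₁ y x ^ (2 * q + 1) * ‖ψ x‖ ^ 2 ∂(piN ι))
      - κ * (m : ℝ) ^ 3 * (∫ x, nTh θ₁ y x ^ (2 * q) * ‖ψ x‖ ^ 2 ∂(piN ι))
      - (3 / l ^ 2 + Lam) * (∫ x, (nB l y x * nTh θ₁ y x ^ (2 * q)) * ‖ψ x‖ ^ 2 ∂(piN ι))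
      - Lam * W * (∫ x, nTh θ₁ y x ^ (2 * q) * ‖ψ x‖ ^ 2 ∂(piN ι))) ∂lam3
      = (κ - μ) * Xm θ₁ ψ (2 * q + 1) - κ * (m : ℝ) ^ 3 * Xm θ₁ ψ (2 * q)
        - (3 / l ^ 2 + Lam)
          * (∫ y, ∫ x, (nB l y x * nTh θ₁ y x ^ (2 * q)) * ‖ψ x‖ ^ 2 ∂(piN ι) ∂lam3)
        - Lam * W * Xm θ₁ ψ (2 * q) := by
    rw [integral_sub j123 (j2.const_mul _), integral_sub j12 (j3.const_mul _),
      integral_sub (j1.const_mul _) (j2.const_mul _), integral_const_mul, integral_const_mul,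
      integral_const_mul, integral_const_mul]
    rfl
  have eR : ∫ y, (12 * (q : ℝ) ^ 2 / l ^ 2
        * (∫ x, nTh θ₁ y x ^ (2 * q - 1) * ‖ψ x‖ ^ 2 ∂(piN ι))
        + (Lam * B + Lam * B * ∫ x, nTh θ₁ y x ^ (2 * q) * ‖ψ x‖ ^ 2 ∂(piN ι))) ∂lam3
      = 12 * (q : ℝ) ^ 2 / l ^ 2 * Xm θ₁ ψ (2 * q - 1) + Lam * B * (1 + Xm θ₁ ψ (2 * q)) := by
    have j5 : Integrable (fun y : T3 => Lam * B
        + Lam * B * ∫ x, nTh θ₁ y x ^ (2 * q) * ‖ψ x‖ ^ 2 ∂(piN ι)) lam3 :=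
      (integrable_const _).add (j2.const_mul _)
    have e0 : ∫ _y : T3, Lam * B ∂lam3 = Lam * B := by simp
    rw [integral_add (j4.const_mul _) j5, integral_add (integrable_const _) (j2.const_mul _), e0,
      integral_const_mul, integral_const_mul]
    unfold Xm
    ring
  have hmono2 := (eL.symm.le.trans hmono).trans eR.le
  have hcov : ∫ y, ∫ x, (nB l y x * nTh θ₁ y x ^ (2 * q)) * ‖ψ x‖ ^ 2 ∂(piN ι) ∂lam3
      ≤ 54 * Xm θ₁ ψ (2 * q + 1) := by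
    have s1 := F3_swap hψ (hB.mul (hpow (2 * q)))
    have s2 := F3_swap hψ (hpow (2 * q + 1))
    dsimp only at s1 s2
    unfold Xm
    rw [s1, s2, ← integral_const_mul]
    refine integral_mono (F3_x hψ (F3_avg (hB.mul (hpow (2 * q)))))
      ((F3_x hψ (F3_avg (hpow (2 * q + 1)))).const_mul _) fun x => ?_
    dsimp only
    rw [← mul_assoc]
    exact mul_le_mul_of_nonneg_right (cover hl hl8 hL (2 * q) x) (sq_nonneg _)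
  have hl2 : 0 < l ^ 2 := by positivity
  have h3l : 0 ≤ 3 / l ^ 2 + Lam := by
    have := hM.la0
    positivity
  have h5 := mul_le_mul_of_nonneg_left hcov h3l
  have hX1 := Xm_nonneg hL ψ (2 * q + 1)
  have hX2 := Xm_nonneg hL ψ (2 * q)
  have h6 : (κ - μ) * Xm θ₁ ψ (2 * q + 1) - κ * (m : ℝ) ^ 3 * Xm θ₁ ψ (2 * q)
      - (3 / l ^ 2 + Lam) * (54 * Xm θ₁ ψ (2 * q + 1)) - Lam * W * Xm θ₁ ψ (2 * q)
      ≤ 12 * (q : ℝ) ^ 2 / l ^ 2 * Xm θ₁ ψ (2 * q - 1) + Lam * B * (1 + Xm θ₁ ψ (2 * q)) := by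
    linarith
  have h7 := mul_le_mul_of_nonneg_left h6 hl2.le
  have e1 : l ^ 2 * ((κ - μ) * Xm θ₁ ψ (2 * q + 1) - κ * (m : ℝ) ^ 3 * Xm θ₁ ψ (2 * q)
      - (3 / l ^ 2 + Lam) * (54 * Xm θ₁ ψ (2 * q + 1)) - Lam * W * Xm θ₁ ψ (2 * q))
      = (κ * l ^ 2 - μ * l ^ 2 - 162) * Xm θ₁ ψ (2 * q + 1)
        - κ * l ^ 2 * (m : ℝ) ^ 3 * Xm θ₁ ψ (2 * q)
        - (Lam * l ^ 2) * (54 * Xm θ₁ ψ (2 * q + 1)) - (Lam * l ^ 2) * (W * Xm θ₁ ψ (2 * q)) := by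
    field_simp
    ring
  have e2 : l ^ 2 * (12 * (q : ℝ) ^ 2 / l ^ 2 * Xm θ₁ ψ (2 * q - 1)
        + Lam * B * (1 + Xm θ₁ ψ (2 * q)))
      = 12 * (q : ℝ) ^ 2 * Xm θ₁ ψ (2 * q - 1)
        + (Lam * l ^ 2) * (B * (1 + Xm θ₁ ψ (2 * q))) := by
    field_simp
  rw [e1, e2] at h7
  have hla : Lam * l ^ 2 ≤ 1 := hM.la1
  have g1 : (Lam * l ^ 2) * (54 * Xm θ₁ ψ (2 * q + 1)) ≤ 1 * (54 * Xm θ₁ ψ (2 * q + 1)) :=
    mul_le_mul_of_nonneg_right hla (by positivity)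
  have g2 : (Lam * l ^ 2) * (W * Xm θ₁ ψ (2 * q)) ≤ 1 * (W * Xm θ₁ ψ (2 * q)) :=
    mul_le_mul_of_nonneg_right hla (by positivity)
  have g3 : (Lam * l ^ 2) * (B * (1 + Xm θ₁ ψ (2 * q))) ≤ 1 * (B * (1 + Xm θ₁ ψ (2 * q))) :=
    mul_le_mul_of_nonneg_right hla (by positivity)
  linarith

theorem P07_alg {l : ℝ} {θ₁ θ₂ : T3 → ℝ} {θ₁' θ₂' : Fin 3 → T3 → ℝ}
    (hL : Loc2 l θ₁ θ₂ θ₁' θ₂') {ψ : (ι → T3) → ℂ} (hψ : MemLp ψ 2 (piN ι))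
    (h1 : ∫ x, ‖ψ x‖ ^ 2 ∂(piN ι) = 1) {K c₀ : ℝ} (hK : 0 ≤ K) (q : ℕ)
    (h : Xm θ₁ ψ (2 * q + 1) ≤ K * Xm θ₁ ψ (2 * q) + 12 * (q : ℝ) ^ 2 * Xm θ₁ ψ (2 * q - 1) + c₀) :
    Xm θ₁ ψ (2 * q + 1) ≤ 2 * (K * (4 * K) ^ (2 * q) + 12 * (q : ℝ) ^ 2 * (7 * (q : ℝ)) ^ (2 * q - 1))
      + 2 * c₀ := by
  have hy1 := Xm_young (K := K) (δ := 1 / 4) (c := K * (4 * K) ^ (2 * q)) (i := 2 * q)
    (j := 2 * q + 1) hL hψ h1 (by
      intro t ht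
      have ht1 : 0 ≤ t ^ (2 * q) := pow_nonneg ht _
      by_cases hc : 4 * K ≤ t
      · have h2 : 0 ≤ K * (4 * K) ^ (2 * q) := by positivity
        have h3 : K * t ^ (2 * q) ≤ t / 4 * t ^ (2 * q) :=
          mul_le_mul_of_nonneg_right (by linarith) ht1
        have h4 : 1 / 4 * t ^ (2 * q + 1) = t / 4 * t ^ (2 * q) := by ring
        rw [h4]
        linarith
      · have h2 : t ^ (2 * q) ≤ (4 * K) ^ (2 * q) := pow_le_pow_left₀ ht (not_le.mp hc).le _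
        have h3 := mul_le_mul_of_nonneg_left h2 hK
        have h4 : 0 ≤ 1 / 4 * t ^ (2 * q + 1) := by positivity
        linarith)
  have hy2 := Xm_young (K := 12 * (q : ℝ) ^ 2) (δ := 1 / 4)
    (c := 12 * (q : ℝ) ^ 2 * (7 * (q : ℝ)) ^ (2 * q - 1)) (i := 2 * q - 1)
    (j := 2 * q + 1) hL hψ h1 (by
      intro t ht
      rcases Nat.eq_zero_or_pos q with hq0 | hq0
      · rw [hq0]
        simp only [Nat.cast_zero]
        have h4 : 0 ≤ t ^ (2 * 0 + 1) := pow_nonneg ht _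
        nlinarith
      · have hqr : (0 : ℝ) < q := Nat.cast_pos.mpr hq0
        have ht1 : 0 ≤ t ^ (2 * q - 1) := pow_nonneg ht _
        have he : 2 * q + 1 = (2 * q - 1) + 2 := by omega
        by_cases hc : 7 * (q : ℝ) ≤ t
        · have h2 : 0 ≤ 12 * (q : ℝ) ^ 2 * (7 * (q : ℝ)) ^ (2 * q - 1) := by positivity
          have h5 : (7 * (q : ℝ)) ^ 2 ≤ t ^ 2 := pow_le_pow_left₀ (by positivity) hc 2
          have h3 : 12 * (q : ℝ) ^ 2 * t ^ (2 * q - 1) ≤ t ^ 2 / 4 * t ^ (2 * q - 1) :=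
            mul_le_mul_of_nonneg_right (by nlinarith) ht1
          have h4 : 1 / 4 * t ^ (2 * q + 1) = t ^ 2 / 4 * t ^ (2 * q - 1) := by
            rw [he, pow_add]
            ring
          rw [h4]
          linarith
        · have h2 : t ^ (2 * q - 1) ≤ (7 * (q : ℝ)) ^ (2 * q - 1) :=
            pow_le_pow_left₀ ht (not_le.mp hc).le _
          have h3 := mul_le_mul_of_nonneg_left h2 (show 0 ≤ 12 * (q : ℝ) ^ 2 by positivity)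
          have h4 : 0 ≤ 1 / 4 * t ^ (2 * q + 1) := by positivity
          linarith)
  linarith

theorem momentsG (θ cw Kμ : ℝ) (hθ : 1 ≤ θ) (hcw : 0 < cw) (hKμ : 0 ≤ Kμ) (q : ℕ) :
    ∃ C Y0 : ℝ, 0 < C ∧ 0 < Y0 ∧ ∀ Y : ℝ, 0 < Y → Y < Y0 → ∀ (l R a : ℝ) (w : ℝ → ℝ)
      (N : ℕ) (Lam R₀ e : ℝ) (𝒱 : T3 → ℝ≥0∞) (ψ : (Fin N → T3) → ℂ)
      (g : Fin N → Fin 3 → (Fin N → T3) → ℂ), Par θ cw Kμ Y l R a w N R₀ 𝒱 →
      MiniG l Lam R₀ 𝒱 (Kμ / l ^ 2) e ψ g →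
      ∀ (θ₁ θ₂ : T3 → ℝ) (θ₁' θ₂' : Fin 3 → T3 → ℝ), Loc2 l θ₁ θ₂ θ₁' θ₂' → (∀ x, 0 ≤ θ₂ x) →
      Xm θ₁ ψ (2 * q + 1) ≤ C * (Y⁻¹) ^ (2 * q + 1) := by
  obtain ⟨K₀, hK₀⟩ : ∃ K₀ : ℝ, K₀ = 67584 * (Kμ + 217) / cw := ⟨_, rfl⟩
  have hK₀p : 0 < K₀ := by
    rw [hK₀]
    positivity
  have hθ0 : 0 < θ := by linarith
  obtain ⟨D₁, hD₁⟩ : ∃ D₁ : ℝ, D₁ = 64 * θ * (Kμ + 217) * K₀ := ⟨_, rfl⟩
  have hD₁p : 0 < D₁ := by
    rw [hD₁]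
    positivity
  obtain ⟨B₀, hB₀⟩ : ∃ B₀ : ℝ, B₀ = 1 / 2 * (q : ℝ) ^ 2 * 4 ^ q := ⟨_, rfl⟩
  have hB₀p : 0 ≤ B₀ := by
    rw [hB₀]
    positivity
  obtain ⟨D, hD⟩ : ∃ D : ℝ, D = D₁ + 35 + 36 * B₀ := ⟨_, rfl⟩
  have hDp : 0 < D := by
    rw [hD]
    positivity
  refine ⟨2 * (D * (4 * D) ^ (2 * q) + 12 * (q : ℝ) ^ 2 * (7 * (q : ℝ)) ^ (2 * q - 1)) + 1 + 72 * B₀,
    min (min 1 K₀) (1 / (K₀ * θ ^ 3 + 1)), by positivity,
    lt_min (lt_min one_pos hK₀p) (by positivity), ?_⟩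
  intro Y hY hY0 l R a w N Lam R₀ e 𝒱 ψ g hP hM θ₁ θ₂ θ₁' θ₂' hL hθ₂
  have ha := hP.a_pos
  have haR := hP.a_le
  have hRa := hP.R_le
  have hla := hP.l_eq
  have hl8 := hP.l_le
  have hwm := hP.w_meas
  have hw0 := hP.w_nonneg
  have hwR := hP.w_le
  have hws := hP.w_zero
  have hwi := hP.w_int
  have hle := hP.w_V
  have hY1 : Y < 1 := (hY0.trans_le (min_le_left _ _)).trans_le (min_le_left _ _)
  have hYK : Y < K₀ := (hY0.trans_le (min_le_left _ _)).trans_le (min_le_right _ _)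
  have hYθ : K₀ * θ ^ 3 * Y ^ 2 ≤ 1 := by
    have h1 : Y < 1 / (K₀ * θ ^ 3 + 1) := hY0.trans_le (min_le_right _ _)
    rw [lt_div_iff₀ (by positivity)] at h1
    have h2 : Y ^ 2 ≤ Y := by nlinarith
    have h3 : K₀ * θ ^ 3 * Y ^ 2 ≤ K₀ * θ ^ 3 * Y := mul_le_mul_of_nonneg_left h2 (by positivity)
    nlinarith
  have hR : 0 < R := by linarith
  have hl : 0 < l := by
    rw [hla]
    positivity
  have haY : a = l * Y := by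
    rw [hla]
    field_simp
  obtain ⟨x, hx0, hx3⟩ : ∃ x : ℝ, 0 < x ∧ x ^ 3 = K₀ / Y := by
    refine ⟨(K₀ / Y) ^ ((1 : ℝ) / 3), Real.rpow_pos_of_pos (by positivity) _, ?_⟩
    rw [← Real.rpow_natCast, ← Real.rpow_mul (by positivity)]
    norm_num
  have hx1 : 1 ≤ x := by
    have h1 : (1 : ℝ) ^ 3 ≤ x ^ 3 := by
      rw [hx3, one_pow, le_div_iff₀ hY]
      linarith
    exact le_of_pow_le_pow_left₀ (by norm_num) hx0.le h1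
  obtain ⟨m, hm⟩ : ∃ m : ℕ, m = ⌈x⌉₊ := ⟨_, rfl⟩
  have hmx : x ≤ m := by
    rw [hm]
    exact Nat.le_ceil x
  have hm2 : (m : ℝ) ≤ 2 * x := by
    rw [hm]
    have h1 := (Nat.ceil_lt_add_one hx0.le).le
    linarith
  have hm1 : (1 : ℝ) ≤ m := hx1.trans hmx
  have hm0 : 0 < m := by
    have h1 : (0 : ℝ) < m := by linarith
    exact_mod_cast h1
  have hm0r : (0 : ℝ) < m := by linarith
  have hm3 : K₀ / Y ≤ (m : ℝ) ^ 3 := by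
    rw [← hx3]
    exact pow_le_pow_left₀ hx0.le hmx 3
  have hm3' : (m : ℝ) ^ 3 ≤ 8 * (K₀ / Y) := by
    rw [← hx3]
    have h1 := pow_le_pow_left₀ hm0r.le hm2 3
    have h2 : (2 * x) ^ 3 = 8 * x ^ 3 := by ring
    rw [h2] at h1
    exact h1
  have hxθ : x * θ * Y ≤ 1 := by
    have h1 : (x * θ * Y) ^ 3 ≤ 1 ^ 3 := by
      have h2 : (x * θ * Y) ^ 3 = x ^ 3 * θ ^ 3 * Y ^ 3 := by ring
      rw [h2, hx3, one_pow]
      have h3 : K₀ / Y * θ ^ 3 * Y ^ 3 = K₀ * θ ^ 3 * Y ^ 2 := by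
        field_simp
      rw [h3]
      exact hYθ
    exact le_of_pow_le_pow_left₀ (by norm_num) zero_le_one h1
  have hr : 2 * R ≤ 4 * l / m := by
    rw [le_div_iff₀ hm0r]
    have h1 : R * m ≤ (θ * a) * (2 * x) := mul_le_mul hRa hm2 hm0r.le (by positivity)
    have h2 : (θ * a) * (2 * x) = 2 * ((x * θ * Y) * l) := by
      rw [haY]
      ring
    have h3 : (x * θ * Y) * l ≤ 1 * l := mul_le_mul_of_nonneg_right hxθ hl.le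
    rw [h2] at h1
    linarith
  have hr2 : 4 * l / m ≤ 1 / 2 := by
    rw [div_le_iff₀ hm0r]
    linarith
  obtain ⟨κ, hκ⟩ : ∃ κ : ℝ, κ = cw * R / (1056 * (4 * l / m) ^ 3) := ⟨_, rfl⟩
  have hκ0 : 0 < κ := by
    rw [hκ]
    positivity
  have hκl : κ * l ^ 2 = cw * (R / a) * (Y * (m : ℝ) ^ 3) / 67584 := by
    rw [hκ, haY]
    field_simp
    ring
  have hRa1 : 1 ≤ R / a := by
    rw [one_le_div ha]
    exact haR
  have hRa2 : R / a ≤ θ := by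
    rw [div_le_iff₀ ha]
    exact hRa
  have hYm1 : K₀ ≤ Y * (m : ℝ) ^ 3 := by
    rw [div_le_iff₀ hY] at hm3
    linarith
  have hYm2 : Y * (m : ℝ) ^ 3 ≤ 8 * K₀ := by
    have h1 := mul_le_mul_of_nonneg_left hm3' hY.le
    have h2 : Y * (8 * (K₀ / Y)) = 8 * K₀ := by
      field_simp
    rw [h2] at h1
    exact h1
  have hcK : cw * K₀ = 67584 * (Kμ + 217) := by
    rw [hK₀]
    field_simp
  have hκ1 : Kμ + 217 ≤ κ * l ^ 2 := by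
    rw [hκl]
    have h1 : cw * K₀ ≤ cw * (R / a) * (Y * (m : ℝ) ^ 3) := by
      have h2 : cw * 1 ≤ cw * (R / a) := mul_le_mul_of_nonneg_left hRa1 hcw.le
      rw [mul_one] at h2
      exact mul_le_mul h2 hYm1 hK₀p.le (by positivity)
    rw [hcK] at h1
    linarith
  have hκ2 : κ * l ^ 2 ≤ 8 * θ * (Kμ + 217) := by
    rw [hκl]
    have h1 : cw * (R / a) * (Y * (m : ℝ) ^ 3) ≤ cw * θ * (8 * K₀) :=
      mul_le_mul (mul_le_mul_of_nonneg_left hRa2 hcw.le) hYm2 (by positivity) (by positivity)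
    have h2 : cw * θ * (8 * K₀) = 8 * θ * (cw * K₀) := by ring
    rw [h2, hcK] at h1
    linarith
  have hbox : ∀ b : Fin 3 → ℝ, BoxIneq (ENNReal.ofReal κ)
      (fun y => ENNReal.ofReal (w (rr y))) (tbox b (4 * l / m)) := by
    intro b
    rw [hκ]
    exact box_torus hwm hw0 hR hcw hwR hws hwi hr hr2
  have hrec := P07_rec hM hl hl8 hL hθ₂ ((hwm.comp rr_measurable).ennreal_ofReal) hle hm0 hκ0.le
    hbox q
  have hmul : Kμ / l ^ 2 * l ^ 2 = Kμ := by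
    field_simp
  rw [hmul] at hrec
  obtain ⟨W, hW⟩ : ∃ W : ℝ, W = (Fintype.card (Fin N) : ℝ) * (sig / 3 * (2 * l) ^ 3) := ⟨_, rfl⟩
  rw [← hW, ← hB₀] at hrec
  have hNl : (N : ℝ) * l ^ 3 = Y⁻¹ := by
    have h1 := hP.N_eq
    have h2 : l ^ 3 = a ^ 3 / Y ^ 3 := by
      rw [hla, div_pow]
    rw [h2]
    have h3 : (N : ℝ) * (a ^ 3 / Y ^ 3) = (N : ℝ) * a ^ 3 / Y ^ 3 := by ring
    rw [h3, h1]
    field_simp
  have hW35 : W ≤ 35 / Y := by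
    have h1 : W = (8 * sig / 3) * ((N : ℝ) * l ^ 3) := by
      rw [hW, Fintype.card_fin]
      ring
    rw [h1, hNl, H3_sig, div_eq_mul_inv 35 Y]
    refine mul_le_mul_of_nonneg_right ?_ (inv_nonneg.2 hY.le)
    have := Real.pi_lt_d2
    linarith
  have hY1' : 1 ≤ 1 / Y := by
    rw [le_div_iff₀ hY]
    linarith
  have hW36 : 1 + W ≤ 36 / Y := by
    have h1 : 36 / Y = 1 / Y + 35 / Y := by ring
    rw [h1]
    linarith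
  have hX0 := Xm_nonneg hL ψ (2 * q + 1)
  have hX1 := Xm_nonneg hL ψ (2 * q)
  have hK' : κ * l ^ 2 * (m : ℝ) ^ 3 ≤ D₁ / Y := by
    have h1 : κ * l ^ 2 * (m : ℝ) ^ 3 ≤ 8 * θ * (Kμ + 217) * (8 * (K₀ / Y)) :=
      mul_le_mul hκ2 hm3' (by positivity) (by positivity)
    refine h1.trans (le_of_eq ?_)
    rw [hD₁]
    ring
  have hstep : Xm θ₁ ψ (2 * q + 1) ≤ D / Y * Xm θ₁ ψ (2 * q)
      + 12 * (q : ℝ) ^ 2 * Xm θ₁ ψ (2 * q - 1) + 36 * B₀ / Y := by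
    have h1 : 1 * Xm θ₁ ψ (2 * q + 1) ≤ (κ * l ^ 2 - Kμ - 216) * Xm θ₁ ψ (2 * q + 1) :=
      mul_le_mul_of_nonneg_right (by linarith) hX0
    have h2 := mul_le_mul_of_nonneg_right hK' hX1
    have h3 := mul_le_mul_of_nonneg_right hW35 hX1
    have h4 : B₀ * (1 + W) * (1 + Xm θ₁ ψ (2 * q)) ≤ B₀ * (36 / Y) * (1 + Xm θ₁ ψ (2 * q)) :=
      mul_le_mul_of_nonneg_right (mul_le_mul_of_nonneg_left hW36 hB₀p) (by linarith)
    have e3 : D / Y * Xm θ₁ ψ (2 * q) = D₁ / Y * Xm θ₁ ψ (2 * q) + 35 / Y * Xm θ₁ ψ (2 * q)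
        + 36 * B₀ / Y * Xm θ₁ ψ (2 * q) := by
      rw [hD]
      ring
    have e4 : B₀ * (36 / Y) * (1 + Xm θ₁ ψ (2 * q)) = 36 * B₀ / Y * Xm θ₁ ψ (2 * q)
        + 36 * B₀ / Y := by ring
    rw [e3]
    rw [e4] at h4
    linarith
  have hfin := P07_alg hL hM.fe.hg.mem hM.nrm (K := D / Y) (by positivity) q hstep
  refine hfin.trans ?_
  have hYi : 1 ≤ (Y⁻¹) ^ (2 * q + 1) := one_le_pow₀ ((one_le_inv₀ hY).mpr hY1.le)
  have e1 : D / Y * (4 * (D / Y)) ^ (2 * q) = D * (4 * D) ^ (2 * q) * (Y⁻¹) ^ (2 * q + 1) := by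
    rw [pow_succ, div_eq_mul_inv, ← mul_assoc 4, mul_pow]
    ring
  rw [e1]
  have h3 : 0 ≤ 12 * (q : ℝ) ^ 2 * (7 * (q : ℝ)) ^ (2 * q - 1) := by positivity
  have h4 := mul_le_mul_of_nonneg_left hYi h3
  rw [mul_one] at h4
  have h5 : 0 ≤ (Y⁻¹) ^ (2 * q + 1) := by positivity
  have h6 : 36 * B₀ / Y ≤ 36 * B₀ * (Y⁻¹) ^ (2 * q + 1) := by
    rw [div_eq_mul_inv]
    refine mul_le_mul_of_nonneg_left ?_ (by positivity)
    have h7 : (1 : ℝ) ≤ (Y⁻¹) ^ (2 * q) := one_le_pow₀ ((one_le_inv₀ hY).mpr hY1.le)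
    have h8 : 0 ≤ Y⁻¹ := inv_nonneg.2 hY.le
    calc Y⁻¹ = 1 * Y⁻¹ := (one_mul _).symm
      _ ≤ (Y⁻¹) ^ (2 * q) * Y⁻¹ := mul_le_mul_of_nonneg_right h7 h8
      _ = (Y⁻¹) ^ (2 * q + 1) := (pow_succ _ _).symm
  have e2 : (2 * (D * (4 * D) ^ (2 * q) + 12 * (q : ℝ) ^ 2 * (7 * (q : ℝ)) ^ (2 * q - 1)) + 1
      + 72 * B₀) * (Y⁻¹) ^ (2 * q + 1)
      = 2 * (D * (4 * D) ^ (2 * q) * (Y⁻¹) ^ (2 * q + 1))
        + 2 * (12 * (q : ℝ) ^ 2 * (7 * (q : ℝ)) ^ (2 * q - 1) * (Y⁻¹) ^ (2 * q + 1))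
        + (Y⁻¹) ^ (2 * q + 1) + 2 * (36 * B₀ * (Y⁻¹) ^ (2 * q + 1)) := by ring
  rw [e2]
  linarith

theorem hk_momentsG (θ cw Kμ : ℝ) (hθ : 1 ≤ θ) (hcw : 0 < cw) (hKμ : 0 ≤ Kμ) (p : ℕ) :
    ∃ C Y0 : ℝ, 0 < C ∧ 0 < Y0 ∧ ∀ Y : ℝ, 0 < Y → Y < Y0 → ∀ (l R a : ℝ) (w : ℝ → ℝ)
      (N : ℕ) (Lam R₀ e : ℝ) (𝒱 : T3 → ℝ≥0∞) (ψ : (Fin N → T3) → ℂ)
      (g : Fin N → Fin 3 → (Fin N → T3) → ℂ), Par θ cw Kμ Y l R a w N R₀ 𝒱 →
      MiniG l Lam R₀ 𝒱 (Kμ / l ^ 2) e ψ g →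
      ∫ y, ∫ x, (∑ i, hk (2 * l ^ 2) (y - x i)) ^ p * ‖ψ x‖ ^ 2 ∂(piN (Fin N)) ∂lam3
        ≤ C * (N : ℝ) ^ p := by
  obtain ⟨C, Y0, hC, hY0, hmom⟩ := momentsG θ cw Kμ hθ hcw hKμ p
  refine ⟨1 + C, Y0, by linarith, hY0, ?_⟩
  intro Y hY hYY l R a w N Lam R₀ e 𝒱 ψ g hP hM
  have ha := hP.a_pos
  have hl : 0 < l := by rw [hP.l_eq]; exact div_pos ha hY
  have hs : (0:ℝ) < 2 * l ^ 2 := by positivity
  obtain ⟨θ₁, θ₂, θ₁', θ₂', hL, hθ₂⟩ := exists_Loc2' hl hP.l_le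
  have hX := hmom Y hY hYY l R a w N Lam R₀ e 𝒱 ψ g hP hM θ₁ θ₂ θ₁' θ₂' hL hθ₂
  set P : ℕ := 2 * p + 1 with hPdef
  set ρ : (Fin N → T3) → ℝ := fun x => ‖ψ x‖ ^ 2 with hρdef
  have hρ0 : ∀ x, 0 ≤ ρ x := fun x => by positivity
  have hρi : Integrable ρ (piN (Fin N)) := hM.fe.hg.mem.integrable_norm_pow (by norm_num)
  have hρ1 : ∫ x, ρ x ∂(piN (Fin N)) = 1 := hM.nrm
  have hSb : BM (fun q : T3 × (Fin N → T3) => ∑ i, hk (2 * l ^ 2) (q.1 - q.2 i)) := H4_S_bm hs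
  obtain ⟨hnb, hn0, hn1⟩ := nTh_bm (ι := Fin N) hL
  have hNpos : (0:ℝ) < N := by
    have h1 : (N : ℝ) * a ^ 3 = Y ^ 2 := hP.N_eq
    have h2 : 0 < Y ^ 2 := by positivity
    rw [← h1] at h2
    exact (pos_iff_pos_of_mul_pos h2).mpr (by positivity)
  have hlN : (l⁻¹) ^ 3 * Y⁻¹ = N := by
    have h1 : (N : ℝ) * a ^ 3 = Y ^ 2 := hP.N_eq
    rw [hP.l_eq]
    have : (N : ℝ) = Y ^ 2 / a ^ 3 := by rw [← h1]; field_simp
    rw [this]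
    field_simp
  -- the high moment
  have hSP := H4_int (hSb.pow P) hρi
  have hNP := H4_int (hnb.pow P) hρi
  have hkey : ∫ y, ∫ x, (∑ i, hk (2 * l ^ 2) (y - x i)) ^ P * ρ x ∂(piN (Fin N)) ∂lam3
      ≤ C * (N : ℝ) ^ P := by
    have e1 : ∫ y, ∫ x, (∑ i, hk (2 * l ^ 2) (y - x i)) ^ P * ρ x ∂(piN (Fin N)) ∂lam3
        = ∫ x, (∫ y, (∑ i, hk (2 * l ^ 2) (y - x i)) ^ P ∂lam3) * ρ x ∂(piN (Fin N)) := by
      rw [integral_integral_swap hSP]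
      refine integral_congr_ae (Filter.Eventually.of_forall fun x => ?_)
      exact integral_mul_const _ _
    have e2 : Xm θ₁ ψ P = ∫ x, (∫ y, nTh θ₁ y x ^ P ∂lam3) * ρ x ∂(piN (Fin N)) := by
      unfold Xm
      rw [integral_integral_swap hNP]
      refine integral_congr_ae (Filter.Eventually.of_forall fun x => ?_)
      exact integral_mul_const _ _
    have i1 : Integrable (fun x => (∫ y, (∑ i, hk (2 * l ^ 2) (y - x i)) ^ P ∂lam3) * ρ x)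
        (piN (Fin N)) := by
      have h := hSP.integral_prod_right
      refine h.congr (Filter.Eventually.of_forall fun x => ?_)
      exact integral_mul_const (ρ x) (fun y => (∑ i, hk (2 * l ^ 2) (y - x i)) ^ P)
    have i2 : Integrable (fun x => (∫ y, nTh θ₁ y x ^ P ∂lam3) * ρ x) (piN (Fin N)) := by
      have h := hNP.integral_prod_right
      refine h.congr (Filter.Eventually.of_forall fun x => ?_)
      exact integral_mul_const (ρ x) (fun y => nTh θ₁ y x ^ P)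
    rw [e1]
    calc ∫ x, (∫ y, (∑ i, hk (2 * l ^ 2) (y - x i)) ^ P ∂lam3) * ρ x ∂(piN (Fin N))
        ≤ ∫ x, ((l⁻¹) ^ 3) ^ P * ((∫ y, nTh θ₁ y x ^ P ∂lam3) * ρ x) ∂(piN (Fin N)) := by
          refine integral_mono i1 (i2.const_mul _) fun x => ?_
          have h := mul_le_mul_of_nonneg_right (jensen_loc hl hP.l_le hL P x) (hρ0 x)
          simpa only [mul_assoc] using h
      _ = ((l⁻¹) ^ 3) ^ P * Xm θ₁ ψ P := by rw [integral_const_mul, ← e2]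
      _ ≤ ((l⁻¹) ^ 3) ^ P * (C * (Y⁻¹) ^ P) :=
          mul_le_mul_of_nonneg_left hX (by positivity)
      _ = C * ((l⁻¹) ^ 3 * Y⁻¹) ^ P := by rw [mul_pow]; ring
      _ = C * (N : ℝ) ^ P := by rw [hlN]
  -- interpolation
  have hSp := H4_int (hSb.pow p) hρi
  have hpt : ∀ (y : T3) (x : Fin N → T3), (∑ i, hk (2 * l ^ 2) (y - x i)) ^ p * ρ x
      ≤ (N : ℝ) ^ p * ρ x
        + (N : ℝ) ^ p * ((N : ℝ)⁻¹) ^ P * ((∑ i, hk (2 * l ^ 2) (y - x i)) ^ P * ρ x) := by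
    intro y x
    set S := ∑ i, hk (2 * l ^ 2) (y - x i) with hS
    have hS0 : 0 ≤ S := Finset.sum_nonneg fun i _ => hk_nonneg _ _
    have h1 := H4_pow_le (t := (N : ℝ)⁻¹ * S) (by positivity) p
    have h2 : S ^ p = (N : ℝ) ^ p * ((N : ℝ)⁻¹ * S) ^ p := by
      rw [← mul_pow, mul_inv_cancel_left₀ hNpos.ne']
    have h3 : S ^ p ≤ (N : ℝ) ^ p * (1 + ((N : ℝ)⁻¹ * S) ^ P) := by
      rw [h2]; exact mul_le_mul_of_nonneg_left h1 (by positivity)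
    calc S ^ p * ρ x ≤ ((N : ℝ) ^ p * (1 + ((N : ℝ)⁻¹ * S) ^ P)) * ρ x :=
          mul_le_mul_of_nonneg_right h3 (hρ0 x)
      _ = _ := by rw [mul_pow]; ring
  have j1 : Integrable (fun y => ∫ x, (∑ i, hk (2 * l ^ 2) (y - x i)) ^ p * ρ x ∂(piN (Fin N)))
      lam3 := hSp.integral_prod_left
  have j2 : Integrable (fun y => ∫ x, (∑ i, hk (2 * l ^ 2) (y - x i)) ^ P * ρ x ∂(piN (Fin N)))
      lam3 := hSP.integral_prod_left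
  have hstep : ∀ᵐ y ∂lam3, ∫ x, (∑ i, hk (2 * l ^ 2) (y - x i)) ^ p * ρ x ∂(piN (Fin N))
      ≤ (N : ℝ) ^ p + (N : ℝ) ^ p * ((N : ℝ)⁻¹) ^ P
          * ∫ x, (∑ i, hk (2 * l ^ 2) (y - x i)) ^ P * ρ x ∂(piN (Fin N)) := by
    filter_upwards [hSp.prod_right_ae, hSP.prod_right_ae] with y k1 k2
    have := integral_mono k1 ((hρi.const_mul ((N : ℝ) ^ p)).add
      (k2.const_mul ((N : ℝ) ^ p * ((N : ℝ)⁻¹) ^ P))) (hpt y)
    refine this.trans (le_of_eq ?_)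
    have h3 := integral_add (hρi.const_mul ((N : ℝ) ^ p))
      (k2.const_mul ((N : ℝ) ^ p * ((N : ℝ)⁻¹) ^ P))
    simp only [Pi.add_apply] at h3 ⊢
    rw [h3, integral_const_mul, integral_const_mul, hρ1, mul_one]
  calc ∫ y, ∫ x, (∑ i, hk (2 * l ^ 2) (y - x i)) ^ p * ‖ψ x‖ ^ 2 ∂(piN (Fin N)) ∂lam3
      ≤ ∫ y, ((N : ℝ) ^ p + (N : ℝ) ^ p * ((N : ℝ)⁻¹) ^ P
          * ∫ x, (∑ i, hk (2 * l ^ 2) (y - x i)) ^ P * ρ x ∂(piN (Fin N))) ∂lam3 :=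
        integral_mono_ae j1 ((integrable_const _).add (j2.const_mul _)) hstep
    _ = (N : ℝ) ^ p + (N : ℝ) ^ p * ((N : ℝ)⁻¹) ^ P
          * ∫ y, ∫ x, (∑ i, hk (2 * l ^ 2) (y - x i)) ^ P * ρ x ∂(piN (Fin N)) ∂lam3 := by
        rw [integral_add (integrable_const _) (j2.const_mul _), integral_const_mul]
        simp
    _ ≤ (N : ℝ) ^ p + (N : ℝ) ^ p * ((N : ℝ)⁻¹) ^ P * (C * (N : ℝ) ^ P) := by
        gcongr
    _ = (1 + C) * (N : ℝ) ^ p := by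
        have : ((N : ℝ)⁻¹) ^ P * (N : ℝ) ^ P = 1 := by
          rw [← mul_pow, inv_mul_cancel₀ hNpos.ne', one_pow]
        linear_combination (N : ℝ) ^ p * C * this

end Pool.Agent.Lib.MP_4952d6_mp.LG
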