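import Pool.Agent.Lib.MP_4952d6_mp.Pq.P04
import Pool.Agent.Lib.MP_4952d6_mp.Pq.P05
import Pool.Agent.Lib.MP_4952d6_mp.Pk.G54

/-!
# Pq.P08 (leaf G): heat flow for gapped minimisers

`heat_ineqG`: model `heat_ineq` (Pk/G50 l.143-290). `min_idG` for `Z`: `bG Z + Lam ∑ᵢ bq i Z = e ∫ Z ‖ψ‖²`. For `i ∉ T`: `Z (update x i z) = Z x`, `bq_indep` and `gqW_eq`, so
`slice_energyG` (`w = ofReal Z`) bounds `K + P + Lam ∑_{i ∉ T} bq i` from below by `(e - d) ∫ Z ‖ψ‖²`. For `i ∈ T`: `bq_ge`.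
`heat_monoG`: `kT T r y x = ∏_{i ∈ T} (hk (r i) (y - x i) + 1) = ∑_{S ⊆ T} ZT S r y x` (`Finset.prod_add_one` or `prod_one_add`); with `h_S = ∫ ZT S (r + t) y ‖ψ‖²`,
`∫_z ZT T r y (update x i z) dz = ZT (T.erase i) r y x` (`hk_integral`), `heat_ineqG` (`d = |S| μ`): `-h_S' ≤ 2 |S| μ h_S + Lam ∑_{i∈S} h_{S.erase i}`, hence
`-(∑_{S⊆T} h_S)' ≤ |T| (2μ + Lam) ∑_{S⊆T} h_S` (each `S' = S.erase i` arises from at most `|T|` pairs). Then as in `heat_mono` (Pk/G54 l.1090).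
`heat_elSG`: model `heat_elS` (Pk/G54 l.1225) with `hk + 1` instead of `hk`.
-/

set_option autoImplicit false
set_option linter.unusedSectionVars false
set_option linter.unusedVariables false
open MeasureTheory Function Filter Topology Set ComplexConjugate
open scoped ENNReal

namespace Pool.Agent.Lib.MP_4952d6_mp.LG

open LA

variable {ι : Type*} [Fintype ι] [DecidableEq ι]

theorem P08_int {X : Type*} [MeasurableSpace X] {μ : Measure X} {Z f : X → ℝ}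
    (hZ : AEStronglyMeasurable Z μ) {C : ℝ} (hC : ∀ᵐ x ∂μ, ‖Z x‖ ≤ C) (hf : Integrable f μ) :
    Integrable (fun x => Z x * f x) μ :=
  hf.bdd_mul hZ hC

theorem P08_conj_int {X : Type*} [MeasurableSpace X] {μ : Measure X} {f g : X → ℂ}
    (hf : MemLp f 2 μ) (hg : MemLp g 2 μ) : Integrable (fun x => conj (f x) * g x) μ := by
  have hc : MemLp (fun x => conj (f x)) 2 μ := by
    refine hf.of_le_mul (c := 1) (Complex.continuous_conj.comp_aestronglyMeasurable hf.1) ?_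
    exact Eventually.of_forall fun x => by simp
  exact MemLp.integrable_mul hc hg

theorem heat_ineqG {R₀ Lam : ℝ} {𝒱 : T3 → ℝ≥0∞} (hv : AEMeasurable 𝒱 lam3)
    (hev : ∀ y, 𝒱 (-y) = 𝒱 y) (hLam : 0 ≤ Lam)
    {ψ : (ι → T3) → ℂ} {g : ι → Fin 3 → (ι → T3) → ℂ} (h : FE R₀ 𝒱 ψ g) {T : Finset ι}
    {Z : (ι → T3) → ℝ} {Z' Z'' : ι → Fin 3 → (ι → T3) → ℝ} (w : WDN Z Z')
    (w' : ∀ i α, WD (piN ι) (tauN i α) (Z' i α) (Z'' i α)) (hZ : ∀ x, 0 ≤ Z x) (hZm : Measurable Z)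
    (hdep : ∀ x y : ι → T3, (∀ i ∈ T, x i = y i) → Z x = Z y)
    {e : ℝ} (he : 0 ≤ e)
    (hmin : ∀ (φ : (ι → T3) → ℂ) (f : ι → Fin 3 → (ι → T3) → ℂ), HG φ f → Core R₀ φ →
      ENNReal.ofReal e * ∫⁻ x, ‖φ x‖ₑ ^ 2 ∂(piN ι)
        ≤ eS 𝒱 Finset.univ φ f + ENNReal.ofReal Lam * ∑ i, gq i φ)
    (heq : rE 𝒱 Finset.univ ψ g + Lam * ∑ i, rq i ψ = e * ∫ x, ‖ψ x‖ ^ 2 ∂(piN ι)) {d : ℝ}
    (hd : 0 ≤ d) (hE : ENNReal.ofReal (e - d) ≤ E0G R₀ 𝒱 Lam Tᶜ.card) :
    - ∫ x, (∑ i, ∑ α, Z'' i α x) * ‖ψ x‖ ^ 2 ∂(piN ι)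
      ≤ 2 * d * (∫ x, Z x * ‖ψ x‖ ^ 2 ∂(piN ι))
        + Lam * ∑ i ∈ T, ∫ x, (∫ z, Z (update x i z) ∂lam3) * ‖ψ x‖ ^ 2 ∂(piN ι) := by
  have hid := min_idG hv h hLam w he hmin heq
  have hZB : BM Z := A5_bm w
  -- the case of no particle is included: `Z` is bounded as soon as there is one particle
  obtain ⟨hPi, -, -⟩ := rE_eq hv h.hg h.fin
  -- bounds
  have hb' : ∀ i α, ∃ C, 0 ≤ C ∧ ∀ x, ‖Z' i α x‖ ≤ C := fun i α => (w' i α).exists_bdd
  have hb'' : ∀ i α, ∃ C, 0 ≤ C ∧ ∀ᵐ x ∂(piN ι), ‖Z'' i α x‖ ≤ C := fun i α => (w' i α).bound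
  obtain ⟨C, hC⟩ : ∃ C, ∀ x, ‖Z x‖ ≤ C := by
    rcases isEmpty_or_nonempty ι with hι | hι
    · exact ⟨‖Z (fun i => (hι.false i).elim)‖, fun x => by
        have : x = (fun i => (hι.false i).elim) := funext fun i => (hι.false i).elim
        rw [this]⟩
    · obtain ⟨i⟩ := hι
      obtain ⟨C, -, hC⟩ := (w i 0).exists_bdd
      exact ⟨C, hC⟩
  have hCae : ∀ᵐ x ∂(piN ι), ‖Z x‖ ≤ C := Eventually.of_forall hC
  have hZs : AEStronglyMeasurable Z (piN ι) := hZm.aestronglyMeasurable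
  have iA : ∀ i α, Integrable (fun x => Z x * ‖g i α x‖ ^ 2) (piN ι) := fun i α =>
    P08_int hZs hCae (int_sq (h.hg.gmem i α))
  have iB : ∀ i α, Integrable (fun x => Z' i α x * (conj (ψ x) * g i α x).re) (piN ι) := fun i α => by
    obtain ⟨C', -, hC'⟩ := hb' i α
    exact P08_int (w' i α).sm.aestronglyMeasurable (Eventually.of_forall hC')
      (P08_conj_int h.hg.mem (h.hg.gmem i α)).re
  have iC : ∀ i α, Integrable (fun x => Z'' i α x * ‖ψ x‖ ^ 2) (piN ι) := fun i α => by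
    obtain ⟨C', -, hC'⟩ := hb'' i α
    exact P08_int (w' i α).aesm_deriv hC' (int_sq h.hg.mem)
  have iN : Integrable (fun x => Z x * ‖ψ x‖ ^ 2) (piN ι) := P08_int hZs hCae (int_sq h.hg.mem)
  have iP : Integrable (fun x => Z x * ((potS 𝒱 Finset.univ x).toReal * ‖ψ x‖ ^ 2)) (piN ι) :=
    P08_int hZs hCae hPi
  -- the identity
  have hbG : bG 𝒱 ψ g Z Z' = (∑ i, ∑ α, ∫ x, Z x * ‖g i α x‖ ^ 2 ∂(piN ι))
      + (-(1 / 2)) * (∑ i, ∑ α, ∫ x, Z'' i α x * ‖ψ x‖ ^ 2 ∂(piN ι))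
      + ∫ x, Z x * ((potS 𝒱 Finset.univ x).toReal * ‖ψ x‖ ^ 2) ∂(piN ι) := by
    unfold bG
    congr 1
    rw [Finset.mul_sum, ← Finset.sum_add_distrib]
    refine Finset.sum_congr rfl fun i _ => ?_
    rw [Finset.mul_sum, ← Finset.sum_add_distrib]
    refine Finset.sum_congr rfl fun α _ => ?_
    rw [integral_add (iA i α) (iB i α), ibp_sq h.hg i α (w' i α)]
  have hsum : ∫ x, (∑ i, ∑ α, Z'' i α x) * ‖ψ x‖ ^ 2 ∂(piN ι)
      = ∑ i, ∑ α, ∫ x, Z'' i α x * ‖ψ x‖ ^ 2 ∂(piN ι) := by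
    simp_rw [Finset.sum_mul]
    rw [integral_finsetSum _ fun i _ => integrable_finsetSum _ fun α _ => iC i α]
    refine Finset.sum_congr rfl fun i _ => ?_
    rw [integral_finsetSum _ fun α _ => iC i α]
  -- the gap terms
  have hbT : ∀ i ∈ T, -(1 / 2 * ∫ x, (∫ z, Z (update x i z) ∂lam3) * ‖ψ x‖ ^ 2 ∂(piN ι))
      ≤ bq i ψ Z := fun i _ => bq_ge h.hg.mem i hZB hZ
  have hdi : ∀ i ∈ Tᶜ, ∀ (x : ι → T3) (z : T3), Z (update x i z) = Z x := by
    intro i hi x z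
    refine hdep _ _ fun j hj => ?_
    have hne : j ≠ i := by
      rintro rfl
      exact (Finset.mem_compl.1 hi) hj
    rw [update_of_ne hne]
  have hbC : ∀ i ∈ Tᶜ, bq i ψ Z
      = 1 / 2 * ∫ x, ∫ z, Z x * ‖ψ x - ψ (update x i z)‖ ^ 2 ∂lam3 ∂(piN ι) := fun i hi =>
    bq_indep h.hg.mem i hZB (hdi i hi)
  have hbC0 : ∀ i ∈ Tᶜ, 0 ≤ bq i ψ Z := fun i hi => by
    rw [hbC i hi]
    exact mul_nonneg (by norm_num) (integral_nonneg fun x => integral_nonneg fun z =>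
      mul_nonneg (hZ x) (sq_nonneg _))
  -- the lower bound by slices
  set K := ∑ i, ∑ α, ∫ x, Z x * ‖g i α x‖ ^ 2 ∂(piN ι) with hK
  set P := ∫ x, Z x * ((potS 𝒱 Finset.univ x).toReal * ‖ψ x‖ ^ 2) ∂(piN ι) with hP
  have hK0 : 0 ≤ K := Finset.sum_nonneg fun i _ => Finset.sum_nonneg fun α _ =>
    integral_nonneg fun x => mul_nonneg (hZ x) (sq_nonneg _)
  have hP0 : 0 ≤ P := integral_nonneg fun x =>
    mul_nonneg (hZ x) (mul_nonneg ENNReal.toReal_nonneg (sq_nonneg _))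
  have hN0 : 0 ≤ ∫ x, Z x * ‖ψ x‖ ^ 2 ∂(piN ι) := integral_nonneg fun x => mul_nonneg (hZ x) (sq_nonneg _)
  set B := ∑ i ∈ Tᶜ, bq i ψ Z with hB
  have hB0 : 0 ≤ B := Finset.sum_nonneg hbC0
  have hLB0 : 0 ≤ Lam * B := mul_nonneg hLam hB0
  have hlow : (e - d) * ∫ x, Z x * ‖ψ x‖ ^ 2 ∂(piN ι) ≤ K + P + Lam * B := by
    rcases le_or_gt (e - d) 0 with hneg | hpos
    · exact (mul_nonpos_of_nonpos_of_nonneg hneg hN0).trans (add_nonneg (add_nonneg hK0 hP0) hLB0)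
    have hs := slice_energyG (Lam := Lam) (S := T) hv hev (w := fun x => ENNReal.ofReal (Z x))
      hZm.ennreal_ofReal (fun x y hxy => by rw [hdep x y hxy]) h.hg h.core
    have l1 : ∀ f : (ι → T3) → ℂ, MemLp f 2 (piN ι) → ∫⁻ x, ENNReal.ofReal (Z x) * ‖f x‖ₑ ^ 2 ∂(piN ι)
        = ENNReal.ofReal (∫ x, Z x * ‖f x‖ ^ 2 ∂(piN ι)) := by
      intro f hf
      rw [ofReal_integral_eq_lintegral_ofReal (P08_int hZs hCae (int_sq hf))
        (Eventually.of_forall fun x => mul_nonneg (hZ x) (sq_nonneg _))]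
      refine lintegral_congr fun x => ?_
      rw [ENNReal.ofReal_mul (hZ x), ENNReal.ofReal_pow (norm_nonneg _), ofReal_norm]
    have l2 : ∫⁻ x, ENNReal.ofReal (Z x) * (potS 𝒱 Tᶜ x * ‖ψ x‖ₑ ^ 2) ∂(piN ι) ≤ ENNReal.ofReal P := by
      rw [hP, ofReal_integral_eq_lintegral_ofReal iP
        (Eventually.of_forall fun x => mul_nonneg (hZ x) (mul_nonneg ENNReal.toReal_nonneg (sq_nonneg _)))]
      have hfin : ∫⁻ x, potS 𝒱 Finset.univ x * ‖ψ x‖ₑ ^ 2 ∂(piN ι) < ⊤ := by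
        refine lt_of_le_of_lt ?_ h.fin
        unfold eS
        exact le_add_self
      have hae : ∀ᵐ x ∂(piN ι), potS 𝒱 Finset.univ x * ‖ψ x‖ₑ ^ 2 < ⊤ := by
        refine ae_lt_top' ?_ hfin.ne
        exact (aem_potS hv _).mul (h.hg.mem.1.enorm.pow_const 2)
      refine lintegral_mono_ae ?_
      filter_upwards [hae] with x hx
      rw [ENNReal.ofReal_mul (hZ x)]
      refine mul_le_mul_right ?_ _
      have h1 : potS 𝒱 Tᶜ x * ‖ψ x‖ₑ ^ 2 ≤ potS 𝒱 Finset.univ x * ‖ψ x‖ₑ ^ 2 :=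
        mul_le_mul_left (potS_mono (Finset.subset_univ _) x) _
      refine h1.trans (le_of_eq ?_)
      rw [ENNReal.ofReal_mul ENNReal.toReal_nonneg, ENNReal.ofReal_pow (norm_nonneg _), ofReal_norm]
      rcases eq_or_ne (ψ x) 0 with h0 | h0
      · simp [h0]
      · have : potS 𝒱 Finset.univ x ≠ ⊤ := by
          intro ht
          rw [ht, ENNReal.top_mul] at hx
          · exact lt_irrefl _ hx
          · exact pow_ne_zero _ (by simpa using h0)
        rw [ENNReal.ofReal_toReal this]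
    have l3 : eW 𝒱 Tᶜ (fun x => ENNReal.ofReal (Z x)) ψ g ≤ ENNReal.ofReal (K + P) := by
      rw [ENNReal.ofReal_add hK0 hP0]
      unfold eW
      refine add_le_add ?_ l2
      rw [hK, ENNReal.ofReal_sum_of_nonneg fun i _ => Finset.sum_nonneg fun α _ =>
        integral_nonneg fun x => mul_nonneg (hZ x) (sq_nonneg _)]
      refine (Finset.sum_le_sum_of_subset (Finset.subset_univ _)).trans (Finset.sum_le_sum fun i _ => ?_)
      rw [ENNReal.ofReal_sum_of_nonneg fun α _ =>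
        integral_nonneg fun x => mul_nonneg (hZ x) (sq_nonneg _)]
      exact Finset.sum_le_sum fun α _ => (l1 _ (h.hg.gmem i α)).le
    have l5 : ENNReal.ofReal Lam * ∑ i ∈ Tᶜ, gqW (fun x => ENNReal.ofReal (Z x)) i ψ
        = ENNReal.ofReal (Lam * B) := by
      rw [ENNReal.ofReal_mul hLam, hB, ENNReal.ofReal_sum_of_nonneg hbC0]
      congr 1
      refine Finset.sum_congr rfl fun i hi => ?_
      rw [hbC i hi, gqW_eq h.hg.mem i hZB hZ]
    have l4 : ENNReal.ofReal ((e - d) * ∫ x, Z x * ‖ψ x‖ ^ 2 ∂(piN ι))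
        ≤ ENNReal.ofReal (K + P + Lam * B) := by
      rw [ENNReal.ofReal_mul hpos.le, ← l1 _ h.hg.mem, ENNReal.ofReal_add (add_nonneg hK0 hP0) hLB0]
      refine (mul_le_mul_left hE _).trans (hs.trans ?_)
      exact add_le_add l3 l5.le
    exact (ENNReal.ofReal_le_ofReal_iff (add_nonneg (add_nonneg hK0 hP0) hLB0)).1 l4
  have hsplit : ∑ i, bq i ψ Z = (∑ i ∈ T, bq i ψ Z) + B := by
    rw [hB, Finset.sum_add_sum_compl]
  have hTsum : -(1 / 2 * ∑ i ∈ T, ∫ x, (∫ z, Z (update x i z) ∂lam3) * ‖ψ x‖ ^ 2 ∂(piN ι))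
      ≤ ∑ i ∈ T, bq i ψ Z := by
    rw [Finset.mul_sum, ← Finset.sum_neg_distrib]
    exact Finset.sum_le_sum hbT
  have hTL := mul_le_mul_of_nonneg_left hTsum hLam
  rw [hsum]
  rw [hbG, hsplit] at hid
  linarith

/-- product of `hk + 1` over the particles in `T` -/
noncomputable def kT {κ : Type*} (T : Finset κ) (r : κ → ℝ) (y : T3) (x : κ → T3) : ℝ :=
  ∏ i ∈ T, (hk (r i) (y - x i) + 1)

theorem P08_kT (T : Finset ι) (r : ι → ℝ) (y : T3) (x : ι → T3) :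
    kT T r y x = ∑ S ∈ T.powerset, ZT S r y x := by
  unfold kT ZT
  rw [Finset.prod_add_one]

/-- average over the position of one particle -/
theorem P08_avg {S : Finset ι} {r : ι → ℝ} {i : ι} (hi : i ∈ S) (hr : 0 < r i) (y : T3)
    (x : ι → T3) : ∫ z, ZT S r y (update x i z) ∂lam3 = ZT (S.erase i) r y x := by
  have h1 : ∀ z, ZT S r y (update x i z) = hk (r i) (y - z) * ZT (S.erase i) r y x := by
    intro z
    unfold ZT
    rw [← Finset.mul_prod_erase S _ hi, update_self]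
    congr 1
    refine Finset.prod_congr rfl fun j hj => ?_
    rw [update_of_ne (Finset.ne_of_mem_erase hj)]
  simp only [h1]
  rw [integral_mul_const, integral_sub_left_eq_self (fun z => hk (r i) z) lam3 y, hk_integral hr,
    one_mul]

/-- each subset arises at most once for each particle -/
theorem P08_comb (T : Finset ι) {a : Finset ι → ℝ} (ha : ∀ S, 0 ≤ a S) :
    ∑ S ∈ T.powerset, ∑ i ∈ S, a (S.erase i) ≤ (T.card : ℝ) * ∑ S ∈ T.powerset, a S := by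
  have h1 : ∑ S ∈ T.powerset, ∑ i ∈ S, a (S.erase i)
      = ∑ i ∈ T, ∑ S ∈ T.powerset with i ∈ S, a (S.erase i) := by
    refine Finset.sum_comm' fun S i => ?_
    simp only [Finset.mem_powerset, Finset.mem_filter]
    constructor
    · rintro ⟨h2, h3⟩
      exact ⟨⟨h2, h3⟩, h2 h3⟩
    · rintro ⟨⟨h2, h3⟩, -⟩
      exact ⟨h2, h3⟩
  rw [h1]
  have h2 : ∀ i ∈ T, ∑ S ∈ T.powerset with i ∈ S, a (S.erase i) ≤ ∑ S ∈ T.powerset, a S := by
    intro i hi
    have h3 : ∑ S ∈ T.powerset with i ∈ S, a (S.erase i)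
        = ∑ S ∈ (T.powerset.filter (fun S => i ∈ S)).image (fun S => S.erase i), a S := by
      rw [Finset.sum_image]
      intro S hS S' hS' h4
      have hS1 : i ∈ S := (Finset.mem_filter.1 hS).2
      have hS2 : i ∈ S' := (Finset.mem_filter.1 hS').2
      have h5 : S.erase i = S'.erase i := h4
      rw [← Finset.insert_erase hS1, ← Finset.insert_erase hS2, h5]
    rw [h3]
    refine Finset.sum_le_sum_of_subset_of_nonneg ?_ fun S _ _ => ha S
    intro S hS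
    obtain ⟨S', hS', rfl⟩ := Finset.mem_image.1 hS
    have h5 := Finset.mem_powerset.1 (Finset.mem_filter.1 hS').1
    exact Finset.mem_powerset.2 ((Finset.erase_subset _ _).trans h5)
  refine (Finset.sum_le_sum h2).trans (le_of_eq ?_)
  rw [Finset.sum_const, nsmul_eq_mul]

theorem heat_monoG {l Lam R₀ μ e : ℝ} {𝒱 : T3 → ℝ≥0∞} {ψ : (ι → T3) → ℂ}
    {g : ι → Fin 3 → (ι → T3) → ℂ} (hM : MiniG l Lam R₀ 𝒱 μ e ψ g) (T : Finset ι) {r : ι → ℝ}
    (hr : ∀ i, 0 < r i) (y : T3) {τ : ℝ} (hτ : 0 ≤ τ) :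
    ∫ x, kT T r y x * ‖ψ x‖ ^ 2 ∂(piN ι)
      ≤ Real.exp ((T.card : ℝ) * (2 * μ + Lam) * τ)
        * ∫ x, kT T (fun i => r i + τ) y x * ‖ψ x‖ ^ 2 ∂(piN ι) := by
  have hψ : MemLp ψ 2 (piN ι) := hM.fe.hg.mem
  have hψ1 : Integrable (fun x => ‖ψ x‖ ^ 2) (piN ι) := int_sq hψ
  have hrt : ∀ t : ℝ, 0 ≤ t → ∀ i, 0 < r i + t := fun t ht i => by
    have := hr i
    linarith
  -- the functions `h_S`
  obtain ⟨hS, hSd⟩ : ∃ hS : Finset ι → ℝ → ℝ, hS = fun S t =>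
    ∫ x, ZT S (fun i => r i + t) y x * ‖ψ x‖ ^ 2 ∂(piN ι) := ⟨_, rfl⟩
  obtain ⟨dS, dSd⟩ : ∃ dS : Finset ι → ℝ → ℝ, dS = fun S t =>
    ∫ x, (∑ i, ∑ α, ZTgg S (fun i => r i + t) y i α x) * ‖ψ x‖ ^ 2 ∂(piN ι) := ⟨_, rfl⟩
  have hS0 : ∀ S t, 0 ≤ hS S t := fun S t => by
    rw [hSd]
    exact integral_nonneg fun x => mul_nonneg (Finset.prod_nonneg fun i _ => hk_nonneg _ _)
      (sq_nonneg _)
  have hder1 : ∀ S (t : ℝ), 0 ≤ t → HasDerivAt (hS S) (dS S t) t := by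
    intro S t ht
    rw [hSd, dSd]
    exact g2_deriv hψ S (fun i _ => hr i) y ht
  have key : ∀ S (t : ℝ), 0 ≤ t →
      - dS S t ≤ 2 * ((S.card : ℝ) * μ) * hS S t + Lam * ∑ i ∈ S, hS (S.erase i) t := by
    intro S t ht
    have hrt' := hrt t ht
    have hZm : Measurable (ZT S (fun i => r i + t) y) := g2_Zmeas S _ y
    have hZ0 : ∀ x : ι → T3, 0 ≤ ZT S (fun i => r i + t) y x :=
      fun x => Finset.prod_nonneg fun i _ => hk_nonneg _ _
    have hZd : ∀ x x' : ι → T3, (∀ i ∈ S, x i = x' i) →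
        ZT S (fun i => r i + t) y x = ZT S (fun i => r i + t) y x' :=
      fun x x' hx => Finset.prod_congr rfl fun i hi => by rw [hx i hi]
    have hd : 0 ≤ (S.card : ℝ) * μ := mul_nonneg (Nat.cast_nonneg _) hM.mu0
    have h1 := heat_ineqG hM.hv hM.hev hM.la0 hM.fe (T := S) (ZT_WDN (fun i _ => hrt' i) y)
      (fun i α => ZTg_WD (fun i _ => hrt' i) y i α) hZ0 hZm hZd hM.e0 hM.hmin
      (by rw [hM.nrm, mul_one]; exact hM.heq) hd (hM.chem S)
    have h2 : ∑ i ∈ S, ∫ x, (∫ z, ZT S (fun i => r i + t) y (update x i z) ∂lam3) * ‖ψ x‖ ^ 2 ∂(piN ι)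
        = ∑ i ∈ S, hS (S.erase i) t := by
      refine Finset.sum_congr rfl fun i hi => ?_
      rw [hSd]
      refine integral_congr_ae (Eventually.of_forall fun x => ?_)
      dsimp only
      rw [P08_avg (r := fun i => r i + t) hi (hrt' i) y x]
    rw [h2] at h1
    rw [hSd, dSd]
    rw [hSd] at h1
    exact h1
  -- the sum over all subsets
  obtain ⟨H, hH⟩ : ∃ H : ℝ → ℝ, H = fun t => ∑ S ∈ T.powerset, hS S t := ⟨_, rfl⟩
  have hH0 : ∀ t, 0 ≤ H t := fun t => by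
    rw [hH]
    exact Finset.sum_nonneg fun S _ => hS0 S t
  have hHder : ∀ t : ℝ, 0 ≤ t → HasDerivAt H (∑ S ∈ T.powerset, dS S t) t := by
    intro t ht
    rw [hH]
    exact HasDerivAt.fun_sum fun S _ => hder1 S t ht
  have hHkey : ∀ t : ℝ, 0 ≤ t →
      - (∑ S ∈ T.powerset, dS S t) ≤ (T.card : ℝ) * (2 * μ + Lam) * H t := by
    intro t ht
    have h1 : - (∑ S ∈ T.powerset, dS S t)
        ≤ ∑ S ∈ T.powerset, (2 * ((S.card : ℝ) * μ) * hS S t + Lam * ∑ i ∈ S, hS (S.erase i) t) := by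
      rw [← Finset.sum_neg_distrib]
      exact Finset.sum_le_sum fun S _ => key S t ht
    have h2 : ∑ S ∈ T.powerset, (2 * ((S.card : ℝ) * μ) * hS S t + Lam * ∑ i ∈ S, hS (S.erase i) t)
        ≤ (2 * ((T.card : ℝ) * μ)) * (∑ S ∈ T.powerset, hS S t)
          + Lam * ((T.card : ℝ) * ∑ S ∈ T.powerset, hS S t) := by
      rw [Finset.sum_add_distrib, Finset.mul_sum (s := T.powerset) (a := 2 * ((T.card : ℝ) * μ)),
        ← Finset.mul_sum]
      refine add_le_add (Finset.sum_le_sum fun S hST => ?_)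
        (mul_le_mul_of_nonneg_left (P08_comb T (a := fun S => hS S t) fun S => hS0 S t) hM.la0)
      have h3 : (S.card : ℝ) ≤ T.card := by
        exact_mod_cast Finset.card_le_card (Finset.mem_powerset.1 hST)
      have h4 : (S.card : ℝ) * μ ≤ (T.card : ℝ) * μ := mul_le_mul_of_nonneg_right h3 hM.mu0
      exact mul_le_mul_of_nonneg_right (by linarith) (hS0 S t)
    refine (h1.trans h2).trans (le_of_eq ?_)
    rw [hH]
    ring
  have e1 : ∀ t : ℝ, 0 ≤ t → ∫ x, kT T (fun i => r i + t) y x * ‖ψ x‖ ^ 2 ∂(piN ι) = H t := by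
    intro t ht
    rw [hH, hSd]
    dsimp only
    rw [← integral_finsetSum _ fun S _ => H2_int hψ1 (H2_bm_ZT (hrt t ht) y S)]
    refine integral_congr_ae (Eventually.of_forall fun x => ?_)
    dsimp only
    rw [P08_kT, Finset.sum_mul]
  set m : ℝ := (T.card : ℝ) * (2 * μ + Lam) with hm
  have hder : ∀ t : ℝ, 0 ≤ t → HasDerivAt (fun t => Real.exp (m * t) * H t)
      (Real.exp (m * t) * m * H t + Real.exp (m * t) * ∑ S ∈ T.powerset, dS S t) t := by
    intro t ht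
    have h1 : HasDerivAt (fun t : ℝ => Real.exp (m * t)) (Real.exp (m * t) * m) t := by
      have h2 : HasDerivAt (fun t : ℝ => m * t) m t := by
        simpa using (hasDerivAt_id t).const_mul m
      exact h2.exp
    exact h1.mul (hHder t ht)
  have hmono : MonotoneOn (fun t => Real.exp (m * t) * H t) (Set.Ici 0) := by
    refine monotoneOn_of_deriv_nonneg (convex_Ici 0)
      (fun t ht => (hder t ht).continuousAt.continuousWithinAt) ?_ ?_
    · intro t ht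
      rw [interior_Ici] at ht
      exact (hder t (le_of_lt ht)).differentiableAt.differentiableWithinAt
    · intro t ht
      rw [interior_Ici] at ht
      rw [(hder t (le_of_lt ht)).deriv]
      have h1 := hHkey t (le_of_lt ht)
      have h2 : 0 ≤ Real.exp (m * t) * (m * H t + ∑ S ∈ T.powerset, dS S t) :=
        mul_nonneg (Real.exp_pos _).le (by linarith)
      linarith
  have h0 := hmono (Set.mem_Ici.2 le_rfl) (Set.mem_Ici.2 hτ) hτ
  simp only [mul_zero, Real.exp_zero, one_mul] at h0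
  have e0 := e1 0 le_rfl
  simp only [add_zero] at e0
  rw [e1 τ hτ, e0]
  exact h0

lemma P08_bm_one {s : ℝ} (hs : 0 < s) (y : T3) (j : ι) :
    BM (fun x : ι → T3 => hk s (y - x j) + 1) := (H2_bm_factor hs y j).add (BM.const 1)

lemma P08_bm_kT {r : ι → ℝ} (hr : ∀ i, 0 < r i) (y : T3) (T : Finset ι) :
    BM (fun x : ι → T3 => kT T r y x) :=
  BM.finset_prod T fun i _ => P08_bm_one (hr i) y i

/-- splitting off one particle -/
lemma P08_step {ψ : (ι → T3) → ℂ} (hψ : Integrable (fun x => ‖ψ x‖ ^ 2) (piN ι)) {r : ι → ℝ}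
    (hr : ∀ i, 0 < r i) (y : T3) (k : ℕ) (T U : Finset ι) (hd : Disjoint T U) :
    ∫ x, kT T r y x * elS (fun j => hk (r j) (y - x j) + 1) (k + 1) U * ‖ψ x‖ ^ 2 ∂(piN ι)
      = ∑ j ∈ U, ∫ x, kT (insert j T) r y x * elS (fun j => hk (r j) (y - x j) + 1) k (U.erase j)
          * ‖ψ x‖ ^ 2 ∂(piN ι) := by
  have hint : ∀ j ∈ U, Integrable (fun x => kT (insert j T) r y x
      * elS (fun j => hk (r j) (y - x j) + 1) k (U.erase j) * ‖ψ x‖ ^ 2) (piN ι) := fun j _ =>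
    H2_int hψ ((P08_bm_kT hr y (insert j T)).mul
      (H2_bm_elS (fun i => P08_bm_one (hr i) y i) k (U.erase j)))
  rw [← integral_finsetSum _ hint]
  refine integral_congr_ae (Eventually.of_forall fun x => ?_)
  beta_reduce
  have e1 : elS (fun j => hk (r j) (y - x j) + 1) (k + 1) U
      = ∑ j ∈ U, (hk (r j) (y - x j) + 1)
        * elS (fun j => hk (r j) (y - x j) + 1) k (U.erase j) := rfl
  rw [e1, Finset.mul_sum, Finset.sum_mul]
  refine Finset.sum_congr rfl fun j hj => ?_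
  have hjT : j ∉ T := fun h => (Finset.disjoint_left.1 hd) h hj
  have e2 : kT (insert j T) r y x = (hk (r j) (y - x j) + 1) * kT T r y x := by
    unfold kT
    rw [Finset.prod_insert hjT]
  rw [e2]
  ring

theorem heat_elSG {l Lam R₀ μ e : ℝ} {𝒱 : T3 → ℝ≥0∞} {ψ : (ι → T3) → ℂ}
    {g : ι → Fin 3 → (ι → T3) → ℂ} (hM : MiniG l Lam R₀ 𝒱 μ e ψ g) {r : ι → ℝ}
    (hr : ∀ i, 0 < r i) (y : T3) {τ : ℝ} (hτ : 0 ≤ τ) (k : ℕ) (T U : Finset ι)
    (hd : Disjoint T U) :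
    ∫ x, kT T r y x * elS (fun j => hk (r j) (y - x j) + 1) k U * ‖ψ x‖ ^ 2 ∂(piN ι)
      ≤ Real.exp (((T.card : ℝ) + k) * (2 * μ + Lam) * τ)
        * ∫ x, kT T (fun i => r i + τ) y x * elS (fun j => hk (r j + τ) (y - x j) + 1) k U
          * ‖ψ x‖ ^ 2 ∂(piN ι) := by
  have hψ : Integrable (fun x => ‖ψ x‖ ^ 2) (piN ι) := int_sq hM.fe.hg.mem
  have hr' : ∀ i, 0 < r i + τ := fun i => by linarith [hr i]
  induction k generalizing T U with
  | zero =>
    have h := heat_monoG hM T hr y hτ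
    have e1 : ∀ (q : ι → ℝ), ∫ x, kT T q y x * elS (fun j => hk (q j) (y - x j) + 1) 0 U
        * ‖ψ x‖ ^ 2 ∂(piN ι) = ∫ x, kT T q y x * ‖ψ x‖ ^ 2 ∂(piN ι) := by
      intro q
      refine integral_congr_ae (Eventually.of_forall fun x => ?_)
      beta_reduce
      have : elS (fun j => hk (q j) (y - x j) + 1) 0 U = 1 := rfl
      rw [this, mul_one]
    have e2 := e1 r
    have e3 := e1 (fun i => r i + τ)
    rw [e2, Nat.cast_zero, add_zero]
    refine h.trans (le_of_eq ?_)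
    rw [← e3]
  | succ k ih =>
    have s1 := P08_step hψ hr y k T U hd
    have s2 := P08_step hψ hr' y k T U hd
    rw [s1]
    refine le_trans ?_ (le_of_eq (congrArg
      (fun z => Real.exp (((T.card : ℝ) + (k + 1 : ℕ)) * (2 * μ + Lam) * τ) * z) s2.symm))
    rw [Finset.mul_sum]
    refine Finset.sum_le_sum fun j hj => ?_
    have hjT : j ∉ T := fun h => (Finset.disjoint_left.1 hd) h hj
    have hd' : Disjoint (insert j T) (U.erase j) := by
      rw [Finset.disjoint_insert_left]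
      exact ⟨Finset.notMem_erase j U, hd.mono_right (Finset.erase_subset j U)⟩
    have h := ih (insert j T) (U.erase j) hd'
    have e : ((((insert j T).card : ℝ)) + (k : ℝ)) * (2 * μ + Lam) * τ
        = ((T.card : ℝ) + ((k + 1 : ℕ) : ℝ)) * (2 * μ + Lam) * τ := by
      rw [Finset.card_insert_of_notMem hjT]
      push_cast
      ring
    rw [e] at h
    exact h

end Pool.Agent.Lib.MP_4952d6_mp.LG
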