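import Pool.Agent.Lib.MP_4952d6_mp.Pq.P07
import Pool.Agent.Lib.MP_4952d6_mp.Pq.P08

/-!
# Pq.P09 (leaf H): moments at small scales, gapped

Model `H5_key`, `smeared` (Pk/G54 l.1393-1640). `ZT ≤ kT`, `(∑ hk)^q ≤ ∑ c (8N)^(q-k) elS hk k ≤ .. elS (hk+1) k` (`elS` is monotone, `hk ≤ hk+1`), `heat_elSG` with `τ = l²`
(`(2 Kμ/l² + Lam) l² ≤ 2 Kμ + 1`), then `hk (r + l²) + 1 ≤ √2³ (hk (2l²) + 1)`, `elS_le_pow`, `∑_j (hk (2l²) + 1) = S + N`, `(S + N)^p ≤ 2^p (S^p + N^p)`, `hk_momentsG`.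
-/

set_option autoImplicit false
set_option linter.unusedSectionVars false
set_option linter.unusedVariables false
open MeasureTheory Function Filter Topology Set ComplexConjugate
open scoped ENNReal

namespace Pool.Agent.Lib.MP_4952d6_mp.LG

open LA

variable {ι : Type*} [Fintype ι] [DecidableEq ι]

/-! ### bounded measurable functions -/

lemma P09_bm {N : ℕ} {s : ℝ} (hs : 0 < s) (j : Fin N) :
    BM (fun z : T3 × (Fin N → T3) => hk s (z.1 - z.2 j) + 1) :=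
  (H5_bm hs j).add (BM.const 1)

lemma P09_bm_elS {N : ℕ} {r : Fin N → ℝ} (hr : ∀ i, 0 < r i) (k : ℕ) : ∀ U : Finset (Fin N),
    BM (fun z : T3 × (Fin N → T3) => elS (fun j => hk (r j) (z.1 - z.2 j) + 1) k U) := by
  induction k with
  | zero => intro U; exact BM.const 1
  | succ k ih =>
    intro U
    exact BM.finset_sum U fun j _ => (P09_bm (hr j) j).mul (ih (U.erase j))

lemma P09_bm_kT {N : ℕ} {r : Fin N → ℝ} (hr : ∀ i, 0 < r i) (T : Finset (Fin N)) :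
    BM (fun z : T3 × (Fin N → T3) => kT T r z.1 z.2) :=
  BM.finset_prod T fun j _ => P09_bm (hr j) j

lemma P09_bm_sum {N : ℕ} {s : ℝ} (hs : 0 < s) (U : Finset (Fin N)) :
    BM (fun z : T3 × (Fin N → T3) => ∑ j ∈ U, (hk s (z.1 - z.2 j) + 1)) :=
  BM.finset_sum U fun j _ => P09_bm hs j

lemma P09_kT_nonneg {N : ℕ} (T : Finset (Fin N)) (r : Fin N → ℝ) (y : T3) (x : Fin N → T3) :
    0 ≤ kT T r y x := Finset.prod_nonneg fun i _ => add_nonneg (hk_nonneg _ _) zero_le_one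

lemma P09_ZT_le_kT {N : ℕ} (T : Finset (Fin N)) (r : Fin N → ℝ) (y : T3) (x : Fin N → T3) :
    ZT T r y x ≤ kT T r y x :=
  Finset.prod_le_prod (fun i _ => hk_nonneg _ _) fun i _ => by linarith

/-- comparison with the kernels of time `2 l²` -/
lemma P09_two {l r : ℝ} (hl : 0 < l) (hr : 0 < r) (hrl : r ≤ l ^ 2) (z : T3) :
    hk (r + l ^ 2) z + 1 ≤ Real.sqrt 2 ^ 3 * (hk (2 * l ^ 2) z + 1) := by
  have h1 := H5_two hl hr hrl z
  have h2 : 1 ≤ Real.sqrt 2 := by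
    rw [Real.one_le_sqrt]
    norm_num
  have h3 : 1 ≤ Real.sqrt 2 ^ 3 := one_le_pow₀ h2
  rw [mul_add, mul_one]
  linarith

/-- the key estimate for fixed `y` -/
lemma P09_key {c : ℕ → ℕ → ℝ} (hc0 : ∀ q k, 0 ≤ c q k)
    (hc : ∀ {ι : Type} [Fintype ι] [DecidableEq ι] (a : ι → ℝ) (K : ℝ), (∀ i, 0 ≤ a i) →
      (∀ i, a i ≤ K) → ∀ (q : ℕ) (U : Finset ι),
        (∑ i ∈ U, a i) ^ q ≤ ∑ k ∈ Finset.range (q + 1), c q k * K ^ (q - k) * elS a k U)
    (q : ℕ) {N : ℕ} {Kμ l Lam R₀ e : ℝ} {𝒱 : T3 → ℝ≥0∞} {ψ : (Fin N → T3) → ℂ}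
    {g : Fin N → Fin 3 → (Fin N → T3) → ℂ} (hl : 0 < l) (hl1 : l ≤ 1)
    (hM : MiniG l Lam R₀ 𝒱 (Kμ / l ^ 2) e ψ g) {s : ℝ} (hs : 0 < s) (hsl : s ≤ l ^ 2)
    (hsN : 1 ≤ N * (Real.sqrt s) ^ 3) {r : Fin N → ℝ} (hr : ∀ i, 0 < r i) (hrl : ∀ i, r i ≤ l ^ 2)
    (T U : Finset (Fin N)) (hd : Disjoint T U) (hU : ∀ j ∈ U, r j = s) (y : T3) :
    ∫ x, ZT T r y x * (∑ j ∈ U, hk s (y - x j)) ^ q * ‖ψ x‖ ^ 2 ∂(piN (Fin N))
      ≤ ∑ k ∈ Finset.range (q + 1), (c q k * (8 * (N : ℝ)) ^ (q - k)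
          * (Real.exp (((T.card : ℝ) + k) * (2 * Kμ + 1)) * (Real.sqrt 2 ^ 3) ^ (T.card + k)))
        * ∫ x, kT T (fun _ => 2 * l ^ 2) y x * (∑ j, (hk (2 * l ^ 2) (y - x j) + 1)) ^ k
          * ‖ψ x‖ ^ 2 ∂(piN (Fin N)) := by
  have hl2 : 0 < l ^ 2 := by positivity
  have hψ : MemLp ψ 2 (piN (Fin N)) := hM.fe.hg.mem
  have hs1 : s ≤ 1 := hsl.trans (pow_le_one₀ hl.le hl1)
  have h2l : ∀ _ : Fin N, 0 < 2 * l ^ 2 := fun _ => by positivity
  have hrt : ∀ i, 0 < r i + l ^ 2 := fun i => by have := hr i; positivity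
  have hk1 : ∀ (a : ℝ) (z : T3), 0 ≤ hk a z + 1 := fun a z => add_nonneg (hk_nonneg _ _) zero_le_one
  -- first step: powers to sums over distinct tuples
  have i1 : ∀ k, Integrable (fun x => kT T r y x * elS (fun j => hk (r j) (y - x j) + 1) k U
      * ‖ψ x‖ ^ 2) (piN (Fin N)) := fun k =>
    H5_sec hψ ((P09_bm_kT hr T).mul (P09_bm_elS hr k U)) y
  have s1 : ∫ x, ZT T r y x * (∑ j ∈ U, hk s (y - x j)) ^ q * ‖ψ x‖ ^ 2 ∂(piN (Fin N))
      ≤ ∑ k ∈ Finset.range (q + 1), (c q k * (8 * (N : ℝ)) ^ (q - k))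
        * ∫ x, kT T r y x * elS (fun j => hk (r j) (y - x j) + 1) k U * ‖ψ x‖ ^ 2
          ∂(piN (Fin N)) := by
    have e2 : ∑ k ∈ Finset.range (q + 1), (c q k * (8 * (N : ℝ)) ^ (q - k))
        * ∫ x, kT T r y x * elS (fun j => hk (r j) (y - x j) + 1) k U * ‖ψ x‖ ^ 2 ∂(piN (Fin N))
        = ∫ x, ∑ k ∈ Finset.range (q + 1), (c q k * (8 * (N : ℝ)) ^ (q - k))
          * (kT T r y x * elS (fun j => hk (r j) (y - x j) + 1) k U * ‖ψ x‖ ^ 2)
            ∂(piN (Fin N)) := by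
      rw [integral_finsetSum _ (fun k _ => (i1 k).const_mul _)]
      refine Finset.sum_congr rfl fun k _ => ?_
      rw [integral_const_mul]
    rw [e2]
    refine integral_mono
      (H5_sec hψ ((H5_bm_ZT hr T).mul ((H5_bm_sum hs U).pow q)) y)
      (integrable_finsetSum _ fun k _ => (i1 k).const_mul _) fun x => ?_
    have h1 := hc (fun j => hk s (y - x j)) (8 * (N : ℝ)) (fun j => hk_nonneg _ _)
      (fun j => H5_bd hs hs1 hsN _) q U
    have h2 := mul_le_mul_of_nonneg_right (mul_le_mul_of_nonneg_left h1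
      (H5_ZT_nonneg T r y x)) (sq_nonneg ‖ψ x‖)
    refine h2.trans ?_
    rw [Finset.mul_sum, Finset.sum_mul]
    refine Finset.sum_le_sum fun k _ => ?_
    have h3 : elS (fun j => hk s (y - x j)) k U = elS (fun j => hk (r j) (y - x j)) k U :=
      H5_congr k U fun j hj => by simp only [hU j hj]
    have h4 : elS (fun j => hk (r j) (y - x j)) k U ≤ elS (fun j => hk (r j) (y - x j) + 1) k U :=
      elS_mono (fun j => hk_nonneg _ _) (fun j => by linarith) k U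
    have h5 : 0 ≤ elS (fun j => hk (r j) (y - x j)) k U := elS_nonneg (fun j => hk_nonneg _ _) k U
    have h6 : ZT T r y x * elS (fun j => hk (r j) (y - x j)) k U
        ≤ kT T r y x * elS (fun j => hk (r j) (y - x j) + 1) k U :=
      mul_le_mul (P09_ZT_le_kT T r y x) h4 h5 (P09_kT_nonneg T r y x)
    have hcoef : 0 ≤ c q k * (8 * (N : ℝ)) ^ (q - k) := by
      have := hc0 q k
      positivity
    rw [h3]
    have h7 := mul_le_mul_of_nonneg_left (mul_le_mul_of_nonneg_right h6 (sq_nonneg ‖ψ x‖)) hcoef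
    refine le_trans (le_of_eq ?_) h7
    ring
  refine s1.trans (Finset.sum_le_sum fun k _ => ?_)
  have hcoef : 0 ≤ c q k * (8 * (N : ℝ)) ^ (q - k) := by
    have := hc0 q k
    positivity
  rw [mul_assoc (c q k * (8 * (N : ℝ)) ^ (q - k))]
  refine mul_le_mul_of_nonneg_left ?_ hcoef
  have h1 := heat_elSG hM hr y hl2.le k T U hd
  have h2 : ((T.card : ℝ) + k) * (2 * (Kμ / l ^ 2) + Lam) * l ^ 2
      ≤ ((T.card : ℝ) + k) * (2 * Kμ + 1) := by
    have e3 : ((T.card : ℝ) + k) * (2 * (Kμ / l ^ 2) + Lam) * l ^ 2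
        = ((T.card : ℝ) + k) * (2 * Kμ + Lam * l ^ 2) := by
      field_simp
    rw [e3]
    refine mul_le_mul_of_nonneg_left ?_ (by positivity)
    linarith [hM.la1]
  have hI0 : 0 ≤ ∫ x, kT T (fun i => r i + l ^ 2) y x
      * elS (fun j => hk (r j + l ^ 2) (y - x j) + 1) k U * ‖ψ x‖ ^ 2 ∂(piN (Fin N)) :=
    integral_nonneg fun x => mul_nonneg (mul_nonneg (P09_kT_nonneg T _ y x)
      (elS_nonneg (fun j => hk1 _ _) k U)) (sq_nonneg _)
  refine (h1.trans (mul_le_mul_of_nonneg_right (Real.exp_le_exp.2 h2) hI0)).trans ?_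
  rw [mul_assoc (Real.exp _)]
  refine mul_le_mul_of_nonneg_left ?_ (Real.exp_pos _).le
  rw [← integral_const_mul]
  refine integral_mono (H5_sec hψ ((P09_bm_kT hrt T).mul (P09_bm_elS hrt k U)) y)
    ((H5_sec hψ ((P09_bm_kT h2l T).mul ((P09_bm_sum (by positivity) Finset.univ).pow k))
      y).const_mul _) fun x => ?_
  have hκ : 0 ≤ Real.sqrt 2 ^ 3 := by positivity
  have h3 : kT T (fun i => r i + l ^ 2) y x
      ≤ (Real.sqrt 2 ^ 3) ^ T.card * kT T (fun _ => 2 * l ^ 2) y x := by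
    unfold kT
    rw [← Finset.prod_const, ← Finset.prod_mul_distrib]
    exact Finset.prod_le_prod (fun i _ => hk1 _ _)
      (fun i _ => P09_two hl (hr i) (hrl i) _)
  have h4 : elS (fun j => hk (r j + l ^ 2) (y - x j) + 1) k U
      ≤ (Real.sqrt 2 ^ 3) ^ k * (∑ j, (hk (2 * l ^ 2) (y - x j) + 1)) ^ k := by
    refine (elS_le_pow (fun j => hk1 _ _) k U).trans ?_
    rw [← mul_pow]
    refine pow_le_pow_left₀ (Finset.sum_nonneg fun j _ => hk1 _ _) ?_ k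
    rw [Finset.mul_sum]
    refine (Finset.sum_le_sum fun j _ => P09_two hl (hr j) (hrl j) (y - x j)).trans ?_
    exact Finset.sum_le_sum_of_subset_of_nonneg (Finset.subset_univ U)
      (fun j _ _ => mul_nonneg hκ (hk1 _ _))
  have h5 := mul_le_mul h3 h4 (elS_nonneg (fun j => hk1 _ _) k U)
    (mul_nonneg (by positivity) (P09_kT_nonneg T _ y x))
  have h6 := mul_le_mul_of_nonneg_right h5 (sq_nonneg ‖ψ x‖)
  refine h6.trans (le_of_eq ?_)
  rw [pow_add]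
  ring

/-- moments of `∑ (hk + 1)` -/
lemma P09_mom {N : ℕ} {ψ : (Fin N → T3) → ℂ} (hψ : MemLp ψ 2 (piN (Fin N)))
    (h1 : ∫ x, ‖ψ x‖ ^ 2 ∂(piN (Fin N)) = 1) {s C : ℝ} (hs : 0 < s) {p : ℕ}
    (h : ∫ y, ∫ x, (∑ i, hk s (y - x i)) ^ p * ‖ψ x‖ ^ 2 ∂(piN (Fin N)) ∂lam3 ≤ C * (N : ℝ) ^ p) :
    ∫ y, ∫ x, (∑ i, (hk s (y - x i) + 1)) ^ p * ‖ψ x‖ ^ 2 ∂(piN (Fin N)) ∂lam3
      ≤ 2 ^ p * (C + 1) * (N : ℝ) ^ p := by
  have hN0 : (0 : ℝ) ≤ N := Nat.cast_nonneg N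
  have hB1 : BM (uncurry fun (y : T3) (x : Fin N → T3) => (∑ i, (hk s (y - x i) + 1)) ^ p) :=
    (P09_bm_sum hs Finset.univ).pow p
  have hB2 : BM (uncurry fun (y : T3) (x : Fin N → T3) => (∑ i, hk s (y - x i)) ^ p) :=
    (H5_bm_sum hs Finset.univ).pow p
  have hB3 : BM (uncurry fun (y : T3) (x : Fin N → T3) => (1 : ℝ)) := BM.const 1
  have h2 : I2a_J ψ (fun y x => (∑ i, (hk s (y - x i) + 1)) ^ p)
      ≤ I2a_J ψ (fun y x => 2 ^ p * (∑ i, hk s (y - x i)) ^ p + (2 ^ p * (N : ℝ) ^ p) * 1) := by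
    refine I2a_J_mono hψ hB1 ((hB2.const_mul _).add (hB3.const_mul _)) fun y x => ?_
    have hS : 0 ≤ ∑ i, hk s (y - x i) := Finset.sum_nonneg fun i _ => hk_nonneg _ _
    have e1 : ∑ i, (hk s (y - x i) + 1) = (∑ i, hk s (y - x i)) + N := by
      rw [Finset.sum_add_distrib]
      simp
    rw [e1, mul_one, ← mul_add]
    set S := ∑ i, hk s (y - x i) with hSd
    rcases le_total S N with h3 | h3
    · calc (S + N) ^ p ≤ (2 * (N : ℝ)) ^ p :=
            pow_le_pow_left₀ (by positivity) (by linarith) p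
        _ = 2 ^ p * (0 + (N : ℝ) ^ p) := by rw [mul_pow, zero_add]
        _ ≤ 2 ^ p * (S ^ p + (N : ℝ) ^ p) := by gcongr; positivity
    · calc (S + N) ^ p ≤ (2 * S) ^ p :=
            pow_le_pow_left₀ (by positivity) (by linarith) p
        _ = 2 ^ p * (S ^ p + 0) := by rw [mul_pow, add_zero]
        _ ≤ 2 ^ p * (S ^ p + (N : ℝ) ^ p) := by gcongr; positivity
  rw [I2a_J_add hψ hB2 hB3, I2a_J_one h1] at h2
  refine (h2 : _ ≤ _).trans ?_
  have h3 : I2a_J ψ (fun y x => (∑ i, hk s (y - x i)) ^ p) ≤ C * (N : ℝ) ^ p := h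
  have h4 := mul_le_mul_of_nonneg_left h3 (show (0:ℝ) ≤ 2 ^ p by positivity)
  linarith

theorem smearedG (θ cw Kμ : ℝ) (hθ : 1 ≤ θ) (hcw : 0 < cw) (hKμ : 0 ≤ Kμ) (q : ℕ) :
    ∃ C Y0 : ℝ, 0 < C ∧ 0 < Y0 ∧ ∀ Y : ℝ, 0 < Y → Y < Y0 → ∀ (l R a : ℝ) (w : ℝ → ℝ)
      (N : ℕ) (Lam R₀ e : ℝ) (𝒱 : T3 → ℝ≥0∞) (ψ : (Fin N → T3) → ℂ)
      (g : Fin N → Fin 3 → (Fin N → T3) → ℂ), Par θ cw Kμ Y l R a w N R₀ 𝒱 →
      MiniG l Lam R₀ 𝒱 (Kμ / l ^ 2) e ψ g →
      ∀ s r : ℝ, 0 < s → s ≤ l ^ 2 → 1 ≤ N * (Real.sqrt s) ^ 3 → 0 < r → r ≤ l ^ 2 →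
      (∑ m, ∫ y, ∫ x, hk r (y - x m) * (∑ j ∈ Finset.univ.erase m, hk s (y - x j)) ^ q
          * ‖ψ x‖ ^ 2 ∂(piN (Fin N)) ∂lam3 ≤ C * (N : ℝ) ^ (q + 1)) ∧
      (∀ m, ∫ y, ∫ x, (∑ j ∈ Finset.univ.erase m, hk s (y - x j)) ^ q
          * ‖ψ x‖ ^ 2 ∂(piN (Fin N)) ∂lam3 ≤ C * (N : ℝ) ^ q) := by
  obtain ⟨c, hc0, hc⟩ := pow_le_elS
  have hmom := fun p => hk_momentsG θ cw Kμ hθ hcw hKμ p
  choose Cm0 Ym hCm0 hYm hmain using hmom
  obtain ⟨Cm, hCmd⟩ : ∃ Cm : ℕ → ℝ, Cm = fun p => 2 ^ p * (Cm0 p + 1) := ⟨_, rfl⟩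
  have hCm : ∀ p, 0 < Cm p := fun p => by
    have := hCm0 p
    rw [hCmd]
    positivity
  -- constants
  set D : ℕ → ℕ → ℝ := fun t k => c q k * 8 ^ (q - k)
    * (Real.exp (((t : ℝ) + k) * (2 * Kμ + 1)) * (Real.sqrt 2 ^ 3) ^ (t + k)) with hD
  have hD0 : ∀ t k, 0 ≤ D t k := fun t k => by
    have := hc0 q k
    simp only [hD]
    positivity
  set C1 : ℝ := ∑ k ∈ Finset.range (q + 1), D 1 k * Cm (k + 1) with hC1
  set C2 : ℝ := ∑ k ∈ Finset.range (q + 1), D 0 k * Cm k with hC2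
  have hC10 : 0 ≤ C1 := Finset.sum_nonneg fun k _ => mul_nonneg (hD0 1 k) (hCm (k + 1)).le
  have hC20 : 0 ≤ C2 := Finset.sum_nonneg fun k _ => mul_nonneg (hD0 0 k) (hCm k).le
  obtain ⟨Y0, hY0, hY0le⟩ : ∃ Y0 : ℝ, 0 < Y0 ∧ ∀ p ∈ Finset.range (q + 2), Y0 ≤ Ym p := by
    have hne : (Finset.range (q + 2)).Nonempty := Finset.nonempty_range_iff.2 (by omega)
    refine ⟨(Finset.range (q + 2)).inf' hne Ym, ?_, fun p hp => Finset.inf'_le _ hp⟩
    rw [Finset.lt_inf'_iff]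
    exact fun p _ => hYm p
  refine ⟨C1 + C2 + 1, Y0, by positivity, hY0, ?_⟩
  intro Y hY hYY l R a w N Lam R₀ e 𝒱 ψ g hP hM s r hs hsl hsN hr hrl
  have hl : 0 < l := by
    rw [hP.l_eq]
    exact div_pos hP.a_pos hY
  have hl1 : l ≤ 1 := hP.l_le.trans (by norm_num)
  have hl2 : 0 < l ^ 2 := by positivity
  have hψ : MemLp ψ 2 (piN (Fin N)) := hM.fe.hg.mem
  have hN0 : (0 : ℝ) ≤ N := Nat.cast_nonneg N
  have h2l : 0 < 2 * l ^ 2 := by positivity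
  have hS : ∀ p ∈ Finset.range (q + 2),
      ∫ y, ∫ x, (∑ i, (hk (2 * l ^ 2) (y - x i) + 1)) ^ p * ‖ψ x‖ ^ 2 ∂(piN (Fin N)) ∂lam3
        ≤ Cm p * (N : ℝ) ^ p := fun p hp => by
    rw [hCmd]
    exact P09_mom hψ hM.nrm h2l
      (hmain p Y hY (hYY.trans_le (hY0le p hp)) l R a w N Lam R₀ e 𝒱 ψ g hP hM)
  have hSi : ∀ p, Integrable (fun y => ∫ x, (∑ i, (hk (2 * l ^ 2) (y - x i) + 1)) ^ p * ‖ψ x‖ ^ 2
      ∂(piN (Fin N))) lam3 := fun p =>
    H5_out hψ ((P09_bm_sum h2l Finset.univ).pow p)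
  have hcoef : ∀ t k : ℕ, k ∈ Finset.range (q + 1) → c q k * (8 * (N : ℝ)) ^ (q - k)
      * (Real.exp (((t : ℝ) + k) * (2 * Kμ + 1)) * (Real.sqrt 2 ^ 3) ^ (t + k))
      = D t k * (N : ℝ) ^ (q - k) := by
    intro t k _
    simp only [hD]
    rw [mul_pow]
    ring
  constructor
  · -- weighted case
    have hpt : ∀ y, ∑ m, ∫ x, hk r (y - x m) * (∑ j ∈ Finset.univ.erase m, hk s (y - x j)) ^ q
        * ‖ψ x‖ ^ 2 ∂(piN (Fin N)) ≤ ∑ k ∈ Finset.range (q + 1), (D 1 k * (N : ℝ) ^ (q - k))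
          * ∫ x, (∑ i, (hk (2 * l ^ 2) (y - x i) + 1)) ^ (k + 1) * ‖ψ x‖ ^ 2 ∂(piN (Fin N)) := by
      intro y
      have hm : ∀ m : Fin N, ∫ x, hk r (y - x m)
          * (∑ j ∈ Finset.univ.erase m, hk s (y - x j)) ^ q * ‖ψ x‖ ^ 2 ∂(piN (Fin N))
          ≤ ∑ k ∈ Finset.range (q + 1), (D 1 k * (N : ℝ) ^ (q - k))
          * ∫ x, (hk (2 * l ^ 2) (y - x m) + 1) * (∑ i, (hk (2 * l ^ 2) (y - x i) + 1)) ^ k
            * ‖ψ x‖ ^ 2 ∂(piN (Fin N)) := by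
        intro m
        have h1 := P09_key hc0 hc q hl hl1 hM hs hsl hsN
          (r := fun i => if i = m then r else s)
          (fun i => by
            show 0 < (if i = m then r else s)
            split_ifs
            · exact hr
            · exact hs)
          (fun i => by
            show (if i = m then r else s) ≤ l ^ 2
            split_ifs
            · exact hrl
            · exact hsl)
          {m} (Finset.univ.erase m)
          (by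
            rw [Finset.disjoint_singleton_left]
            exact Finset.notMem_erase m _)
          (fun j hj => if_neg (Finset.ne_of_mem_erase hj)) y
        simp only [ZT, kT, Finset.prod_singleton, if_true, Finset.card_singleton] at h1
        refine h1.trans (le_of_eq (Finset.sum_congr rfl fun k hk' => ?_))
        rw [hcoef 1 k hk']
      refine (Finset.sum_le_sum fun m _ => hm m).trans (le_of_eq ?_)
      rw [Finset.sum_comm]
      refine Finset.sum_congr rfl fun k _ => ?_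
      rw [← Finset.mul_sum]
      congr 1
      rw [← integral_finsetSum _ (fun m _ => H5_sec hψ
        (B := fun z => (hk (2 * l ^ 2) (z.1 - z.2 m) + 1)
          * (∑ i, (hk (2 * l ^ 2) (z.1 - z.2 i) + 1)) ^ k)
        ((P09_bm h2l m).mul ((P09_bm_sum h2l Finset.univ).pow k)) y)]
      refine integral_congr_ae (Eventually.of_forall fun x => ?_)
      simp only
      rw [← Finset.sum_mul, ← Finset.sum_mul]
      ring
    have hFi : ∀ m : Fin N, Integrable (fun y => ∫ x, hk r (y - x m)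
        * (∑ j ∈ Finset.univ.erase m, hk s (y - x j)) ^ q * ‖ψ x‖ ^ 2 ∂(piN (Fin N))) lam3 :=
      fun m => H5_out hψ ((H5_bm hr m).mul ((H5_bm_sum hs (Finset.univ.erase m)).pow q))
    rw [← integral_finsetSum _ (fun m _ => hFi m)]
    refine (integral_mono (integrable_finsetSum _ fun m _ => hFi m)
      (integrable_finsetSum _ fun k _ => (hSi (k + 1)).const_mul _) hpt).trans ?_
    rw [integral_finsetSum _ (fun k _ => (hSi (k + 1)).const_mul _)]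
    have h3 : ∀ k ∈ Finset.range (q + 1), ∫ y, (D 1 k * (N : ℝ) ^ (q - k))
        * ∫ x, (∑ i, (hk (2 * l ^ 2) (y - x i) + 1)) ^ (k + 1) * ‖ψ x‖ ^ 2 ∂(piN (Fin N)) ∂lam3
        ≤ D 1 k * Cm (k + 1) * (N : ℝ) ^ (q + 1) := by
      intro k hk'
      have hkq : k ≤ q := Nat.lt_succ_iff.1 (Finset.mem_range.1 hk')
      rw [integral_const_mul]
      have h4 := mul_le_mul_of_nonneg_left (hS (k + 1) (Finset.mem_range.2 (by omega)))
        (mul_nonneg (hD0 1 k) (pow_nonneg hN0 (q - k)))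
      refine h4.trans (le_of_eq ?_)
      have h5 : (N : ℝ) ^ (q + 1) = (N : ℝ) ^ (q - k) * (N : ℝ) ^ (k + 1) := by
        rw [← pow_add]
        congr 1
        omega
      rw [h5]
      ring
    refine (Finset.sum_le_sum h3).trans ?_
    rw [← Finset.sum_mul]
    refine mul_le_mul_of_nonneg_right ?_ (pow_nonneg hN0 _)
    linarith
  · -- uniform case
    intro m
    have hpt : ∀ y, ∫ x, (∑ j ∈ Finset.univ.erase m, hk s (y - x j)) ^ q
        * ‖ψ x‖ ^ 2 ∂(piN (Fin N)) ≤ ∑ k ∈ Finset.range (q + 1), (D 0 k * (N : ℝ) ^ (q - k))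
          * ∫ x, (∑ i, (hk (2 * l ^ 2) (y - x i) + 1)) ^ k * ‖ψ x‖ ^ 2 ∂(piN (Fin N)) := by
      intro y
      have h1 := P09_key hc0 hc q hl hl1 hM hs hsl hsN
        (r := fun _ => s) (fun _ => hs) (fun _ => hsl) ∅ (Finset.univ.erase m)
        (Finset.disjoint_empty_left _) (fun _ _ => rfl) y
      simp only [ZT, kT, Finset.prod_empty, one_mul, Finset.card_empty] at h1
      refine h1.trans (le_of_eq (Finset.sum_congr rfl fun k hk' => ?_))
      rw [hcoef 0 k hk']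
    have hFi : Integrable (fun y => ∫ x, (∑ j ∈ Finset.univ.erase m, hk s (y - x j)) ^ q
        * ‖ψ x‖ ^ 2 ∂(piN (Fin N))) lam3 :=
      H5_out hψ ((H5_bm_sum hs (Finset.univ.erase m)).pow q)
    refine (integral_mono hFi
      (integrable_finsetSum _ fun k _ => (hSi k).const_mul _) hpt).trans ?_
    rw [integral_finsetSum _ (fun k _ => (hSi k).const_mul _)]
    have h3 : ∀ k ∈ Finset.range (q + 1), ∫ y, (D 0 k * (N : ℝ) ^ (q - k))
        * ∫ x, (∑ i, (hk (2 * l ^ 2) (y - x i) + 1)) ^ k * ‖ψ x‖ ^ 2 ∂(piN (Fin N)) ∂lam3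
        ≤ D 0 k * Cm k * (N : ℝ) ^ q := by
      intro k hk'
      have hkq : k ≤ q := Nat.lt_succ_iff.1 (Finset.mem_range.1 hk')
      rw [integral_const_mul]
      have h4 := mul_le_mul_of_nonneg_left (hS k (Finset.mem_range.2 (by omega)))
        (mul_nonneg (hD0 0 k) (pow_nonneg hN0 (q - k)))
      refine h4.trans (le_of_eq ?_)
      have h5 : (N : ℝ) ^ q = (N : ℝ) ^ (q - k) * (N : ℝ) ^ k := by
        rw [← pow_add]
        congr 1
        omega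
      rw [h5]
      ring
    refine (Finset.sum_le_sum h3).trans ?_
    rw [← Finset.sum_mul]
    refine mul_le_mul_of_nonneg_right ?_ (pow_nonneg hN0 _)
    linarith

end Pool.Agent.Lib.MP_4952d6_mp.LG
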