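import Pool.Agent.Lib.MP_4952d6_mp.Pq.P09

/-!
# Pq.P10 (leaf I, mechanical): local moment bounds for gapped minimisers

Copies of `crowd_moments`, `high_moments`, `locM` (Pk/G54 l.1826-2335) with `MiniG l Lam` instead of `Mini`, `smearedG` instead of `smeared`; all auxiliary lemmas
(`H6_*`, `I2a_*`, `I2_sum`, `avj_*`, `htj_*`) are used as they are.
-/

set_option autoImplicit false
set_option linter.unusedSectionVars false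
set_option linter.unusedVariables false
open MeasureTheory Function Filter Topology Set ComplexConjugate
open scoped ENNReal

namespace Pool.Agent.Lib.MP_4952d6_mp.LG

open LA

variable {ι : Type*} [Fintype ι] [DecidableEq ι]

theorem P10_crowd_moments (θ cw Kμ : ℝ) (hθ : 1 ≤ θ) (hcw : 0 < cw) (hKμ : 0 ≤ Kμ) (q : ℕ) :
    ∃ C Y0 : ℝ, 0 < C ∧ 0 < Y0 ∧ ∀ Y : ℝ, 0 < Y → Y < Y0 → ∀ (l R a : ℝ) (w : ℝ → ℝ)
      (N : ℕ) (Lam R₀ e : ℝ) (𝒱 : T3 → ℝ≥0∞) (ψ : (Fin N → T3) → ℂ)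
      (g : Fin N → Fin 3 → (Fin N → T3) → ℂ), Par θ cw Kμ Y l R a w N R₀ 𝒱 →
      MiniG l Lam R₀ 𝒱 (Kμ / l ^ 2) e ψ g →
      ∀ s : ℝ, 0 < s → 2 * s ≤ l ^ 2 → 1 ≤ N * (Real.sqrt s) ^ 3 →
      ∑ m, ∫ x, crowd s m x ^ q * ‖ψ x‖ ^ 2 ∂(piN (Fin N)) ≤ C * (N : ℝ) ^ (q + 1) := by
  obtain ⟨C, Y0, hC, hY0, hsm⟩ := smearedG θ cw Kμ hθ hcw hKμ q
  refine ⟨2 * 4 ^ q * C, Y0, by positivity, hY0, ?_⟩
  intro Y hY hYY l R a w N Lam R₀ e 𝒱 ψ g hP hM s hs hsl hN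
  have hl2 : 0 ≤ l ^ 2 := sq_nonneg l
  have h1 := (hsm Y hY hYY l R a w N Lam R₀ e 𝒱 ψ g hP hM (2 * s) (s / 12) (by positivity) hsl
    (hN.trans (mul_le_mul_of_nonneg_left
      (pow_le_pow_left₀ (Real.sqrt_nonneg _) (Real.sqrt_le_sqrt (by linarith)) 3)
      (Nat.cast_nonneg N))) (by positivity) (by linarith)).1
  have h2 : ∑ m, ∫ x, crowd s m x ^ q * ‖ψ x‖ ^ 2 ∂(piN (Fin N))
      ≤ ∑ m, 2 * 4 ^ q * ∫ y, ∫ x, H6f s q m (y, x) * ‖ψ x‖ ^ 2 ∂(piN (Fin N)) ∂lam3 :=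
    Finset.sum_le_sum fun m _ => H6_one hM.fe.hg.mem hs q m
  rw [← Finset.mul_sum] at h2
  refine h2.trans ?_
  have h3 : (2 * 4 ^ q : ℝ) * (∑ m, ∫ y, ∫ x, H6f s q m (y, x) * ‖ψ x‖ ^ 2 ∂(piN (Fin N)) ∂lam3)
      ≤ 2 * 4 ^ q * (C * (N : ℝ) ^ (q + 1)) := mul_le_mul_of_nonneg_left h1 (by positivity)
  exact h3.trans (le_of_eq (by ring))

theorem P10_high_moments (θ cw Kμ : ℝ) (hθ : 1 ≤ θ) (hcw : 0 < cw) (hKμ : 0 ≤ Kμ) :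
    ∃ C Y0 : ℝ, 0 < C ∧ 0 < Y0 ∧ ∀ Y : ℝ, 0 < Y → Y < Y0 → ∀ (l R a : ℝ) (w : ℝ → ℝ)
      (N : ℕ) (Lam R₀ e : ℝ) (𝒱 : T3 → ℝ≥0∞) (ψ : (Fin N → T3) → ℂ)
      (g : Fin N → Fin 3 → (Fin N → T3) → ℂ), Par θ cw Kμ Y l R a w N R₀ 𝒱 →
      MiniG l Lam R₀ 𝒱 (Kμ / l ^ 2) e ψ g →
      ∀ s r : ℝ, 0 < s → 2 * s ≤ l ^ 2 → 1 ≤ N * (Real.sqrt s) ^ 3 → 0 < r → r ≤ l ^ 2 →
      (∑ m, ∫ x, ‖ψ x - avj m ψ x‖ ^ 2 * (crowd s m x + N) ^ 40 ∂(piN (Fin N))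
        ≤ C * (N : ℝ) ^ 41) ∧
      (∑ m, ∫ x, ‖ψ x - htj r m ψ x‖ ^ 2 * (crowd s m x + N) ^ 40 ∂(piN (Fin N))
        ≤ C * (N : ℝ) ^ 41) := by
  obtain ⟨C1, Y1, hC1, hY1, H1⟩ := P10_crowd_moments θ cw Kμ hθ hcw hKμ 40
  obtain ⟨C2, Y2, hC2, hY2, H2⟩ := smearedG θ cw Kμ hθ hcw hKμ 40
  refine ⟨2 ^ 40 * (C1 + 1) + 2 ^ 40 * (C2 + 1), min Y1 Y2, by positivity, lt_min hY1 hY2, ?_⟩
  intro Y hY hYlt l R a w N Lam R₀ e 𝒱 ψ g hpar hmini s r hs hsl hsN hr hrl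
  have hsl' : s ≤ l ^ 2 := by linarith
  have K1 := H1 Y hY (hYlt.trans_le (min_le_left _ _)) l R a w N Lam R₀ e 𝒱 ψ g hpar hmini s hs hsl hsN
  obtain ⟨K2, K3⟩ := H2 Y hY (hYlt.trans_le (min_le_right _ _)) l R a w N Lam R₀ e 𝒱 ψ g hpar hmini s r
    hs hsl' hsN hr hrl
  have hψ : MemLp ψ 2 (piN (Fin N)) := hmini.fe.hg.mem
  have h1 : ∫ x, ‖ψ x‖ ^ 2 ∂(piN (Fin N)) = 1 := hmini.nrm
  have hN0 : (0 : ℝ) ≤ N := Nat.cast_nonneg N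
  have hPBM : ∀ m : Fin N, BM (fun x : Fin N → T3 => (crowd s m x + N) ^ 40) := fun m =>
    ((I2a_crowd_BM hs m).add (BM.const _)).pow 40
  have hP0 : ∀ (m : Fin N) (x : Fin N → T3), 0 ≤ (crowd s m x + (N : ℝ)) ^ 40 := fun m x => by
    have := I2a_crowd_nonneg s m x
    positivity
  have hcard : ∑ m : Fin N, (N : ℝ) ^ 40 = (N : ℝ) ^ 41 := by
    rw [Finset.sum_const, Finset.card_univ, Fintype.card_fin, nsmul_eq_mul]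
    ring
  -- the part with ψ
  have hA : ∑ m, ∫ x, (crowd s m x + N) ^ 40 * ‖ψ x‖ ^ 2 ∂(piN (Fin N))
      ≤ 2 ^ 39 * (C1 + 1) * (N : ℝ) ^ 41 := by
    have hB : ∀ m : Fin N, ∫ x, (crowd s m x + N) ^ 40 * ‖ψ x‖ ^ 2 ∂(piN (Fin N))
        ≤ 2 ^ 39 * (∫ x, crowd s m x ^ 40 * ‖ψ x‖ ^ 2 ∂(piN (Fin N))) + 2 ^ 39 * (N : ℝ) ^ 40 := by
      intro m
      have i1 := I2a_int1 hψ ((I2a_crowd_BM hs m).pow 40)
      have i2 := (I2a_sq_int hψ).const_mul (2 ^ 39 * (N : ℝ) ^ 40)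
      have e1 : 2 ^ 39 * (∫ x, crowd s m x ^ 40 * ‖ψ x‖ ^ 2 ∂(piN (Fin N))) + 2 ^ 39 * (N : ℝ) ^ 40
          = ∫ x, (2 ^ 39 * (crowd s m x ^ 40 * ‖ψ x‖ ^ 2) + 2 ^ 39 * (N : ℝ) ^ 40 * ‖ψ x‖ ^ 2)
              ∂(piN (Fin N)) := by
        rw [integral_add (i1.const_mul _) i2, integral_const_mul, integral_const_mul, h1, mul_one]
      rw [e1]
      refine integral_mono (I2a_int1 hψ (hPBM m)) ((i1.const_mul _).add i2) fun x => ?_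
      have h2 := I2a_pow (I2a_crowd_nonneg s m x) hN0
      have h3 := mul_le_mul_of_nonneg_right h2 (by positivity : 0 ≤ ‖ψ x‖ ^ 2)
      linarith
    calc ∑ m, ∫ x, (crowd s m x + N) ^ 40 * ‖ψ x‖ ^ 2 ∂(piN (Fin N))
        ≤ ∑ m : Fin N, (2 ^ 39 * (∫ x, crowd s m x ^ 40 * ‖ψ x‖ ^ 2 ∂(piN (Fin N)))
            + 2 ^ 39 * (N : ℝ) ^ 40) := Finset.sum_le_sum fun m _ => hB m
      _ = 2 ^ 39 * (∑ m : Fin N, ∫ x, crowd s m x ^ 40 * ‖ψ x‖ ^ 2 ∂(piN (Fin N)))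
            + 2 ^ 39 * (N : ℝ) ^ 41 := by
          rw [Finset.sum_add_distrib, ← Finset.mul_sum, ← Finset.mul_sum, hcard]
      _ ≤ 2 ^ 39 * (C1 * (N : ℝ) ^ (40 + 1)) + 2 ^ 39 * (N : ℝ) ^ 41 := by gcongr
      _ = 2 ^ 39 * (C1 + 1) * (N : ℝ) ^ 41 := by ring
  have hSBM : ∀ m : Fin N, BM (uncurry (fun (y : T3) (x : Fin N → T3) => I2a_S s m y x ^ 40)) :=
    fun m => (I2a_S_BM hs m).pow 40
  have h1BM : BM (uncurry (fun (y : T3) (x : Fin N → T3) => (1 : ℝ))) := BM.const 1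
  have hUBM : ∀ m : Fin N, BM (uncurry (fun (y : T3) (x : Fin N → T3) =>
      (crowd s m (update x m y) + (N : ℝ)) ^ 40)) := fun m => by
    simp only [I2a_crowd_update]
    exact ((I2a_S_BM hs m).add (BM.const _)).pow 40
  have hkBM : ∀ m : Fin N, BM (uncurry (fun (y : T3) (x : Fin N → T3) => hk r (y - x m))) :=
    fun m => (I2a_hk_BM hr).comp (by fun_prop)
  -- the part with the average
  have hav : ∑ m, ∫ x, ‖avj m ψ x‖ ^ 2 * (crowd s m x + N) ^ 40 ∂(piN (Fin N))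
      ≤ 2 ^ 39 * (C2 + 1) * (N : ℝ) ^ 41 := by
    have hB : ∀ m : Fin N, ∫ x, ‖avj m ψ x‖ ^ 2 * (crowd s m x + N) ^ 40 ∂(piN (Fin N))
        ≤ 2 ^ 39 * (C2 + 1) * (N : ℝ) ^ 40 := by
      intro m
      refine (avj_cs hψ m (hPBM m) (hP0 m)).trans ?_
      have h2 : I2a_J ψ (fun y x => (crowd s m (update x m y) + (N : ℝ)) ^ 40)
          ≤ I2a_J ψ (fun y x => 2 ^ 39 * (I2a_S s m y x ^ 40) + (2 ^ 39 * (N : ℝ) ^ 40) * 1) := by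
        refine I2a_J_mono hψ (hUBM m) (((hSBM m).const_mul _).add (h1BM.const_mul _)) fun y x => ?_
        rw [I2a_crowd_update, mul_one]
        exact I2a_pow (I2a_S_nonneg s m y x) hN0
      rw [I2a_J_add hψ (hSBM m) h1BM, I2a_J_one h1] at h2
      have h3 : I2a_J ψ (fun y x => I2a_S s m y x ^ 40) ≤ C2 * (N : ℝ) ^ 40 := K3 m
      refine (h2 : _ ≤ _).trans ?_
      nlinarith [h3]
    calc ∑ m, ∫ x, ‖avj m ψ x‖ ^ 2 * (crowd s m x + N) ^ 40 ∂(piN (Fin N))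
        ≤ ∑ m : Fin N, 2 ^ 39 * (C2 + 1) * (N : ℝ) ^ 40 := Finset.sum_le_sum fun m _ => hB m
      _ = 2 ^ 39 * (C2 + 1) * (N : ℝ) ^ 41 := by rw [← Finset.mul_sum, hcard]
  -- the part with the heat flow
  have hht : ∑ m, ∫ x, ‖htj r m ψ x‖ ^ 2 * (crowd s m x + N) ^ 40 ∂(piN (Fin N))
      ≤ 2 ^ 39 * (C2 + 1) * (N : ℝ) ^ 41 := by
    have hB : ∀ m : Fin N, ∫ x, ‖htj r m ψ x‖ ^ 2 * (crowd s m x + N) ^ 40 ∂(piN (Fin N))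
        ≤ 2 ^ 39 * (∫ y, ∫ x, hk r (y - x m) * (∑ j ∈ Finset.univ.erase m, hk s (y - x j)) ^ 40
          * ‖ψ x‖ ^ 2 ∂(piN (Fin N)) ∂lam3) + 2 ^ 39 * (N : ℝ) ^ 40 := by
      intro m
      refine (htj_cs hψ hr m (hPBM m) (hP0 m)).trans ?_
      have hkS : BM (uncurry (fun (y : T3) (x : Fin N → T3) =>
          hk r (y - x m) * I2a_S s m y x ^ 40)) := (hkBM m).mul (hSBM m)
      have h2 : I2a_J ψ (fun y x => hk r (y - x m) * (crowd s m (update x m y) + (N : ℝ)) ^ 40)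
          ≤ I2a_J ψ (fun y x => 2 ^ 39 * (hk r (y - x m) * I2a_S s m y x ^ 40)
              + (2 ^ 39 * (N : ℝ) ^ 40) * hk r (y - x m)) := by
        refine I2a_J_mono hψ ((hkBM m).mul (hUBM m))
          ((hkS.const_mul _).add ((hkBM m).const_mul _)) fun y x => ?_
        rw [I2a_crowd_update]
        have h4 := mul_le_mul_of_nonneg_left (I2a_pow (I2a_S_nonneg s m y x) hN0)
          (hk_nonneg r (y - x m))
        linarith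
      rw [I2a_J_add hψ hkS (hkBM m), I2a_J_hk hψ h1 hr m, mul_one] at h2
      exact h2
    calc ∑ m, ∫ x, ‖htj r m ψ x‖ ^ 2 * (crowd s m x + N) ^ 40 ∂(piN (Fin N))
        ≤ ∑ m : Fin N, (2 ^ 39 * (∫ y, ∫ x, hk r (y - x m)
            * (∑ j ∈ Finset.univ.erase m, hk s (y - x j)) ^ 40
            * ‖ψ x‖ ^ 2 ∂(piN (Fin N)) ∂lam3) + 2 ^ 39 * (N : ℝ) ^ 40) :=
          Finset.sum_le_sum fun m _ => hB m
      _ = 2 ^ 39 * (∑ m : Fin N, ∫ y, ∫ x, hk r (y - x m)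
            * (∑ j ∈ Finset.univ.erase m, hk s (y - x j)) ^ 40
            * ‖ψ x‖ ^ 2 ∂(piN (Fin N)) ∂lam3) + 2 ^ 39 * (N : ℝ) ^ 41 := by
          rw [Finset.sum_add_distrib, ← Finset.mul_sum, ← Finset.mul_sum, hcard]
      _ ≤ 2 ^ 39 * (C2 * (N : ℝ) ^ (40 + 1)) + 2 ^ 39 * (N : ℝ) ^ 41 := by gcongr
      _ = 2 ^ 39 * (C2 + 1) * (N : ℝ) ^ 41 := by ring
  constructor
  · calc ∑ m, ∫ x, ‖ψ x - avj m ψ x‖ ^ 2 * (crowd s m x + N) ^ 40 ∂(piN (Fin N))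
        ≤ ∑ m : Fin N, (2 * ∫ x, (crowd s m x + N) ^ 40 * ‖ψ x‖ ^ 2 ∂(piN (Fin N))
            + 2 * ∫ x, ‖avj m ψ x‖ ^ 2 * (crowd s m x + N) ^ 40 ∂(piN (Fin N))) :=
          Finset.sum_le_sum fun m _ => I2a_split hψ (avj_memLp hψ m) (hPBM m) (hP0 m)
      _ = 2 * (∑ m : Fin N, ∫ x, (crowd s m x + N) ^ 40 * ‖ψ x‖ ^ 2 ∂(piN (Fin N)))
            + 2 * (∑ m : Fin N, ∫ x, ‖avj m ψ x‖ ^ 2 * (crowd s m x + N) ^ 40 ∂(piN (Fin N))) := by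
          rw [Finset.sum_add_distrib, ← Finset.mul_sum, ← Finset.mul_sum]
      _ ≤ 2 * (2 ^ 39 * (C1 + 1) * (N : ℝ) ^ 41) + 2 * (2 ^ 39 * (C2 + 1) * (N : ℝ) ^ 41) := by
          gcongr
      _ = (2 ^ 40 * (C1 + 1) + 2 ^ 40 * (C2 + 1)) * (N : ℝ) ^ 41 := by ring
  · calc ∑ m, ∫ x, ‖ψ x - htj r m ψ x‖ ^ 2 * (crowd s m x + N) ^ 40 ∂(piN (Fin N))
        ≤ ∑ m : Fin N, (2 * ∫ x, (crowd s m x + N) ^ 40 * ‖ψ x‖ ^ 2 ∂(piN (Fin N))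
            + 2 * ∫ x, ‖htj r m ψ x‖ ^ 2 * (crowd s m x + N) ^ 40 ∂(piN (Fin N))) :=
          Finset.sum_le_sum fun m _ => I2a_split hψ (htj_memLp hψ hr m) (hPBM m) (hP0 m)
      _ = 2 * (∑ m : Fin N, ∫ x, (crowd s m x + N) ^ 40 * ‖ψ x‖ ^ 2 ∂(piN (Fin N)))
            + 2 * (∑ m : Fin N, ∫ x, ‖htj r m ψ x‖ ^ 2 * (crowd s m x + N) ^ 40 ∂(piN (Fin N))) := by
          rw [Finset.sum_add_distrib, ← Finset.mul_sum, ← Finset.mul_sum]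
      _ ≤ 2 * (2 ^ 39 * (C1 + 1) * (N : ℝ) ^ 41) + 2 * (2 ^ 39 * (C2 + 1) * (N : ℝ) ^ 41) := by
          gcongr
      _ = (2 ^ 40 * (C1 + 1) + 2 ^ 40 * (C2 + 1)) * (N : ℝ) ^ 41 := by ring

theorem locMG (θ cw Kμ : ℝ) (hθ : 1 ≤ θ) (hcw : 0 < cw) (hKμ : 0 ≤ Kμ) :
    ∃ C Y0 : ℝ, 0 < C ∧ 0 < Y0 ∧ ∀ Y : ℝ, 0 < Y → Y < Y0 → ∀ (l R a : ℝ) (w : ℝ → ℝ)
      (N : ℕ) (Lam R₀ e : ℝ) (𝒱 : T3 → ℝ≥0∞) (ψ : (Fin N → T3) → ℂ)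
      (g : Fin N → Fin 3 → (Fin N → T3) → ℂ), Par θ cw Kμ Y l R a w N R₀ 𝒱 →
      MiniG l Lam R₀ 𝒱 (Kμ / l ^ 2) e ψ g → (∑ i, nuQ (fc ψ) i) ≤ 2 * Y * N →
      ∀ t : ℝ, 0 < t → 16 * t ≤ l ^ 2 → 1 ≤ N * (Real.sqrt (t / 8)) ^ 3 → LocM C Y t ψ := by
  obtain ⟨C1, Y1, hC1, hY1, H1⟩ := P10_crowd_moments θ cw Kμ hθ hcw hKμ 1
  obtain ⟨C2, Y2, hC2, hY2, H2⟩ := P10_high_moments θ cw Kμ hθ hcw hKμ
  refine ⟨C1 + (C2 + 2), min Y1 Y2, by positivity, lt_min hY1 hY2, ?_⟩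
  intro Y hY hYlt l R a w N Lam R₀ e 𝒱 ψ g hPar hMini hν t ht ht16 htN
  have hYl1 : Y < Y1 := hYlt.trans_le (min_le_left _ _)
  have hYl2 : Y < Y2 := hYlt.trans_le (min_le_right _ _)
  have hψ : MemLp ψ 2 (piN (Fin N)) := hMini.fe.hg.mem
  have hN : 0 < N := by
    rcases Nat.eq_zero_or_pos N with h | h
    · exfalso
      rw [h] at htN
      norm_num at htN
    · exact h
  have hn : (0 : ℝ) < N := by exact_mod_cast hN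
  have hs1 : ∀ s, t / 8 ≤ s → s ≤ 8 * t → 0 < s ∧ 2 * s ≤ l ^ 2 ∧ 1 ≤ N * (Real.sqrt s) ^ 3 := by
    intro s h1 h2
    refine ⟨by linarith, by linarith, htN.trans ?_⟩
    refine mul_le_mul_of_nonneg_left ?_ hn.le
    exact pow_le_pow_left₀ (Real.sqrt_nonneg _) (Real.sqrt_le_sqrt h1) 3
  have ht2 : 0 < t / 2 := by linarith
  have ht2l : t / 2 ≤ l ^ 2 := by linarith
  have hYp : 0 < Y ^ ((19 : ℝ) / 20) := Real.rpow_pos_of_pos hY _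
  refine ⟨?_, ?_, ?_⟩
  · intro s h1 h2
    obtain ⟨hs, hsl, hsN⟩ := hs1 s h1 h2
    have h3 := H1 Y hY hYl1 l R a w N Lam R₀ e 𝒱 ψ g hPar hMini s hs hsl hsN
    rw [Fintype.card_fin]
    have h4 : ∀ m, ∫ x, ‖ψ x‖ ^ 2 * crowd s m x ∂(piN (Fin N)) =
        ∫ x, crowd s m x ^ 1 * ‖ψ x‖ ^ 2 ∂(piN (Fin N)) := by
      intro m
      refine integral_congr_ae (Eventually.of_forall fun x => ?_)
      simp only [pow_one]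
      ring
    rw [Finset.sum_congr rfl fun m _ => h4 m]
    refine h3.trans ?_
    refine mul_le_mul_of_nonneg_right ?_ (by positivity)
    linarith
  · intro s h1 h2
    obtain ⟨hs, hsl, hsN⟩ := hs1 s h1 h2
    have h3 := (H2 Y hY hYl2 l R a w N Lam R₀ e 𝒱 ψ g hPar hMini s (t / 2) hs hsl hsN ht2 ht2l).1
    rw [Fintype.card_fin]
    refine (I2_sum hN hY hν (G := fun m x => ψ x - avj m ψ x)
      (fun m => hψ.sub (avj_memLp hψ m)) (fun m => avj_sub hψ m) hs h3).trans ?_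
    refine mul_le_mul_of_nonneg_right (mul_le_mul_of_nonneg_right ?_ (by positivity)) hYp.le
    linarith
  · intro s h1 h2
    obtain ⟨hs, hsl, hsN⟩ := hs1 s h1 h2
    have h3 := (H2 Y hY hYl2 l R a w N Lam R₀ e 𝒱 ψ g hPar hMini s (t / 2) hs hsl hsN ht2 ht2l).2
    rw [Fintype.card_fin]
    refine (I2_sum hN hY hν (G := fun m x => ψ x - htj (t / 2) m ψ x)
      (fun m => hψ.sub (htj_memLp hψ ht2 m)) (fun m => htj_sub hψ ht2 m) hs h3).trans ?_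
    refine mul_le_mul_of_nonneg_right (mul_le_mul_of_nonneg_right ?_ (by positivity)) hYp.le
    linarith

end Pool.Agent.Lib.MP_4952d6_mp.LG
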