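import Pool.Agent.Lib.MP_4952d6_mp.Pq.P04
import Pool.Agent.Lib.MP_4952d6_mp.Pq.P05
import Pool.Agent.Lib.MP_4952d6_mp.Pk.G51

/-!
# Pq.P11 (leaf J): the chemical potential of the gapped system

Model `chem`, `E0_chain` (Pk/G51 l.1115-1310): trial state `mG (Az f) (ext χ)`, `χ` almost optimal for `E0G n`, `trial_energy` as it is, `var_csG` for `GA f`. New: gap terms of the
trial state `Φ(y, x) = AA f y x χ(x)` (particle `0` at `y`): `rq 0 Φ ≤ ∫ ‖Φ‖² = m` (`rq_le`); for the old particle `j` (`rq_mG`, then integrate over `y`)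
`rq j.succ Φ = bq j χ (GA f) + (commutator)`, `∑_j bq j χ (GA f)` is part of `var_csG`, and the commutator is at most
`½ ∫∫∫ (AA f y x - AA f y (update x j z))² ‖χ x‖² dy dz dx`, `|AA f y x - AA f y (update x j z)| ≤ |f(rr (y - x j)) - f(rr (y - z))|` (the other factors are in [0,1]),
`(a - b)² ≤ 2 (1-a)² + 2 (1-b)² `, `(1-f)² ≤ 1 - f²` (`0 ≤ f ≤ 1`): together `≤ 2 Lam n ∫ (1 - f²) ≤ Lam`. So `e m + √(δ C) + n c + Lam m + Lam`, `m ≥ 1/2`.
-/

set_option autoImplicit false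
set_option linter.unusedSectionVars false
set_option linter.unusedVariables false
open MeasureTheory Function Filter Topology Set ComplexConjugate
open scoped ENNReal

namespace Pool.Agent.Lib.MP_4952d6_mp.LG

open LA

variable {ι : Type*} [Fintype ι] [DecidableEq ι]

/-- splitting off the new particle -/
theorem P11_int {n : ℕ} {F : T3 × (Fin n → T3) → ℝ}
    (hF : Integrable F (lam3.prod (piN (Fin n)))) :
    ∫ z, F (z 0, tl z) ∂(piN (Fin (n + 1))) = ∫ x, ∫ y, F (y, x) ∂lam3 ∂(piN (Fin n)) := by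
  rw [mp_integral (B3_mp n) hF.aestronglyMeasurable, integral_prod_symm _ hF]

theorem P11_tl_upd {n : ℕ} (z : Fin (n + 1) → T3) (j : Fin n) (w : T3) :
    tl (update z j.succ w) = update (tl z) j w := by
  funext l
  unfold tl
  by_cases h : l = j
  · subst h
    rw [update_self, update_self]
  · rw [update_of_ne (fun h' => h (Fin.succ_injective _ h')), update_of_ne h]

theorem P11_zero_upd {n : ℕ} (z : Fin (n + 1) → T3) (j : Fin n) (w : T3) :
    (update z j.succ w) 0 = z 0 :=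
  update_of_ne (Fin.succ_ne_zero j).symm _ _

theorem P11_ext_mem {n : ℕ} {χ : (Fin n → T3) → ℂ} (hχ : MemLp χ 2 (piN (Fin n))) :
    MemLp (ext χ) 2 (piN (Fin (n + 1))) := by
  have h1 : MeasurePreserving (fun z : Fin (n + 1) → T3 => tl z) (piN (Fin (n + 1)))
      (piN (Fin n)) := measurePreserving_snd.comp (B3_mp n)
  exact hχ.comp_measurePreserving h1

theorem P11_Az_bm {n : ℕ} {b : ℝ} {f g k1 : ℝ → ℝ} (hJ : JData b f g k1) :
    BM (Az f : (Fin (n + 1) → T3) → ℝ) :=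
  BM.of_mem_Icc (a := 0) (b := 1) (B2_Az_meas hJ) fun z =>
    ⟨B3_AA_nonneg hJ (z 0) (tl z), B3_AA_le_one hJ (z 0) (tl z)⟩

theorem P11_pair {n : ℕ} {χ : (Fin n → T3) → ℂ} (hχ : MemLp χ 2 (piN (Fin n))) (j : Fin n) :
    Integrable (fun q : (Fin n → T3) × T3 =>
      ‖χ q.1‖ ^ 2 - (conj (χ q.1) * χ (update q.1 j q.2)).re) ((piN (Fin n)).prod lam3) := by
  have h1 : MemLp (fun q : (Fin n → T3) × T3 => χ q.1) 2 ((piN (Fin n)).prod lam3) :=
    hχ.comp_measurePreserving measurePreserving_fst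
  have h2 : MemLp (fun q : (Fin n → T3) × T3 => χ (update q.1 j q.2)) 2
      ((piN (Fin n)).prod lam3) := hχ.comp_measurePreserving (LB.mp_upd j)
  have i1 := int_sq h1
  have i2 := int_sq h2
  refine i1.sub ?_
  have h3 : Integrable (fun q : (Fin n → T3) × T3 =>
      (1 / 2 : ℝ) * (‖χ q.1‖ ^ 2 + ‖χ (update q.1 j q.2)‖ ^ 2)) ((piN (Fin n)).prod lam3) :=
    (i1.add i2).const_mul _
  refine Integrable.mono' h3 ?_ (Eventually.of_forall fun q => ?_)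
  · exact Complex.continuous_re.comp_aestronglyMeasurable
      ((Complex.continuous_conj.comp_aestronglyMeasurable h1.1).mul h2.1)
  · rw [Real.norm_eq_abs]
    refine (Complex.abs_re_le_norm _).trans ?_
    rw [norm_mul, RCLike.norm_conj]
    nlinarith [sq_nonneg (‖χ q.1‖ - ‖χ (update q.1 j q.2)‖)]

theorem P11_bq {n : ℕ} {b : ℝ} {f g k1 : ℝ → ℝ} (hJ : JData b f g k1) {χ : (Fin n → T3) → ℂ}
    (hχ : MemLp χ 2 (piN (Fin n))) (j : Fin n) :
    bq j.succ (ext χ) (fun z => Az f z ^ 2) = bq j χ (GA f) := by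
  obtain ⟨H, hH⟩ : ∃ H : (Fin n → T3) → ℝ, H = fun x => ∫ w,
      (‖χ x‖ ^ 2 - (conj (χ x) * χ (update x j w)).re) ∂lam3 := ⟨_, rfl⟩
  have hHi : Integrable H (piN (Fin n)) := by
    rw [hH]
    exact (P11_pair hχ j).integral_prod_left
  obtain ⟨hA, -, -⟩ := AA_bm (n := n) hJ
  have hFi : Integrable (fun q : T3 × (Fin n → T3) => AA f q.1 q.2 ^ 2 * H q.2)
      (lam3.prod (piN (Fin n))) := by
    obtain ⟨C, hC0, hC⟩ := (hA.pow 2).exists_nonneg_bound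
    have h1 : Integrable (fun q : T3 × (Fin n → T3) => H q.2) (lam3.prod (piN (Fin n))) :=
      measurePreserving_snd.integrable_comp_of_integrable hHi
    exact h1.bdd_mul (hA.pow 2).1.aestronglyMeasurable (c := C)
      (Eventually.of_forall fun x => hC x)
  have h1 : bq j.succ (ext χ) (fun z => Az f z ^ 2)
      = ∫ z, (fun q : T3 × (Fin n → T3) => AA f q.1 q.2 ^ 2 * H q.2) (z 0, tl z)
        ∂(piN (Fin (n + 1))) := by
    unfold bq
    refine integral_congr_ae (Eventually.of_forall fun z => ?_)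
    dsimp only
    rw [integral_const_mul, hH]
    unfold Az
    congr 1
    refine integral_congr_ae (Eventually.of_forall fun w => ?_)
    dsimp only
    unfold LA.ext
    rw [P11_tl_upd]
  rw [h1, P11_int hFi]
  unfold bq
  refine integral_congr_ae (Eventually.of_forall fun x => ?_)
  dsimp only
  rw [integral_mul_const, integral_const_mul, hH]
  rfl

theorem P11_point {n : ℕ} {b : ℝ} {f g k1 : ℝ → ℝ} (hJ : JData b f g k1) (j : Fin n) (y w : T3)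
    (x : Fin n → T3) :
    (AA f y x - AA f y (update x j w)) ^ 2
      ≤ 2 * (1 - f (rr (y - x j)) ^ 2) + 2 * (1 - f (rr (y - w)) ^ 2) := by
  obtain ⟨p, hp⟩ : ∃ p : ℝ, p = ∏ m ∈ Finset.univ.erase j, f (rr (y - x m)) := ⟨_, rfl⟩
  obtain ⟨a, ha⟩ : ∃ a : ℝ, a = f (rr (y - x j)) := ⟨_, rfl⟩
  obtain ⟨c, hc⟩ : ∃ c : ℝ, c = f (rr (y - w)) := ⟨_, rfl⟩
  have hp0 : 0 ≤ p := by
    rw [hp]
    exact Finset.prod_nonneg fun m _ => hJ.f_nonneg _
  have hp1 : p ≤ 1 := by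
    rw [hp]
    exact Finset.prod_le_one (fun m _ => hJ.f_nonneg _) fun m _ => hJ.f_le_one _
  have ha0 : 0 ≤ a := ha ▸ hJ.f_nonneg _
  have ha1 : a ≤ 1 := ha ▸ hJ.f_le_one _
  have hc0 : 0 ≤ c := hc ▸ hJ.f_nonneg _
  have hc1 : c ≤ 1 := hc ▸ hJ.f_le_one _
  have e1 : AA f y x = a * p := by
    unfold AA
    rw [← Finset.mul_prod_erase _ _ (Finset.mem_univ j), ha, hp]
  have e2 : AA f y (update x j w) = c * p := by
    unfold AA
    rw [← Finset.mul_prod_erase _ _ (Finset.mem_univ j), hc, hp, update_self]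
    congr 1
    refine Finset.prod_congr rfl fun m hm => ?_
    rw [update_of_ne (Finset.ne_of_mem_erase hm)]
  rw [e1, e2, ← ha, ← hc]
  have h1 : (a * p - c * p) ^ 2 = (a - c) ^ 2 * p ^ 2 := by ring
  have h2 : p ^ 2 ≤ 1 := pow_le_one₀ hp0 hp1
  have h3 : (a - c) ^ 2 * p ^ 2 ≤ (a - c) ^ 2 := mul_le_of_le_one_right (sq_nonneg _) h2
  have h4 : (a - c) ^ 2 ≤ 2 * (1 - a) ^ 2 + 2 * (1 - c) ^ 2 := by
    nlinarith [sq_nonneg ((1 - a) + (1 - c))]
  have h5 : (1 - a) ^ 2 ≤ 1 - a ^ 2 := by nlinarith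
  have h6 : (1 - c) ^ 2 ≤ 1 - c ^ 2 := by nlinarith
  rw [h1]
  linarith

theorem P11_dq {n : ℕ} {b : ℝ} {f g k1 : ℝ → ℝ} (hJ : JData b f g k1) {χ : (Fin n → T3) → ℂ}
    (hχ : MemLp χ 2 (piN (Fin n))) (j : Fin n) :
    dq j.succ (ext χ) (Az f)
      ≤ 2 * (∫ y, (1 - f (rr y) ^ 2) ∂lam3) * ∫ x, ‖χ x‖ ^ 2 ∂(piN (Fin n)) := by
  obtain ⟨hA, -, -⟩ := AA_bm (n := n) hJ
  obtain ⟨I, hI⟩ : ∃ I : ℝ, I = ∫ y, (1 - f (rr y) ^ 2) ∂lam3 := ⟨_, rfl⟩
  obtain ⟨D, hD⟩ : ∃ D : T3 × (Fin n → T3) → ℝ, D = fun q => ∫ w,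
      (AA f q.1 q.2 - AA f q.1 (update q.2 j w)) ^ 2 ∂lam3 := ⟨_, rfl⟩
  have hupd : Measurable (fun p : (T3 × (Fin n → T3)) × T3 =>
      (p.1.1, update p.1.2 j p.2)) := by
    have h1 : Measurable (fun q : (Fin n → T3) × T3 => update q.1 j q.2) :=
      (LB.mp_upd (ι := Fin n) j).measurable
    have h2 : Measurable (fun p : (T3 × (Fin n → T3)) × T3 => (p.1.2, p.2)) :=
      (measurable_snd.comp measurable_fst).prodMk measurable_snd
    exact (measurable_fst.comp measurable_fst).prodMk (h1.comp h2)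
  have hU : BM (fun p : (T3 × (Fin n → T3)) × T3 =>
      (AA f p.1.1 p.1.2 - AA f p.1.1 (update p.1.2 j p.2)) ^ 2) :=
    ((hA.comp (φ := fun p : (T3 × (Fin n → T3)) × T3 => p.1) measurable_fst).sub
      (hA.comp hupd)).pow 2
  have hDb : BM D := by
    rw [hD]
    exact BM.integral_right (f := fun (q : T3 × (Fin n → T3)) (w : T3) =>
      (AA f q.1 q.2 - AA f q.1 (update q.2 j w)) ^ 2) hU lam3
  have hfb : BM (fun y : T3 => 1 - f (rr y) ^ 2) := (BM.const 1).sub (hJ.f_bm.pow 2)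
  have hms : ∀ w : T3, Measurable (fun y : T3 => y - w) := fun w =>
    measurable_sub' measurable_id measurable_const
  have hms' : ∀ y : T3, Measurable (fun w : T3 => y - w) := fun y =>
    measurable_sub' measurable_const measurable_id
  -- the inner integral
  have hD1 : ∀ (y : T3) (x : Fin n → T3), D (y, x) ≤ 2 * (1 - f (rr (y - x j)) ^ 2) + 2 * I := by
    intro y x
    have hb : BM (fun w : T3 => 1 - f (rr (y - w)) ^ 2) := hfb.comp (hms' y)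
    have hs : BM (fun w : T3 => (AA f y x - AA f y (update x j w)) ^ 2) :=
      hU.comp (φ := fun w : T3 => ((y, x), w)) (measurable_const.prodMk measurable_id)
    have h1 : ∫ w, (AA f y x - AA f y (update x j w)) ^ 2 ∂lam3
        ≤ ∫ w, (2 * (1 - f (rr (y - x j)) ^ 2) + 2 * (1 - f (rr (y - w)) ^ 2)) ∂lam3 :=
      integral_mono (hs.integrable _)
        (((BM.const (2 * (1 - f (rr (y - x j)) ^ 2))).add (hb.const_mul 2)).integrable _)
        fun w => P11_point hJ j y w x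
    have h3 : ∫ w, 2 * (1 - f (rr (y - w)) ^ 2) ∂lam3 = 2 * I := by
      rw [integral_const_mul, LB.int_sub_left (fun y => 1 - f (rr y) ^ 2) y, hI]
    have h2 : ∫ w, (2 * (1 - f (rr (y - x j)) ^ 2) + 2 * (1 - f (rr (y - w)) ^ 2)) ∂lam3
        = 2 * (1 - f (rr (y - x j)) ^ 2) + 2 * I := by
      rw [integral_add (integrable_const _) ((hb.const_mul 2).integrable _), h3]
      simp
    rw [hD]
    exact h1.trans (le_of_eq h2)
  have hD2 : ∀ x : Fin n → T3, ∫ y, D (y, x) ∂lam3 ≤ 4 * I := by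
    intro x
    have hb : BM (fun y : T3 => 1 - f (rr (y - x j)) ^ 2) := hfb.comp (hms (x j))
    have h1 : ∫ y, D (y, x) ∂lam3 ≤ ∫ y, (2 * (1 - f (rr (y - x j)) ^ 2) + 2 * I) ∂lam3 :=
      integral_mono ((B3_slice hDb x).integrable _)
        (((hb.const_mul 2).add (BM.const (2 * I))).integrable _) fun y => hD1 y x
    have h3 : ∫ y, 2 * (1 - f (rr (y - x j)) ^ 2) ∂lam3 = 2 * I := by
      rw [integral_const_mul, integral_shift (fun y => 1 - f (rr y) ^ 2) (x j), hI]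
    have h2 : ∫ y, (2 * (1 - f (rr (y - x j)) ^ 2) + 2 * I) ∂lam3 = 4 * I := by
      rw [integral_add ((hb.const_mul 2).integrable _) (integrable_const _), h3]
      simp
      ring
    exact h1.trans (le_of_eq h2)
  have hχi := int_sq hχ
  have hFi : Integrable (fun q : T3 × (Fin n → T3) => D q * ‖χ q.2‖ ^ 2)
      (lam3.prod (piN (Fin n))) := by
    obtain ⟨C, hC0, hC⟩ := hDb.exists_nonneg_bound
    have h1 : Integrable (fun q : T3 × (Fin n → T3) => ‖χ q.2‖ ^ 2) (lam3.prod (piN (Fin n))) :=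
      measurePreserving_snd.integrable_comp_of_integrable hχi
    exact h1.bdd_mul hDb.1.aestronglyMeasurable (c := C) (Eventually.of_forall fun x => hC x)
  have h1 : dq j.succ (ext χ) (Az f)
      = 1 / 2 * ∫ z, (fun q : T3 × (Fin n → T3) => D q * ‖χ q.2‖ ^ 2) (z 0, tl z)
        ∂(piN (Fin (n + 1))) := by
    unfold dq
    congr 1
    refine integral_congr_ae (Eventually.of_forall fun z => ?_)
    dsimp only
    rw [integral_mul_const, hD]
    dsimp only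
    unfold LA.ext
    congr 1
    refine integral_congr_ae (Eventually.of_forall fun w => ?_)
    dsimp only
    unfold Az
    rw [P11_tl_upd, P11_zero_upd]
  rw [h1, P11_int hFi]
  have h2 : ∫ x, ∫ y, D (y, x) * ‖χ x‖ ^ 2 ∂lam3 ∂(piN (Fin n))
      ≤ ∫ x, 4 * I * ‖χ x‖ ^ 2 ∂(piN (Fin n)) := by
    refine integral_mono hFi.integral_prod_right (hχi.const_mul _) fun x => ?_
    dsimp only
    rw [integral_mul_const]
    exact mul_le_mul_of_nonneg_right (hD2 x) (sq_nonneg _)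
  rw [integral_const_mul] at h2
  dsimp only
  rw [← hI]
  linarith

/-- gap term of an old particle in the trial state -/
theorem P11_rq {n : ℕ} {b : ℝ} {f g k1 : ℝ → ℝ} (hJ : JData b f g k1) {χ : (Fin n → T3) → ℂ}
    (hχ : MemLp χ 2 (piN (Fin n))) (j : Fin n) :
    rq j.succ (mG (Az f) (ext χ)) ≤ bq j χ (GA f)
      + 2 * (∫ y, (1 - f (rr y) ^ 2) ∂lam3) * ∫ x, ‖χ x‖ ^ 2 ∂(piN (Fin n)) := by
  have h1 := rq_mG (P11_ext_mem hχ) j.succ (P11_Az_bm (n := n) hJ)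
  have h2 := cq_le (P11_ext_mem hχ) j.succ (P11_Az_bm (n := n) hJ)
  have h3 := P11_dq hJ hχ j
  have h4 := P11_bq hJ hχ j
  rw [h1, h4]
  linarith

/-- the right hand side of `trial_energy` is nonnegative -/
theorem P11_bG {n : ℕ} {R₀ : ℝ} {𝒱 : T3 → ℝ≥0∞} {b : ℝ} {f g k1 : ℝ → ℝ} (hJ : JData b f g k1)
    {c : ℝ} (hc0 : 0 ≤ c)
    (hc : ∫⁻ y, (ENNReal.ofReal (g (rr y) ^ 2 * rr y ^ 2 + |JData.eff f g k1 (rr y)|)
      + 𝒱 y * ENNReal.ofReal (f (rr y) ^ 2)) ∂lam3 ≤ ENNReal.ofReal c)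
    {χ : (Fin n → T3) → ℂ} {h : Fin n → Fin 3 → (Fin n → T3) → ℂ} (hχ : FE R₀ 𝒱 χ h) :
    0 ≤ bG 𝒱 χ h (GA f) (GA' f g) + (n : ℝ) * c * ∫ x, ‖χ x‖ ^ 2 ∂(piN (Fin n)) := by
  obtain ⟨G2, hG2⟩ : ∃ G2 : ℝ, G2 = ∫ y, g (rr y) ^ 2 * rr y ^ 2 ∂lam3 := ⟨_, rfl⟩
  obtain ⟨S, hS⟩ : ∃ S : ℝ, S = ∫ x, ‖χ x‖ ^ 2 ∂(piN (Fin n)) := ⟨_, rfl⟩
  have hS0 : 0 ≤ S := by
    rw [hS]
    exact integral_nonneg fun y => sq_nonneg _
  have hGc : G2 ≤ c := by
    have b1 : BM (fun y : T3 => g (rr y) ^ 2 * rr y ^ 2) :=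
      (hJ.g_bm.pow 2).mul (JData.rr_bm'.pow 2)
    have h1 : ENNReal.ofReal G2 ≤ ENNReal.ofReal c := by
      rw [hG2, ofReal_integral_eq_lintegral_ofReal (b1.integrable _) (Eventually.of_forall fun y =>
        mul_nonneg (sq_nonneg _) (sq_nonneg _))]
      refine le_trans (lintegral_mono fun y => ?_) hc
      refine le_trans (ENNReal.ofReal_le_ofReal ?_) le_self_add
      exact le_add_of_nonneg_right (abs_nonneg _)
    exact (ENNReal.ofReal_le_ofReal_iff hc0).mp h1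
  have hP0 : 0 ≤ ∫ x, GA f x * ((potS 𝒱 Finset.univ x).toReal * ‖χ x‖ ^ 2) ∂(piN (Fin n)) :=
    integral_nonneg fun x =>
      mul_nonneg (GA_bounds hJ x).1 (mul_nonneg ENNReal.toReal_nonneg (sq_nonneg _))
  obtain ⟨X, hX⟩ : ∃ X : Fin n → Fin 3 → ℝ, ∀ j α, X j α
      = ∫ x, (GA f x * ‖h j α x‖ ^ 2 + GA' f g j α x * (conj (χ x) * h j α x).re)
        ∂(piN (Fin n)) := ⟨_, fun _ _ => rfl⟩
  obtain ⟨Y, hY⟩ : ∃ Y : Fin n → Fin 3 → ℝ, ∀ j α, Y j α
      = ∫ x, (∫ y, AAj f g j α y x ^ 2 ∂lam3) * ‖χ x‖ ^ 2 ∂(piN (Fin n)) :=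
    ⟨_, fun _ _ => rfl⟩
  have hold : ∀ j α, 0 ≤ X j α + Y j α := by
    intro j α
    obtain ⟨-, -, h3, h4⟩ := B3_old hJ hχ.hg.mem (hχ.hg.gmem j α) j α
    rw [hX, hY]
    exact h3
  have hYs : ∀ j, ∑ α, Y j α ≤ G2 * S := by
    intro j
    have h1 : ∑ α, Y j α = ∫ x, ∑ α, (∫ y, AAj f g j α y x ^ 2 ∂lam3) * ‖χ x‖ ^ 2
        ∂(piN (Fin n)) := by
      rw [integral_finsetSum _ (fun α _ => (B3_old hJ hχ.hg.mem (hχ.hg.gmem j α) j α).2.1)]
      exact Finset.sum_congr rfl fun α _ => hY j α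
    rw [h1, hS, ← integral_const_mul]
    refine integral_mono (integrable_finsetSum _ (fun α _ =>
      (B3_old hJ hχ.hg.mem (hχ.hg.gmem j α) j α).2.1)) ((int_sq hχ.hg.mem).const_mul _)
      fun x => ?_
    dsimp only
    rw [← Finset.sum_mul, hG2]
    exact mul_le_mul_of_nonneg_right (B3_AAj hJ j x) (sq_nonneg _)
  have hXY0 : 0 ≤ ∑ j, ∑ α, (X j α + Y j α) :=
    Finset.sum_nonneg fun j _ => Finset.sum_nonneg fun α _ => hold j α
  have hsp : ∑ j, ∑ α, (X j α + Y j α) = (∑ j, ∑ α, X j α) + ∑ j, ∑ α, Y j α := by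
    simp only [Finset.sum_add_distrib]
  have hYY : ∑ j, ∑ α, Y j α ≤ (n : ℝ) * (G2 * S) := by
    refine (Finset.sum_le_sum fun j _ => hYs j).trans (le_of_eq ?_)
    rw [Finset.sum_const, Finset.card_univ, Fintype.card_fin, nsmul_eq_mul]
  have hcc : (n : ℝ) * (G2 * S) ≤ (n : ℝ) * (c * S) :=
    mul_le_mul_of_nonneg_left (mul_le_mul_of_nonneg_right hGc hS0) (Nat.cast_nonneg n)
  have hbG : bG 𝒱 χ h (GA f) (GA' f g) = (∑ j, ∑ α, X j α)
      + ∫ x, GA f x * ((potS 𝒱 Finset.univ x).toReal * ‖χ x‖ ^ 2) ∂(piN (Fin n)) := by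
    unfold bG
    congr 1
    exact Finset.sum_congr rfl fun j _ => Finset.sum_congr rfl fun α _ => (hX j α).symm
  rw [hbG, ← hS, mul_assoc]
  rw [hsp] at hXY0
  linarith

theorem chemG {n : ℕ} {R₀ Lam : ℝ} {𝒱 : T3 → ℝ≥0∞} (hv : AEMeasurable 𝒱 lam3)
    (hev : ∀ y, 𝒱 (-y) = 𝒱 y) (hLam : 0 ≤ Lam) {b : ℝ} {f g k1 : ℝ → ℝ} (hJ : JData b f g k1)
    (hf0 : ∀ r, 0 ≤ r → r < R₀ → f r = 0) {c : ℝ} (hc0 : 0 ≤ c)
    (hc : ∫⁻ y, (ENNReal.ofReal (g (rr y) ^ 2 * rr y ^ 2 + |JData.eff f g k1 (rr y)|)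
      + 𝒱 y * ENNReal.ofReal (f (rr y) ^ 2)) ∂lam3 ≤ ENNReal.ofReal c)
    (hn : (n : ℝ) * ∫ y, (1 - f (rr y) ^ 2) ∂lam3 ≤ 1 / 2) :
    E0G R₀ 𝒱 Lam (n + 1) ≤ E0G R₀ 𝒱 Lam n + ENNReal.ofReal (2 * n * c + 3 * Lam) := by
  by_cases htop : E0G R₀ 𝒱 Lam n = ⊤
  · rw [htop, top_add]
    exact le_top
  obtain ⟨e, he⟩ : ∃ e : ℝ, e = (E0G R₀ 𝒱 Lam n).toReal := ⟨_, rfl⟩
  have he0 : 0 ≤ e := by
    rw [he]
    exact ENNReal.toReal_nonneg
  have heE : ENNReal.ofReal e = E0G R₀ 𝒱 Lam n := by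
    rw [he]
    exact ENNReal.ofReal_toReal htop
  have hmin : ∀ (φ : (Fin n → T3) → ℂ) (f' : Fin n → Fin 3 → (Fin n → T3) → ℂ), HG φ f' →
      Core R₀ φ → ENNReal.ofReal e * ∫⁻ x, ‖φ x‖ₑ ^ 2 ∂(piN (Fin n))
        ≤ eS 𝒱 Finset.univ φ f' + ENNReal.ofReal Lam * ∑ i, gq i φ := by
    intro φ f' h1 h2
    rw [heE]
    exact E0G_le_card hev (Fintype.card_fin n) h1 h2
  obtain ⟨hA, hAj, hA0⟩ := AA_bm (n := n) hJ
  have hG : BM (GA f : (Fin n → T3) → ℝ) := B3_avg (hA.pow 2)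
  obtain ⟨K, hK0, hK⟩ : ∃ K : ℝ, 0 ≤ K ∧ ∀ (j : Fin n) (α : Fin 3) (x : Fin n → T3),
      |GA' f g j α x| ≤ K := by
    have h1 : ∀ (j : Fin n) (α : Fin 3), ∃ C : ℝ, 0 ≤ C ∧ ∀ x, |GA' f g j α x| ≤ C := by
      intro j α
      have h2 : BM (fun q : T3 × (Fin n → T3) => 2 * AA f q.1 q.2 * AAj f g j α q.1 q.2) :=
        (hA.const_mul 2).mul (hAj j α)
      have h3 : BM (GA' f g j α : (Fin n → T3) → ℝ) := B3_avg h2
      exact h3.exists_nonneg_bound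
    choose C hC0 hC using h1
    refine ⟨∑ j, ∑ α, C j α, Finset.sum_nonneg fun j _ => Finset.sum_nonneg fun α _ => hC0 j α,
      fun j α x => (hC j α x).trans ?_⟩
    have h4 : C j α ≤ ∑ α, C j α :=
      Finset.single_le_sum (f := fun α => C j α) (fun α _ => hC0 j α) (Finset.mem_univ α)
    have h5 : ∑ α, C j α ≤ ∑ j, ∑ α, C j α :=
      Finset.single_le_sum (f := fun j => ∑ α, C j α)
        (fun j _ => Finset.sum_nonneg fun α _ => hC0 j α) (Finset.mem_univ j)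
    exact h4.trans h5
  obtain ⟨I, hI⟩ : ∃ I : ℝ, I = ∫ y, (1 - f (rr y) ^ 2) ∂lam3 := ⟨_, rfl⟩
  obtain ⟨C, hC⟩ : ∃ C : ℝ, C = 6 * n * K ^ 2 + 2 * (e + 1) + Lam * n := ⟨_, rfl⟩
  have hC0 : 0 ≤ C := by
    rw [hC]
    positivity
  have key : ∀ δ : ℝ, 0 < δ → δ ≤ 1 →
      E0G R₀ 𝒱 Lam (n + 1)
        ≤ ENNReal.ofReal (e + (2 * n * c + 3 * Lam) + 2 * Real.sqrt (δ * C)) := by
    intro δ hδ hδ1
    have hlt : E0G R₀ 𝒱 Lam n < E0G R₀ 𝒱 Lam n + ENNReal.ofReal δ := by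
      refine ENNReal.lt_add_right htop ?_
      rw [Ne, ENNReal.ofReal_eq_zero, not_le]
      exact hδ
    have hlt2 : (⨅ (φ : (Fin n → T3) → ℂ) (_ : tAdm R₀ 𝒱 φ),
        (tE 𝒱 φ + ENNReal.ofReal Lam * ∑ i, gq i φ))
        < E0G R₀ 𝒱 Lam n + ENNReal.ofReal δ := hlt
    obtain ⟨χ, hχ1⟩ := iInf_lt_iff.mp hlt2
    obtain ⟨hadm, hχ2⟩ := iInf_lt_iff.mp hχ1
    obtain ⟨h, hFE⟩ := FE_of_tAdm hev hadm
    obtain ⟨hint, hrE, hrE0⟩ := rE_eq hv hFE.hg hFE.fin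
    have hS : ∫ x, ‖χ x‖ ^ 2 ∂(piN (Fin n)) = 1 := hadm.2.1
    obtain ⟨q, hq⟩ : ∃ q : ℝ, q = ∑ i, rq i χ := ⟨_, rfl⟩
    have hq0 : 0 ≤ q := by
      rw [hq]
      exact Finset.sum_nonneg fun i _ => rq_nonneg i χ
    have hgq : ∑ i, gq i χ = ENNReal.ofReal q := by
      rw [hq, ENNReal.ofReal_sum_of_nonneg fun i _ => rq_nonneg i χ]
      exact Finset.sum_congr rfl fun i _ => gq_eq hFE.hg.mem i
    have hr1 : rE 𝒱 Finset.univ χ h + Lam * q ≤ e + δ := by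
      rw [tE_eq_eS hev hFE.hg, ← hrE, hgq, ← ENNReal.ofReal_mul hLam,
        ← ENNReal.ofReal_add hrE0 (mul_nonneg hLam hq0), ← heE,
        ← ENNReal.ofReal_add he0 hδ.le] at hχ2
      exact (ENNReal.ofReal_le_ofReal_iff (by linarith)).mp hχ2.le
    have hr2 : e ≤ rE 𝒱 Finset.univ χ h + Lam * q := by
      have h1 := hmin χ h hFE.hg hFE.core
      rw [lint_sq hFE.hg.mem, hS, ENNReal.ofReal_one, mul_one, ← hrE, hgq,
        ← ENNReal.ofReal_mul hLam, ← ENNReal.ofReal_add hrE0 (mul_nonneg hLam hq0)] at h1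
      exact (ENNReal.ofReal_le_ofReal_iff (add_nonneg hrE0 (mul_nonneg hLam hq0))).mp h1
    have hvar := var_csG hv hFE hLam (GA_WDN hJ) he0 hmin
    obtain ⟨m, hm⟩ : ∃ m : ℝ, m = ∫ x, GA f x * ‖χ x‖ ^ 2 ∂(piN (Fin n)) := ⟨_, rfl⟩
    obtain ⟨B, hBd⟩ : ∃ B : ℝ, B = ∑ i, bq i χ (GA f) := ⟨_, rfl⟩
    rw [← hm, hS, mul_one, ← hq, ← hBd] at hvar
    have hbd := B4_bound hv hFE (fun x => (GA_bounds hJ x).1) (fun x => (GA_bounds hJ x).2.1)
      hK hS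
    have hGi : Integrable (fun x => GA f x * ‖χ x‖ ^ 2) (piN (Fin n)) := by
      obtain ⟨D, hD0, hD⟩ := hG.exists_nonneg_bound
      exact (int_sq hFE.hg.mem).bdd_mul hG.1.aestronglyMeasurable (c := D)
        (Eventually.of_forall fun x => hD x)
    have hm2 : 1 / 2 ≤ m := by
      have h1 : ∫ x, (1 / 2 : ℝ) * ‖χ x‖ ^ 2 ∂(piN (Fin n)) ≤ m := by
        rw [hm]
        refine integral_mono ((int_sq hFE.hg.mem).const_mul _) hGi fun x => ?_
        dsimp only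
        refine mul_le_mul_of_nonneg_right ?_ (sq_nonneg _)
        have h2 := (GA_bounds hJ x).2.2
        linarith
      rwa [integral_const_mul, hS, mul_one] at h1
    have hG2 : 0 ≤ e * ∫ x, GA f x ^ 2 * ‖χ x‖ ^ 2 ∂(piN (Fin n)) :=
      mul_nonneg he0 (integral_nonneg fun x => mul_nonneg (sq_nonneg _) (sq_nonneg _))
    have hgap : Lam * ∑ i, rq i (mG (GA f) χ) ≤ Lam * n := by
      refine mul_le_mul_of_nonneg_left ?_ hLam
      have hmem : MemLp (mG (GA f) χ) 2 (piN (Fin n)) := (hFE.hg.mul (GA_WDN hJ)).mem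
      have h1 : ∀ i : Fin n, rq i (mG (GA f) χ) ≤ 1 := by
        intro i
        refine (rq_le hmem i).trans (le_trans ?_ hS.le)
        refine integral_mono (int_sq hmem) (int_sq hFE.hg.mem) fun x => ?_
        dsimp only
        unfold mG
        rw [norm_mul, Complex.norm_real, Real.norm_eq_abs, abs_of_nonneg (GA_bounds hJ x).1]
        exact pow_le_pow_left₀ (mul_nonneg (GA_bounds hJ x).1 (norm_nonneg _))
          (mul_le_of_le_one_left (norm_nonneg _) (GA_bounds hJ x).2.1) 2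
      refine (Finset.sum_le_sum fun i _ => h1 i).trans (le_of_eq ?_)
      simp
    have hqL : 0 ≤ Lam * q := mul_nonneg hLam hq0
    have hB : (bG 𝒱 χ h (GA f) (GA' f g) + Lam * B - e * m) ^ 2 ≤ δ * C := by
      refine hvar.trans ?_
      have h1 : rE 𝒱 Finset.univ (mG (GA f) χ) (mGg (GA f) (GA' f g) χ h)
          + Lam * ∑ i, rq i (mG (GA f) χ)
          - e * ∫ x, GA f x ^ 2 * ‖χ x‖ ^ 2 ∂(piN (Fin n)) ≤ C := by
        rw [hC]
        linarith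
      have h2 : 0 ≤ rE 𝒱 Finset.univ χ h + Lam * q - e := by linarith
      have h3 : rE 𝒱 Finset.univ χ h + Lam * q - e ≤ δ := by linarith
      exact (mul_le_mul_of_nonneg_left h1 h2).trans (mul_le_mul_of_nonneg_right h3 hC0)
    have hB2 : bG 𝒱 χ h (GA f) (GA' f g) + Lam * B ≤ e * m + Real.sqrt (δ * C) := by
      have h1 := (le_abs_self _).trans (Real.abs_le_sqrt hB)
      linarith
    have htr := trial_energy hv hev hJ hc0 hc hFE
    have hpos := P11_bG hJ hc0 hc hFE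
    rw [hS, mul_one] at htr hpos
    have hHG := (ext_HG hFE.hg).mul (Az_WDN hJ)
    have hE := E0G_le_card (R₀ := R₀) (Lam := Lam) (𝒱 := 𝒱) hev (Fintype.card_fin (n + 1)) hHG
      (B4_core hf0 hFE.core)
    have hnorm : ∫ z, ‖mG (Az f) (ext χ) z‖ ^ 2 ∂(piN (Fin (n + 1))) = m := by
      have h1 := B4_norm hJ hFE.hg.mem
      rw [lint_sq hHG.mem, ← hm] at h1
      have h2 : 0 ≤ ∫ z, ‖mG (Az f) (ext χ) z‖ ^ 2 ∂(piN (Fin (n + 1))) :=
        integral_nonneg fun z => sq_nonneg _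
      exact le_antisymm ((ENNReal.ofReal_le_ofReal_iff (by linarith)).mp h1.le)
        ((ENNReal.ofReal_le_ofReal_iff h2).mp h1.ge)
    -- the gap terms of the trial state
    have hgs0 : ∑ i, rq i (mG (Az f) (ext χ)) ≤ m + B + 1 := by
      rw [Fin.sum_univ_succ]
      have h2 : rq 0 (mG (Az f) (ext χ)) ≤ m := by
        rw [← hnorm]
        exact rq_le hHG.mem 0
      have h3 : ∑ j : Fin n, rq j.succ (mG (Az f) (ext χ)) ≤ B + n * (2 * I) := by
        have h4 : ∀ j : Fin n, rq j.succ (mG (Az f) (ext χ)) ≤ bq j χ (GA f) + 2 * I := by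
          intro j
          have h5 := P11_rq hJ hFE.hg.mem j
          rwa [hS, mul_one, ← hI] at h5
        refine (Finset.sum_le_sum fun j _ => h4 j).trans (le_of_eq ?_)
        rw [Finset.sum_add_distrib, Finset.sum_const, Finset.card_univ, Fintype.card_fin,
          nsmul_eq_mul, ← hBd]
      rw [← hI] at hn
      linarith
    have hs0 : 0 ≤ m + B + 1 :=
      (Finset.sum_nonneg fun i _ => rq_nonneg i _).trans hgs0
    have hgs : ∑ i, gq i (mG (Az f) (ext χ)) ≤ ENNReal.ofReal (m + B + 1) := by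
      have h1 : ∑ i, gq i (mG (Az f) (ext χ))
          = ENNReal.ofReal (∑ i, rq i (mG (Az f) (ext χ))) := by
        rw [ENNReal.ofReal_sum_of_nonneg fun i _ => rq_nonneg i _]
        exact Finset.sum_congr rfl fun i _ => gq_eq hHG.mem i
      rw [h1]
      exact ENNReal.ofReal_le_ofReal hgs0
    have hm0 : 0 < m := by linarith
    have hfin : E0G R₀ 𝒱 Lam (n + 1) * ENNReal.ofReal m
        ≤ ENNReal.ofReal ((e + (2 * n * c + 3 * Lam) + 2 * Real.sqrt (δ * C)) * m) := by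
      have h5 : 0 ≤ Real.sqrt (δ * C) := Real.sqrt_nonneg _
      have h6 : 0 ≤ (n : ℝ) * c := mul_nonneg (Nat.cast_nonneg n) hc0
      have hE2 : E0G R₀ 𝒱 Lam (n + 1) * ENNReal.ofReal m
          ≤ ENNReal.ofReal (bG 𝒱 χ h (GA f) (GA' f g) + n * c)
            + ENNReal.ofReal Lam * ENNReal.ofReal (m + B + 1) := by
        have h7 : ∫⁻ z, ‖mG (Az f) (ext χ) z‖ₑ ^ 2 ∂(piN (Fin (n + 1))) = ENNReal.ofReal m := by
          rw [lint_sq hHG.mem, hnorm]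
        rw [h7] at hE
        exact hE.trans (add_le_add htr (mul_le_mul_right hgs _))
      rw [← ENNReal.ofReal_mul hLam, ← ENNReal.ofReal_add hpos (mul_nonneg hLam hs0)] at hE2
      refine hE2.trans (ENNReal.ofReal_le_ofReal ?_)
      have h8 : (n : ℝ) * c ≤ 2 * (n * c) * m := by nlinarith
      have h9 : Real.sqrt (δ * C) ≤ 2 * Real.sqrt (δ * C) * m := by nlinarith
      have h10 : Lam ≤ 2 * Lam * m := by nlinarith
      nlinarith
    have hmne : ENNReal.ofReal m ≠ 0 := by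
      rw [Ne, ENNReal.ofReal_eq_zero, not_le]
      exact hm0
    rw [← ENNReal.le_div_iff_mul_le (Or.inl hmne) (Or.inl ENNReal.ofReal_ne_top),
      ← ENNReal.ofReal_div_of_pos hm0, mul_div_assoc, div_self hm0.ne', mul_one] at hfin
    exact hfin
  refine ENNReal.le_of_forall_pos_le_add fun ε hε _ => ?_
  have hεr : (0 : ℝ) < ε := hε
  obtain ⟨δ, hδ⟩ : ∃ δ : ℝ, δ = min 1 ((ε : ℝ) ^ 2 / (4 * (C + 1))) := ⟨_, rfl⟩
  have hδ0 : 0 < δ := by
    rw [hδ]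
    exact lt_min one_pos (by positivity)
  have hδ1 : δ ≤ 1 := by
    rw [hδ]
    exact min_le_left _ _
  have hδ2 : δ * C ≤ ((ε : ℝ) / 2) ^ 2 := by
    have h1 : δ ≤ (ε : ℝ) ^ 2 / (4 * (C + 1)) := by
      rw [hδ]
      exact min_le_right _ _
    have h2 : δ * (4 * (C + 1)) ≤ (ε : ℝ) ^ 2 := by
      rwa [le_div_iff₀ (by positivity)] at h1
    nlinarith
  have h3 : Real.sqrt (δ * C) ≤ (ε : ℝ) / 2 := by
    rw [← Real.sqrt_sq (show (0 : ℝ) ≤ ε / 2 by positivity)]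
    exact Real.sqrt_le_sqrt hδ2
  refine (key δ hδ0 hδ1).trans ?_
  have h6 : 0 ≤ 2 * (n : ℝ) * c + 3 * Lam := by positivity
  have h7 : ENNReal.ofReal (e + (2 * n * c + 3 * Lam) + 2 * Real.sqrt (δ * C))
      ≤ ENNReal.ofReal (e + (2 * n * c + 3 * Lam) + ε) := ENNReal.ofReal_le_ofReal (by linarith)
  refine h7.trans (le_of_eq ?_)
  rw [ENNReal.ofReal_add (by linarith) hεr.le, ENNReal.ofReal_add he0 h6, heE,
    ENNReal.ofReal_coe_nnreal]

theorem E0G_zero (R₀ Lam : ℝ) (𝒱 : T3 → ℝ≥0∞) : E0G R₀ 𝒱 Lam 0 = 0 := by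
  have h0 : tE 𝒱 (fun _ : Fin 0 → T3 => (1 : ℂ)) = 0 := by
    unfold tE
    simp
  have hadm : tAdm R₀ 𝒱 (fun _ : Fin 0 → T3 => (1 : ℂ)) := by
    refine ⟨memLp_const _, by simp, fun x i => i.elim0, ?_⟩
    rw [h0]
    exact ENNReal.zero_lt_top
  refine le_antisymm ?_ zero_le
  unfold E0G
  refine (iInf₂_le _ hadm).trans (le_of_eq ?_)
  rw [h0]
  simp

/-- all ground state energies up to `N` particles -/
theorem E0G_chain {N : ℕ} {R₀ Lam μ : ℝ} {𝒱 : T3 → ℝ≥0∞} (hμ : 0 ≤ μ)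
    (h : ∀ n < N, E0G R₀ 𝒱 Lam (n + 1) ≤ E0G R₀ 𝒱 Lam n + ENNReal.ofReal μ) :
    ∀ k n, n + k = N → E0G R₀ 𝒱 Lam n < ⊤ ∧
      E0G R₀ 𝒱 Lam N ≤ E0G R₀ 𝒱 Lam n + ENNReal.ofReal (k * μ) := by
  have hfin : ∀ m, m ≤ N → E0G R₀ 𝒱 Lam m < ⊤ := by
    intro m
    induction m with
    | zero =>
      intro _
      rw [E0G_zero]
      exact ENNReal.zero_lt_top
    | succ m ih =>
      intro hm
      exact (h m (by omega)).trans_lt
        (ENNReal.add_lt_top.mpr ⟨ih (by omega), ENNReal.ofReal_lt_top⟩)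
  intro k
  induction k with
  | zero =>
    intro n hn
    refine ⟨hfin n (by omega), ?_⟩
    have h1 : n = N := by omega
    rw [h1]
    exact le_self_add
  | succ k ih =>
    intro n hn
    refine ⟨hfin n (by omega), ?_⟩
    have h1 := (ih (n + 1) (by omega)).2
    have h2 := h n (by omega)
    refine h1.trans ((add_le_add h2 le_rfl).trans (le_of_eq ?_))
    rw [add_assoc, ← ENNReal.ofReal_add hμ (by positivity)]
    congr 2
    push_cast
    ring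

end Pool.Agent.Lib.MP_4952d6_mp.LG
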