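import Pool.Agent.Lib.MP_4952d6_mp.Pq.P11
import Pool.Agent.Lib.MP_4952d6_mp.Pk.G57

/-!
# Pq.P12 (leaf K): a gapped minimiser satisfies `MiniG`

Model `exists_mini` (Pk/G57 l.262-390) with `chemG`, `E0G_chain`; `Lam (a/Y)² ≤ 1`, so `2 n K a + 3 Lam ≤ (2K + 3)/(a/Y)²`. `hmin` by `E0G_le_card`; `heq`: `tE_eq_eS`, `rE_eq`, `gq_eq`.
-/

set_option autoImplicit false
set_option linter.unusedSectionVars false
set_option linter.unusedVariables false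
open MeasureTheory Function Filter Topology Set ComplexConjugate
open scoped ENNReal

namespace Pool.Agent.Lib.MP_4952d6_mp.LG

open LA

variable {ι : Type*} [Fintype ι] [DecidableEq ι]

theorem exists_miniG : ∃ K : ℝ, 0 < K ∧ ∀ θ : ℝ, 1 ≤ θ → ∃ Y0 : ℝ, 0 < Y0 ∧ ∀ Y : ℝ, 0 < Y → Y < Y0 →
    ∀ (N : ℕ) (W f Q : ℝ → ℝ) (R₀ R a Lam : ℝ), Scat W R₀ R a f Q → a / Y ≤ 1 / 8 →
      (N : ℝ) * a ^ 3 = Y ^ 2 → R ≤ θ * a → 0 ≤ Lam → Lam * (a / Y) ^ 2 ≤ 1 →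
      ∀ 𝒱 : T3 → ℝ≥0∞, AEMeasurable 𝒱 lam3 → (∀ y, 𝒱 (-y) = 𝒱 y) →
      (∀ᵐ y ∂lam3, ENNReal.ofReal (2 * W (rr y)) ≤ 𝒱 y) →
      (∫⁻ y, 𝒱 y ∂lam3 ≤ (∫⁻ y, ENNReal.ofReal (2 * W (rr y)) ∂lam3) + ENNReal.ofReal a) →
      ∀ ψ : (Fin N → T3) → ℂ, tAdm R₀ 𝒱 ψ → (∀ φ : (Fin N → T3) → ℂ, tAdm R₀ 𝒱 φ →
        tE 𝒱 ψ + ENNReal.ofReal Lam * ∑ i, gq i ψ ≤ tE 𝒱 φ + ENNReal.ofReal Lam * ∑ i, gq i φ) →
      ∃ g e, MiniG (a / Y) Lam R₀ 𝒱 (K / (a / Y) ^ 2) e ψ g := by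
  obtain ⟨K, hK, hcon⟩ := fJ_consts
  refine ⟨2 * K + 3, by positivity, fun θ hθ => ?_⟩
  set c0 : ℝ := min 1 (1 / Real.sqrt (2 * K)) with hc0
  have hsq : 0 < Real.sqrt (2 * K) := Real.sqrt_pos.2 (by positivity)
  have hc0p : 0 < c0 := lt_min one_pos (by positivity)
  have hc01 : c0 ≤ 1 := min_le_left _ _
  have hc02 : K * c0 ^ 2 ≤ 1 / 2 := by
    have h1 : c0 ≤ 1 / Real.sqrt (2 * K) := min_le_right _ _
    have h2 : c0 ^ 2 ≤ (1 / Real.sqrt (2 * K)) ^ 2 := pow_le_pow_left₀ hc0p.le h1 2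
    have h3 : (1 / Real.sqrt (2 * K)) ^ 2 = 1 / (2 * K) := by
      rw [div_pow, one_pow, Real.sq_sqrt (by positivity)]
    rw [h3] at h2
    calc K * c0 ^ 2 ≤ K * (1 / (2 * K)) := mul_le_mul_of_nonneg_left h2 hK.le
      _ = 1 / 2 := by field_simp
  have hθ0 : 0 < θ := by linarith
  refine ⟨c0 / (2 * θ), by positivity, ?_⟩
  intro Y hY hY0 N W f Q R₀ R a Lam hsc hl hN hR hLam hLam1 𝒱 hv hev hge hle ψ hψ hmin
  have ha := hsc.a_pos
  have hl0 : 0 < a / Y := by positivity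
  set b : ℝ := c0 * (a / Y) with hb
  have hb0 : 0 < b := by positivity
  have hb2 : b < 1 / 2 := by
    have : b ≤ a / Y := by rw [hb]; exact mul_le_of_le_one_left hl0.le hc01
    linarith
  have hRb : 2 * R ≤ b := by
    have h1 : 2 * R ≤ 2 * (θ * a) := by linarith
    refine h1.trans ?_
    rw [hb, ← mul_div_assoc, le_div_iff₀ hY]
    have h2 : Y * (2 * θ) ≤ c0 := by
      rw [← le_div_iff₀ (by positivity)]; exact hY0.le
    nlinarith
  have hNa : (N : ℝ) * a * (a / Y) ^ 2 = 1 := by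
    have : (N : ℝ) * a * (a / Y) ^ 2 = (N : ℝ) * a ^ 3 / Y ^ 2 := by
      field_simp
    rw [this, hN]
    exact div_self (by positivity)
  obtain ⟨h1, h2⟩ := hcon W R₀ R a f Q hsc b hRb hb2 𝒱 hv hge hle
  have hJ := hsc.jdata hRb hb2
  have hNa' : (N : ℝ) * a = 1 / (a / Y) ^ 2 := by
    rw [eq_div_iff (by positivity)]; exact hNa
  have hLam2 : Lam ≤ 1 / (a / Y) ^ 2 := by
    rw [le_div_iff₀ (by positivity)]; exact hLam1
  -- chemical potential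
  have hch : ∀ n < N, E0G R₀ 𝒱 Lam (n + 1)
      ≤ E0G R₀ 𝒱 Lam n + ENNReal.ofReal ((2 * K + 3) / (a / Y) ^ 2) := by
    intro n hn
    have hnN : (n : ℝ) ≤ N := by exact_mod_cast hn.le
    have h3 : (n : ℝ) * ∫ y, (1 - Scat.fJ R a b f (rr y) ^ 2) ∂lam3 ≤ 1 / 2 := by
      calc (n : ℝ) * ∫ y, (1 - Scat.fJ R a b f (rr y) ^ 2) ∂lam3
          ≤ n * (K * a * b ^ 2) := mul_le_mul_of_nonneg_left h2 (Nat.cast_nonneg n)
        _ ≤ N * (K * a * b ^ 2) := mul_le_mul_of_nonneg_right hnN (by positivity)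
        _ = K * c0 ^ 2 * ((N : ℝ) * a * (a / Y) ^ 2) := by rw [hb]; ring
        _ ≤ 1 / 2 := by rw [hNa, mul_one]; exact hc02
    have h4 := chemG hv hev hLam hJ (fun r hr0 hr => fJ_core hsc hRb r hr0 hr) (c := K * a)
      (by positivity) h1 h3
    refine h4.trans ?_
    gcongr
    calc 2 * (n : ℝ) * (K * a) + 3 * Lam ≤ 2 * (N : ℝ) * (K * a) + 3 * (1 / (a / Y) ^ 2) := by
          exact add_le_add (mul_le_mul_of_nonneg_right (by linarith) (by positivity))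
            (by linarith)
      _ = 2 * K * ((N : ℝ) * a) + 3 * (1 / (a / Y) ^ 2) := by ring
      _ = (2 * K + 3) / (a / Y) ^ 2 := by rw [hNa']; ring
  have hchain := E0G_chain (N := N) (R₀ := R₀) (Lam := Lam) (𝒱 := 𝒱)
    (μ := (2 * K + 3) / (a / Y) ^ 2) (by positivity) hch
  -- the energy
  set E : ℝ≥0∞ := tE 𝒱 ψ + ENNReal.ofReal Lam * ∑ i, gq i ψ with hEdef
  have hE0 : E0G R₀ 𝒱 Lam N = E := by
    refine le_antisymm ?_ ?_
    · exact iInf₂_le ψ hψ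
    · exact le_iInf₂ fun φ hφ => hmin φ hφ
  have hgq : ∀ i, gq i ψ = ENNReal.ofReal (rq i ψ) := fun i => gq_eq hψ.1 i
  have hsum : ENNReal.ofReal Lam * ∑ i, gq i ψ = ENNReal.ofReal (Lam * ∑ i, rq i ψ) := by
    rw [ENNReal.ofReal_mul hLam, ENNReal.ofReal_sum_of_nonneg fun i _ => rq_nonneg i ψ,
      Finset.sum_congr rfl fun i _ => hgq i]
  have hr0 : 0 ≤ Lam * ∑ i, rq i ψ :=
    mul_nonneg hLam (Finset.sum_nonneg fun i _ => rq_nonneg i ψ)
  have hfin : E < ⊤ := by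
    rw [hEdef, hsum]
    exact ENNReal.add_lt_top.2 ⟨hψ.2.2.2, ENNReal.ofReal_lt_top⟩
  have hofe : ENNReal.ofReal E.toReal = E0G R₀ 𝒱 Lam N := by
    rw [ENNReal.ofReal_toReal hfin.ne, hE0]
  obtain ⟨g, hg⟩ := FE_of_tAdm hev hψ
  refine ⟨g, E.toReal, ?_⟩
  exact
    { hv := hv
      hev := hev
      fe := hg
      nrm := hψ.2.1
      mu0 := by positivity
      e0 := ENNReal.toReal_nonneg
      la0 := hLam
      la1 := hLam1
      hmin := by
        intro φ f' hφ hc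
        rw [hofe]
        exact E0G_le_card hev (Fintype.card_fin N) hφ hc
      heq := by
        obtain ⟨_, e1, e2⟩ := rE_eq hv hg.hg hg.fin
        rw [← tE_eq_eS hev hg.hg] at e1
        rw [hEdef, hsum, ← e1, ← ENNReal.ofReal_add e2 hr0,
          ENNReal.toReal_ofReal (add_nonneg e2 hr0)]
      chem := by
        intro T
        have hcard : Tᶜ.card = N - T.card := by
          rw [Finset.card_compl, Fintype.card_fin]
        have hTN : T.card ≤ N := by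
          have := Finset.card_le_univ T
          rwa [Fintype.card_fin] at this
        rw [hcard]
        have h5 := (hchain T.card (N - T.card) (Nat.sub_add_cancel hTN)).2
        rw [ENNReal.ofReal_sub _ (by positivity), hofe]
        exact tsub_le_iff_right.2 h5 }

end Pool.Agent.Lib.MP_4952d6_mp.LG
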