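import Pool.Agent.Lib.MP_4952d6_mp.Pk.G58
import Pool.Agent.Lib.MP_4952d6_mp.Pq.P10
import Pool.Agent.Lib.MP_4952d6_mp.Pq.P12

/-!
# Pq.P13: local moment bounds for gapped minimisers, final form; the torus data

`la_finalG`: model `la_final` (Pk/G58).
-/

set_option autoImplicit false
set_option linter.unusedSectionVars false
set_option linter.unusedVariables false
open MeasureTheory Function Filter Topology Set ComplexConjugate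
open scoped ENNReal

namespace Pool.Agent.Lib.MP_4952d6_mp.LG

open LA

/-- Interaction data on the unit torus: truncated profile `W` with scattering data, a bounded shape `w` below the interaction,
the interaction `𝒱` between two particles. -/
structure RegG (θ cw c Y : ℝ) (W f Q w : ℝ → ℝ) (R₀ R a : ℝ) (N : ℕ) (𝒱 : T3 → ℝ≥0∞) : Prop where
  sc : Scat W R₀ R a f Q
  Na : (N : ℝ) * a ^ 3 = Y ^ 2
  Rle : R ≤ θ * a
  wm : Measurable w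
  w0 : ∀ t, 0 ≤ w t
  wb : ∀ t, w t ≤ (R⁻¹) ^ 2
  wz : ∀ t, R ≤ t → w t = 0
  wc : cw * R ≤ sig * ∫ t in Ioi (0:ℝ), t ^ 2 * w t
  V_meas : AEMeasurable 𝒱 lam3
  V_even : ∀ y, 𝒱 (-y) = 𝒱 y
  V_ge : ∀ᵐ y ∂lam3, ENNReal.ofReal (2 * W (rr y)) ≤ 𝒱 y
  V_int : ∫⁻ y, 𝒱 y ∂lam3 ≤ (∫⁻ y, ENNReal.ofReal (2 * W (rr y)) ∂lam3) + ENNReal.ofReal (c * (a * Y))
  V_w : ∀ᵐ y ∂lam3, R₀ ≤ rr y → ENNReal.ofReal (w (rr y)) ≤ 𝒱 y

theorem la_finalG (θ cw : ℝ) (hcw : 0 < cw) :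
    ∃ C Y0 : ℝ, 0 < C ∧ 0 < Y0 ∧ ∀ Y : ℝ, 0 < Y → Y < Y0 →
      ∃ a0 : ℝ, 0 < a0 ∧ ∀ (N : ℕ) (W f Q w : ℝ → ℝ) (R₀ R a Lam c : ℝ) (𝒱 : T3 → ℝ≥0∞), a < a0 →
        c ≤ 1 → RegG θ cw c Y W f Q w R₀ R a N 𝒱 → 0 ≤ Lam → Lam * (a / Y) ^ 2 ≤ 1 →
        ∀ ψ : (Fin N → T3) → ℂ, tAdm R₀ 𝒱 ψ → (∀ φ : (Fin N → T3) → ℂ, tAdm R₀ 𝒱 φ →
          tE 𝒱 ψ + ENNReal.ofReal Lam * ∑ i, gq i ψ ≤ tE 𝒱 φ + ENNReal.ofReal Lam * ∑ i, gq i φ) →
        (∑ i, nuQ (fc ψ) i) ≤ 2 * Y * N → LocM C Y (tsc a Y) ψ := by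
  obtain ⟨K, hK, hmini⟩ := exists_miniG
  obtain ⟨Y1, hY1, hmini⟩ := hmini (max θ 1) (le_max_right _ _)
  obtain ⟨C, Y2, hC, hY2, hloc⟩ := locMG (max θ 1) cw K (le_max_right _ _) hcw hK.le
  refine ⟨C, min Y1 (min Y2 ((1 / 2 : ℝ) ^ 15)), hC, ?_, ?_⟩
  · exact lt_min hY1 (lt_min hY2 (by positivity))
  intro Y hY hYlt
  have hYa : Y < Y1 := hYlt.trans_le (min_le_left _ _)
  have hYb : Y < Y2 := hYlt.trans_le ((min_le_right _ _).trans (min_le_left _ _))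
  have hYc : Y < (1 / 2 : ℝ) ^ 15 := hYlt.trans_le ((min_le_right _ _).trans (min_le_right _ _))
  have hY1' : Y ≤ 1 := hYc.le.trans (by norm_num)
  refine ⟨Y / 8, by positivity, ?_⟩
  intro N W f Q w R₀ R a Lam c 𝒱 ha hc hr hL0 hL1 ψ hψ hmin hnu
  have ha0 : 0 < a := hr.sc.a_pos
  have hl8 : a / Y ≤ 1 / 8 := by
    rw [div_le_iff₀ hY]
    linarith
  have hRθ : R ≤ max θ 1 * a := hr.Rle.trans (mul_le_mul_of_nonneg_right (le_max_left _ _) ha0.le)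
  have hVi : ∫⁻ y, 𝒱 y ∂lam3 ≤ (∫⁻ y, ENNReal.ofReal (2 * W (rr y)) ∂lam3) + ENNReal.ofReal a := by
    refine hr.V_int.trans (add_le_add_right (ENNReal.ofReal_le_ofReal ?_) _)
    have h1 : c * (a * Y) ≤ 1 * (a * Y) := mul_le_mul_of_nonneg_right hc (by positivity)
    have h2 : a * Y ≤ a * 1 := mul_le_mul_of_nonneg_left hY1' ha0.le
    linarith
  obtain ⟨g, e, hM⟩ := hmini Y hY hYa N W f Q R₀ R a Lam hr.sc hl8 hr.Na hRθ hL0 hL1 𝒱 hr.V_meas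
    hr.V_even hr.V_ge hVi ψ hψ hmin
  have hpar : Par (max θ 1) cw K Y (a / Y) R a w N R₀ 𝒱 :=
    ⟨ha0, hr.sc.a_le, hRθ, rfl, hl8, hr.Na, hr.wm, hr.w0, hr.wb, hr.wz, hr.wc, hr.V_w⟩
  have hl : 0 < a / Y := by positivity
  have hp2 := I3_rpow hY hYc
  have hp2pos : 0 < Y ^ ((2 : ℝ) / 5) := Real.rpow_pos_of_pos hY _
  have htsc : tsc a Y = (a / Y) ^ 2 * Y ^ ((2 : ℝ) / 5) := rfl
  have htscpos : 0 < tsc a Y := by rw [htsc]; positivity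
  refine hloc Y hY hYb (a / Y) R a w N Lam R₀ e 𝒱 ψ g hpar hM hnu (tsc a Y) htscpos ?_ ?_
  · have h2 : tsc a Y ≤ (a / Y) ^ 2 * (1 / 64) := by
      rw [htsc]
      exact mul_le_mul_of_nonneg_left hp2 (by positivity)
    nlinarith [sq_nonneg (a / Y)]
  · set u : ℝ := Y ^ ((1 : ℝ) / 5) with hu
    have hupos : 0 < u := Real.rpow_pos_of_pos hY _
    have hu2 : u ^ 2 = Y ^ ((2 : ℝ) / 5) := I3_sq hY
    have hu5 : u ^ 5 = Y := I3_five hY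
    have hle : a / Y * u / 4 ≤ Real.sqrt (tsc a Y / 8) := by
      apply Real.le_sqrt_of_sq_le
      have h3 : (a / Y * u / 4) ^ 2 = tsc a Y / 16 := by
        rw [htsc, ← hu2]
        ring
      rw [h3]
      linarith
    have hcube : (a / Y * u / 4) ^ 3 ≤ Real.sqrt (tsc a Y / 8) ^ 3 :=
      pow_le_pow_left₀ (by positivity) hle 3
    have hu264 : u ^ 2 ≤ 1 / 64 := by rw [hu2]; exact hp2
    have key : (N : ℝ) * (a / Y * u / 4) ^ 3 = 1 / (64 * u ^ 2) := by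
      have hYne : Y ≠ 0 := hY.ne'
      have h4 : (N : ℝ) * (a / Y * u / 4) ^ 3 = ((N : ℝ) * a ^ 3) * u ^ 3 / (64 * Y ^ 3) := by
        field_simp
        ring
      rw [h4, hr.Na]
      have hune : u ≠ 0 := hupos.ne'
      rw [div_eq_div_iff (by positivity) (by positivity)]
      rw [← hu5]
      ring
    have h5 : (1 : ℝ) ≤ 1 / (64 * u ^ 2) := by
      rw [le_div_iff₀ (by positivity)]
      linarith
    calc (1 : ℝ) ≤ 1 / (64 * u ^ 2) := h5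
      _ = (N : ℝ) * (a / Y * u / 4) ^ 3 := key.symm
      _ ≤ (N : ℝ) * Real.sqrt (tsc a Y / 8) ^ 3 :=
        mul_le_mul_of_nonneg_left hcube (Nat.cast_nonneg _)

end Pool.Agent.Lib.MP_4952d6_mp.LG
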