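import Pool.Agent.Lib.MP_4952d6_mp.Pk.G29

/-!
# Q03: the depletion of the gapped gas, analytic part

`Dg s = (1/(4π²)) ∫₀^∞ r² ((r²+s+8π)/√((r²+s)²+16π(r²+s)) - 1) dr` is the depletion of the gas with gap `s`. It is the derivative of the
energy functional `Jf`, which is concave, `Dk κ = Dg (κ²)` is the depletion of the trial state with parameter `κ`, and
`Phk κ + κ² Dk κ = Jf (κ²)`: the trial state is optimal for the gap `κ²`.
-/

set_option autoImplicit false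
set_option linter.unusedSectionVars false
set_option linter.unusedVariables false
open MeasureTheory Function Filter Topology Set

namespace Pool.Agent.Lib.MP_4952d6_mp

/-- The depletion of the gas with gap `s` (units `√(ρ a³)`). -/
noncomputable def Dg (s : ℝ) : ℝ :=
  1 / (4 * Real.pi ^ 2) * ∫ r in Ioi (0:ℝ), r ^ 2 *
    ((r ^ 2 + s + 8 * Real.pi) / Real.sqrt ((r ^ 2 + s) ^ 2 + 16 * Real.pi * (r ^ 2 + s)) - 1)

/-- The depletion of the trial state with parameter `κ`. -/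
noncomputable def Dk (κ : ℝ) : ℝ :=
  1 / (8 * Real.pi ^ 2) * ∫ r in Ioi (0:ℝ), r ^ 2 * (xk κ r ^ 2 / (1 + xk κ r))

theorem Dg_eq (s : ℝ) : Dg s = 1 / (4 * Real.pi ^ 2) * ∫ r in Ioi (0:ℝ), r ^ 2 * Jgd (r ^ 2 + s) := rfl

/-! ### The algebra -/

/-- `√(z² + 16 π z) = z √(1 + 16 π / z)` -/
theorem Q03_sqrt {z : ℝ} (hz : 0 < z) :
    Real.sqrt (z ^ 2 + 16 * Real.pi * z) = z * Real.sqrt (1 + 16 * Real.pi / z) := by
  have h1 : z ^ 2 + 16 * Real.pi * z = z ^ 2 * (1 + 16 * Real.pi / z) := by field_simp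
  rw [h1, Real.sqrt_mul (sq_nonneg z), Real.sqrt_sq hz.le]

theorem Q03_key1 {r κ w pi : ℝ} (hr0 : 0 < r) (hw0 : 0 < w)
    (h16 : 16 * pi = (r ^ 2 + κ ^ 2) * (w ^ 2 - 1)) :
    64 * pi ^ 2 - 16 * pi * r ^ 2 * ((w - 1) / w) + r ^ 4 * ((w - 1) ^ 2 / w)
      = 2 * (r ^ 2 * ((r ^ 2 + κ ^ 2) * w - (r ^ 2 + κ ^ 2) - 8 * pi + 32 * pi ^ 2 / r ^ 2))
        - κ ^ 2 * (r ^ 2 * ((w - 1) ^ 2 / w)) := by
  have e2 : r ^ 2 * ((r ^ 2 + κ ^ 2) * w - (r ^ 2 + κ ^ 2) - 8 * pi + 32 * pi ^ 2 / r ^ 2)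
        = r ^ 2 * ((r ^ 2 + κ ^ 2) * w - (r ^ 2 + κ ^ 2) - 8 * pi) + 32 * pi ^ 2 := by
      field_simp
  rw [e2]
  have e3 : (w - 1) / w * w = w - 1 := div_mul_cancel₀ _ hw0.ne'
  have e4 : (w - 1) ^ 2 / w = (w - 1) * ((w - 1) / w) := by ring
  rw [e4]
  generalize (w - 1) / w = t at *
  refine mul_right_cancel₀ hw0.ne' ?_
  linear_combination (-16 * pi * r ^ 2 + r ^ 2 * (r ^ 2 + κ ^ 2) * (w - 1)) * e3 + r ^ 2 * h16

theorem Q03_key2 {z w pi r : ℝ} (hz : 0 < z) (hw0 : 0 < w) (h16 : 16 * pi = z * (w ^ 2 - 1)) :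
    r ^ 2 * ((w - 1) ^ 2 / w) = 2 * (r ^ 2 * ((z + 8 * pi) / (z * w) - 1)) := by
  have h8 : 8 * pi = z * (w ^ 2 - 1) / 2 := by linarith
  rw [h8]
  field_simp
  ring

theorem Q03_w {z : ℝ} (hz : 0 < z) : 0 < Real.sqrt (1 + 16 * Real.pi / z) ∧
    16 * Real.pi = z * (Real.sqrt (1 + 16 * Real.pi / z) ^ 2 - 1) := by
  have hpi := Real.pi_pos
  have h1 : 0 < 1 + 16 * Real.pi / z := by positivity
  refine ⟨Real.sqrt_pos.2 h1, ?_⟩
  rw [Real.sq_sqrt h1.le]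
  field_simp
  ring

theorem Q03_xk_Jgd {κ r : ℝ} (h : 0 < r ^ 2 + κ ^ 2) :
    r ^ 2 * (xk κ r ^ 2 / (1 + xk κ r)) = 2 * (r ^ 2 * Jgd (r ^ 2 + κ ^ 2)) := by
  obtain ⟨h1, h2⟩ := Q03_w h
  unfold Jgd xk
  rw [Q03_sqrt h]
  have e : (1 : ℝ) + (Real.sqrt (1 + 16 * Real.pi / (r ^ 2 + κ ^ 2)) - 1)
      = Real.sqrt (1 + 16 * Real.pi / (r ^ 2 + κ ^ 2)) := by ring
  rw [e]
  exact Q03_key2 h h1 h2

theorem Dk_eq_Dg (κ : ℝ) : Dk κ = Dg (κ ^ 2) := by
  rw [Dg_eq]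
  unfold Dk
  have h1 : ∫ r in Ioi (0:ℝ), r ^ 2 * (xk κ r ^ 2 / (1 + xk κ r))
      = ∫ r in Ioi (0:ℝ), 2 * (r ^ 2 * Jgd (r ^ 2 + κ ^ 2)) := by
    refine setIntegral_congr_fun measurableSet_Ioi fun r hr => ?_
    have hr0 : (0:ℝ) < r := hr
    exact Q03_xk_Jgd (by positivity)
  rw [h1, integral_const_mul]
  have hpi := Real.pi_pos
  field_simp
  ring

theorem Q03_xk_integrable (κ : ℝ) :
    IntegrableOn (fun r => r ^ 2 * (xk κ r ^ 2 / (1 + xk κ r))) (Ioi (0:ℝ)) := by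
  refine IntegrableOn.congr_fun ((Jgd_integrable (sq_nonneg κ)).const_mul 2) ?_ measurableSet_Ioi
  intro r hr
  have hr0 : (0:ℝ) < r := hr
  exact (Q03_xk_Jgd (by positivity)).symm

/-- The trial state with parameter `κ` is optimal for the gap `κ²`. -/
theorem Phk_add_Dk (κ : ℝ) : Phk κ + κ ^ 2 * Dk κ = Jf (κ ^ 2) := by
  have hpi := Real.pi_pos
  have key : ∀ r ∈ Ioi (0:ℝ), (64 * Real.pi ^ 2 - 16 * Real.pi * r ^ 2 * (xk κ r / (1 + xk κ r))
      + r ^ 4 * (xk κ r ^ 2 / (1 + xk κ r)))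
      = 2 * (r ^ 2 * jInt (κ ^ 2) r) - κ ^ 2 * (r ^ 2 * (xk κ r ^ 2 / (1 + xk κ r))) := by
    intro r hr
    have hr0 : (0:ℝ) < r := hr
    have hz : 0 < r ^ 2 + κ ^ 2 := by positivity
    obtain ⟨h1, h2⟩ := Q03_w hz
    unfold jInt xk
    rw [Q03_sqrt hz]
    have e : (1 : ℝ) + (Real.sqrt (1 + 16 * Real.pi / (r ^ 2 + κ ^ 2)) - 1)
        = Real.sqrt (1 + 16 * Real.pi / (r ^ 2 + κ ^ 2)) := by ring
    rw [e]
    exact Q03_key1 hr0 h1 h2
  unfold Phk Dk Jf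
  rw [setIntegral_congr_fun measurableSet_Ioi key, integral_sub
    ((jInt_integrable (sq_nonneg κ)).const_mul 2) ((Q03_xk_integrable κ).const_mul (κ ^ 2)),
    integral_const_mul, integral_const_mul]
  field_simp
  ring

/-! ### Concavity and derivative -/

theorem Q03_c : 0 < 1 / (4 * Real.pi ^ 2) := by
  have := Real.pi_pos
  positivity

/-- Concavity, lower half. -/
theorem Jf_sub_ge {s t : ℝ} (hs : 0 ≤ s) (hst : s ≤ t) : (t - s) * Dg t ≤ Jf t - Jf s := by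
  rcases hst.eq_or_lt with h | h
  · rw [h]
    simp
  have ht : 0 ≤ t := hs.trans hst
  rw [Dg_eq]
  unfold Jf
  rw [← mul_sub, ← integral_sub (jInt_integrable ht) (jInt_integrable hs)]
  have h1 : (t - s) * (1 / (4 * Real.pi ^ 2) * ∫ r in Ioi (0:ℝ), r ^ 2 * Jgd (r ^ 2 + t))
      = 1 / (4 * Real.pi ^ 2) * ∫ r in Ioi (0:ℝ), (t - s) * (r ^ 2 * Jgd (r ^ 2 + t)) := by
    rw [integral_const_mul]
    ring
  rw [h1]
  refine mul_le_mul_of_nonneg_left ?_ Q03_c.le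
  refine setIntegral_mono_on ((Jgd_integrable ht).const_mul (t - s))
    ((jInt_integrable ht).sub (jInt_integrable hs)) measurableSet_Ioi ?_
  intro r hr
  have hr0 : (0:ℝ) < r := hr
  have hE : 0 < r ^ 2 := by positivity
  have h2 := Jg_sub_ge (s := r ^ 2 + s) (δ := t - s) (by positivity) (by linarith)
  have e : r ^ 2 + s + (t - s) = r ^ 2 + t := by ring
  rw [e] at h2
  rw [jInt_eq, jInt_eq]
  have h3 := mul_le_mul_of_nonneg_left h2 hE.le
  linarith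

/-- Concavity, upper half. -/
theorem Jf_sub_le {s t : ℝ} (hs : 0 ≤ s) (hst : s ≤ t) : Jf t - Jf s ≤ (t - s) * Dg s := by
  have ht : 0 ≤ t := hs.trans hst
  rw [Dg_eq]
  unfold Jf
  rw [← mul_sub, ← integral_sub (jInt_integrable ht) (jInt_integrable hs)]
  have h1 : (t - s) * (1 / (4 * Real.pi ^ 2) * ∫ r in Ioi (0:ℝ), r ^ 2 * Jgd (r ^ 2 + s))
      = 1 / (4 * Real.pi ^ 2) * ∫ r in Ioi (0:ℝ), (t - s) * (r ^ 2 * Jgd (r ^ 2 + s)) := by
    rw [integral_const_mul]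
    ring
  rw [h1]
  refine mul_le_mul_of_nonneg_left ?_ Q03_c.le
  refine setIntegral_mono_on ((jInt_integrable ht).sub (jInt_integrable hs))
    ((Jgd_integrable hs).const_mul (t - s)) measurableSet_Ioi ?_
  intro r hr
  have hr0 : (0:ℝ) < r := hr
  have hE : 0 < r ^ 2 := by positivity
  have h2 := Jg_sub_le (s := r ^ 2 + s) (δ := t - s) (by positivity) (by linarith)
  have e : r ^ 2 + s + (t - s) = r ^ 2 + t := by ring
  rw [e] at h2
  rw [jInt_eq, jInt_eq]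
  have h3 := mul_le_mul_of_nonneg_left h2 hE.le
  linarith

theorem Dg_anti {s t : ℝ} (hs : 0 ≤ s) (hst : s ≤ t) : Dg t ≤ Dg s := by
  rw [Dg_eq, Dg_eq]
  refine mul_le_mul_of_nonneg_left ?_ Q03_c.le
  refine setIntegral_mono_on (Jgd_integrable (hs.trans hst)) (Jgd_integrable hs) measurableSet_Ioi ?_
  intro r hr
  have hr0 : (0:ℝ) < r := hr
  exact mul_le_mul_of_nonneg_left (Jgd_anti (by positivity) (by linarith)) (sq_nonneg r)

theorem Dg_zero : Dg 0 = 8 / (3 * Real.sqrt Real.pi) := by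
  have hpi := Real.pi_pos
  have hs : 0 < Real.sqrt Real.pi := Real.sqrt_pos.2 hpi
  have hs2 : Real.sqrt Real.pi ^ 2 = Real.pi := Real.sq_sqrt hpi.le
  rw [Dg_eq]
  simp only [add_zero]
  rw [Jgd_integral, one_div_mul_eq_div, div_eq_div_iff (by positivity) (by positivity)]
  calc 32 / 3 * Real.pi * Real.sqrt Real.pi * (3 * Real.sqrt Real.pi)
      = 32 * Real.pi * Real.sqrt Real.pi ^ 2 := by ring
    _ = 8 * (4 * Real.pi ^ 2) := by rw [hs2]; ring

theorem Dg_nonneg {s : ℝ} (hs : 0 ≤ s) : 0 ≤ Dg s := by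
  rw [Dg_eq]
  refine mul_nonneg Q03_c.le (setIntegral_nonneg measurableSet_Ioi fun r hr => ?_)
  have hr0 : (0:ℝ) < r := hr
  exact mul_nonneg (sq_nonneg r) (Jgd_pos (by positivity)).le

theorem Dg_pos {s : ℝ} (hs : 0 ≤ s) : 0 < Dg s := by
  rw [Dg_eq]
  refine mul_pos Q03_c ?_
  rw [setIntegral_pos_iff_support_of_nonneg_ae ?_ (Jgd_integrable hs)]
  · have h1 : support (fun r : ℝ => r ^ 2 * Jgd (r ^ 2 + s)) ∩ Ioi 0 = Ioi 0 := by
      refine Set.inter_eq_right.2 fun r hr => ?_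
      have hr0 : (0:ℝ) < r := hr
      exact (mul_pos (by positivity) (Jgd_pos (by positivity))).ne'
    rw [h1]
    simp
  · filter_upwards [ae_restrict_mem measurableSet_Ioi] with r hr
    have hr0 : (0:ℝ) < r := hr
    exact mul_nonneg (sq_nonneg r) (Jgd_pos (by positivity)).le

theorem Dg_le {s : ℝ} (hs : 0 ≤ s) : Dg s ≤ 8 / (3 * Real.sqrt Real.pi) := by
  rw [← Dg_zero]
  exact Dg_anti le_rfl hs

/-- `Dg` is continuous on `[0, ∞)`. -/
theorem Dg_tendsto {s : ℝ} (hs : 0 ≤ s) : Tendsto Dg (𝓝[Ici 0] s) (𝓝 (Dg s)) := by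
  have h : Tendsto (fun t => ∫ r in Ioi (0:ℝ), r ^ 2 * Jgd (r ^ 2 + t)) (𝓝[Ici 0] s)
      (𝓝 (∫ r in Ioi (0:ℝ), r ^ 2 * Jgd (r ^ 2 + s))) := by
    have hint : Integrable (fun r : ℝ => r ^ 2 * Jgd (r ^ 2 + 0)) (volume.restrict (Ioi (0:ℝ))) :=
      Jgd_integrable (le_refl (0:ℝ))
    refine tendsto_integral_filter_of_dominated_convergence (fun r => r ^ 2 * Jgd (r ^ 2 + 0)) ?_ ?_
      hint ?_
    · refine Eventually.of_forall fun δ => ?_
      have hm : Measurable (fun r : ℝ => r ^ 2 * Jgd (r ^ 2 + δ)) :=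
        (measurable_id.pow_const 2).mul (Jgd_measurable.comp ((measurable_id.pow_const 2).add_const δ))
      exact hm.aestronglyMeasurable
    · filter_upwards [self_mem_nhdsWithin] with δ hδ
      have hδ0 : (0:ℝ) ≤ δ := hδ
      filter_upwards [ae_restrict_mem measurableSet_Ioi] with r hr
      have hr0 : (0:ℝ) < r := hr
      have hE2 : 0 < r ^ 2 + δ := by positivity
      rw [Real.norm_eq_abs, abs_of_nonneg (mul_nonneg (sq_nonneg r) (Jgd_pos hE2).le)]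
      exact mul_le_mul_of_nonneg_left (Jgd_anti (by positivity) (by linarith)) (sq_nonneg r)
    · filter_upwards [ae_restrict_mem measurableSet_Ioi] with r hr
      have hr0 : (0:ℝ) < r := hr
      have hE : 0 < r ^ 2 + s := by positivity
      have h1 : Tendsto (fun δ : ℝ => r ^ 2 + δ) (𝓝[Ici 0] s) (𝓝 (r ^ 2 + s)) :=
        ((continuous_const.add continuous_id).tendsto s).mono_left nhdsWithin_le_nhds
      exact ((F1c_Jgd_continuousAt hE).tendsto.comp h1).const_mul (r ^ 2)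
  exact h.const_mul _

theorem Dg_continuousOn : ContinuousOn Dg (Ici 0) := fun s hs => Dg_tendsto hs

/-- `D(s) → 8/(3√π)` as `s → 0+`. -/
theorem Dg_tendsto_zero : Tendsto Dg (𝓝[>] 0) (𝓝 (8 / (3 * Real.sqrt Real.pi))) := by
  rw [← Dg_zero]
  exact (Dg_tendsto le_rfl).mono_left (nhdsWithin_mono _ Ioi_subset_Ici_self)

/-- A gap slightly above `s` with nearly the same depletion. -/
theorem Dg_right {s ε : ℝ} (hs : 0 ≤ s) (hε : 0 < ε) :
    ∃ t : ℝ, s < t ∧ t ≤ s + ε ∧ Dg s - ε ≤ Dg t := by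
  have h1 : Tendsto Dg (𝓝[>] s) (𝓝 (Dg s)) :=
    (Dg_tendsto hs).mono_left (nhdsWithin_mono _ fun x hx => hs.trans (le_of_lt hx))
  have h2 : ∀ᶠ t in 𝓝[>] s, Dg s - ε < Dg t := h1.eventually (lt_mem_nhds (by linarith))
  have h3 : ∀ᶠ t in 𝓝[>] s, t ∈ Ioo s (s + ε) := Ioo_mem_nhdsGT (by linarith)
  obtain ⟨t, h4, h5⟩ := (h2.and h3).exists
  exact ⟨t, h5.1, h5.2.le, h4.le⟩

/-- A gap slightly below `s` with nearly the same depletion. -/
theorem Dg_left {s ε : ℝ} (hs : 0 < s) (hε : 0 < ε) :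
    ∃ t : ℝ, 0 < t ∧ t < s ∧ s - ε ≤ t ∧ Dg t ≤ Dg s + ε := by
  have h1 : Tendsto Dg (𝓝 s) (𝓝 (Dg s)) := by
    have h := Dg_tendsto hs.le
    rwa [nhdsWithin_eq_nhds.2 (Ici_mem_nhds hs)] at h
  have h2 : ∀ᶠ t in 𝓝[<] s, Dg t < Dg s + ε :=
    (h1.eventually (gt_mem_nhds (by linarith))).filter_mono nhdsWithin_le_nhds
  have h3 : ∀ᶠ t in 𝓝[<] s, t ∈ Ioo (max 0 (s - ε)) s := Ioo_mem_nhdsLT (max_lt hs (by linarith))
  obtain ⟨t, h4, h5⟩ := (h2.and h3).exists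
  exact ⟨t, (le_max_left _ _).trans_lt h5.1, h5.2, ((le_max_right _ _).trans_lt h5.1).le, h4.le⟩

theorem Jf_hasDerivAt {s : ℝ} (hs : 0 < s) : HasDerivAt Jf (Dg s) s := by
  rw [hasDerivAt_iff_tendsto_slope]
  have h1 : Tendsto Dg (𝓝 s) (𝓝 (Dg s)) := by
    have h := Dg_tendsto hs.le
    rwa [nhdsWithin_eq_nhds.2 (Ici_mem_nhds hs)] at h
  have hpos : ∀ᶠ t in 𝓝[≠] s, 0 < t := (lt_mem_nhds hs).filter_mono nhdsWithin_le_nhds
  have h2 : Tendsto (fun t => min (Dg s) (Dg t)) (𝓝[≠] s) (𝓝 (Dg s)) := by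
    have h := (tendsto_const_nhds (x := Dg s)).min (h1.mono_left (nhdsWithin_le_nhds (s := {s}ᶜ)))
    simpa using h
  have h3 : Tendsto (fun t => max (Dg s) (Dg t)) (𝓝[≠] s) (𝓝 (Dg s)) := by
    have h := (tendsto_const_nhds (x := Dg s)).max (h1.mono_left (nhdsWithin_le_nhds (s := {s}ᶜ)))
    simpa using h
  refine tendsto_of_tendsto_of_tendsto_of_le_of_le' h2 h3 ?_ ?_
  · filter_upwards [hpos, self_mem_nhdsWithin] with t ht hne
    have hne' : t ≠ s := hne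
    rw [slope_def_field]
    rcases lt_or_gt_of_ne hne' with h | h
    · refine (min_le_left _ _).trans ?_
      rw [le_div_iff_of_neg (by linarith)]
      have := Jf_sub_ge ht.le h.le
      linarith
    · refine (min_le_right _ _).trans ?_
      rw [le_div_iff₀ (by linarith)]
      have := Jf_sub_ge hs.le h.le
      linarith
  · filter_upwards [hpos, self_mem_nhdsWithin] with t ht hne
    have hne' : t ≠ s := hne
    rw [slope_def_field]
    rcases lt_or_gt_of_ne hne' with h | h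
    · refine le_trans ?_ (le_max_right _ _)
      rw [div_le_iff_of_neg (by linarith)]
      have := Jf_sub_le ht.le h.le
      linarith
    · refine le_trans ?_ (le_max_left _ _)
      rw [div_le_iff₀ (by linarith)]
      have := Jf_sub_le hs.le h.le
      linarith

theorem Jf_mono {s t : ℝ} (hs : 0 ≤ s) (hst : s ≤ t) : Jf s ≤ Jf t := by
  have h1 := Jf_sub_ge hs hst
  have h2 := mul_nonneg (sub_nonneg.2 hst) (Dg_nonneg (hs.trans hst))
  linarith

/-- The supporting line at `s`: `Jf t ≤ Jf s + (t - s) Dg s` for all `s, t ≥ 0`. -/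
theorem Jf_support {s t : ℝ} (hs : 0 ≤ s) (ht : 0 ≤ t) : Jf t ≤ Jf s + (t - s) * Dg s := by
  rcases le_total s t with h | h
  · have := Jf_sub_le hs h
    linarith
  · have := Jf_sub_ge ht h
    linarith

theorem Jf_concave : ConcaveOn ℝ (Ici 0) Jf := by
  refine ⟨convex_Ici 0, ?_⟩
  intro x hx y hy a b ha hb hab
  have hx0 : (0:ℝ) ≤ x := hx
  have hy0 : (0:ℝ) ≤ y := hy
  have hz : 0 ≤ a * x + b * y := by positivity
  have h1 := Jf_support hz hx0
  have h2 := Jf_support hz hy0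
  simp only [smul_eq_mul]
  have h3 := mul_le_mul_of_nonneg_left h1 ha
  have h4 := mul_le_mul_of_nonneg_left h2 hb
  have e : b = 1 - a := by linarith
  subst e
  nlinarith

/-- `Jf` is continuous on `[0, ∞)`: it is Lipschitz. -/
theorem Jf_lip {s t : ℝ} (hs : 0 ≤ s) (ht : 0 ≤ t) :
    |Jf t - Jf s| ≤ 8 / (3 * Real.sqrt Real.pi) * |t - s| := by
  have key : ∀ {u v : ℝ}, 0 ≤ u → u ≤ v → |Jf v - Jf u| ≤ 8 / (3 * Real.sqrt Real.pi) * |v - u| := by
    intro u v hu huv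
    rw [abs_of_nonneg (sub_nonneg.2 (Jf_mono hu huv)), abs_of_nonneg (sub_nonneg.2 huv)]
    have h1 := Jf_sub_le hu huv
    have h2 := mul_le_mul_of_nonneg_left (Dg_le hu) (sub_nonneg.2 huv)
    linarith
  rcases le_total s t with h | h
  · exact key hs h
  · rw [abs_sub_comm, abs_sub_comm t s]
    exact key ht h

end Pool.Agent.Lib.MP_4952d6_mp
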