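import Pool.Agent.Lib.MP_4952d6_mp.Pk.G59
import Pool.Agent.Lib.MP_4952d6_mp.Pq.P13
import Pool.Agent.Lib.MP_4952d6_mp.Pq.Q03

/-!
# Pq.P14: the lower bound of the gapped energy on the torus, all states

`UGStatement`: trial state; `TGStatement`: existence of minimisers; `LBGStatement`: the lower bound.
-/

set_option autoImplicit false
set_option linter.unusedSectionVars false
set_option linter.unusedVariables false
open MeasureTheory Function Filter Topology Set ComplexConjugate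
open scoped ENNReal

namespace Pool.Agent.Lib.MP_4952d6_mp.LG

open LA

/-- **Upper bound on the torus, with the depletion of the trial state.** -/
def UGStatement : Prop :=
  ∀ θ s η : ℝ, 0 < s → s ≤ 1 → 0 < η → ∃ C Y0 : ℝ, 0 < C ∧ 0 < Y0 ∧ ∀ Y : ℝ, 0 < Y → Y < Y0 →
    ∃ a0 : ℝ, 0 < a0 ∧ ∀ (N : ℕ) (W f Q : ℝ → ℝ) (R₀ R a : ℝ), Scat W R₀ R a f Q → a < a0 →
      (N : ℝ) * a ^ 3 = Y ^ 2 → R ≤ θ * a →
      ∀ 𝒱 : T3 → ℝ≥0∞, AEMeasurable 𝒱 lam3 → ∫⁻ y, 𝒱 y ∂lam3 ≠ ⊤ →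
      (∀ᵐ y ∂lam3, ENNReal.ofReal (2 * W (rr y)) ≤ 𝒱 y) →
      ∃ φ : (Fin N → T3) → ℂ, tAdm R₀ 𝒱 φ ∧
        tE 𝒱 φ ≤ ENNReal.ofReal (4 * Real.pi * N ^ 2 * a
            + N ^ 2 * a * Y * (Phk (Real.sqrt s) + η))
          + ENNReal.ofReal (C * N ^ 2)
            * (∫⁻ y, 𝒱 y ∂lam3 - ∫⁻ y, ENNReal.ofReal (2 * W (rr y)) ∂lam3) ∧
        ∑ i, nuQ (fc φ) i ≤ N * Y * (Dk (Real.sqrt s) + η)

/-- **Existence of minimisers of the gapped energy on the torus.** -/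
def TGStatement : Prop :=
  ∀ (N : ℕ) (R₀ Lam : ℝ) (𝒱 : T3 → ℝ≥0∞),
    AEMeasurable (fun x : Fin N → T3 => ∑ i, ∑ j ∈ Finset.Ioi i, 𝒱 (x i - x j)) (piN (Fin N)) →
    0 ≤ Lam → (∃ φ : (Fin N → T3) → ℂ, tAdm R₀ 𝒱 φ) →
    ∃ ψ : (Fin N → T3) → ℂ, tAdm R₀ 𝒱 ψ ∧ ∀ φ : (Fin N → T3) → ℂ, tAdm R₀ 𝒱 φ →
      tE 𝒱 ψ + ENNReal.ofReal (Lam * ∑ i, nuQ (fc ψ) i)
        ≤ tE 𝒱 φ + ENNReal.ofReal (Lam * ∑ i, nuQ (fc φ) i)

/-- **Lower bound of the gapped energy on the torus**, for all states; the ungapped lower bound is an assumption. -/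
def LBGStatement : Prop :=
  ∀ θ cw s η : ℝ, 0 < cw → 0 < s → s ≤ 1 → 0 < η → ∃ c Y0 : ℝ, 0 < c ∧ 0 < Y0 ∧
    ∀ Y : ℝ, 0 < Y → Y < Y0 → ∃ a0 : ℝ, 0 < a0 ∧ ∀ (N : ℕ) (W f Q w : ℝ → ℝ) (R₀ R a : ℝ)
      (𝒱 : T3 → ℝ≥0∞), a < a0 → RegG θ cw c Y W f Q w R₀ R a N 𝒱 →
      (∀ φ : (Fin N → T3) → ℂ, tAdm R₀ 𝒱 φ →
        ENNReal.ofReal (4 * Real.pi * N ^ 2 * a + N ^ 2 * a * Y * (Jf 0 - s / 20)) ≤ tE 𝒱 φ) →
      ∀ φ : (Fin N → T3) → ℂ, tAdm R₀ 𝒱 φ →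
        ENNReal.ofReal (4 * Real.pi * N ^ 2 * a + N ^ 2 * a * Y * (Jf s - η))
          ≤ tE 𝒱 φ + ENNReal.ofReal (s * N * a * ∑ i, nuQ (fc φ) i)

lemma P14_sum {N : ℕ} {Lam : ℝ} (hL : 0 ≤ Lam) {φ : (Fin N → T3) → ℂ} (h : MemLp φ 2 (piN (Fin N))) :
    ENNReal.ofReal Lam * ∑ i, gq i φ = ENNReal.ofReal (Lam * ∑ i, nuQ (fc φ) i) := by
  rw [ENNReal.ofReal_mul hL, ENNReal.ofReal_sum_of_nonneg fun i _ => nuQ_nonneg _ _]
  congr 1
  refine Finset.sum_congr rfl fun i _ => ?_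
  rw [gq_eq h, rq_eq h]

lemma P14_c0 : 8 / (3 * Real.sqrt Real.pi) ≤ 31 / 20 := by
  have h1 : (1.76 : ℝ) ≤ Real.sqrt Real.pi := by
    apply Real.le_sqrt_of_sq_le
    have := Real.pi_gt_d2
    norm_num
    linarith
  rw [div_le_iff₀ (by positivity)]
  linarith

lemma P14_aem {N : ℕ} {𝒱 : T3 → ℝ≥0∞} (h : AEMeasurable 𝒱 lam3) :
    AEMeasurable (fun x : Fin N → T3 => ∑ i, ∑ j ∈ Finset.Ioi i, 𝒱 (x i - x j)) (piN (Fin N)) := by
  refine Finset.aemeasurable_fun_sum _ fun i _ => Finset.aemeasurable_fun_sum _ fun j hj => ?_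
  have hij : i ≠ j := (Finset.mem_Ioi.1 hj).ne
  exact h.comp_quasiMeasurePreserving (mp_diff hij).quasiMeasurePreserving

theorem lbg_torus (hU : UGStatement) (hT : TGStatement) : LBGStatement := by
  intro θ cw s η hcw hs hs1 hη
  obtain ⟨C, Y1, hC, hY1, hLA⟩ := la_finalG θ cw hcw
  obtain ⟨Y2, hY2, hLB⟩ := LB.lb_statement θ s η C hs.le hη
  obtain ⟨CU, Y3, hCU, hY3, hU'⟩ := hU θ s (s / 40) hs hs1 (by positivity)
  refine ⟨min 1 (s / (40 * CU)), min Y1 (min Y2 Y3), lt_min one_pos (by positivity),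
    lt_min hY1 (lt_min hY2 hY3), fun Y hY hYlt => ?_⟩
  obtain ⟨a1, ha1, hLA'⟩ := hLA Y hY (hYlt.trans_le (min_le_left _ _))
  obtain ⟨a2, ha2, hLB'⟩ := hLB Y hY (hYlt.trans_le ((min_le_right _ _).trans (min_le_left _ _)))
  obtain ⟨a3, ha3, hU''⟩ := hU' Y hY (hYlt.trans_le ((min_le_right _ _).trans (min_le_right _ _)))
  refine ⟨min a1 (min a2 a3), lt_min ha1 (lt_min ha2 ha3), ?_⟩
  intro N W f Q w R₀ R a 𝒱 halt hr h0 φ hφ
  have ha : 0 < a := hr.sc.a_pos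
  have hN : (0:ℝ) < N := by
    have h1 : 0 < (N:ℝ) * a ^ 3 := by rw [hr.Na]; positivity
    by_contra h2
    push Not at h2
    have : (N:ℝ) * a ^ 3 ≤ 0 := mul_nonpos_of_nonpos_of_nonneg h2 (by positivity)
    linarith
  have haA : a < a1 := halt.trans_le (min_le_left _ _)
  have haB : a < a2 := halt.trans_le ((min_le_right _ _).trans (min_le_left _ _))
  have haC : a < a3 := halt.trans_le ((min_le_right _ _).trans (min_le_right _ _))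
  -- the minimiser
  set Lam : ℝ := s * N * a with hLam
  have hLam0 : 0 ≤ Lam := by positivity
  obtain ⟨ψ, hψ, hmin⟩ := hT N R₀ Lam 𝒱 (P14_aem hr.V_meas) hLam0 ⟨φ, hφ⟩
  have hWfin : ∫⁻ y, ENNReal.ofReal (2 * W (rr y)) ∂lam3 ≠ ⊤ := by
    obtain ⟨M, hM0, hM⟩ := hr.sc.exists_M
    refine ne_top_of_le_ne_top (b := ENNReal.ofReal (2 * M)) ENNReal.ofReal_ne_top ?_
    calc ∫⁻ y, ENNReal.ofReal (2 * W (rr y)) ∂lam3
        ≤ ∫⁻ _, ENNReal.ofReal (2 * M) ∂lam3 := lintegral_mono fun y =>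
          ENNReal.ofReal_le_ofReal (mul_le_mul_of_nonneg_left (hM _) (by norm_num))
      _ = ENNReal.ofReal (2 * M) := by rw [lintegral_const, measure_univ, mul_one]
  have hVfin : ∫⁻ y, 𝒱 y ∂lam3 ≠ ⊤ :=
    ne_top_of_le_ne_top (ENNReal.add_ne_top.2 ⟨hWfin, ENNReal.ofReal_ne_top⟩) hr.V_int
  obtain ⟨χ, hχ, hχE, hχn⟩ := hU'' N W f Q R₀ R a hr.sc haC hr.Na hr.Rle 𝒱 hr.V_meas hVfin hr.V_ge
  have hJ0 : s / 20 ≤ Jf 0 := by
    have h1 : (1.76 : ℝ) ≤ Real.sqrt Real.pi := by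
      apply Real.le_sqrt_of_sq_le
      have := Real.pi_gt_d2
      norm_num
      linarith
    rw [Jf_zero_eq]
    linarith
  have hPh : 0 ≤ Phk (Real.sqrt s) := by
    have h1 := Phk_add_Dk (Real.sqrt s)
    rw [Real.sq_sqrt hs.le, Dk_eq_Dg, Real.sq_sqrt hs.le] at h1
    have h2 := Jf_support (s := s) (t := 0) hs.le le_rfl
    linarith
  have hDk : 0 ≤ Dk (Real.sqrt s) := by
    rw [Dk_eq_Dg, Real.sq_sqrt hs.le]
    exact Dg_nonneg hs.le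
  set X : ℝ := N ^ 2 * a * Y with hX
  have hX0 : 0 < X := by positivity
  set nψ : ℝ := ∑ i, nuQ (fc ψ) i with hnψ
  have hnψ0 : 0 ≤ nψ := Finset.sum_nonneg fun i _ => nuQ_nonneg _ _
  -- a priori bound on the depletion
  have hdiff : ∫⁻ y, 𝒱 y ∂lam3 - ∫⁻ y, ENNReal.ofReal (2 * W (rr y)) ∂lam3
      ≤ ENNReal.ofReal (s / (40 * CU) * (a * Y)) := by
    rw [tsub_le_iff_left]
    refine hr.V_int.trans (add_le_add_right (ENNReal.ofReal_le_ofReal ?_) _)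
    exact mul_le_mul_of_nonneg_right (min_le_right _ _) (by positivity)
  have hχE' : tE 𝒱 χ ≤ ENNReal.ofReal (4 * Real.pi * N ^ 2 * a + X * (Phk (Real.sqrt s) + s / 20)) := by
    refine hχE.trans ((add_le_add_right (mul_le_mul_right hdiff _) _).trans ?_)
    rw [← ENNReal.ofReal_mul (by positivity), ← ENNReal.ofReal_add (by positivity) (by positivity)]
    refine ENNReal.ofReal_le_ofReal (le_of_eq ?_)
    rw [hX]; field_simp; ring
  have hkey : s * N * a * nψ ≤ X * (Jf s - Jf 0 + 3 * s / 20) := by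
    have h1 := (add_le_add (h0 ψ hψ) (le_refl (ENNReal.ofReal (Lam * nψ)))).trans
      ((hmin χ hχ).trans (add_le_add hχE' (ENNReal.ofReal_le_ofReal
        (mul_le_mul_of_nonneg_left hχn hLam0))))
    have hA0 : 0 ≤ 4 * Real.pi * N ^ 2 * a + X * (Jf 0 - s / 20) := by
      have h2 : 0 ≤ X * (Jf 0 - s / 20) := mul_nonneg hX0.le (by linarith)
      have h3 : 0 ≤ 4 * Real.pi * N ^ 2 * a := by positivity
      linarith
    rw [← ENNReal.ofReal_add hA0 (by positivity), ← ENNReal.ofReal_add (by positivity) (by positivity),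
      ENNReal.ofReal_le_ofReal_iff (by positivity)] at h1
    have h2 : Lam * (N * Y * (Dk (Real.sqrt s) + s / 40)) = X * (s * Dk (Real.sqrt s) + s ^ 2 / 40) := by
      rw [hLam, hX]; ring
    rw [h2] at h1
    have h3 := Phk_add_Dk (Real.sqrt s)
    rw [Real.sq_sqrt hs.le] at h3
    have h4 : s ^ 2 / 40 ≤ s / 40 := by nlinarith
    have h5 := mul_le_mul_of_nonneg_left h4 hX0.le
    have h6 : X * (Jf s) = X * Phk (Real.sqrt s) + X * (s * Dk (Real.sqrt s)) := by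
      rw [← h3]; ring
    rw [hLam] at h1
    nlinarith
  have hJ : Jf s - Jf 0 ≤ s * (31 / 20) := by
    have h1 := Jf_sub_le (s := 0) (t := s) le_rfl hs.le
    rw [Dg_zero, sub_zero] at h1
    exact h1.trans (mul_le_mul_of_nonneg_left P14_c0 hs.le)
  have hn2 : nψ ≤ 2 * Y * N := by
    have h1 : s * N * a * nψ ≤ s * N * a * (2 * Y * N) := by
      refine hkey.trans ?_
      have h2 : Jf s - Jf 0 + 3 * s / 20 ≤ s * 2 := by linarith
      have h3 := mul_le_mul_of_nonneg_left h2 hX0.le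
      refine h3.trans (le_of_eq ?_)
      rw [hX]; ring
    exact le_of_mul_le_mul_left h1 (by positivity)
  -- moments
  have hgap : Lam * (a / Y) ^ 2 ≤ 1 := by
    have h1 : Lam * (a / Y) ^ 2 = s * ((N:ℝ) * a ^ 3) / Y ^ 2 := by rw [hLam]; field_simp
    rw [h1, hr.Na]
    rw [mul_div_assoc, div_self (by positivity), mul_one]
    exact hs1
  have hloc := hLA' N W f Q w R₀ R a Lam _ 𝒱 haA (min_le_left _ _) hr hLam0 hgap ψ hψ
    (fun χ' hχ' => by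
      rw [P14_sum hLam0 hψ.1, P14_sum hLam0 hχ'.1]
      exact hmin χ' hχ') hn2
  have hlb := hLB' N W f Q R₀ R a hr.sc haB hr.Na hr.Rle 𝒱 hr.V_ge ψ hψ hloc hn2
  refine le_trans ?_ (hmin φ hφ)
  calc ENNReal.ofReal (4 * Real.pi * N ^ 2 * a + N ^ 2 * a * Y * (Jf s - η))
      = ENNReal.ofReal ((4 * Real.pi * N ^ 2 * a + N ^ 2 * a * Y * (Jf s - η) - s * N * a * nψ)
          + s * N * a * nψ) := by congr 1; ring
    _ ≤ ENNReal.ofReal (4 * Real.pi * N ^ 2 * a + N ^ 2 * a * Y * (Jf s - η) - s * N * a * nψ)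
          + ENNReal.ofReal (s * N * a * nψ) := ENNReal.ofReal_add_le
    _ ≤ tE 𝒱 ψ + ENNReal.ofReal (Lam * nψ) := add_le_add hlb le_rfl

end Pool.Agent.Lib.MP_4952d6_mp.LG
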