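import Pool.Agent.Lib.MP_4952d6_mp.Po.N35
import Pool.Agent.Lib.MP_4952d6_mp.Pq.P14

/-!
# Pq.P15: physical units, definitions and statements
-/

set_option autoImplicit false
set_option linter.unusedSectionVars false
set_option linter.unusedVariables false
open MeasureTheory Function Filter Topology Set
open scoped ENNReal

namespace Pool.Agent.Lib.MP_4952d6_mp.LG

open LA

/-- Energy with a gap `g` for each particle outside of the condensate. -/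
noncomputable def gapEnergy (m g : ℝ) (v : (Fin 3 → ℝ) → ℝ) (N : ℕ) (L : ℝ)
    (ψ : (Fin N → Fin 3 → ℝ) → ℂ) : ℝ≥0∞ :=
  energy m v N L ψ + ENNReal.ofReal (g * (N * (1 - condFraction N L ψ)))

/-- Ground states of the gas with a gap `g`. -/
def IsGapGround (m R₀ g : ℝ) (v : (Fin 3 → ℝ) → ℝ) (N : ℕ) (L : ℝ)
    (ψ : (Fin N → Fin 3 → ℝ) → ℂ) : Prop :=
  Admissible m R₀ v N L ψ ∧ ∀ φ : (Fin N → Fin 3 → ℝ) → ℂ, Admissible m R₀ v N L φ →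
    gapEnergy m g v N L ψ ≤ gapEnergy m g v N L φ

/-- States whose energy is within `d` of the ground state energy. -/
def IsNear (m R₀ d : ℝ) (v : (Fin 3 → ℝ) → ℝ) (N : ℕ) (L : ℝ)
    (ψ : (Fin N → Fin 3 → ℝ) → ℂ) : Prop :=
  Admissible m R₀ v N L ψ ∧ ∀ φ : (Fin N → Fin 3 → ℝ) → ℂ, Admissible m R₀ v N L φ →
    energy m v N L ψ ≤ energy m v N L φ + ENNReal.ofReal d

/-- **Lower bound, physical form.** -/
def PLBStatement : Prop :=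
  ∀ (m R₀ R : ℝ) (v : (Fin 3 → ℝ) → ℝ), 0 < m → 0 ≤ R₀ → R₀ < R → Integrable v →
    (∀ x, 0 ≤ v x) → (∀ x y : Fin 3 → ℝ, ∑ α, x α ^ 2 = ∑ α, y α ^ 2 → v x = v y) →
    (∀ x : Fin 3 → ℝ, R ^ 2 ≤ ∑ α, x α ^ 2 → v x = 0) → (0 < R₀ ∨ 0 < ∫ x, v x) →
    ∀ s ε : ℝ, 0 < s → s ≤ 1 → 0 < ε → ∃ ρ₁ : ℝ, 0 < ρ₁ ∧ ∀ ρ : ℝ, 0 < ρ → ρ < ρ₁ →
      ∃ N₁ : ℕ, ∀ N : ℕ, N₁ ≤ N → ∀ ψ : (Fin N → Fin 3 → ℝ) → ℂ,
        Admissible m R₀ v N (side ρ N) ψ →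
        ENNReal.ofReal (N * (2 * Real.pi / m * ρ * scatLen m R₀ v
          * (1 + (Jf s / (4 * Real.pi) - ε) * Real.sqrt (ρ * scatLen m R₀ v ^ 3))))
            ≤ gapEnergy m (s * (ρ * scatLen m R₀ v / (2 * m))) v N (side ρ N) ψ

/-- **Upper bound, physical form**, with the depletion of the trial state. -/
def PUBStatement : Prop :=
  ∀ (m R₀ R : ℝ) (v : (Fin 3 → ℝ) → ℝ), 0 < m → 0 ≤ R₀ → R₀ < R → Integrable v →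
    (∀ x, 0 ≤ v x) → (∀ x y : Fin 3 → ℝ, ∑ α, x α ^ 2 = ∑ α, y α ^ 2 → v x = v y) →
    (∀ x : Fin 3 → ℝ, R ^ 2 ≤ ∑ α, x α ^ 2 → v x = 0) → (0 < R₀ ∨ 0 < ∫ x, v x) →
    ∀ s ε : ℝ, 0 < s → s ≤ 1 → 0 < ε → ∃ ρ₁ : ℝ, 0 < ρ₁ ∧ ∀ ρ : ℝ, 0 < ρ → ρ < ρ₁ →
      ∃ N₁ : ℕ, ∀ N : ℕ, N₁ ≤ N → ∃ φ : (Fin N → Fin 3 → ℝ) → ℂ,
        Admissible m R₀ v N (side ρ N) φ ∧
        energy m v N (side ρ N) φ ≤ ENNReal.ofReal (N * (2 * Real.pi / m * ρ * scatLen m R₀ v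
          * (1 + ((Jf s - s * Dg s) / (4 * Real.pi) + ε) * Real.sqrt (ρ * scatLen m R₀ v ^ 3)))) ∧
        1 - condFraction N (side ρ N) φ ≤ (Dg s + ε) * Real.sqrt (ρ * scatLen m R₀ v ^ 3)

/-- **Existence of the ground states of the gas with a gap.** -/
def PEXStatement : Prop :=
  ∀ (N : ℕ) (m R₀ g L : ℝ) (v : (Fin 3 → ℝ) → ℝ), 0 < m → 0 < L → 0 ≤ R₀ → 0 ≤ g → 1 ≤ N →
    AEMeasurable v volume → (∃ φ, Admissible m R₀ v N L φ) → ∃ ψ, IsGapGround m R₀ g v N L ψ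

end Pool.Agent.Lib.MP_4952d6_mp.LG
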