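import Pool.Agent.Lib.MP_4952d6_mp.Pq.P15

/-!
# Pq.P16: lower bound, physical form

Model `een_of` (Po/N35), `F5_main` (Pk/G58).
-/

set_option autoImplicit false
set_option linter.unusedSectionVars false
set_option linter.unusedVariables false
open MeasureTheory Function Filter Topology Set
open scoped ENNReal

namespace Pool.Agent.Lib.MP_4952d6_mp.LG

open LA

/-- A bounded shape below a physical interaction. -/
theorem P16_shape {m R₀ R : ℝ} {v : (Fin 3 → ℝ) → ℝ} (hm : 0 < m) (hR0 : 0 ≤ R₀) (hR : R₀ < R)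
    (hv : Integrable v) (hv0 : ∀ x, 0 ≤ v x)
    (hrad : ∀ x y : Fin 3 → ℝ, ∑ α, x α ^ 2 = ∑ α, y α ^ 2 → v x = v y)
    (hsupp : ∀ x : Fin 3 → ℝ, R ^ 2 ≤ ∑ α, x α ^ 2 → v x = 0)
    (hgen0 : 0 < R₀ ∨ 0 < ∫ x, v x) :
    ∃ w : ℝ → ℝ, Measurable w ∧ (∀ r, 0 ≤ w r) ∧ (∀ r, w r ≤ (R⁻¹) ^ 2) ∧
      (∀ r, R ≤ r → w r = 0) ∧ (0 < ∫ r in Ioi (0:ℝ), r ^ 2 * w r) ∧
      ∀ L : ℝ, 0 < L → ∀ᵐ y ∂lam3, R₀ / L ≤ rr y →
        ENNReal.ofReal (L ^ 2 * w (L * rr y)) ≤ Vp m L v y := by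
  have hRpos : 0 < R := hR0.trans_lt hR
  obtain ⟨g, hgm, hg0, hg⟩ := exists_rep hv hv0 hrad
  set u : ℝ → ℝ := fun r => if r < R then m * g r else 0 with hu
  have hum : Measurable u := Measurable.ite measurableSet_Iio (hgm.const_mul m) measurable_const
  have hu0 : ∀ r, 0 ≤ u r := fun r => by
    simp only [hu]; split_ifs
    · exact mul_nonneg hm.le (hg0 r)
    · exact le_rfl
  have huR : ∀ r, R ≤ r → u r = 0 := fun r hr => by
    simp only [hu]; rw [if_neg (not_lt.2 hr)]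
  have huv : ∀ᵐ r : ℝ, 0 < r → u r = m * prof v r := by
    filter_upwards [hg] with r hr hr0
    simp only [hu]
    split_ifs with h
    · rw [hr hr0]
    · have : prof v r = 0 := by
        refine hsupp _ ?_
        simp [Fin.sum_univ_three]
        push Not at h
        exact pow_le_pow_left₀ hRpos.le h 2
      rw [this, mul_zero]
  have hradp : ∀ x, v x = prof v (nr x) := prof_eq hrad
  have hUm : ∫ r in Ioi (0:ℝ), r ^ 2 * u r = m * ∫ r in Ioi (0:ℝ), r ^ 2 * prof v r := by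
    rw [← integral_const_mul]
    refine setIntegral_congr_ae measurableSet_Ioi ?_
    filter_upwards [huv] with r hr hr0
    rw [hr hr0]; ring
  have hUv : ∫ x, v x = sig / m * ∫ r in Ioi (0:ℝ), r ^ 2 * u r := by
    have e1 : ∫ x, v x = sig * ∫ r in Ioi (0:ℝ), r ^ 2 * prof v r := by
      rw [← integral_nr]
      exact integral_congr_ae (Eventually.of_forall hradp)
    rw [e1, hUm]; field_simp
  have hσ := sig_pos
  have hgen : 0 < R₀ ∨ 0 < ∫ r in Ioi (0:ℝ), r ^ 2 * u r := by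
    rcases hgen0 with h | h
    · exact Or.inl h
    · right
      rw [hUv] at h
      by_contra hne
      push Not at hne
      have : sig / m * ∫ r in Ioi (0:ℝ), r ^ 2 * u r ≤ 0 :=
        mul_nonpos_of_nonneg_of_nonpos (by positivity) hne
      linarith
  obtain ⟨w0, hw0m, hw00, hw01, hw0R, hw0u, hw0I⟩ := F5_shape hum hu0 hR0 hR huR hgen
  refine ⟨w0, hw0m, hw00, hw01, hw0R, hw0I, fun L hL => ?_⟩
  have h1 : ∀ᵐ r : ℝ, 0 < r → (if r < R₀ then 0 else w0 r / 2) ≤ m * prof v r := by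
    filter_upwards [huv] with r hr hr0
    rw [← hr hr0]
    split_ifs with h2
    · exact hu0 r
    · have := hw0u r (not_lt.1 h2)
      linarith
  have h3 := F5_pot hm hradp h1 hL
  filter_upwards [h3] with y hy hy1
  rw [div_le_iff₀ hL] at hy1
  rw [if_neg (not_lt.2 (by linarith))] at hy
  refine le_trans (le_of_eq ?_) hy
  congr 1
  ring

lemma P16_low {N a Y A Z L J η m ρ ε δ κ : ℝ} (hN : 0 < N) (hm : 0 < m) (hρ : 0 < ρ) (ha : 0 < a)
    (hA : 0 < A) (hY : 0 < Y) (hZ : 0 < Z) (hZ1 : Z ≤ 1) (haA : (1 - δ) * A ≤ a)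
    (hYZ : (1 - 3 * δ) * Z ≤ Y) (hL : 0 < L) (hL3 : N / L ^ 3 = ρ)
    (hJ0 : 0 ≤ J) (hη : 0 < η) (hJη : 0 ≤ J - η)
    (hηε : η ≤ 2 * Real.pi * ε) (hδ : 0 ≤ δ) (hδ1 : 0 ≤ 1 - 3 * δ) (hδ2 : δ ≤ κ * Z)
    (hκ : κ = Real.pi * ε / (4 * Real.pi + 4 * J)) (hε : 0 < ε) :
    ENNReal.ofReal (N * (2 * Real.pi / m * ρ * A * (1 + (J / (4 * Real.pi) - ε) * Z)))
      ≤ ENNReal.ofReal (1 / (2 * m * L ^ 2)) *
        ENNReal.ofReal (4 * Real.pi * N ^ 2 * (a / L) + N ^ 2 * (a / L) * Y * (J - η)) := by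
  have hp := Real.pi_pos
  rw [← ENNReal.ofReal_mul (by positivity)]
  refine ENNReal.ofReal_le_ofReal ?_
  rw [← O.FE2_unit (K := J - 4 * Real.pi * ε) hm hL hL3 (by field_simp)]
  refine mul_le_mul_of_nonneg_left ?_ (by positivity)
  -- the two comparisons
  have hκ' : κ * (4 * Real.pi + 4 * J) = Real.pi * ε := by
    rw [hκ]; field_simp
  have b1 : (1 - δ) * (A / L) ≤ a / L := by
    rw [← mul_div_assoc]
    exact div_le_div_of_nonneg_right haA hL.le
  have hd1 : 0 ≤ 1 - δ := by linarith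
  have hAL : 0 < A / L := by positivity
  set q : ℝ := A / L with hq
  have b2 : (1 - δ) * q * ((1 - 3 * δ) * Z) ≤ (a / L) * Y :=
    mul_le_mul b1 hYZ (by positivity) (by positivity)
  have b3 : (1 - 4 * δ) * (q * Z) ≤ (1 - δ) * q * ((1 - 3 * δ) * Z) := by
    have : 0 ≤ δ ^ 2 * (q * Z) := by positivity
    nlinarith
  have b4 : (1 - 4 * δ) * (q * Z) * (J - η) ≤ (a / L) * Y * (J - η) :=
    mul_le_mul_of_nonneg_right (b3.trans b2) hJη
  have b5 : 4 * Real.pi * ((1 - δ) * q) ≤ 4 * Real.pi * (a / L) :=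
    mul_le_mul_of_nonneg_left b1 (by positivity)
  have b6 : 4 * Real.pi * q + q * Z * (J - 4 * Real.pi * ε)
      ≤ 4 * Real.pi * ((1 - δ) * q) + (1 - 4 * δ) * (q * Z) * (J - η) := by
    have c1 : 4 * Real.pi * δ ≤ 4 * Real.pi * κ * Z := by
      have := mul_le_mul_of_nonneg_left hδ2 (show 0 ≤ 4 * Real.pi by positivity)
      linarith
    have hκ0 : 0 ≤ κ := by rw [hκ]; positivity
    have c2 : 4 * δ * Z * (J - η) ≤ 4 * κ * J * Z := by
      calc 4 * δ * Z * (J - η) ≤ 4 * (κ * Z) * 1 * J := by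
            have : J - η ≤ J := by linarith
            gcongr
        _ = 4 * κ * J * Z := by ring
    have c3 : 4 * Real.pi * κ * Z + 4 * κ * J * Z = Real.pi * ε * Z := by
      rw [← hκ']; ring
    have c4 : η * Z ≤ 2 * Real.pi * ε * Z := mul_le_mul_of_nonneg_right hηε hZ.le
    have c5 : 0 < Real.pi * ε * Z := by positivity
    have c6 : 4 * Real.pi + Z * (J - 4 * Real.pi * ε)
        ≤ 4 * Real.pi * (1 - δ) + (1 - 4 * δ) * Z * (J - η) := by
      have c7 : (1 - 4 * δ) * Z * (J - η) = Z * J - Z * η - 4 * δ * Z * (J - η) := by ring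
      rw [c7]
      linarith
    have c8 := mul_le_mul_of_nonneg_left c6 hAL.le
    linarith
  have hN2 : 0 ≤ N ^ 2 := sq_nonneg N
  have b7 := mul_le_mul_of_nonneg_left (b6.trans (add_le_add b5 b4)) hN2
  linarith

theorem plb_of (hL : LBGStatement) : PLBStatement := by
  intro m R₀ R v hm hR0 hR hv hv0 hrad hsupp hgen s ε hs hs1 hε
  have hRpos : 0 < R := hR0.trans_lt hR
  have hσ := sig_pos
  have hvm : AEMeasurable v volume := hv.aestronglyMeasurable.aemeasurable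
  obtain ⟨hA0, htr⟩ := O.F4_trunc hm hR0 hR hv hv0 hrad hsupp hgen
  obtain ⟨w0, hw0m, hw00, hw01, hw0R, hw0I, hw0V⟩ := P16_shape hm hR0 hR hv hv0 hrad hsupp hgen
  have hgenE := O.een_final m R₀ R v hm hR0 hv hv0 hrad hsupp hgen
  set A : ℝ := scatLen m R₀ v with hA
  have hpi := Real.pi_pos
  have hsp : 0 < Real.sqrt Real.pi := Real.sqrt_pos.2 hpi
  have hJ00 : 1 ≤ Jf 0 := by
    have h1 : (1.76 : ℝ) ≤ Real.sqrt Real.pi := by
      apply Real.le_sqrt_of_sq_le
      have := Real.pi_gt_d2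
      norm_num
      linarith
    rw [Jf_zero_eq]
    linarith
  set J : ℝ := Jf s with hJd
  have hJ1 : 1 ≤ J := hJ00.trans (Jf_mono le_rfl hs.le)
  have hJ0 : 0 < J := by linarith
  set η : ℝ := min (J / 2) (2 * Real.pi * ε) with hη
  have hη0 : 0 < η := lt_min (by positivity) (by positivity)
  have hηJ : η ≤ J / 2 := min_le_left _ _
  have hηε : η ≤ 2 * Real.pi * ε := min_le_right _ _
  set Iw : ℝ := ∫ r in Ioi (0:ℝ), r ^ 2 * w0 r with hIw
  set cw : ℝ := sig * Iw / R with hcw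
  have hcw0 : 0 < cw := by rw [hcw]; positivity
  obtain ⟨c, YB, hc, hYB, hB⟩ := hL (2 * R / A) cw s η hcw0 hs hs1 hη0
  -- the ungapped energy
  obtain ⟨-, hEn⟩ := hgenE
  obtain ⟨ρE, hρE, hEn⟩ := hEn (s / (80 * Real.pi)) (by positivity)
  set Ym : ℝ := min YB 1 with hYm
  have hYm0 : 0 < Ym := lt_min hYB one_pos
  refine ⟨min ρE (Ym ^ 2 / A ^ 3), lt_min hρE (by positivity), fun ρ hρ hρ1 => ?_⟩
  obtain ⟨NE, hNE⟩ := hEn ρ hρ (hρ1.trans_le (min_le_left _ _))
  have hρ2 : ρ < Ym ^ 2 / A ^ 3 := hρ1.trans_le (min_le_right _ _)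
  set YA : ℝ := Real.sqrt (ρ * A ^ 3) with hYAd
  have hYA : 0 < YA := Y_pos hρ hA0
  have hYAm : YA < Ym := by
    rw [hYAd, Real.sqrt_lt' hYm0]
    rwa [lt_div_iff₀ (by positivity)] at hρ2
  have hYAB : YA < YB := hYAm.trans_le (min_le_left _ _)
  have hYA1 : YA ≤ 1 := hYAm.le.trans (min_le_right _ _)
  set κ : ℝ := Real.pi * ε / (4 * Real.pi + 4 * J) with hκ
  have hκ0 : 0 < κ := by positivity
  set δ : ℝ := min (1 / 10) (κ * YA) with hδ
  have hδ0 : 0 < δ := lt_min (by norm_num) (by positivity)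
  have hδ1 : δ ≤ 1 / 10 := min_le_left _ _
  have hδ2 : δ ≤ κ * YA := min_le_right _ _
  obtain ⟨W, f, Q, a, h, haA, haA', hV⟩ := htr δ (c * (A / 2) * (YA / 2) / (2 * sig)) hδ0
    (by positivity)
  have ha : 0 < a := h.a_pos
  have hA2a : A ≤ 2 * a := by
    have := mul_le_mul_of_nonneg_right hδ1 hA0.le
    linarith
  obtain ⟨hr1, hr2, hr3⟩ := O.F4_ratio hρ ha haA hδ0.le (by linarith) haA'
  have hY := Y_pos hρ ha
  have hY2 := Y_sq hρ ha
  set Y : ℝ := Real.sqrt (ρ * a ^ 3) with hYd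
  have hYA2Y : YA / 2 ≤ Y := by
    have h1 : (1 / 2 : ℝ) ≤ 1 - 3 * δ := by linarith
    have h2 := mul_le_mul_of_nonneg_right h1 hYA.le
    linarith
  obtain ⟨aB, haB, hB'⟩ := hB Y hY (hr2.trans_lt hYAB)
  obtain ⟨NS, hNS1, hNS⟩ := F4_side hρ (show 0 < max (2 * R) (a / aB) from
    lt_max_of_lt_left (by linarith))
  refine ⟨max NE NS, fun N hN ψ hψ => ?_⟩
  have hNE' : NE ≤ N := (le_max_left _ _).trans hN
  have hNS' : NS ≤ N := (le_max_right _ _).trans hN
  have hN1 : 1 ≤ N := hNS1.trans hNS'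
  have hN0 : (0:ℝ) < N := by exact_mod_cast hN1
  have hside := hNS N hNS'
  have hLp := side_pos hρ hN1
  have hL3 := side_cube hρ hN1
  obtain ⟨⟨ψ₀, hψ₀⟩, hgr⟩ := hNE N hNE'
  obtain ⟨hlow, -⟩ := hgr ψ₀ hψ₀
  set L : ℝ := side ρ N with hLdef
  have h2R : 2 * R < L := (le_max_left _ _).trans_lt hside
  have hLa : a / L < aB := by
    have h1 : a / aB < L := (le_max_right _ _).trans_lt hside
    rw [div_lt_iff₀ haB] at h1
    rw [div_lt_iff₀ hLp]; linarith
  obtain ⟨hV1, hV2, hV3⟩ := hV L h2R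
  have hadm := adm_TT hm hLp hR0 hvm hψ
  have hadm₀ := adm_TT hm hLp hR0 hvm hψ₀.1
  -- the torus data
  have hreg : RegG (2 * R / A) cw c Y (fun t => L ^ 2 * W (L * t)) (fun t => f (L * t)) (fun t => Q (L * t) / L)
      (fun t => L ^ 2 * w0 (L * t)) (R₀ / L) (R / L) (a / L) N (Vp m L v) :=
    { sc := h.scale hLp
      Na := by
        rw [hY2, ← hL3, div_pow]
        field_simp
      Rle := by
        rw [← mul_div_assoc]
        refine div_le_div_of_nonneg_right ?_ hLp.le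
        rw [div_mul_eq_mul_div, le_div_iff₀ hA0]
        linarith only [mul_le_mul_of_nonneg_left hA2a hRpos.le]
      wm := (hw0m.comp (measurable_const_mul L)).const_mul _
      w0 := fun t => by
        have := hw00 (L * t)
        positivity
      wb := fun t => by
        have h1 := mul_le_mul_of_nonneg_left (hw01 (L * t)) (sq_nonneg L)
        refine h1.trans (le_of_eq ?_)
        rw [inv_div, div_pow, inv_pow]
        field_simp
      wz := fun t ht => by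
        rw [div_le_iff₀ hLp] at ht
        rw [hw0R (L * t) (by linarith), mul_zero]
      wc := by
        rw [F5_scale hLp, ← hIw, hcw]
        refine le_of_eq ?_
        field_simp
      V_meas := (aem_vper hLp hvm).const_mul _
      V_even := F5_Vp_neg hLp hrad
      V_ge := hV1
      V_int := by
        rw [tsub_le_iff_left] at hV3
        refine hV3.trans (add_le_add_right (ENNReal.ofReal_le_ofReal ?_) _)
        have h1 : A / 2 ≤ a := by linarith
        calc 2 * sig / L * (c * (A / 2) * (YA / 2) / (2 * sig))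
            = c * ((A / 2) * (YA / 2)) / L := by field_simp
          _ ≤ c * (a * Y) / L := by gcongr
          _ = c * (a / L * Y) := by ring
      V_w := hw0V L hLp }
  have hL2 : 0 < 1 / (2 * m * L ^ 2) := by positivity
  have hAL : a / L ≤ A / L := div_le_div_of_nonneg_right haA hLp.le
  -- ungapped lower bound on the torus
  have hE0 : ∀ φ : (Fin N → T3) → ℂ, tAdm (R₀ / L) (Vp m L v) φ →
      ENNReal.ofReal (4 * Real.pi * N ^ 2 * (a / L) + N ^ 2 * (a / L) * Y * (Jf 0 - s / 20))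
        ≤ tE (Vp m L v) φ := by
    intro φ hφ
    have hχ := adm_BB hm hLp hR0 hvm hφ
    have h1 := hlow.trans (hψ₀.2 _ hχ)
    rw [energy_eq hm hLp hvm hχ.1.1, TT_BB hLp] at h1
    rw [← O.FE2_unit (K := Jf 0 - s / 20) hm hLp hL3 (by
      rw [mul_sub, O.FE2_c, Jf_zero_eq]; field_simp; ring), ENNReal.ofReal_mul hL2.le] at h1
    have h2 := (ENNReal.mul_le_mul_iff_right (ENNReal.ofReal_pos.2 hL2).ne' ENNReal.ofReal_ne_top).1 h1
    refine (ENNReal.ofReal_le_ofReal ?_).trans h2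
    have h3 : 0 ≤ Jf 0 - s / 20 := by linarith
    have h4 : 4 * Real.pi * (N:ℝ) ^ 2 * (a / L) ≤ 4 * Real.pi * N ^ 2 * (A / L) := by gcongr
    have h5 : (N:ℝ) ^ 2 * (a / L) * Y * (Jf 0 - s / 20) ≤ N ^ 2 * (A / L) * YA * (Jf 0 - s / 20) := by
      gcongr
    linarith
  have hmain := hB' N _ _ _ _ _ _ _ (Vp m L v) hLa hreg hE0 (TT N L ψ) hadm
  set ν : ℝ := ∑ i, nuQ (fc (TT N L ψ)) i with hν
  have hν0 : 0 ≤ ν := Finset.sum_nonneg fun i _ => nuQ_nonneg _ _
  have hgap : gapEnergy m (s * (ρ * A / (2 * m))) v N L ψ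
      = ENNReal.ofReal (1 / (2 * m * L ^ 2)) * (tE (Vp m L v) (TT N L ψ)
          + ENNReal.ofReal (s * N * (A / L) * ν)) := by
    unfold gapEnergy
    rw [energy_eq hm hLp hvm hψ.1.1, condFraction_eq hN1 hLp hψ, ← hν, mul_add,
      ← ENNReal.ofReal_mul hL2.le]
    congr 2
    rw [← hL3]
    field_simp
    ring
  rw [hgap]
  refine (P16_low hN0 hm hρ ha hA0 hY hYA hYA1 haA' hr1 hLp hL3 hJ0.le hη0 (by linarith) hηε hδ0.le
    (by linarith) hδ2 hκ hε).trans (mul_le_mul_right (hmain.trans (add_le_add le_rfl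
      (ENNReal.ofReal_le_ofReal ?_))) _)
  gcongr

end Pool.Agent.Lib.MP_4952d6_mp.LG
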