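import Pool.Agent.Lib.MP_4952d6_mp.Pq.P15

/-!
# Pq.P17: upper bound, physical form

`pub_of`: `O.F4_trunc` with the truncation `δ = 1 / 10` and `ε₁` depending on the density, `UGStatement` for
`θ = 2 R / A`, `s`, `η` small; `φ` is transported by `BB N L`.
-/

set_option autoImplicit false
set_option linter.unusedSectionVars false
set_option linter.unusedVariables false
open MeasureTheory Function Filter Topology Set
open scoped ENNReal

namespace Pool.Agent.Lib.MP_4952d6_mp.LG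

open LA

lemma P17_up {N a Y A Z L J η C c m ρ ε : ℝ} (hN : 0 < N) (hm : 0 < m) (hρ : 0 < ρ) (ha : 0 < a)
    (haA : a ≤ A) (hY : 0 < Y) (hYZ : Y ≤ Z) (hL : 0 < L) (hL3 : N / L ^ 3 = ρ)
    (hJ0 : 0 ≤ J) (hη : 0 < η) (hηε : η ≤ Real.pi * ε) (hC : 0 < C) (hc : 0 < c)
    (hCc : C * c = Real.pi * ε) (hε : 0 < ε) :
    ENNReal.ofReal (1 / (2 * m * L ^ 2)) *
      (ENNReal.ofReal (4 * Real.pi * N ^ 2 * (a / L) + N ^ 2 * (a / L) * Y * (J + η))
        + ENNReal.ofReal (C * N ^ 2) * ENNReal.ofReal (c * (a / L * Y)))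
      ≤ ENNReal.ofReal (N * (2 * Real.pi / m * ρ * A * (1 + (J / (4 * Real.pi) + ε) * Z))) := by
  have hp := Real.pi_pos
  have hA : 0 < A := ha.trans_le haA
  have hZ : 0 < Z := hY.trans_le hYZ
  rw [← ENNReal.ofReal_mul (by positivity), ← ENNReal.ofReal_add (by positivity) (by positivity),
    ← ENNReal.ofReal_mul (by positivity)]
  refine ENNReal.ofReal_le_ofReal ?_
  rw [← O.FE2_unit (K := J + 4 * Real.pi * ε) hm hL hL3 (by field_simp)]
  refine mul_le_mul_of_nonneg_left ?_ (by positivity)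
  have e1 : C * N ^ 2 * (c * (a / L * Y)) = N ^ 2 * (a / L) * Y * (Real.pi * ε) := by
    rw [← hCc]; ring
  rw [e1]
  have h0 : J + η + Real.pi * ε ≤ J + 4 * Real.pi * ε := by
    have : 0 < Real.pi * ε := by positivity
    linarith
  have h1 : 4 * Real.pi * N ^ 2 * (a / L) ≤ 4 * Real.pi * N ^ 2 * (A / L) := by gcongr
  have h2 : N ^ 2 * (a / L) * Y * (J + η + Real.pi * ε) ≤ N ^ 2 * (A / L) * Z * (J + 4 * Real.pi * ε) := by
    gcongr
  have h3 : N ^ 2 * (a / L) * Y * (J + η) + N ^ 2 * (a / L) * Y * (Real.pi * ε)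
      = N ^ 2 * (a / L) * Y * (J + η + Real.pi * ε) := by ring
  linarith

theorem pub_of (hU : UGStatement) : PUBStatement := by
  intro m R₀ R v hm hR0 hR hv hv0 hrad hsupp hgen s ε hs hs1 hε
  have hRpos : 0 < R := hR0.trans_lt hR
  have hσ := sig_pos
  have hvm : AEMeasurable v volume := hv.aestronglyMeasurable.aemeasurable
  obtain ⟨hA0, htr⟩ := O.F4_trunc hm hR0 hR hv hv0 hrad hsupp hgen
  set A : ℝ := scatLen m R₀ v with hA
  have hpi := Real.pi_pos
  have hDk : Dk (Real.sqrt s) = Dg s := by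
    rw [Dk_eq_Dg, Real.sq_sqrt hs.le]
  have hPh : Phk (Real.sqrt s) = Jf s - s * Dg s := by
    have h1 := Phk_add_Dk (Real.sqrt s)
    rw [Real.sq_sqrt hs.le, hDk] at h1
    linarith
  have hPh0 : 0 ≤ Jf s - s * Dg s := by
    have h2 := Jf_support (s := s) (t := 0) hs.le le_rfl
    have h3 : 0 < Jf 0 := by
      rw [Jf_zero_eq]
      have := Real.sqrt_pos.2 hpi
      positivity
    linarith
  set J : ℝ := Jf s - s * Dg s with hJd
  set η : ℝ := min ε (Real.pi * ε) with hη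
  have hη0 : 0 < η := lt_min hε (by positivity)
  have hηε : η ≤ ε := min_le_left _ _
  have hηπ : η ≤ Real.pi * ε := min_le_right _ _
  obtain ⟨C, Y0, hC, hY0, hU'⟩ := hU (2 * R / A) s η hs hs1 hη0
  set c : ℝ := Real.pi * ε / C with hc
  have hc0 : 0 < c := by positivity
  have hCc : C * c = Real.pi * ε := by rw [hc]; field_simp
  refine ⟨Y0 ^ 2 / A ^ 3, by positivity, fun ρ hρ hρ1 => ?_⟩
  set YA : ℝ := Real.sqrt (ρ * A ^ 3) with hYAd
  have hYA : 0 < YA := Y_pos hρ hA0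
  have hYAm : YA < Y0 := by
    rw [hYAd, Real.sqrt_lt' hY0]
    rwa [lt_div_iff₀ (by positivity)] at hρ1
  obtain ⟨W, f, Q, a, h, haA, haA', hV⟩ := htr (1 / 10) (c * (A / 2) * (YA / 2) / (2 * sig))
    (by norm_num) (by positivity)
  have ha : 0 < a := h.a_pos
  have hA2a : A ≤ 2 * a := by linarith
  obtain ⟨hr1, hr2, hr3⟩ := O.F4_ratio hρ ha haA (by norm_num) (by norm_num) haA'
  have hY := Y_pos hρ ha
  have hY2 := Y_sq hρ ha
  set Y : ℝ := Real.sqrt (ρ * a ^ 3) with hYd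
  have hYA2Y : YA / 2 ≤ Y := by linarith
  obtain ⟨a0, ha0, hU''⟩ := hU' Y hY (hr2.trans_lt hYAm)
  obtain ⟨NS, hNS1, hNS⟩ := F4_side hρ (show 0 < max (2 * R) (a / a0) from
    lt_max_of_lt_left (by linarith))
  refine ⟨NS, fun N hN => ?_⟩
  have hN1 : 1 ≤ N := hNS1.trans hN
  have hN0 : (0:ℝ) < N := by exact_mod_cast hN1
  have hside := hNS N hN
  have hLp := side_pos hρ hN1
  have hL3 := side_cube hρ hN1
  set L : ℝ := side ρ N with hLdef
  have h2R : 2 * R < L := (le_max_left _ _).trans_lt hside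
  have hLa : a / L < a0 := by
    have h1 : a / a0 < L := (le_max_right _ _).trans_lt hside
    rw [div_lt_iff₀ ha0] at h1
    rw [div_lt_iff₀ hLp]; linarith
  obtain ⟨hV1, hV2, hV3⟩ := hV L h2R
  have hNa : (N:ℝ) * (a / L) ^ 3 = Y ^ 2 := by
    rw [hY2, ← hL3, div_pow]
    field_simp
  have hRθ : R / L ≤ 2 * R / A * (a / L) := by
    rw [← mul_div_assoc]
    refine div_le_div_of_nonneg_right ?_ hLp.le
    rw [div_mul_eq_mul_div, le_div_iff₀ hA0]
    linarith only [mul_le_mul_of_nonneg_left hA2a hRpos.le]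
  obtain ⟨φ, hφ, hφE, hφn⟩ := hU'' N _ _ _ _ _ _ (h.scale hLp) hLa hNa hRθ (Vp m L v)
    ((aem_vper hLp hvm).const_mul _) hV2 hV1
  have hadm := adm_BB hm hLp hR0 hvm hφ
  refine ⟨Pool.Agent.Lib.MP_4952d6_mp.BB N L φ, hadm, ?_, ?_⟩
  · rw [energy_eq hm hLp hvm hadm.1.1, TT_BB hLp]
    refine le_trans (mul_le_mul_right (hφE.trans (add_le_add_right (mul_le_mul_right
      (hV3.trans (ENNReal.ofReal_le_ofReal (p := 2 * sig / L * (c * (A / 2) * (YA / 2) / (2 * sig)))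
        (q := c * (a / L * Y)) ?_)) _) _)) _) ?_
    · have h1 : A / 2 ≤ a := by linarith
      calc 2 * sig / L * (c * (A / 2) * (YA / 2) / (2 * sig))
          = c * ((A / 2) * (YA / 2)) / L := by field_simp
        _ ≤ c * (a * Y) / L := by gcongr
        _ = c * (a / L * Y) := by ring
    · rw [hPh]
      exact P17_up hN0 hm hρ ha haA hY hr2 hLp hL3 hPh0 hη0 hηπ hC hc0 hCc hε
  · rw [condFraction_eq hN1 hLp hadm, TT_BB hLp, sub_sub_cancel, div_le_iff₀ hN0]
    rw [hDk] at hφn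
    refine hφn.trans ?_
    have hDg0 : 0 ≤ Dg s := Dg_nonneg hs.le
    calc (N:ℝ) * Y * (Dg s + η) ≤ N * YA * (Dg s + ε) := by gcongr
      _ = (Dg s + ε) * YA * N := by ring

end Pool.Agent.Lib.MP_4952d6_mp.LG
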