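import Pool.Agent.Lib.MP_4952d6_mp.Pm.M14

/-!
# Q07: existence of the minimisers of the energy with a bounded source

`tW w ψ = ∑ w k ‖fc ψ k‖²`, `w ≥ 0` bounded; for the gap `w k = Λ #{i | k i ≠ 0}`. The proof is the one of `tground` (Pm/M14).
-/

set_option autoImplicit false
set_option linter.unusedSectionVars false
set_option linter.unusedVariables false
open MeasureTheory Function Filter Topology Set
open scoped ENNReal

namespace Pool.Agent.Lib.MP_4952d6_mp.M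

variable {N : ℕ}

/-- The source with the weights `w`. -/
noncomputable def tW (w : (Fin N → Fin 3 → ℤ) → ℝ) (ψ : (Fin N → T3) → ℂ) : ℝ≥0∞ :=
  ∑' k : Fin N → Fin 3 → ℤ, ENNReal.ofReal (w k * ‖fc ψ k‖ ^ 2)

/-- A finite part of the source. -/
noncomputable def srcS (w : (Fin N → Fin 3 → ℤ) → ℝ) (s : Finset (Fin N → Fin 3 → ℤ))
    (ψ : (Fin N → T3) → ℂ) : ℝ≥0∞ :=
  ∑ k ∈ s, ENNReal.ofReal (w k * ‖fc ψ k‖ ^ 2)

theorem tW_ne_top {w : (Fin N → Fin 3 → ℤ) → ℝ} (hw : ∀ k, 0 ≤ w k) {B : ℝ} (hB : ∀ k, w k ≤ B)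
    {ψ : (Fin N → T3) → ℂ} (hψ : MemLp ψ 2 (piN (Fin N))) : tW w ψ ≠ ⊤ := by
  have hs : Summable fun k : Fin N → Fin 3 → ℤ => w k * ‖fc ψ k‖ ^ 2 := by
    refine Summable.of_nonneg_of_le (fun k => mul_nonneg (hw k) (sq_nonneg _))
      (fun k => mul_le_mul_of_nonneg_right (hB k) (sq_nonneg _)) ?_
    exact (parseval_sq hψ).summable.mul_left B
  unfold tW
  rw [← ENNReal.ofReal_tsum_of_nonneg (fun k => mul_nonneg (hw k) (sq_nonneg _)) hs]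
  exact ENNReal.ofReal_ne_top

/-- Lower semicontinuity of the energy with the source. -/
theorem lsc_energyW {w : (Fin N → Fin 3 → ℤ) → ℝ} {V : (Fin N → T3) → ℝ≥0∞}
    (hV : AEMeasurable V (piN (Fin N)))
    {θ : ℕ → (Fin N → T3) → ℂ} (hθ : ∀ n, MemLp (θ n) 2 (piN (Fin N)))
    {g : (Fin N → T3) → ℂ} (hg : ∀ᵐ x ∂(piN (Fin N)), Tendsto (fun n => θ n x) atTop (𝓝 (g x)))
    (hk : ∀ k, Tendsto (fun n => fc (θ n) k) atTop (𝓝 (fc g k))) {E : ℕ → ℝ≥0∞} {e : ℝ≥0∞}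
    (s : Finset (Fin N → Fin 3 → ℤ))
    (hE : ∀ n, kinS s (θ n) + srcS w s (θ n) + potE V (θ n) ≤ E n) (he : Tendsto E atTop (𝓝 e)) :
    kinS s g + srcS w s g + potE V g ≤ e := by
  have hks : Tendsto (fun n => kinS s (θ n) + srcS w s (θ n)) atTop
      (𝓝 (kinS s g + srcS w s g)) := by
    refine Tendsto.add ?_ ?_
    · refine tendsto_finsetSum _ fun k _ => ?_
      refine ENNReal.tendsto_ofReal ?_
      exact (((hk k).norm).pow 2).const_mul _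
    · refine tendsto_finsetSum _ fun k _ => ?_
      refine ENNReal.tendsto_ofReal ?_
      exact (((hk k).norm).pow 2).const_mul _
  have hfin : kinS s g + srcS w s g ≠ ⊤ := by
    unfold kinS srcS
    exact ENNReal.add_ne_top.2 ⟨ENNReal.sum_ne_top.2 fun k _ => ENNReal.ofReal_ne_top,
      ENNReal.sum_ne_top.2 fun k _ => ENNReal.ofReal_ne_top⟩
  have e1 : ∀ ψ : (Fin N → T3) → ℂ, kinS s ψ + srcS w s ψ + potE V ψ
      = ∫⁻ x, (V x * ‖ψ x‖ₑ ^ 2 + (kinS s ψ + srcS w s ψ)) ∂(piN (Fin N)) := by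
    intro ψ
    rw [lintegral_add_right _ measurable_const, lintegral_const, measure_univ, mul_one,
      add_comm (kinS s ψ + srcS w s ψ)]
    rfl
  have hm : ∀ n, AEMeasurable (fun x => V x * ‖θ n x‖ₑ ^ 2 + (kinS s (θ n) + srcS w s (θ n)))
      (piN (Fin N)) :=
    fun n => (hV.mul (((hθ n).1.enorm).pow_const 2)).add_const _
  rw [e1]
  calc ∫⁻ x, (V x * ‖g x‖ₑ ^ 2 + (kinS s g + srcS w s g)) ∂(piN (Fin N))
      ≤ ∫⁻ x, liminf (fun n => V x * ‖θ n x‖ₑ ^ 2 + (kinS s (θ n) + srcS w s (θ n))) atTop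
          ∂(piN (Fin N)) := by
        refine lintegral_mono_ae ?_
        filter_upwards [hg] with x hx
        exact lsc_pt (ENNReal.Tendsto.pow hx.enorm) hks hfin
    _ ≤ liminf (fun n => ∫⁻ x, (V x * ‖θ n x‖ₑ ^ 2 + (kinS s (θ n) + srcS w s (θ n)))
          ∂(piN (Fin N))) atTop := lintegral_liminf_le' hm
    _ ≤ liminf E atTop := by
        refine liminf_le_liminf (Eventually.of_forall fun n => ?_)
        rw [← e1]
        exact hE n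
    _ = e := he.liminf_eq

theorem kinSW_le {w : (Fin N → Fin 3 → ℤ) → ℝ} {𝒱 : T3 → ℝ≥0∞} (s : Finset (Fin N → Fin 3 → ℤ))
    (ψ : (Fin N → T3) → ℂ) :
    kinS s ψ + srcS w s ψ + potE (fun x => ∑ i, ∑ j ∈ Finset.Ioi i, 𝒱 (x i - x j)) ψ
      ≤ tE 𝒱 ψ + tW w ψ := by
  have h1 := kinS_le (𝒱 := 𝒱) s ψ
  have h2 : srcS w s ψ ≤ tW w ψ := by
    unfold srcS tW
    exact ENNReal.sum_le_tsum s
  calc kinS s ψ + srcS w s ψ + potE (fun x => ∑ i, ∑ j ∈ Finset.Ioi i, 𝒱 (x i - x j)) ψ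
      = (kinS s ψ + potE (fun x => ∑ i, ∑ j ∈ Finset.Ioi i, 𝒱 (x i - x j)) ψ) + srcS w s ψ := by
        rw [add_right_comm]
    _ ≤ _ := add_le_add h1 h2

theorem tEW_le {w : (Fin N → Fin 3 → ℤ) → ℝ} {𝒱 : T3 → ℝ≥0∞} (ψ : (Fin N → T3) → ℂ) {e : ℝ≥0∞}
    (h : ∀ s, kinS s ψ + srcS w s ψ
      + potE (fun x => ∑ i, ∑ j ∈ Finset.Ioi i, 𝒱 (x i - x j)) ψ ≤ e) :
    tE 𝒱 ψ + tW w ψ ≤ e := by
  have e1 : tE 𝒱 ψ + tW w ψ = (∑' k : Fin N → Fin 3 → ℤ,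
      (ENNReal.ofReal (4 * Real.pi ^ 2 * (∑ i, ∑ α, (k i α : ℝ) ^ 2) * ‖fc ψ k‖ ^ 2)
        + ENNReal.ofReal (w k * ‖fc ψ k‖ ^ 2)))
      + potE (fun x => ∑ i, ∑ j ∈ Finset.Ioi i, 𝒱 (x i - x j)) ψ := by
    unfold tE tW potE
    rw [ENNReal.tsum_add, add_right_comm]
  rw [e1, ENNReal.tsum_eq_iSup_sum, ENNReal.iSup_add]
  refine iSup_le fun s => ?_
  refine le_trans (le_of_eq ?_) (h s)
  unfold kinS srcS
  rw [Finset.sum_add_distrib]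

section

/-- Existence of a minimiser of the energy with the source `w` on the torus. -/
theorem Q07_ground {R₀ : ℝ} {𝒱 : T3 → ℝ≥0∞} {w : (Fin N → Fin 3 → ℤ) → ℝ}
    (hw : ∀ k, 0 ≤ w k) (hwB : ∃ B : ℝ, ∀ k, w k ≤ B)
    (hV : AEMeasurable (fun x : Fin N → T3 => ∑ i, ∑ j ∈ Finset.Ioi i, 𝒱 (x i - x j))
      (piN (Fin N))) (h : ∃ φ : (Fin N → T3) → ℂ, tAdm R₀ 𝒱 φ) :
    ∃ ψ : (Fin N → T3) → ℂ, tAdm R₀ 𝒱 ψ ∧
      ∀ φ : (Fin N → T3) → ℂ, tAdm R₀ 𝒱 φ → tE 𝒱 ψ + tW w ψ ≤ tE 𝒱 φ + tW w φ := by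
  classical
  obtain ⟨B, hB⟩ := hwB
  obtain ⟨S, hS⟩ : ∃ S : Set ℝ≥0∞, S = (fun φ : (Fin N → T3) → ℂ => tE 𝒱 φ + tW w φ) ''
      {φ : (Fin N → T3) → ℂ | tAdm R₀ 𝒱 φ} := ⟨_, rfl⟩
  have hSne : S.Nonempty := by
    obtain ⟨φ, hφ⟩ := h
    exact ⟨tE 𝒱 φ + tW w φ, by rw [hS]; exact ⟨φ, hφ, rfl⟩⟩
  obtain ⟨u, hu_anti, hu_lim, hu_mem⟩ := exists_seq_tendsto_sInf hSne (OrderBot.bddBelow S)
  rw [hS] at hu_mem
  choose ψ hψ hψu using hu_mem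
  have hu0 : u 0 ≠ ⊤ := by
    rw [← hψu 0]
    exact ENNReal.add_ne_top.2 ⟨(hψ 0).2.2.2.ne, tW_ne_top hw hB (hψ 0).1⟩
  have hle : ∀ n, tE 𝒱 (ψ n) ≤ ENNReal.ofReal (u 0).toReal := by
    intro n
    rw [ENNReal.ofReal_toReal hu0]
    refine le_trans ?_ (hu_anti (Nat.zero_le n))
    rw [← hψu n]
    exact le_self_add
  have hmem : ∀ n, MemLp (ψ n) 2 (piN (Fin N)) := fun n => (hψ n).1
  have hkin := fun n => kin_real ENNReal.toReal_nonneg (hle n)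
  obtain ⟨φ, hφ, F, hF⟩ := compact_seq hmem (fun n => (hψ n).2.1.le) (fun n => (hkin n).1)
    (fun n => (hkin n).2)
  obtain ⟨ns, hns, hae⟩ := (tendstoInMeasure_of_tendsto_Lp hF).exists_seq_tendsto_ae
  obtain ⟨θ, hθd⟩ : ∃ θ : ℕ → (Fin N → T3) → ℂ, θ = fun n => ψ (φ (ns n)) := ⟨_, rfl⟩
  have hθm : ∀ n, MemLp (θ n) 2 (piN (Fin N)) := fun n => by rw [hθd]; exact hmem _
  have hFm : MemLp F 2 (piN (Fin N)) := Lp.memLp F
  have hθF : Tendsto (fun n => (hθm n).toLp (θ n)) atTop (𝓝 F) := by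
    have := hF.comp hns.tendsto_atTop
    subst hθd
    exact this
  have hθae : ∀ᵐ x ∂(piN (Fin N)), Tendsto (fun n => θ n x) atTop (𝓝 (F x)) := by
    have h1 : ∀ᵐ x ∂(piN (Fin N)), ∀ n, (hmem (φ (ns n))).toLp (ψ (φ (ns n))) x
        = ψ (φ (ns n)) x := by
      rw [ae_all_iff]
      exact fun n => (hmem (φ (ns n))).coeFn_toLp
    filter_upwards [hae, h1] with x hx h1x
    rw [hθd]
    refine hx.congr fun n => ?_
    exact h1x n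
  obtain ⟨g, hgd⟩ : ∃ g : (Fin N → T3) → ℂ, g = fun x =>
      if ∃ i j : Fin N, i ≠ j ∧ rr (x i - x j) < R₀ then 0 else F x := ⟨_, rfl⟩
  have hcore : ∀ n x, ∀ i j : Fin N, i ≠ j → rr (x i - x j) < R₀ → θ n x = 0 := fun n => by
    rw [hθd]; exact (hψ _).2.2.1
  have hgF : g =ᵐ[piN (Fin N)] F := by
    filter_upwards [hθae] with x hx
    rw [hgd]
    by_cases hc : ∃ i j : Fin N, i ≠ j ∧ rr (x i - x j) < R₀
    · simp only [if_pos hc]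
      obtain ⟨i, j, hij, hr⟩ := hc
      have h2 : Tendsto (fun n => θ n x) atTop (𝓝 0) :=
        tendsto_const_nhds.congr fun n => (hcore n x i j hij hr).symm
      exact tendsto_nhds_unique h2 hx
    · simp only [if_neg hc]
  have hgm : MemLp g 2 (piN (Fin N)) := hFm.ae_eq hgF.symm
  have hgae : ∀ᵐ x ∂(piN (Fin N)), Tendsto (fun n => θ n x) atTop (𝓝 (g x)) := by
    filter_upwards [hθae, hgF] with x hx hgx
    rw [hgx]; exact hx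
  have hgnorm : ∫ x, ‖g x‖ ^ 2 ∂(piN (Fin N)) = 1 := by
    have h1 : ∫ x, ‖g x‖ ^ 2 ∂(piN (Fin N)) = ‖F‖ ^ 2 := by
      rw [nsq]
      refine integral_congr_ae ?_
      filter_upwards [hgF] with x hx
      rw [hx]
    have h2 : Tendsto (fun n => ‖(hθm n).toLp (θ n)‖ ^ 2) atTop (𝓝 (‖F‖ ^ 2)) :=
      hθF.norm.pow 2
    have h3 : ∀ n, ‖(hθm n).toLp (θ n)‖ ^ 2 = 1 := by
      intro n
      rw [nsq]
      have h4 : ∫ x, ‖θ n x‖ ^ 2 ∂(piN (Fin N)) = 1 := by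
        rw [hθd]; exact (hψ _).2.1
      refine Eq.trans (integral_congr_ae ?_) h4
      filter_upwards [(hθm n).coeFn_toLp] with x hx
      rw [hx]
    rw [h1]
    simp_rw [h3] at h2
    exact (tendsto_nhds_unique h2 tendsto_const_nhds)
  have hfcg : ∀ k, fc g k = fc F k := by
    intro k
    unfold fc
    refine integral_congr_ae ?_
    filter_upwards [hgF] with x hx
    rw [hx]
  have hfc : ∀ k, Tendsto (fun n => fc (θ n) k) atTop (𝓝 (fc g k)) := by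
    intro k
    rw [hfcg k, tendsto_iff_norm_sub_tendsto_zero]
    have h1 : Tendsto (fun n => ‖(hθm n).toLp (θ n) - F‖) atTop (𝓝 0) :=
      tendsto_iff_norm_sub_tendsto_zero.1 hθF
    refine squeeze_zero (fun n => norm_nonneg _) (fun n => ?_) h1
    refine le_of_sq_le_sq ?_ (norm_nonneg _)
    rw [← fc_sub (hθm n) hFm k]
    refine (fc_sq_le ((hθm n).sub hFm) k).trans (le_of_eq ?_)
    have h2 := nsq_sub (hθm n) hFm
    rw [Lp.toLp_coeFn F hFm] at h2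
    rw [h2]
    rfl
  have hen : tE 𝒱 g + tW w g ≤ sInf S := by
    refine tEW_le g fun s => ?_
    refine lsc_energyW hV hθm hgae hfc (E := fun n => u (φ (ns n))) s (fun n => ?_)
      (hu_lim.comp (hφ.comp hns).tendsto_atTop)
    have h5 : tE 𝒱 (θ n) + tW w (θ n) = u (φ (ns n)) := by
      rw [hθd]; exact hψu _
    rw [← h5]
    exact kinSW_le s (θ n)
  have hinf : sInf S ≤ u 0 := by
    refine sInf_le ?_
    rw [hS]
    exact ⟨ψ 0, hψ 0, hψu 0⟩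
  refine ⟨g, ⟨hgm, hgnorm, ?_, (le_self_add.trans (hen.trans hinf)).trans_lt
    (lt_top_iff_ne_top.2 hu0)⟩, ?_⟩
  · intro x i j hij hr
    rw [hgd]
    exact if_pos ⟨i, j, hij, hr⟩
  · intro φ' hφ'
    refine hen.trans (sInf_le ?_)
    rw [hS]
    exact ⟨φ', hφ', rfl⟩

end

/-- The gap: `∑_i ‖(1 - P_i) ψ‖²` in Fourier coefficients. -/
theorem tW_gap {Λ : ℝ} (hΛ : 0 ≤ Λ) {ψ : (Fin N → T3) → ℂ} (hψ : MemLp ψ 2 (piN (Fin N))) :
    tW (fun k => Λ * ∑ i, (if k i ≠ 0 then 1 else 0)) ψ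
      = ENNReal.ofReal (Λ * ∑ i, nuQ (fun k => fc ψ k) i) := by
  classical
  have hs : Summable fun k : Fin N → Fin 3 → ℤ => ‖fc ψ k‖ ^ 2 := (parseval_sq hψ).summable
  have hi : ∀ i : Fin N, Summable fun k : Fin N → Fin 3 → ℤ =>
      if k i ≠ 0 then ‖fc ψ k‖ ^ 2 else 0 := fun i => ite_summable hs (fun k => sq_nonneg _) _
  have e : (fun k : Fin N → Fin 3 → ℤ => (Λ * ∑ i, (if k i ≠ 0 then (1:ℝ) else 0)) * ‖fc ψ k‖ ^ 2)
      = fun k => Λ * ∑ i, (if k i ≠ 0 then ‖fc ψ k‖ ^ 2 else 0) := by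
    funext k
    rw [mul_assoc, Finset.sum_mul]
    congr 1
    refine Finset.sum_congr rfl fun i _ => ?_
    split_ifs <;> simp
  have h0 : ∀ k : Fin N → Fin 3 → ℤ, 0 ≤ (Λ * ∑ i, (if k i ≠ 0 then (1:ℝ) else 0)) * ‖fc ψ k‖ ^ 2 :=
    fun k => mul_nonneg (mul_nonneg hΛ (Finset.sum_nonneg fun i _ => by split_ifs <;> norm_num))
      (sq_nonneg _)
  have hsum : Summable fun k : Fin N → Fin 3 → ℤ =>
      (Λ * ∑ i, (if k i ≠ 0 then (1:ℝ) else 0)) * ‖fc ψ k‖ ^ 2 := by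
    rw [e]
    exact (summable_sum fun i _ => hi i).mul_left Λ
  unfold tW
  rw [← ENNReal.ofReal_tsum_of_nonneg h0 hsum]
  congr 1
  rw [e, tsum_mul_left, Summable.tsum_finsetSum fun i _ => hi i]
  rfl

/-- The energy with a gap on the torus: `tE 𝒱 ψ + Λ ∑_i ‖(1 - P_i) ψ‖²`. -/
noncomputable def tG (𝒱 : T3 → ℝ≥0∞) (Λ : ℝ) (ψ : (Fin N → T3) → ℂ) : ℝ≥0∞ :=
  tE 𝒱 ψ + ENNReal.ofReal (Λ * ∑ i, nuQ (fc ψ) i)

/-- Existence of a minimiser of the energy with a gap on the torus. -/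
theorem Q07_torus {R₀ Λ : ℝ} {𝒱 : T3 → ℝ≥0∞} (hΛ : 0 ≤ Λ)
    (hV : AEMeasurable (fun x : Fin N → T3 => ∑ i, ∑ j ∈ Finset.Ioi i, 𝒱 (x i - x j))
      (piN (Fin N))) (h : ∃ φ : (Fin N → T3) → ℂ, tAdm R₀ 𝒱 φ) :
    ∃ ψ : (Fin N → T3) → ℂ, tAdm R₀ 𝒱 ψ ∧
      ∀ φ : (Fin N → T3) → ℂ, tAdm R₀ 𝒱 φ → tG 𝒱 Λ ψ ≤ tG 𝒱 Λ φ := by
  classical
  have h0 : ∀ k : Fin N → Fin 3 → ℤ, 0 ≤ Λ * ∑ i, (if k i ≠ 0 then (1:ℝ) else 0) := fun k =>
    mul_nonneg hΛ (Finset.sum_nonneg fun i _ => by split_ifs <;> norm_num)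
  have hB : ∃ B : ℝ, ∀ k : Fin N → Fin 3 → ℤ, Λ * ∑ i, (if k i ≠ 0 then (1:ℝ) else 0) ≤ B := by
    refine ⟨Λ * N, fun k => mul_le_mul_of_nonneg_left ?_ hΛ⟩
    calc ∑ i : Fin N, (if k i ≠ 0 then (1:ℝ) else 0) ≤ ∑ i : Fin N, (1:ℝ) :=
          Finset.sum_le_sum fun i _ => by split_ifs <;> norm_num
      _ = N := by simp
  obtain ⟨ψ, hψ, hmin⟩ := Q07_ground h0 hB hV h
  refine ⟨ψ, hψ, fun φ hφ => ?_⟩
  have h1 := hmin φ hφ
  rw [tW_gap hΛ hψ.1, tW_gap hΛ hφ.1] at h1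
  exact h1

/-- The energy with a gap in physical units. -/
theorem Q07_energy {m R₀ L G : ℝ} {v : (Fin 3 → ℝ) → ℝ} (hN : 1 ≤ N) (hm : 0 < m) (hL : 0 < L)
    (hv : AEMeasurable v volume) (hG : 0 ≤ G) {ψ : (Fin N → Fin 3 → ℝ) → ℂ}
    (h : Admissible m R₀ v N L ψ) :
    energy m v N L ψ + ENNReal.ofReal (G * (N * (1 - condFraction N L ψ)))
      = ENNReal.ofReal (1 / (2 * m * L ^ 2)) * tG (Vp m L v) (2 * m * L ^ 2 * G) (TT N L ψ) := by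
  have hN0 : (N : ℝ) ≠ 0 := by
    have : (1:ℝ) ≤ N := by exact_mod_cast hN
    linarith
  have hc : (0:ℝ) < 2 * m * L ^ 2 := by positivity
  rw [energy_eq hm hL hv h.1.1, condFraction_eq hN hL h]
  unfold tG
  rw [mul_add, ← ENNReal.ofReal_mul (by positivity)]
  congr 2
  field_simp
  ring

/-- Existence of a minimiser of the energy with a gap in the periodic box. -/
theorem Q07_phys {m R₀ L G : ℝ} {v : (Fin 3 → ℝ) → ℝ} (hN : 1 ≤ N) (hm : 0 < m) (hL : 0 < L)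
    (hR : 0 ≤ R₀) (hv : AEMeasurable v volume) (hG : 0 ≤ G) (h : ∃ φ, Admissible m R₀ v N L φ) :
    ∃ ψ, Admissible m R₀ v N L ψ ∧ ∀ φ, Admissible m R₀ v N L φ →
      energy m v N L ψ + ENNReal.ofReal (G * (N * (1 - condFraction N L ψ)))
        ≤ energy m v N L φ + ENNReal.ofReal (G * (N * (1 - condFraction N L φ))) := by
  have hV : AEMeasurable (fun x : Fin N → T3 => ∑ i, ∑ j ∈ Finset.Ioi i, Vp m L v (x i - x j))
      (piN (Fin N)) := by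
    have e : (fun x : Fin N → T3 => ∑ i, ∑ j ∈ Finset.Ioi i, Vp m L v (x i - x j))
        = fun x => ENNReal.ofReal (2 * m * L ^ 2)
          * ∑ i, ∑ j ∈ Finset.Ioi i, vper L v (x i - x j) := by
      funext x
      simp only [Vp, Finset.mul_sum]
    rw [e]
    exact (aem_pair hL hv).const_mul _
  obtain ⟨φ₀, hφ₀⟩ := h
  have hΛ : (0:ℝ) ≤ 2 * m * L ^ 2 * G := by positivity
  obtain ⟨g, hg, hmin⟩ := Q07_torus (R₀ := R₀ / L) hΛ hV ⟨TT N L φ₀, adm_TT hm hL hR hv hφ₀⟩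
  have hB := adm_BB hm hL hR hv hg
  refine ⟨BB N L g, hB, fun φ hφ => ?_⟩
  rw [Q07_energy hN hm hL hv hG hB, TT_BB hL, Q07_energy hN hm hL hv hG hφ]
  exact mul_le_mul_right (hmin _ (adm_TT hm hL hR hv hφ)) _

/-- A minimiser of the energy with a gap in the periodic box is a minimiser on the torus. -/
theorem Q07_min {m R₀ L G : ℝ} {v : (Fin 3 → ℝ) → ℝ} (hN : 1 ≤ N) (hm : 0 < m) (hL : 0 < L)
    (hR : 0 ≤ R₀) (hv : AEMeasurable v volume) (hG : 0 ≤ G) {ψ : (Fin N → Fin 3 → ℝ) → ℂ}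
    (h : Admissible m R₀ v N L ψ) (hmin : ∀ φ, Admissible m R₀ v N L φ →
      energy m v N L ψ + ENNReal.ofReal (G * (N * (1 - condFraction N L ψ)))
        ≤ energy m v N L φ + ENNReal.ofReal (G * (N * (1 - condFraction N L φ)))) :
    tAdm (R₀ / L) (Vp m L v) (TT N L ψ) ∧ ∀ φ : (Fin N → T3) → ℂ, tAdm (R₀ / L) (Vp m L v) φ →
      tG (Vp m L v) (2 * m * L ^ 2 * G) (TT N L ψ) ≤ tG (Vp m L v) (2 * m * L ^ 2 * G) φ := by
  refine ⟨adm_TT hm hL hR hv h, fun φ hφ => ?_⟩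
  have hc : (0:ℝ) < 1 / (2 * m * L ^ 2) := by positivity
  have h1 := hmin _ (adm_BB hm hL hR hv hφ)
  rw [Q07_energy hN hm hL hv hG h, Q07_energy hN hm hL hv hG (adm_BB hm hL hR hv hφ),
    TT_BB hL] at h1
  exact (ENNReal.mul_le_mul_iff_right (by simpa using hc) ENNReal.ofReal_ne_top).1 h1

end Pool.Agent.Lib.MP_4952d6_mp.M
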