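import Pool.Agent.Lib.MP_4952d6_mp.Pq.P15
import Pool.Agent.Lib.MP_4952d6_mp.Pq.Q07

/-!
# Pq.P18: existence of the minimisers of the gapped energy

`tg_statement`: model `tground` (Pm/M14 l.705-820): minimising sequence, compactness in `L²`; `∑ nuQ` is lower semicontinuous under convergence of the
Fourier coefficients (Fatou for series) or continuous under `L²` convergence.
`pex_statement`: model `exists_ground` (Pm/M14 l.827), `gapEnergy m g v N L ψ = (1 / (2 m L²)) (tE (TT ψ) + ofReal (Lam ∑ nuQ))`, `Lam = 2 m L² g`
(`condFraction_eq`, `energy_eq`, `adm_TT`, `adm_BB`, `TT_BB`).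
-/

set_option autoImplicit false
set_option linter.unusedSectionVars false
set_option linter.unusedVariables false
open MeasureTheory Function Filter Topology Set
open scoped ENNReal

namespace Pool.Agent.Lib.MP_4952d6_mp.LG

open LA

theorem tg_statement : TGStatement := by
  intro N R₀ Lam 𝒱 hV hL hφ
  exact M.Q07_torus hL hV hφ

theorem pex_statement : PEXStatement := by
  intro N m R₀ g L v hm hL hR hg hN hv hφ
  exact M.Q07_phys hN hm hL hR hv hg hφ

end Pool.Agent.Lib.MP_4952d6_mp.LG
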