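import Pool.Agent.Lib.MP_4952d6_mp.Pq.P15

/-!
# Pq.P19: small densities and large particle numbers; the assumptions on the interaction
-/

set_option autoImplicit false
set_option linter.unusedSectionVars false
set_option linter.unusedVariables false
open MeasureTheory Function Filter Topology Set
open scoped ENNReal

namespace Pool.Agent.Lib.MP_4952d6_mp.LG

open LA

/-- For all small densities `ρ` and then all large numbers `N` of particles. -/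
def Dilute (P : ℝ → ℕ → Prop) : Prop :=
  ∃ ρ₁ : ℝ, 0 < ρ₁ ∧ ∀ ρ : ℝ, 0 < ρ → ρ < ρ₁ → ∃ N₁ : ℕ, ∀ N : ℕ, N₁ ≤ N → P ρ N

theorem Dilute.mono {P Q : ℝ → ℕ → Prop} (h : Dilute P)
    (hPQ : ∀ ρ N, 0 < ρ → P ρ N → Q ρ N) : Dilute Q := by
  obtain ⟨ρ₁, h1, h2⟩ := h
  refine ⟨ρ₁, h1, fun ρ hρ hlt => ?_⟩
  obtain ⟨N₁, h3⟩ := h2 ρ hρ hlt
  exact ⟨N₁, fun N hN => hPQ ρ N hρ (h3 N hN)⟩

theorem Dilute.and {P Q : ℝ → ℕ → Prop} (h : Dilute P) (h' : Dilute Q) :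
    Dilute fun ρ N => P ρ N ∧ Q ρ N := by
  obtain ⟨ρ₁, h1, h2⟩ := h
  obtain ⟨ρ₂, h3, h4⟩ := h'
  refine ⟨min ρ₁ ρ₂, lt_min h1 h3, fun ρ hρ hlt => ?_⟩
  obtain ⟨N₁, h5⟩ := h2 ρ hρ (hlt.trans_le (min_le_left _ _))
  obtain ⟨N₂, h6⟩ := h4 ρ hρ (hlt.trans_le (min_le_right _ _))
  exact ⟨max N₁ N₂, fun N hN => ⟨h5 N ((le_max_left _ _).trans hN), h6 N ((le_max_right _ _).trans hN)⟩⟩

theorem Dilute.small {c : ℝ} (hc : 0 < c) (M : ℕ) : Dilute fun ρ N => ρ < c ∧ M ≤ N :=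
  ⟨c, hc, fun ρ _ hlt => ⟨M, fun N hN => ⟨hlt, hN⟩⟩⟩

/-- The assumptions on the interaction. -/
structure Phys (m R₀ R : ℝ) (v : (Fin 3 → ℝ) → ℝ) : Prop where
  hm : 0 < m
  hR0 : 0 ≤ R₀
  hR : R₀ < R
  hv : Integrable v
  hv0 : ∀ x, 0 ≤ v x
  hrad : ∀ x y : Fin 3 → ℝ, ∑ α, x α ^ 2 = ∑ α, y α ^ 2 → v x = v y
  hsupp : ∀ x : Fin 3 → ℝ, R ^ 2 ≤ ∑ α, x α ^ 2 → v x = 0
  hgen : 0 < R₀ ∨ 0 < ∫ x, v x

/-- existence and depletion of the gap ground states, one value of the gap -/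
def LawPt (m R₀ a : ℝ) (v : (Fin 3 → ℝ) → ℝ) : Prop :=
  ∀ s ε : ℝ, 0 < s → s < 1 → 0 < ε → Dilute fun ρ N =>
    (∃ ψ, IsGapGround m R₀ (s * (ρ * a / (2 * m))) v N (side ρ N) ψ) ∧
    ∀ ψ, IsGapGround m R₀ (s * (ρ * a / (2 * m))) v N (side ρ N) ψ →
      |1 - condFraction N (side ρ N) ψ - Dg s * Real.sqrt (ρ * a ^ 3)| ≤ ε * Real.sqrt (ρ * a ^ 3)

/-- existence and energy of the gap ground states, one value of the gap -/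
def EnPt (m R₀ a : ℝ) (v : (Fin 3 → ℝ) → ℝ) : Prop :=
  ∀ s ε : ℝ, 0 ≤ s → s ≤ 1 → 0 < ε → Dilute fun ρ N =>
    (∃ ψ, IsGapGround m R₀ (s * (ρ * a / (2 * m))) v N (side ρ N) ψ) ∧
    ∀ ψ, IsGapGround m R₀ (s * (ρ * a / (2 * m))) v N (side ρ N) ψ →
      gapEnergy m (s * (ρ * a / (2 * m))) v N (side ρ N) ψ ≠ ⊤ ∧
      |(gapEnergy m (s * (ρ * a / (2 * m))) v N (side ρ N) ψ).toReal / N
          - 2 * Real.pi * ρ * a / m * (1 + Jf s / (4 * Real.pi) * Real.sqrt (ρ * a ^ 3))|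
        ≤ ε * (2 * Real.pi * ρ * a / m * Real.sqrt (ρ * a ^ 3))

end Pool.Agent.Lib.MP_4952d6_mp.LG
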