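import Pool.Agent.Lib.MP_4952d6_mp.Pk.G25
import Pool.Agent.Lib.MP_4952d6_mp.Pk.G54
import Pool.Agent.Lib.MP_4952d6_mp.Pq.Q03

/-!
# Q03 (a): the depletion functional of the trial state

`V_N / 4 = (1/4N) ∑_{p ≠ 0} x_p² / (1 + x_p)`, `x_p = 2 N û(p) = Xs κ q (l √ksq p)`, and `1/N = q^200 l³`. So `V_N / 4` is `q^200` times a
Riemann sum of `(1/8π²) ∫ r² Xs² / (1 + Xs) dr`, which tends to `Dk κ` as `q → 0`.
-/

set_option autoImplicit false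
set_option linter.unusedSectionVars false
set_option linter.unusedVariables false
open MeasureTheory Function Filter Topology Set
open scoped ENNReal

namespace Pool.Agent.Lib.MP_4952d6_mp

/-- the summand -/
noncomputable def Bs (κ q r : ℝ) : ℝ := Xs κ q r ^ 2 / (1 + Xs κ q r)

/-- the limit `l → 0` at fixed `q` -/
noncomputable def Dkq (κ q : ℝ) : ℝ :=
  1 / (8 * Real.pi ^ 2) * ∫ r in Ioi (0:ℝ), r ^ 2 * Bs κ q r

theorem Q03_small : ∀ᶠ q : ℝ in 𝓝[>] 0, 0 < q ∧ q ≤ 1 / 100 := by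
  have h1 : ∀ᶠ q : ℝ in 𝓝[>] 0, q < 1 / 100 :=
    nhdsWithin_le_nhds (gt_mem_nhds (by norm_num))
  filter_upwards [h1, self_mem_nhdsWithin] with q hq1 hq0
  exact ⟨hq0, hq1.le⟩

theorem Q03_Lh_cont {κ β : ℝ} (hκ : 0 < κ) : Continuous (fun r : ℝ => Lh κ β (r ^ 2)) := by
  unfold Lh
  have hpos : ∀ r φ : ℝ, 0 < r ^ 2 + tauv κ φ := by
    intro r φ
    unfold tauv
    positivity
  have htc : Continuous (fun p : ℝ × ℝ => tauv κ p.2) := by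
    unfold tauv
    fun_prop
  have hsum : Continuous (fun p : ℝ × ℝ => p.1 ^ 2 + tauv κ p.2) :=
    (continuous_fst.pow 2).add htc
  have hc : Continuous (Function.uncurry (fun r φ : ℝ => 4 / Real.pi * Real.sin φ ^ 2
      * (Real.exp (-(β * (r ^ 2 + tauv κ φ))) / (r ^ 2 + tauv κ φ)))) := by
    refine Continuous.mul (by fun_prop) (Continuous.div ?_ hsum (fun p => (hpos p.1 p.2).ne'))
    exact Real.continuous_exp.comp (continuous_const.mul hsum).neg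
  exact intervalIntegral.continuous_parametric_intervalIntegral_of_continuous' hc 0 (Real.pi / 2)

theorem Q03_Lh_cont2 {κ z : ℝ} (hκ : 0 < κ) (hz : 0 ≤ z) : Continuous (fun β : ℝ => Lh κ β z) := by
  unfold Lh
  have hpos : ∀ φ : ℝ, 0 < z + tauv κ φ := by
    intro φ
    unfold tauv
    positivity
  have htc : Continuous (fun p : ℝ × ℝ => tauv κ p.2) := by
    unfold tauv
    fun_prop
  have hsum : Continuous (fun p : ℝ × ℝ => z + tauv κ p.2) := continuous_const.add htc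
  have hc : Continuous (Function.uncurry (fun β φ : ℝ => 4 / Real.pi * Real.sin φ ^ 2
      * (Real.exp (-(β * (z + tauv κ φ))) / (z + tauv κ φ)))) := by
    refine Continuous.mul (by fun_prop) (Continuous.div ?_ hsum (fun p => (hpos p.2).ne'))
    exact Real.continuous_exp.comp (continuous_fst.mul hsum).neg
  exact intervalIntegral.continuous_parametric_intervalIntegral_of_continuous' hc 0 (Real.pi / 2)

theorem Q03_X_nonneg {κ q : ℝ} (hκ : 0 < κ) (hq : 0 < q) (hq1 : q ≤ 1 / 100) (r : ℝ) :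
    0 ≤ Xs κ q r := by
  unfold Xs
  have h1 := one_le_alq hq hq1
  have h2 : 0 ≤ Lh κ (q ^ 242) (r ^ 2) := Lh_nonneg hκ (sq_nonneg r)
  have h3 := Real.pi_pos
  positivity

theorem Q03_X_le {κ q : ℝ} (hκ : 0 < κ) (hq : 0 < q) (hq1 : q ≤ 1 / 100) (r : ℝ) :
    Xs κ q r ≤ 16 * Real.pi * (Real.exp (-(q ^ 242 * r ^ 2)) / (r ^ 2 + κ ^ 2)) := by
  have hpi := Real.pi_pos
  have hα2 := alq_le_two hq hq1
  have hβ : 0 ≤ q ^ 242 := by positivity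
  have hL : Lh κ (q ^ 242) (r ^ 2) ≤ Real.exp (-(q ^ 242 * r ^ 2)) / (r ^ 2 + κ ^ 2) :=
    Lh_le hκ hβ (sq_nonneg r)
  have hL0 : 0 ≤ Lh κ (q ^ 242) (r ^ 2) := Lh_nonneg hκ (sq_nonneg r)
  unfold Xs
  calc 8 * Real.pi * alq q * Lh κ (q ^ 242) (r ^ 2) ≤ 8 * Real.pi * 2 * Lh κ (q ^ 242) (r ^ 2) := by
        gcongr
    _ ≤ 8 * Real.pi * 2 * (Real.exp (-(q ^ 242 * r ^ 2)) / (r ^ 2 + κ ^ 2)) := by gcongr
    _ = _ := by ring

theorem Q03_X_cont {κ q : ℝ} (hκ : 0 < κ) : Continuous (Xs κ q) := by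
  unfold Xs
  exact continuous_const.mul (Q03_Lh_cont hκ)

theorem Bs_cont {κ q : ℝ} (hκ : 0 < κ) (hq : 0 < q) (hq1 : q ≤ 1 / 100) : Continuous (Bs κ q) := by
  have hX := Q03_X_cont (q := q) hκ
  have h1 : ∀ r, 1 + Xs κ q r ≠ 0 := fun r => by
    have := Q03_X_nonneg hκ hq hq1 r
    positivity
  unfold Bs
  exact (hX.pow 2).div (continuous_const.add hX) h1

theorem Bs_nonneg {κ q : ℝ} (hκ : 0 < κ) (hq : 0 < q) (hq1 : q ≤ 1 / 100) (r : ℝ) :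
    0 ≤ Bs κ q r := by
  have := Q03_X_nonneg hκ hq hq1 r
  unfold Bs
  positivity

theorem Bs_le {κ q : ℝ} (hκ : 0 < κ) (hq : 0 < q) (hq1 : q ≤ 1 / 100) (r : ℝ) :
    Bs κ q r ≤ Xs κ q r := by
  have hX0 := Q03_X_nonneg hκ hq hq1 r
  unfold Bs
  rw [div_le_iff₀ (by linarith)]
  nlinarith

theorem Bs_le_sq {κ q : ℝ} (hκ : 0 < κ) (hq : 0 < q) (hq1 : q ≤ 1 / 100) (r : ℝ) :
    Bs κ q r ≤ Xs κ q r ^ 2 := by
  have hX0 := Q03_X_nonneg hκ hq hq1 r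
  exact div_le_self (sq_nonneg _) (by linarith)

/-- the dominating function -/
theorem Bs_dom {κ q : ℝ} (hκ : 0 < κ) (hq : 0 < q) (hq1 : q ≤ 1 / 100) (r : ℝ) :
    r ^ 2 * Bs κ q r ≤ (16 * Real.pi) ^ 2 * (1 / κ ^ 2 + 1) * (1 + r ^ 2)⁻¹ := by
  have hpi := Real.pi_pos
  have hX0 := Q03_X_nonneg hκ hq hq1 r
  have hz : 0 < r ^ 2 + κ ^ 2 := by positivity
  have hX : Xs κ q r ≤ 16 * Real.pi * (1 / (r ^ 2 + κ ^ 2)) := by
    refine (Q03_X_le hκ hq hq1 r).trans ?_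
    have he1 : Real.exp (-(q ^ 242 * r ^ 2)) ≤ 1 := by
      rw [Real.exp_le_one_iff]
      have : 0 ≤ q ^ 242 * r ^ 2 := by positivity
      linarith
    gcongr
  have h1 : Bs κ q r ≤ (16 * Real.pi * (1 / (r ^ 2 + κ ^ 2))) ^ 2 :=
    (Bs_le_sq hκ hq hq1 r).trans (by gcongr)
  have h2 : r ^ 2 * (16 * Real.pi * (1 / (r ^ 2 + κ ^ 2))) ^ 2
      ≤ (16 * Real.pi) ^ 2 * (1 / (r ^ 2 + κ ^ 2)) := by
    have e : r ^ 2 * (16 * Real.pi * (1 / (r ^ 2 + κ ^ 2))) ^ 2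
        = (16 * Real.pi) ^ 2 * (1 / (r ^ 2 + κ ^ 2)) * (r ^ 2 / (r ^ 2 + κ ^ 2)) := by ring
    rw [e]
    refine mul_le_of_le_one_right (by positivity) ?_
    rw [div_le_one hz]
    have := sq_nonneg κ
    linarith
  have h3 : 1 / (r ^ 2 + κ ^ 2) ≤ (1 / κ ^ 2 + 1) * (1 + r ^ 2)⁻¹ := by
    rw [← div_eq_mul_inv, div_le_div_iff₀ hz (by positivity)]
    have e : (1 / κ ^ 2 + 1) * (r ^ 2 + κ ^ 2) = r ^ 2 / κ ^ 2 + 1 + r ^ 2 + κ ^ 2 := by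
      field_simp
      ring
    rw [e]
    have h4 : 0 ≤ r ^ 2 / κ ^ 2 := by positivity
    have h5 := sq_nonneg κ
    linarith
  calc r ^ 2 * Bs κ q r ≤ r ^ 2 * (16 * Real.pi * (1 / (r ^ 2 + κ ^ 2))) ^ 2 :=
        mul_le_mul_of_nonneg_left h1 (sq_nonneg r)
    _ ≤ (16 * Real.pi) ^ 2 * (1 / (r ^ 2 + κ ^ 2)) := h2
    _ ≤ (16 * Real.pi) ^ 2 * ((1 / κ ^ 2 + 1) * (1 + r ^ 2)⁻¹) :=
        mul_le_mul_of_nonneg_left h3 (by positivity)
    _ = _ := by ring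

/-- decay for the Riemann sum -/
theorem Bs_decay {κ q : ℝ} (hκ : 0 < κ) (hq : 0 < q) (hq1 : q ≤ 1 / 100) :
    ∃ C c : ℝ, 0 < c ∧ ∀ r, 0 ≤ r → |Bs κ q r| ≤ C * Real.exp (-(c * r)) := by
  have hpi := Real.pi_pos
  refine ⟨16 * Real.pi / κ ^ 2 * Real.exp (q ^ 242 / 4), q ^ 242, by positivity, ?_⟩
  intro r hr
  rw [abs_of_nonneg (Bs_nonneg hκ hq hq1 r), mul_assoc, ← Real.exp_add]
  refine (Bs_le hκ hq hq1 r).trans ((Q03_X_le hκ hq hq1 r).trans ?_)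
  have hβ : 0 ≤ q ^ 242 := by positivity
  have h1 : -(q ^ 242 * r ^ 2) ≤ q ^ 242 / 4 + -(q ^ 242 * r) := by
    nlinarith [mul_nonneg hβ (sq_nonneg (r - 1 / 2))]
  have h2 := Real.exp_le_exp.2 h1
  have h3 : Real.exp (-(q ^ 242 * r ^ 2)) / (r ^ 2 + κ ^ 2)
      ≤ Real.exp (q ^ 242 / 4 + -(q ^ 242 * r)) / κ ^ 2 := by
    have h4 : κ ^ 2 ≤ r ^ 2 + κ ^ 2 := by linarith [sq_nonneg r]
    gcongr
  calc 16 * Real.pi * (Real.exp (-(q ^ 242 * r ^ 2)) / (r ^ 2 + κ ^ 2))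
      ≤ 16 * Real.pi * (Real.exp (q ^ 242 / 4 + -(q ^ 242 * r)) / κ ^ 2) := by gcongr
    _ = _ := by ring

theorem Q03_limit_q {κ : ℝ} (hκ : 0 < κ) : Tendsto (fun q : ℝ => Dkq κ q) (𝓝[>] 0) (𝓝 (Dk κ)) := by
  unfold Dkq Dk
  refine Tendsto.const_mul _ ?_
  refine tendsto_integral_filter_of_dominated_convergence
    (fun r => (16 * Real.pi) ^ 2 * (1 / κ ^ 2 + 1) * (1 + r ^ 2)⁻¹) ?_ ?_ ?_ ?_
  · filter_upwards [Q03_small] with q hq
    exact ((continuous_pow 2).mul (Bs_cont hκ hq.1 hq.2)).aestronglyMeasurable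
  · filter_upwards [Q03_small] with q hq
    refine Eventually.of_forall fun r => ?_
    rw [Real.norm_eq_abs, abs_of_nonneg (mul_nonneg (sq_nonneg r) (Bs_nonneg hκ hq.1 hq.2 r))]
    exact Bs_dom hκ hq.1 hq.2 r
  · exact (integrable_inv_one_add_sq.const_mul _).restrict
  · filter_upwards [ae_restrict_mem measurableSet_Ioi] with r hr
    have hr0 : 0 < r := hr
    have hpi := Real.pi_pos
    have hβ : Tendsto (fun q : ℝ => q ^ 242) (𝓝[>] 0) (𝓝 0) := by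
      have h3 : Tendsto (fun q : ℝ => q ^ 242) (𝓝 0) (𝓝 (0 ^ 242)) := (continuous_pow 242).tendsto 0
      rw [zero_pow (by norm_num)] at h3
      exact h3.mono_left nhdsWithin_le_nhds
    have hL : Tendsto (fun q : ℝ => Lh κ (q ^ 242) (r ^ 2)) (𝓝[>] 0) (𝓝 (Lh κ 0 (r ^ 2))) :=
      ((Q03_Lh_cont2 hκ (sq_nonneg r)).tendsto 0).comp hβ
    have hx0 : 8 * Real.pi * 1 * Lh κ 0 (r ^ 2) = xk κ r := by
      rw [Lh_zero hκ (sq_nonneg r)]
      unfold xk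
      field_simp
    have hX : Tendsto (fun q : ℝ => Xs κ q r) (𝓝[>] 0) (𝓝 (xk κ r)) := by
      unfold Xs
      rw [← hx0]
      exact (alq_tendsto.const_mul _).mul hL
    have hxpos : 0 ≤ xk κ r := by
      unfold xk
      have h1 : 1 ≤ Real.sqrt (1 + 16 * Real.pi / (r ^ 2 + κ ^ 2)) := by
        rw [Real.one_le_sqrt]
        have : 0 ≤ 16 * Real.pi / (r ^ 2 + κ ^ 2) := by positivity
        linarith
      linarith
    have hne : 1 + xk κ r ≠ 0 := by positivity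
    have h1X := (tendsto_const_nhds (x := (1:ℝ))).add hX
    exact ((hX.pow 2).div h1X hne).const_mul (r ^ 2)

theorem Q03_ksq_zero : ksq 0 = 0 := by
  simp [ksq, mom2]

theorem Q03_limit_l {κ q : ℝ} (hκ : 0 < κ) (hq : 0 < q) (hq1 : q ≤ 1 / 100) :
    Tendsto (fun l : ℝ => 1 / 4 * (l ^ 3 * tsum0 (fun p => Bs κ q (l * Real.sqrt (ksq p)))))
      (𝓝[>] 0) (𝓝 (Dkq κ q)) := by
  obtain ⟨C, c, hc, hdec⟩ := Bs_decay hκ hq hq1
  obtain ⟨hsum, hlim⟩ := riemann_ksq hc (Bs_cont hκ hq hq1).continuousOn hdec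
  have hpi := Real.pi_pos
  have h1 : ∀ l : ℝ, 0 < l → tsum0 (fun p => Bs κ q (l * Real.sqrt (ksq p)))
      = ∑' p : Fin 3 → ℤ, Bs κ q (l * Real.sqrt (ksq p)) - Bs κ q 0 := by
    intro l hl
    have h2 := (hsum l hl).tsum_eq_add_tsum_ite (0 : Fin 3 → ℤ)
    rw [h2, Q03_ksq_zero, Real.sqrt_zero, mul_zero]
    unfold tsum0
    ring
  have h3 : Tendsto (fun l : ℝ => l ^ 3 * tsum0 (fun p => Bs κ q (l * Real.sqrt (ksq p))))
      (𝓝[>] 0) (𝓝 (1 / (2 * Real.pi ^ 2) * ∫ r in Ioi (0:ℝ), r ^ 2 * Bs κ q r)) := by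
    have h4 : Tendsto (fun l : ℝ => l ^ 3 * Bs κ q 0) (𝓝[>] 0) (𝓝 0) := by
      have h5 : Tendsto (fun l : ℝ => l ^ 3 * Bs κ q 0) (𝓝 0) (𝓝 (0 ^ 3 * Bs κ q 0)) :=
        (((continuous_pow 3).mul continuous_const).tendsto 0)
      have h6 : (0:ℝ) ^ 3 * Bs κ q 0 = 0 := by ring
      rw [h6] at h5
      exact h5.mono_left nhdsWithin_le_nhds
    have h7 := hlim.sub h4
    rw [sub_zero] at h7
    refine h7.congr' ?_
    filter_upwards [self_mem_nhdsWithin] with l hl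
    rw [h1 l hl]
    ring
  have h9 : 1 / 4 * (1 / (2 * Real.pi ^ 2) * ∫ r in Ioi (0:ℝ), r ^ 2 * Bs κ q r) = Dkq κ q := by
    unfold Dkq
    field_simp
    ring
  rw [← h9]
  exact h3.const_mul _

/-- `V_n / 4` for `n ≤ N` in scaled form. -/
theorem Vn_scaled {κ : ℝ} (hκ : 0 < κ) (W f Q : ℝ → ℝ) {q a : ℝ} {N n : ℕ} (hq : 0 < q)
    (hq1 : q ≤ 1 / 100) (ha : 0 < a) (hNa : (N : ℝ) * a ^ 3 = q ^ 400) (hn : n ≤ N) :
    (DPot κ q a f Q W).Vn n / 4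
      ≤ q ^ 200 * (1 / 4 * (lq q a ^ 3 * tsum0 (fun p => Bs κ q (lq q a * Real.sqrt (ksq p))))) := by
  have hpi := Real.pi_pos
  set u : (Fin 3 → ℤ) → ℝ := mixh (omu κ q a) (tq q a) with hu
  set l : ℝ := lq q a with hl
  have hlpos : 0 < l := by rw [hl]; unfold lq; positivity
  have hl2 : l = a / q ^ 200 := rfl
  have hok := omu_ok hκ hq hq1 ha
  have hu0 : ∀ p, 0 ≤ u p := fun p => mixh_nonneg hok p
  have hN3 : (0:ℝ) < N := by
    by_contra hcon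
    have h0 : (N : ℝ) = 0 := le_antisymm (not_lt.1 hcon) (Nat.cast_nonneg N)
    rw [h0, zero_mul] at hNa
    have : 0 < q ^ 400 := by positivity
    linarith only [this, hNa]
  have hNl : (N : ℝ) * a * l ^ 2 = 1 := by
    rw [hl2]
    have : (N : ℝ) * a * (a / q ^ 200) ^ 2 = (N * a ^ 3) / q ^ 400 := by
      field_simp
    rw [this, hNa, div_self (by positivity)]
  have hql : q ^ 200 * l = a := by rw [hl2]; field_simp
  have hau : auq q a = a * alq q := rfl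
  have hX : ∀ p, Xs κ q (l * Real.sqrt (ksq p)) = 2 * N * u p := by
    intro p
    have hk : 0 ≤ ksq p := by
      unfold ksq; exact mul_nonneg (by positivity) (mom2_nonneg p)
    unfold Xs
    rw [mul_pow, Real.sq_sqrt hk]
    simp only [hu]
    rw [uh_formula hκ hq ha p, hau]
    have : (2 * (N : ℝ) * (4 * Real.pi * (a * alq q) * lq q a ^ 2 * Lh κ (q ^ 242) (lq q a ^ 2 * ksq p)))
        = 8 * Real.pi * alq q * Lh κ (q ^ 242) (l ^ 2 * ksq p) * (N * a * l ^ 2) := by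
      rw [hl]; ring
    rw [this, hNl, mul_one]
  have hB : ∀ p, Bs κ q (l * Real.sqrt (ksq p)) = N * (4 * N * u p ^ 2 / (1 + 2 * N * u p)) := by
    intro p
    unfold Bs
    rw [hX]
    ring
  obtain ⟨C, c, hc, hdec⟩ := Bs_decay hκ hq hq1
  obtain ⟨hsum, -⟩ := riemann_ksq hc (Bs_cont hκ hq hq1).continuousOn hdec
  have hsN : Summable (fun p => 4 * (N:ℝ) * u p ^ 2 / (1 + 2 * N * u p)) := by
    refine ((hsum l hlpos).mul_left (1 / (N:ℝ))).congr fun p => ?_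
    rw [hB]
    field_simp
  have hnn : (n : ℝ) ≤ N := by exact_mod_cast hn
  have hn0 : (0:ℝ) ≤ n := Nat.cast_nonneg n
  have hle : ∀ p, 4 * (n:ℝ) * u p ^ 2 / (1 + 2 * n * u p) ≤ 4 * (N:ℝ) * u p ^ 2 / (1 + 2 * N * u p) := by
    intro p
    have h0 := hu0 p
    rw [div_le_div_iff₀ (by positivity) (by positivity)]
    have h1 : 0 ≤ u p ^ 2 := sq_nonneg _
    have h2 : (n:ℝ) * u p ^ 2 ≤ N * u p ^ 2 := mul_le_mul_of_nonneg_right hnn h1
    nlinarith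
  have hterm : ∀ p, 0 ≤ 4 * (n:ℝ) * u p ^ 2 / (1 + 2 * n * u p) := by
    intro p
    have h0 := hu0 p
    positivity
  have sN : sm0 (fun p => 4 * (N:ℝ) * u p ^ 2 / (1 + 2 * N * u p)) := sm0_of_summable hsN
  have sn : sm0 (fun p => 4 * (n:ℝ) * u p ^ 2 / (1 + 2 * n * u p)) := by
    refine sm0_of hsN fun p _ => ?_
    rw [abs_of_nonneg (hterm p)]
    exact hle p
  have h1 : (DPot κ q a f Q W).Vn n ≤ tsum0 (fun p => 4 * (N:ℝ) * u p ^ 2 / (1 + 2 * N * u p)) := by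
    change tsum0 (fun p => 4 * (n:ℝ) * u p ^ 2 / (1 + 2 * n * u p)) ≤ _
    exact tsum0_mono sn sN fun p _ => hle p
  have h2 : tsum0 (fun p => Bs κ q (l * Real.sqrt (ksq p)))
      = N * tsum0 (fun p => 4 * (N:ℝ) * u p ^ 2 / (1 + 2 * N * u p)) := by
    rw [← tsum0_const_mul]
    exact tsum0_congr fun p _ => hB p
  have h3 : q ^ 200 * (l ^ 3 * N) = 1 := by
    calc q ^ 200 * (l ^ 3 * N) = (q ^ 200 * l) * (l ^ 2 * N) := by ring
      _ = N * a * l ^ 2 := by rw [hql]; ring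
      _ = 1 := hNl
  rw [h2]
  set T := tsum0 (fun p => 4 * (N:ℝ) * u p ^ 2 / (1 + 2 * N * u p)) with hT
  have h4 : q ^ 200 * (1 / 4 * (l ^ 3 * (N * T))) = T / 4 := by
    calc q ^ 200 * (1 / 4 * (l ^ 3 * (N * T))) = (q ^ 200 * (l ^ 3 * N)) * (T / 4) := by ring
      _ = T / 4 := by rw [h3, one_mul]
  rw [h4]
  linarith

/-- **Q03 (a)**: the depletion functional of the trial state is at most `q^200 (Dk κ + η)`. -/
theorem Vn_le_Dk {κ η : ℝ} (hκ : 0 < κ) (hη : 0 < η) : ∃ q₁ : ℝ, 0 < q₁ ∧ q₁ ≤ 1 / 100 ∧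
    ∀ q : ℝ, 0 < q → q < q₁ → ∃ l₀ : ℝ, 0 < l₀ ∧
      ∀ (W f Q : ℝ → ℝ) (a : ℝ) (N n : ℕ), 0 < a → lq q a < l₀ → (N : ℝ) * a ^ 3 = q ^ 400 →
        n ≤ N → (DPot κ q a f Q W).Vn n / 4 ≤ q ^ 200 * (Dk κ + η) := by
  have h1 : ∀ᶠ q in 𝓝[>] (0:ℝ), Dkq κ q < Dk κ + η / 2 :=
    (Q03_limit_q hκ).eventually_lt_const (by linarith)
  obtain ⟨r, hr, hsub⟩ := mem_nhdsGT_iff_exists_Ioo_subset.mp h1
  have hr0 : 0 < r := hr
  refine ⟨min r (1 / 100), lt_min hr0 (by norm_num), min_le_right _ _, ?_⟩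
  intro q hq hqq
  have hq1 : q ≤ 1 / 100 := hqq.le.trans (min_le_right _ _)
  have h2 : Dkq κ q < Dk κ + η / 2 := hsub ⟨hq, hqq.trans_le (min_le_left _ _)⟩
  have h3 : ∀ᶠ l in 𝓝[>] (0:ℝ), 1 / 4 * (l ^ 3 * tsum0 (fun p => Bs κ q (l * Real.sqrt (ksq p))))
      < Dkq κ q + η / 2 := (Q03_limit_l hκ hq hq1).eventually_lt_const (by linarith)
  obtain ⟨l₀, hl₀, hsub2⟩ := mem_nhdsGT_iff_exists_Ioo_subset.mp h3
  refine ⟨l₀, hl₀, ?_⟩
  intro W f Q a N n ha hl hNa hn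
  have hlpos : 0 < lq q a := by unfold lq; positivity
  have h4 : 1 / 4 * (lq q a ^ 3 * tsum0 (fun p => Bs κ q (lq q a * Real.sqrt (ksq p))))
      < Dkq κ q + η / 2 := hsub2 ⟨hlpos, hl⟩
  refine (Vn_scaled hκ W f Q hq hq1 ha hNa hn).trans ?_
  refine mul_le_mul_of_nonneg_left ?_ (by positivity)
  linarith

end Pool.Agent.Lib.MP_4952d6_mp
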