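import Pool.Agent.Lib.MP_4952d6_mp.Pk.G55

/-!
# Q04: the sharp upper bound with the explicit trial state

`jst f N` is the normalised Jastrow state. `Q04_upper` is `TData.upper` (Pk/G25) and `Q04_main` is `U_main` (Pk/G55) for this
state, with a fixed parameter `κ`.
-/

set_option autoImplicit false
set_option linter.unusedSectionVars false
set_option linter.unusedVariables false
open MeasureTheory Function Filter Topology Set
open scoped ENNReal

namespace Pool.Agent.Lib.MP_4952d6_mp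

/-- The normalised Jastrow state. -/
noncomputable def jst (f : T3 → ℝ) (N : ℕ) (x : Fin N → T3) : ℂ :=
  (((Real.sqrt (Zg (fun x => f x ^ 2) N))⁻¹ : ℝ) : ℂ) * (jasT f x : ℂ)

theorem Q04_upper {f : T3 → ℝ} {df hf : Fin 3 → T3 → ℝ} (h : TData f df hf) {R₀ : ℝ}
    (hcore : ∀ x, rr x < R₀ → f x = 0) {N : ℕ} (hN : 2 ≤ N) {Wt : T3 → ℝ} (hW : BM Wt)
    (hW0 : ∀ x, 0 ≤ Wt x) (hWe : ∀ x, Wt (-x) = Wt x) {𝒱 𝒱₂ : T3 → ℝ≥0∞}
    (h𝒱₂ : Measurable 𝒱₂) (hle : ∀ᵐ y ∂lam3, 𝒱 y ≤ ENNReal.ofReal (2 * Wt y) + 𝒱₂ y)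
    {ζ : ℝ} (hζ0 : 0 ≤ ζ) (hζ : ∫⁻ y, 𝒱₂ y ∂lam3 ≤ ENNReal.ofReal ζ)
    (hZ : 0 < Zg (fun x => f x ^ 2) N) {Λ : ℝ}
    (hΛ : ∀ z, yy (fun x => f x ^ 2) (N - 2) z ≤ Λ) :
    0 ≤ ∫ z, (effT df hf z + Wt z * f z ^ 2) * yy (fun x => f x ^ 2) (N - 2) z ∂lam3 ∧
    tAdm R₀ 𝒱 (jst f N) ∧ tE 𝒱 (jst f N) ≤ ENNReal.ofReal (N * (N - 1) *
      ((∫ z, (effT df hf z + Wt z * f z ^ 2) * yy (fun x => f x ^ 2) (N - 2) z ∂lam3)
        + Λ * ζ / 2)) := by
  classical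
  set F : T3 → ℝ := fun y => f y ^ 2 with hF
  have hG : GasFn lam3 F := h.gasFn_sq
  have hNr : (2 : ℝ) ≤ N := by exact_mod_cast hN
  set Z : ℝ := Zg F N with hZdef
  set yN : T3 → ℝ := yy F (N - 2) with hyN
  have hyB : BM yN := yy_bm hG _
  have hy0 : ∀ z, 0 ≤ yN z := yy_nonneg hG _
  have hΛ0 : 0 ≤ Λ := (hy0 0).trans (hΛ 0)
  set I : ℝ := ∫ z, (effT df hf z + Wt z * f z ^ 2) * yN z ∂lam3 with hI
  have hpair : ∀ i j : Fin N, i ≠ j → ∀ q : T3 → ℝ, BM q →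
      pairI lam3 F i j q = Z * ∫ z, q z * yN z ∂lam3 := fun i j hij q hq =>
    TJC_pairI hG hN hZ hq i j hij
  have hratio : ∀ i j : Fin N, i ≠ j → ∀ q : T3 → ℝ, BM q → (∀ y, 0 ≤ q y) →
      pairI lam3 F i j q ≤ (∫ y, q y ∂lam3) * (Λ * Z) := by
    intro i j hij q hq hq0
    rw [hpair i j hij q hq]
    have h1 : ∫ z, q z * yN z ∂lam3 ≤ ∫ z, q z * Λ ∂lam3 :=
      integral_mono ((hq.mul hyB).integrable _) ((hq.mul (BM.const Λ)).integrable _)
        fun z => mul_le_mul_of_nonneg_left (hΛ z) (hq0 z)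
    rw [integral_mul_const] at h1
    calc Z * ∫ z, q z * yN z ∂lam3 ≤ Z * ((∫ z, q z ∂lam3) * Λ) :=
          mul_le_mul_of_nonneg_left h1 hZ.le
      _ = _ := by ring
  -- the trial function
  set Ψ : (Fin N → T3) → ℝ := jasT f with hΨ
  have hΨB : BM Ψ := h.jas_bm
  have hΨsq : ∀ x, Ψ x ^ 2 = pairW F Finset.univ x := fun x => TData.jas_sq _ _ _
  have hnorm : ∫ x, ‖(Ψ x : ℂ)‖ ^ 2 ∂(piN (Fin N)) = Z := by
    rw [hZdef]; unfold Zg Wg
    congr 1; ext x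
    rw [Complex.norm_real, Real.norm_eq_abs, sq_abs, hΨsq]
  have hdiff : ∀ {i j : Fin N}, i ≠ j → Measurable (fun x : Fin N → T3 => x i - x j) :=
    fun hij => (mp_diff hij).measurable
  -- kinetic energy
  set K : ℝ := ∑ i : Fin N, ∑ l ∈ Finset.univ.erase i,
    pairI lam3 F i l (effT df hf) with hK
  have hkin : HasSum (fun k : Fin N → Fin 3 → ℤ => 4 * Real.pi ^ 2
      * (∑ i, ∑ α, (k i α : ℝ) ^ 2) * ‖fc (fun x => (Ψ x : ℂ)) k‖ ^ 2) K := by
    have h1 : HasSum (fun k : Fin N → Fin 3 → ℤ => ∑ i, ∑ α, 4 * Real.pi ^ 2 * (k i α : ℝ) ^ 2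
        * ‖fc (fun x => (Ψ x : ℂ)) k‖ ^ 2)
        (∑ i : Fin N, ∑ α, ∫ x, djasT f df i α x ^ 2 ∂(piN (Fin N))) :=
      hasSum_sum fun i _ => hasSum_sum fun α _ => h.jas_kin i α
    have e1 : (fun k : Fin N → Fin 3 → ℤ => 4 * Real.pi ^ 2
        * (∑ i, ∑ α, (k i α : ℝ) ^ 2) * ‖fc (fun x => (Ψ x : ℂ)) k‖ ^ 2)
        = fun k : Fin N → Fin 3 → ℤ => ∑ i, ∑ α, 4 * Real.pi ^ 2 * (k i α : ℝ) ^ 2
        * ‖fc (fun x => (Ψ x : ℂ)) k‖ ^ 2 := by
      ext k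
      simp only [Finset.mul_sum, Finset.sum_mul]
    rw [e1, hK]
    have e2 : ∀ i : Fin N, ∑ l ∈ Finset.univ.erase i, pairI lam3 F i l (effT df hf)
        = ∑ α, ∫ x, djasT f df i α x ^ 2 ∂(piN (Fin N)) := fun i =>
      (h.djas_integral i).symm
    simp_rw [e2]
    exact h1
  have hkinE : ∑' k : Fin N → Fin 3 → ℤ, ENNReal.ofReal (4 * Real.pi ^ 2
      * (∑ i, ∑ α, (k i α : ℝ) ^ 2) * ‖fc (fun x => (Ψ x : ℂ)) k‖ ^ 2) = ENNReal.ofReal K := by
    rw [← hkin.tsum_eq, ENNReal.ofReal_tsum_of_nonneg (fun k => ?_) hkin.summable]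
    have : 0 ≤ ∑ i, ∑ α, (k i α : ℝ) ^ 2 :=
      Finset.sum_nonneg fun i _ => Finset.sum_nonneg fun α _ => sq_nonneg _
    positivity
  -- potential energy of the bounded part
  set P : ℝ := ∑ i : Fin N, ∑ l ∈ Finset.univ.erase i,
    pairI lam3 F i l (fun y => Wt y * F y) with hP
  have hrr : ∀ (x : Fin N → T3) (i j : Fin N), Wt (x i - x j) = Wt (x j - x i) := fun x i j => by
    rw [← hWe, neg_sub]
  have hpotb : ∀ i : Fin N, ∀ l ∈ Finset.univ.erase i,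
      BM (fun x : Fin N → T3 => Wt (x i - x l) * pairW F Finset.univ x) := fun i l hl =>
    (hW.comp (hdiff (Finset.ne_of_mem_erase hl).symm)).mul (pairW_bm hG _)
  have hpot : ∫⁻ x, (∑ i : Fin N, ∑ j ∈ Finset.Ioi i, ENNReal.ofReal (2 * Wt (x i - x j)))
      * ENNReal.ofReal (pairW F Finset.univ x) ∂(piN (Fin N)) = ENNReal.ofReal P := by
    have e1 : ∀ x : Fin N → T3, (∑ i : Fin N, ∑ j ∈ Finset.Ioi i,
        ENNReal.ofReal (2 * Wt (x i - x j))) * ENNReal.ofReal (pairW F Finset.univ x)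
        = ENNReal.ofReal (∑ i : Fin N, ∑ l ∈ Finset.univ.erase i,
          Wt (x i - x l) * pairW F Finset.univ x) := by
      intro x
      simp_rw [← Finset.sum_mul]
      rw [ENNReal.ofReal_mul (Finset.sum_nonneg fun i _ => Finset.sum_nonneg fun j _ =>
        hW0 _), sum_pairs_real (fun i j => Wt (x i - x j)) (fun i j => hrr x i j)]
      congr 1
      rw [ENNReal.ofReal_sum_of_nonneg (fun i _ => Finset.sum_nonneg fun j _ =>
        mul_nonneg zero_le_two (hW0 _))]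
      refine Finset.sum_congr rfl fun i _ => ?_
      rw [ENNReal.ofReal_sum_of_nonneg (fun j _ => mul_nonneg zero_le_two (hW0 _))]
    simp_rw [e1]
    rw [← ofReal_integral_eq_lintegral_ofReal
      ((BM.finset_sum _ fun i _ => BM.finset_sum _ (hpotb i)).integrable _)
      (Eventually.of_forall fun x => Finset.sum_nonneg fun i _ => Finset.sum_nonneg fun l _ =>
        mul_nonneg (hW0 _) (pairW_nonneg hG _ _))]
    congr 1
    rw [integral_finsetSum _ (fun i _ => (BM.finset_sum _ (hpotb i)).integrable _), hP]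
    refine Finset.sum_congr rfl fun i _ => ?_
    rw [integral_finsetSum _ (fun l hl => (hpotb i l hl).integrable _)]
    refine Finset.sum_congr rfl fun l hl => ?_
    rw [← pair_pot hG (Finset.ne_of_mem_erase hl).symm (fun y => Wt y)]
  -- potential energy of the remainder
  have hpairs : (∑ i : Fin N, ∑ j ∈ Finset.Ioi i, (1 : ℝ≥0∞)) = ENNReal.ofReal (N * (N - 1) / 2) := by
    have h1 : (∑ i : Fin N, ∑ j ∈ Finset.univ.erase i, (1 : ℝ))
        = ∑ i : Fin N, ∑ j ∈ Finset.Ioi i, 2 * (1:ℝ) := sum_pairs_real _ (fun _ _ => rfl)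
    have h2 : (∑ i : Fin N, ∑ j ∈ Finset.univ.erase i, (1 : ℝ)) = N * (N - 1) := by
      rw [TJC_const hN, mul_one]
    have h3 : (∑ i : Fin N, ∑ j ∈ Finset.Ioi i, (1 : ℝ)) = N * (N - 1) / 2 := by
      rw [← h2, h1]
      simp_rw [← Finset.mul_sum]
      ring
    rw [← h3, ENNReal.ofReal_sum_of_nonneg (fun i _ => Finset.sum_nonneg fun j _ => zero_le_one)]
    refine Finset.sum_congr rfl fun i _ => ?_
    rw [ENNReal.ofReal_sum_of_nonneg (fun j _ => zero_le_one)]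
    simp
  have hrem : ∫⁻ x, (∑ i : Fin N, ∑ j ∈ Finset.Ioi i, 𝒱₂ (x i - x j))
      * ENNReal.ofReal (pairW F Finset.univ x) ∂(piN (Fin N))
      ≤ ENNReal.ofReal (N * (N - 1) / 2) * (ENNReal.ofReal (Λ * Z) * ENNReal.ofReal ζ) := by
    have mP : Measurable (fun x : Fin N → T3 => ENNReal.ofReal (pairW F Finset.univ x)) :=
      (pairW_bm hG _).measurable.ennreal_ofReal
    have mV : ∀ i : Fin N, ∀ j ∈ Finset.Ioi i, Measurable (fun x : Fin N → T3 =>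
        𝒱₂ (x i - x j) * ENNReal.ofReal (pairW F Finset.univ x)) := fun i j hj =>
      (h𝒱₂.comp (hdiff (Finset.mem_Ioi.1 hj).ne)).mul mP
    simp_rw [Finset.sum_mul]
    rw [lintegral_finsetSum _ (fun i _ => Finset.measurable_fun_sum _ (mV i)), ← hpairs,
      Finset.sum_mul]
    refine Finset.sum_le_sum fun i _ => ?_
    rw [lintegral_finsetSum' _ (fun j hj => (mV i j hj).aemeasurable), Finset.sum_mul]
    refine Finset.sum_le_sum fun j hj => ?_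
    rw [one_mul]
    have hij : i ≠ j := (Finset.mem_Ioi.1 hj).ne
    refine (pair_pot_ennreal hG hij (mul_nonneg hΛ0 hZ.le) (hratio i j hij) h𝒱₂).trans ?_
    exact mul_le_mul_right hζ _
  -- total
  have hKP : K + P = N * (N - 1) * (Z * I) := by
    have h1 : ∀ i : Fin N, ∀ l ∈ Finset.univ.erase i,
        pairI lam3 F i l (effT df hf)
          + pairI lam3 F i l (fun y => Wt y * F y) = Z * I := by
      intro i l hl
      have hil : i ≠ l := (Finset.ne_of_mem_erase hl).symm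
      rw [← pairI_add hG i l h.eff_bm (hW.mul hG.bm)]
      exact hpair i l hil _ (h.eff_bm.add (hW.mul hG.bm))
    rw [hK, hP, ← Finset.sum_add_distrib]
    simp_rw [← Finset.sum_add_distrib]
    rw [← TJC_const hN]
    exact Finset.sum_congr rfl fun i _ => Finset.sum_congr rfl fun l hl => h1 i l hl
  have hK0 : 0 ≤ K := hkin.nonneg fun k => by
    have : 0 ≤ ∑ i, ∑ α, (k i α : ℝ) ^ 2 :=
      Finset.sum_nonneg fun i _ => Finset.sum_nonneg fun α _ => sq_nonneg _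
    positivity
  have hP0 : 0 ≤ P := by
    refine Finset.sum_nonneg fun i _ => Finset.sum_nonneg fun l _ => ?_
    unfold pairI
    exact integral_nonneg fun x => mul_nonneg (mul_nonneg (mul_nonneg (hW0 _) (hG.nonneg _))
        (mul_nonneg (oneB_nonneg hG _ _ _) (oneB_nonneg hG _ _ _))) (pairW_nonneg hG _ _)
  have hN2 : (0:ℝ) < N * (N - 1) := mul_pos (by linarith) (by linarith)
  have hI0 : 0 ≤ I := by
    have h1 : 0 ≤ N * (N - 1) * (Z * I) := by rw [← hKP]; exact add_nonneg hK0 hP0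
    have h2 : 0 ≤ Z * I := nonneg_of_mul_nonneg_right h1 hN2
    exact nonneg_of_mul_nonneg_right h2 hZ
  have hTot : tE 𝒱 (fun x => (Ψ x : ℂ))
      ≤ ENNReal.ofReal (N * (N - 1) * (I + Λ * ζ / 2) * Z) := by
    unfold tE
    rw [hkinE]
    have e1 : ∀ x : Fin N → T3, ‖(Ψ x : ℂ)‖ₑ ^ 2 = ENNReal.ofReal (pairW F Finset.univ x) := by
      intro x
      rw [← hΨsq, ← ofReal_norm, Complex.norm_real, Real.norm_eq_abs,
        ← ENNReal.ofReal_pow (abs_nonneg _), sq_abs]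
    simp_rw [e1]
    have h2 : ∫⁻ x, (∑ i : Fin N, ∑ j ∈ Finset.Ioi i, 𝒱 (x i - x j))
        * ENNReal.ofReal (pairW F Finset.univ x) ∂(piN (Fin N))
        ≤ ENNReal.ofReal P
          + ENNReal.ofReal (N * (N - 1) / 2) * (ENNReal.ofReal (Λ * Z) * ENNReal.ofReal ζ) := by
      refine le_trans ?_ (add_le_add hpot.le hrem)
      have mP : Measurable (fun x : Fin N → T3 => ENNReal.ofReal (pairW F Finset.univ x)) :=
        (pairW_bm hG _).measurable.ennreal_ofReal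
      rw [← lintegral_add_left]
      · have hae : ∀ᵐ x ∂(piN (Fin N)), ∀ i : Fin N, ∀ j ∈ Finset.Ioi i,
            𝒱 (x i - x j) ≤ ENNReal.ofReal (2 * Wt (x i - x j)) + 𝒱₂ (x i - x j) := by
          rw [ae_all_iff]
          intro i
          rw [ae_all_iff]
          intro j
          by_cases hj : j ∈ Finset.Ioi i
          · have hij : i ≠ j := (Finset.mem_Ioi.1 hj).ne
            filter_upwards [(mp_diff hij).quasiMeasurePreserving.ae hle] with x hx _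
            exact hx
          · exact Eventually.of_forall fun x hx => absurd hx hj
        refine lintegral_mono_ae ?_
        filter_upwards [hae] with x hx
        rw [← add_mul, ← Finset.sum_add_distrib]
        simp_rw [← Finset.sum_add_distrib]
        exact mul_le_mul_left (Finset.sum_le_sum fun i _ => Finset.sum_le_sum fun j hj =>
          hx i j hj) _
      · refine Measurable.mul ?_ mP
        refine Finset.measurable_fun_sum _ fun i _ => Finset.measurable_fun_sum _ fun j hj => ?_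
        exact ((hW.comp (hdiff (Finset.mem_Ioi.1 hj).ne)).const_mul 2).measurable.ennreal_ofReal
    refine (add_le_add le_rfl h2).trans ?_
    have hN1 : (0:ℝ) ≤ N * (N - 1) / 2 := by positivity
    rw [← ENNReal.ofReal_mul (mul_nonneg hΛ0 hZ.le), ← ENNReal.ofReal_mul hN1,
      ← ENNReal.ofReal_add hP0 (mul_nonneg hN1 (mul_nonneg (mul_nonneg hΛ0 hZ.le) hζ0)),
      ← ENNReal.ofReal_add hK0 (add_nonneg hP0
        (mul_nonneg hN1 (mul_nonneg (mul_nonneg hΛ0 hZ.le) hζ0)))]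
    refine ENNReal.ofReal_le_ofReal ?_
    have : (N * (N - 1) * (I + Λ * ζ / 2) * Z : ℝ)
        = N * (N - 1) * (Z * I) + N * (N - 1) / 2 * (Λ * Z * ζ) := by ring
    rw [this, ← hKP]
    linarith
  set s : ℝ := (Real.sqrt Z)⁻¹ with hs
  have hs0 : 0 ≤ s := inv_nonneg.2 (Real.sqrt_nonneg _)
  have hs2 : s ^ 2 = Z⁻¹ := by rw [hs, inv_pow, Real.sq_sqrt hZ.le]
  have hfinal : tE 𝒱 (fun x => (s : ℂ) * (Ψ x : ℂ)) ≤ ENNReal.ofReal
      (N * (N - 1) * (I + Λ * ζ / 2)) := by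
    rw [tE_smul 𝒱 _ s hs0, hs2]
    refine (mul_le_mul_right hTot _).trans (le_of_eq ?_)
    rw [← ENNReal.ofReal_mul (inv_nonneg.2 hZ.le)]
    congr 1
    field_simp
  have hjst : jst f N = fun x => (s : ℂ) * (Ψ x : ℂ) := rfl
  rw [hjst]
  refine ⟨hI0, ⟨?_, ?_, ?_, hfinal.trans_lt ENNReal.ofReal_lt_top⟩, hfinal⟩
  · exact (JData.memLp_of_bm (μ := piN (Fin N)) hΨB).const_mul _
  · have : ∀ x : Fin N → T3, ‖(s : ℂ) * (Ψ x : ℂ)‖ ^ 2 = s ^ 2 * ‖(Ψ x : ℂ)‖ ^ 2 := fun x => by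
      rw [norm_mul, mul_pow, Complex.norm_real, Real.norm_eq_abs, sq_abs]
    simp_rw [this]
    rw [integral_const_mul, hnorm, hs2, inv_mul_cancel₀ hZ.ne']
  · intro x i j hij hr
    have h1 : Ψ x ^ 2 = 0 := by
      rw [hΨsq, pairW_univ hG hij]
      have : F (x i - x j) = 0 := by
        rw [hF]
        dsimp only
        rw [hcore _ hr]
        simp
      rw [this]; ring
    have h2 : Ψ x = 0 := pow_eq_zero_iff (two_ne_zero) |>.1 h1
    simp [h2]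

theorem Q04_main {θ η κ : ℝ} (hθ : 1 ≤ θ) (hη : 0 < η) (hκ : 0 < κ) (hκ1 : κ ≤ 1) :
    ∃ q₁ : ℝ, 0 < q₁ ∧ ∀ q : ℝ, 0 < q → q < q₁ →
    ∃ a₀ : ℝ, 0 < a₀ ∧ ∀ (N : ℕ) (W f Q : ℝ → ℝ) (R₀ R a : ℝ), Scat W R₀ R a f Q → a < a₀ →
      (N : ℝ) * a ^ 3 = q ^ 400 → R ≤ θ * a →
      Reg W R₀ R a f Q θ q ∧ 2 ≤ N ∧ 0 < Zg (fun x => ftot κ q a f x ^ 2) N ∧
      ∀ 𝒱 𝒱₂ : T3 → ℝ≥0∞, Measurable 𝒱₂ →
      (∀ᵐ y ∂lam3, 𝒱 y ≤ ENNReal.ofReal (2 * W (rr y)) + 𝒱₂ y) →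
      ∀ ζ : ℝ, 0 ≤ ζ → ∫⁻ y, 𝒱₂ y ∂lam3 ≤ ENNReal.ofReal ζ →
      tAdm R₀ 𝒱 (jst (ftot κ q a f) N) ∧
        tE 𝒱 (jst (ftot κ q a f) N)
          ≤ ENNReal.ofReal (4 * Real.pi * N ^ 2 * a + N ^ 2 * a * q ^ 200 * (Phk κ + η)
            + N ^ 2 * ζ) := by
  obtain ⟨Cu, hCu0, hul⟩ := ul_local hκ hκ1
  obtain ⟨CG, hCG1, hGD⟩ := DPot_GD hκ hκ1
  obtain ⟨Cs, hCs0, hsc⟩ := scaled_energy hκ hκ1 (max Cu CG)
  obtain ⟨Ce, q₀, hCe0, hq₀, hbr⟩ := energy_bracket hκ hκ1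
  obtain ⟨ql, hql, hlq⟩ := U8E_ev hη (limit_q hκ)
  have hD : 0 < 4 * (Ce / 2 + Cs + 1) := by positivity
  obtain ⟨q₁, hq₁⟩ : ∃ q₁ : ℝ, q₁ = min (min q₀ ql) (min (1 / 100) (min (1 / θ)
      (η / (4 * (Ce / 2 + Cs + 1))))) := ⟨_, rfl⟩
  have hq₁0 : 0 < q₁ := by
    rw [hq₁]
    exact lt_min (lt_min hq₀ hql) (lt_min (by norm_num) (lt_min (by positivity) (by positivity)))
  have b1 : q₁ ≤ q₀ := by
    rw [hq₁]
    exact (min_le_left _ _).trans (min_le_left _ _)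
  have b2 : q₁ ≤ ql := by
    rw [hq₁]
    exact (min_le_left _ _).trans (min_le_right _ _)
  have b3 : q₁ ≤ 1 / 100 := by
    rw [hq₁]
    exact (min_le_right _ _).trans (min_le_left _ _)
  have b4 : q₁ ≤ 1 / θ := by
    rw [hq₁]
    exact ((min_le_right _ _).trans (min_le_right _ _)).trans (min_le_left _ _)
  have b5 : q₁ ≤ η / (4 * (Ce / 2 + Cs + 1)) := by
    rw [hq₁]
    exact ((min_le_right _ _).trans (min_le_right _ _)).trans (min_le_right _ _)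
  refine ⟨q₁, hq₁0, fun q hq0 hqq => ?_⟩
  have hq100 : q ≤ 1 / 100 := hqq.le.trans b3
  have hq1 : q ≤ 1 := by linarith
  have hθq : θ * q ≤ 1 := by
    have h1 : q ≤ 1 / θ := hqq.le.trans b4
    rw [le_div_iff₀ (by linarith)] at h1
    linarith
  have hη6 : (Ce / 2 + Cs) * q ^ 2 ≤ η / 4 := by
    have h1 : q ≤ η / (4 * (Ce / 2 + Cs + 1)) := hqq.le.trans b5
    rw [le_div_iff₀ hD] at h1
    have h2 : q ^ 2 ≤ q := by nlinarith
    have h3 : (Ce / 2 + Cs) * q ^ 2 ≤ (Ce / 2 + Cs) * q :=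
      mul_le_mul_of_nonneg_left h2 (by positivity)
    nlinarith
  obtain ⟨l₀, hl₀, hll⟩ := U8E_ev hη (limit_l hκ hq0 hq100)
  refine ⟨min (q ^ 1000) (l₀ * q ^ 200), lt_min (by positivity) (by positivity), ?_⟩
  intro N W f Q R₀ R a hS ha hNq hR
  have ha0 : 0 < a := hS.a_pos
  have haq : a ≤ q ^ 1000 := ha.le.trans (min_le_left _ _)
  have hal : a < l₀ * q ^ 200 := ha.trans_le (min_le_right _ _)
  have hReg : Reg W R₀ R a f Q θ q := ⟨hS, hR, hθ, hθq, hq0, hq100, haq⟩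
  have hG := hGD W f Q R₀ R a θ q N hReg hNq
  have hN4 : (4 : ℝ) ≤ N := by
    have h1 := hG.Nq
    have h2 : q ^ 400 ≤ 1 := pow_le_one₀ hq0.le hq1
    have h3 : (N : ℝ) * q ^ 400 ≤ N * 1 := mul_le_mul_of_nonneg_left h2 (Nat.cast_nonneg N)
    linarith
  have hN2 : 2 ≤ N := by
    have h1 : 4 ≤ N := by exact_mod_cast hN4
    omega
  obtain ⟨hyy, hZ, hI⟩ := hbr W f Q R₀ R a θ q N hReg (hqq.le.trans b1) hNq
  have hc0 : |c0q κ q a| ≤ max Cu CG * q ^ 200 :=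
    ((hul q a hq0 hq100 ha0 haq).1).trans
      (mul_le_mul_of_nonneg_right (le_max_left _ _) (by positivity))
  have huh : (N : ℝ) * ∑' p, mixh (omu κ q a) (tq q a) p ^ 2 ≤ max Cu CG * q ^ 200 := by
    have h1 : (N : ℝ) * ∑' p, mixh (omu κ q a) (tq q a) p ^ 2 ≤ CG * q ^ 200 := hG.uh_sq
    exact h1.trans (mul_le_mul_of_nonneg_right (le_max_right _ _) (by positivity))
  obtain ⟨-, hse⟩ := hsc W f Q q a N hq0 hq100 ha0 haq hNq hc0 huh
  have hl : 0 < lq q a := by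
    unfold lq
    positivity
  have hl1 : lq q a < l₀ := by
    unfold lq
    rw [div_lt_iff₀ (by positivity)]
    exact hal
  have hX := hll (lq q a) hl hl1
  have hWb : BM (fun x : T3 => W (rr x)) := by
    obtain ⟨M, hM0, hM⟩ := hS.exists_M
    exact ⟨hS.W_meas.comp rr_measurable, M, fun x => by
      rw [abs_of_nonneg (hS.W_nonneg _)]
      exact hM _⟩
  refine ⟨hReg, hN2, hZ, fun 𝒱 𝒱₂ h𝒱₂ hle ζ hζ0 hζ => ?_⟩
  obtain ⟨hI0, hadm, hE⟩ := Q04_upper (hReg.tdata hκ) (R₀ := R₀) (fun x hx => hReg.ftot_core x hx)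
    hN2 hWb (fun x => hS.W_nonneg _) (fun x => by rw [rr_neg]) h𝒱₂ hle hζ0 hζ hZ hyy
  refine ⟨hadm, hE.trans (ENNReal.ofReal_le_ofReal ?_)⟩
  have h2I : ∫ z, 2 * (effT (dftot κ q a f Q) (hftot κ q a f Q W) z
        + W (rr z) * ftot κ q a f z ^ 2)
        * yy (fun x => ftot κ q a f x ^ 2) (N - 2) z ∂lam3
      = 2 * ∫ z, (effT (dftot κ q a f Q) (hftot κ q a f Q W) z
        + W (rr z) * ftot κ q a f z ^ 2)
        * yy (fun x => ftot κ q a f x ^ 2) (N - 2) z ∂lam3 := by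
    rw [← integral_const_mul]
    refine integral_congr_ae (Eventually.of_forall fun z => ?_)
    dsimp only
    ring
  rw [h2I] at hI
  have hI2 : 2 * (∫ z, (effT (dftot κ q a f Q) (hftot κ q a f Q W) z
        + W (rr z) * ftot κ q a f z ^ 2)
        * yy (fun x => ftot κ q a f x ^ 2) (N - 2) z ∂lam3)
      ≤ 8 * Real.pi * a + (4 * Real.pi * a * (-(2 * c0q κ q a) + (DPot κ q a f Q W).Vn N)
        - 1 / N * tsum0 (fun p => wlh κ q a p * (1 - (DPot κ q a f Q W).Ss 1 N p)))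
        + Ce * a * q ^ 202 := by
    refine hI.trans (le_of_eq ?_)
    ring
  exact U8E_arith (by linarith) ha0 hq0 hq1 hζ0 hI0 hCe0 hCs0 hI2 hse hX
    (hlq q hq0 (hqq.trans_le b2)) (by linarith) hη6

end Pool.Agent.Lib.MP_4952d6_mp
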