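import Pool.Agent.Lib.MP_4952d6_mp.Pq.Q02
import Pool.Agent.Lib.MP_4952d6_mp.Pq.Q03L
import Pool.Agent.Lib.MP_4952d6_mp.Pq.Q04
import Pool.Agent.Lib.MP_4952d6_mp.Pq.Q07

set_option autoImplicit false
set_option linter.unusedVariables false
set_option linter.unusedSectionVars false

open MeasureTheory Function Filter Topology Set
open scoped ENNReal

/-!
# Q04b: the state of the upper bound, energy and depletion together

One state `jst (ftot κ q a f) N` with `tE ≤ 4π N² a + N² a q^200 (Phk κ + η) + N² ζ` and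
`nuQ ≤ q^200 (Dk κ + η)` for every particle.
-/

namespace Pool.Agent.Lib.MP_4952d6_mp

theorem Q04_state {θ η κ : ℝ} (hθ : 1 ≤ θ) (hη : 0 < η) (hκ : 0 < κ) (hκ1 : κ ≤ 1) :
    ∃ q₁ : ℝ, 0 < q₁ ∧ ∀ q : ℝ, 0 < q → q < q₁ →
    ∃ a₀ : ℝ, 0 < a₀ ∧ ∀ (N : ℕ) (W f Q : ℝ → ℝ) (R₀ R a : ℝ), Scat W R₀ R a f Q → a < a₀ →
      (N : ℝ) * a ^ 3 = q ^ 400 → R ≤ θ * a →
      Reg W R₀ R a f Q θ q ∧ 2 ≤ N ∧ 0 < Zg (fun x => ftot κ q a f x ^ 2) N ∧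
      (∀ i, nuQ (fc (jst (ftot κ q a f) N)) i ≤ q ^ 200 * (Dk κ + η)) ∧
      ∀ 𝒱 𝒱₂ : T3 → ℝ≥0∞, Measurable 𝒱₂ →
      (∀ᵐ y ∂lam3, 𝒱 y ≤ ENNReal.ofReal (2 * W (rr y)) + 𝒱₂ y) →
      ∀ ζ : ℝ, 0 ≤ ζ → ∫⁻ y, 𝒱₂ y ∂lam3 ≤ ENNReal.ofReal ζ →
      tAdm R₀ 𝒱 (jst (ftot κ q a f) N) ∧
        tE 𝒱 (jst (ftot κ q a f) N)
          ≤ ENNReal.ofReal (4 * Real.pi * N ^ 2 * a + N ^ 2 * a * q ^ 200 * (Phk κ + η)
            + N ^ 2 * ζ) := by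
  obtain ⟨q1, hq1, h1⟩ := Q04_main hθ hη hκ hκ1
  obtain ⟨q2, hq2, hq2', h2⟩ := Vn_le_Dk hκ (half_pos hη)
  obtain ⟨CG, hCG1, hGD⟩ := DPot_GD hκ hκ1
  obtain ⟨K, q3, hCK, hq3, h3⟩ := gasOK hCG1
  have hK1 : 1 ≤ K := hCG1.trans hCK
  have hE0 : 0 < Real.exp (2 * K) := Real.exp_pos _
  obtain ⟨M, hM⟩ : ∃ M, M = 1500000 * Real.exp (2 * K) * K ^ 9 := ⟨_, rfl⟩
  have hM0 : 0 ≤ M := by rw [hM]; positivity
  refine ⟨min (min q1 q2) (min q3 (min (1 / Real.exp (2 * K)) (η / (2 * (M + 1))))),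
    lt_min (lt_min hq1 hq2) (lt_min hq3 (lt_min (by positivity) (by positivity))), ?_⟩
  intro q hq hqq
  have g1 : q < q1 := hqq.trans_le ((min_le_left _ _).trans (min_le_left _ _))
  have g2 : q < q2 := hqq.trans_le ((min_le_left _ _).trans (min_le_right _ _))
  have g3 : q ≤ q3 := hqq.le.trans ((min_le_right _ _).trans (min_le_left _ _))
  have g4 : q ≤ 1 / Real.exp (2 * K) := hqq.le.trans
    (((min_le_right _ _).trans (min_le_right _ _)).trans (min_le_left _ _))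
  have g5 : q ≤ η / (2 * (M + 1)) := hqq.le.trans
    (((min_le_right _ _).trans (min_le_right _ _)).trans (min_le_right _ _))
  have hq100 : q ≤ 1 / 100 := g2.le.trans hq2'
  have hqle : q ≤ 1 := by linarith
  rw [le_div_iff₀ hE0] at g4
  rw [le_div_iff₀ (by positivity)] at g5
  obtain ⟨a1, ha1, h1'⟩ := h1 q hq g1
  obtain ⟨l2, hl2, h2'⟩ := h2 q hq g2
  refine ⟨min a1 (l2 * q ^ 200), lt_min ha1 (by positivity), ?_⟩
  intro N W f Q R₀ R a hS ha hNq hR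
  have ha0 : 0 < a := hS.a_pos
  obtain ⟨hReg, hN2, hZ, hst⟩ := h1' N W f Q R₀ R a hS (ha.trans_le (min_le_left _ _)) hNq hR
  refine ⟨hReg, hN2, hZ, fun i => ?_, hst⟩
  have hG := hGD W f Q R₀ R a θ q N hReg hNq
  have hgas := h3 q a N _ hG g3
  have hK20 : Real.exp (2 * K) * q ^ 20 ≤ 1 := by
    have e1 : q ^ 20 ≤ q := by
      calc q ^ 20 ≤ q ^ 1 := pow_le_pow_of_le_one hq.le hqle (by norm_num)
        _ = q := pow_one q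
    have e2 : Real.exp (2 * K) * q ^ 20 ≤ Real.exp (2 * K) * q :=
      mul_le_mul_of_nonneg_left e1 hE0.le
    linarith
  have hdep := Q02_dep hgas hK20 hN2 (hReg.tdata hκ).gasFn (fun x => by rw [DPot_F]) i
  have hV := h2' W f Q a N N ha0 (by
    unfold lq
    rw [div_lt_iff₀ (by positivity)]
    exact ha.trans_le (min_le_right _ _)) hNq le_rfl
  have hlast : M * q ^ 209 ≤ q ^ 200 * (η / 2) := by
    have e1 : q ^ 9 ≤ q := by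
      calc q ^ 9 ≤ q ^ 1 := pow_le_pow_of_le_one hq.le hqle (by norm_num)
        _ = q := pow_one q
    have e2 : M * q ^ 9 ≤ η / 2 := by
      have e3 : M * q ^ 9 ≤ M * q := mul_le_mul_of_nonneg_left e1 hM0
      nlinarith
    calc M * q ^ 209 = q ^ 200 * (M * q ^ 9) := by ring
      _ ≤ q ^ 200 * (η / 2) := mul_le_mul_of_nonneg_left e2 (by positivity)
  rw [← hM] at hdep
  refine (le_of_eq ?_).trans (hdep.trans ?_)
  · rfl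
  · have e : q ^ 200 * (Dk κ + η) = q ^ 200 * (Dk κ + η / 2) + q ^ 200 * (η / 2) := by ring
    rw [e]
    exact add_le_add hV hlast

/-- **Upper bound for the gas with a gap** `s ∈ (0, 1]` (gap parameter `s N a` on the unit torus):
one state with the optimal energy and the depletion `≤ Y (Dg s + η)`, `Y = √(N a³)`. -/
theorem Q04_U {θ η s : ℝ} (hθ : 1 ≤ θ) (hη : 0 < η) (hs : 0 < s) (hs1 : s ≤ 1) :
    ∃ Y₀ : ℝ, 0 < Y₀ ∧ ∀ Y : ℝ, 0 < Y → Y < Y₀ →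
    ∃ a₀ : ℝ, 0 < a₀ ∧ ∀ (N : ℕ) (W f Q : ℝ → ℝ) (R₀ R a : ℝ), Scat W R₀ R a f Q → a < a₀ →
      (N : ℝ) * a ^ 3 = Y ^ 2 → R ≤ θ * a →
      ∀ 𝒱 𝒱₂ : T3 → ℝ≥0∞, Measurable 𝒱₂ →
      (∀ᵐ y ∂lam3, 𝒱 y ≤ ENNReal.ofReal (2 * W (rr y)) + 𝒱₂ y) →
      ∀ ζ : ℝ, 0 ≤ ζ → ∫⁻ y, 𝒱₂ y ∂lam3 ≤ ENNReal.ofReal ζ →
      ∃ ψ : (Fin N → T3) → ℂ, tAdm R₀ 𝒱 ψ ∧ (∀ i, nuQ (fc ψ) i ≤ Y * (Dg s + η)) ∧
        M.tG 𝒱 (s * N * a) ψ
          ≤ ENNReal.ofReal (4 * Real.pi * N ^ 2 * a + N ^ 2 * a * Y * (Jf s + η) + N ^ 2 * ζ) := by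
  have hκ : 0 < Real.sqrt s := Real.sqrt_pos.mpr hs
  have hκ1 : Real.sqrt s ≤ 1 := Real.sqrt_le_one.mpr hs1
  have hκs : Real.sqrt s ^ 2 = s := Real.sq_sqrt hs.le
  obtain ⟨q₁, hq₁0, h⟩ := Q04_state hθ (half_pos hη) hκ hκ1
  refine ⟨min (q₁ ^ 200) (4 * Real.pi / (|Phk (Real.sqrt s)| + 1)),
    lt_min (by positivity) (by positivity), fun Y hY hY1' => ?_⟩
  have hY1 : Y < q₁ ^ 200 := hY1'.trans_le (min_le_left _ _)
  have hY2 : Y * (|Phk (Real.sqrt s)| + 1) < 4 * Real.pi := by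
    have h1 := hY1'.trans_le (min_le_right _ _)
    rwa [lt_div_iff₀ (by positivity)] at h1
  obtain ⟨q, hq⟩ : ∃ q : ℝ, q = Y ^ ((1 : ℝ) / 200) := ⟨_, rfl⟩
  have hq0 : 0 < q := by
    rw [hq]
    exact Real.rpow_pos_of_pos hY _
  have hqY : q ^ 200 = Y := by
    rw [hq, ← Real.rpow_natCast, ← Real.rpow_mul hY.le]
    norm_num
  have hqq : q < q₁ := by
    rw [← hqY] at hY1
    exact lt_of_pow_lt_pow_left₀ 200 hq₁0.le hY1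
  obtain ⟨a₀, ha₀, h'⟩ := h q hq0 hqq
  refine ⟨a₀, ha₀, fun N W f Q R₀ R a hS ha hNa hR 𝒱 𝒱₂ h𝒱₂ hle ζ hζ0 hζ => ?_⟩
  have ha0 : 0 < a := hS.a_pos
  have hNq : (N : ℝ) * a ^ 3 = q ^ 400 := by
    rw [hNa, ← hqY]
    ring
  obtain ⟨-, hN2, -, hnu, hst⟩ := h' N W f Q R₀ R a hS ha hNq hR
  obtain ⟨hadm, hE⟩ := hst 𝒱 𝒱₂ h𝒱₂ hle ζ hζ0 hζ
  rw [hqY, Dk_eq_Dg, hκs] at hnu
  rw [hqY] at hE
  refine ⟨_, hadm, fun i => (hnu i).trans (mul_le_mul_of_nonneg_left (by linarith) hY.le), ?_⟩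
  have hN0 : (0 : ℝ) ≤ N := Nat.cast_nonneg N
  have hsum : s * N * a * ∑ i, nuQ (fc (jst (ftot (Real.sqrt s) q a f) N)) i
      ≤ s * N * a * (N * (Y * (Dg s + η / 2))) := by
    refine mul_le_mul_of_nonneg_left ?_ (by positivity)
    calc ∑ i, nuQ (fc (jst (ftot (Real.sqrt s) q a f) N)) i
        ≤ ∑ _i : Fin N, Y * (Dg s + η / 2) := Finset.sum_le_sum fun i _ => hnu i
      _ = N * (Y * (Dg s + η / 2)) := by simp
  have hnn : 0 ≤ s * N * a * ∑ i, nuQ (fc (jst (ftot (Real.sqrt s) q a f) N)) i :=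
    mul_nonneg (by positivity) (Finset.sum_nonneg fun i _ => nuQ_nonneg _ _)
  have hJ : Phk (Real.sqrt s) + s * Dg s = Jf s := by
    have h1 := Phk_add_Dk (Real.sqrt s)
    rw [Dk_eq_Dg, hκs] at h1
    exact h1
  have h0 : 0 ≤ 4 * Real.pi * (N : ℝ) ^ 2 * a
      + (N : ℝ) ^ 2 * a * Y * (Phk (Real.sqrt s) + η / 2) + (N : ℝ) ^ 2 * ζ := by
    have h1 : Y * -(|Phk (Real.sqrt s)|) ≤ Y * Phk (Real.sqrt s) :=
      mul_le_mul_of_nonneg_left (neg_abs_le _) hY.le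
    have h2 : 0 ≤ 4 * Real.pi + Y * (Phk (Real.sqrt s) + η / 2) := by nlinarith
    have h3 : 0 ≤ (N : ℝ) ^ 2 * a * (4 * Real.pi + Y * (Phk (Real.sqrt s) + η / 2)) :=
      mul_nonneg (by positivity) h2
    have h4 : 0 ≤ (N : ℝ) ^ 2 * ζ := by positivity
    nlinarith
  unfold M.tG
  refine (add_le_add hE (ENNReal.ofReal_le_ofReal hsum)).trans ?_
  rw [← ENNReal.ofReal_add h0 (hnn.trans hsum)]
  refine ENNReal.ofReal_le_ofReal ?_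
  have h5 : (N : ℝ) ^ 2 * a * Y * (s * (η / 2)) ≤ (N : ℝ) ^ 2 * a * Y * (η / 2) :=
    mul_le_mul_of_nonneg_left (by nlinarith) (by positivity)
  have h6 : s * N * a * (N * (Y * (Dg s + η / 2)))
      = (N : ℝ) ^ 2 * a * Y * (s * Dg s) + (N : ℝ) ^ 2 * a * Y * (s * (η / 2)) := by ring
  have h7 : (N : ℝ) ^ 2 * a * Y * (Jf s + η)
      = (N : ℝ) ^ 2 * a * Y * (Phk (Real.sqrt s) + η / 2) + (N : ℝ) ^ 2 * a * Y * (s * Dg s)
        + (N : ℝ) ^ 2 * a * Y * (η / 2) := by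
    rw [← hJ]
    ring
  linarith

end Pool.Agent.Lib.MP_4952d6_mp
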