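import Pool.Agent.Lib.MP_4952d6_mp.Pq.P15
import Pool.Agent.Lib.MP_4952d6_mp.Pq.Q04b

/-!
# Pq.P21: the trial state on the torus (from Q04_state)
-/

set_option autoImplicit false
set_option linter.unusedSectionVars false
set_option linter.unusedVariables false
open MeasureTheory Function Filter Topology Set
open scoped ENNReal

namespace Pool.Agent.Lib.MP_4952d6_mp.LG

open LA

theorem ug_statement : UGStatement := by
  intro θ s η hs hs1 hη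
  have hκ : 0 < Real.sqrt s := Real.sqrt_pos.mpr hs
  have hκ1 : Real.sqrt s ≤ 1 := Real.sqrt_le_one.mpr hs1
  obtain ⟨q₁, hq₁0, h⟩ := Q04_state (θ := max θ 1) (le_max_right _ _) hη hκ hκ1
  refine ⟨1, q₁ ^ 200, one_pos, by positivity, fun Y hY hY1 => ?_⟩
  obtain ⟨q, hq⟩ : ∃ q : ℝ, q = Y ^ ((1 : ℝ) / 200) := ⟨_, rfl⟩
  have hq0 : 0 < q := by
    rw [hq]
    exact Real.rpow_pos_of_pos hY _
  have hqY : q ^ 200 = Y := by
    rw [hq, ← Real.rpow_natCast, ← Real.rpow_mul hY.le]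
    norm_num
  have hqq : q < q₁ := by
    rw [← hqY] at hY1
    exact lt_of_pow_lt_pow_left₀ 200 hq₁0.le hY1
  obtain ⟨a₀, ha₀, h'⟩ := h q hq0 hqq
  refine ⟨a₀, ha₀, fun N W f Q R₀ R a hS ha hNa hR 𝒱 hV hVf hge => ?_⟩
  have ha0 : 0 < a := hS.a_pos
  have hNq : (N : ℝ) * a ^ 3 = q ^ 400 := by
    rw [hNa, ← hqY]
    ring
  obtain ⟨-, hN2, -, hnu, hst⟩ := h' N W f Q R₀ R a hS ha hNq
    (hR.trans (mul_le_mul_of_nonneg_right (le_max_left _ _) ha0.le))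
  rw [hqY] at hnu
  have hWm : Measurable fun y : T3 => ENNReal.ofReal (2 * W (rr y)) :=
    ((hS.W_meas.comp rr_measurable).const_mul 2).ennreal_ofReal
  have hWV : ∫⁻ y, ENNReal.ofReal (2 * W (rr y)) ∂lam3 ≤ ∫⁻ y, 𝒱 y ∂lam3 := lintegral_mono_ae hge
  have hWf : ∫⁻ y, ENNReal.ofReal (2 * W (rr y)) ∂lam3 ≠ ⊤ := ne_top_of_le_ne_top hVf hWV
  obtain ⟨𝒱₂, h𝒱₂⟩ : ∃ 𝒱₂ : T3 → ℝ≥0∞, 𝒱₂ = fun y => hV.mk 𝒱 y - ENNReal.ofReal (2 * W (rr y)) :=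
    ⟨_, rfl⟩
  have hV2m : Measurable 𝒱₂ := by
    rw [h𝒱₂]
    exact hV.measurable_mk.sub hWm
  have hle : ∀ᵐ y ∂lam3, 𝒱 y ≤ ENNReal.ofReal (2 * W (rr y)) + 𝒱₂ y := by
    filter_upwards [hV.ae_eq_mk] with y hy
    rw [h𝒱₂]
    dsimp only
    rw [← hy]
    exact le_add_tsub
  have hint : ∫⁻ y, 𝒱₂ y ∂lam3
      = ∫⁻ y, 𝒱 y ∂lam3 - ∫⁻ y, ENNReal.ofReal (2 * W (rr y)) ∂lam3 := by
    rw [h𝒱₂, lintegral_sub hWm hWf ?_, lintegral_congr_ae hV.ae_eq_mk]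
    filter_upwards [hge, hV.ae_eq_mk] with y hy hy2
    rwa [hy2] at hy
  have hint_top : ∫⁻ y, 𝒱₂ y ∂lam3 ≠ ⊤ := by
    rw [hint]
    exact ne_top_of_le_ne_top hVf tsub_le_self
  obtain ⟨hadm, hE⟩ := hst 𝒱 𝒱₂ hV2m hle (∫⁻ y, 𝒱₂ y ∂lam3).toReal ENNReal.toReal_nonneg
    (by rw [ENNReal.ofReal_toReal hint_top])
  refine ⟨_, hadm, hE.trans ?_, ?_⟩
  · rw [hqY, ← hint]
    refine ENNReal.ofReal_add_le.trans (add_le_add le_rfl ?_)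
    rw [one_mul, ENNReal.ofReal_mul (by positivity), ENNReal.ofReal_toReal hint_top]
  · calc ∑ i, nuQ (fc (jst (ftot (Real.sqrt s) q a f) N)) i
        ≤ ∑ _i : Fin N, Y * (Dk (Real.sqrt s) + η) := Finset.sum_le_sum fun i _ => hnu i
      _ = N * Y * (Dk (Real.sqrt s) + η) := by simp; ring

end Pool.Agent.Lib.MP_4952d6_mp.LG
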