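import Pool.Agent.Lib.MP_4952d6_mp.Pq.P19

/-!
# Pq.P22: the laws for one value of the gap

Elementary. Fix `ρ, N`; `Z = √(ρ a³)`, `e₀ = 2 π ρ a / m`; for an admissible `ψ` (finite energy) put `energy ψ = N e₀ (1 + y Z / (4 π))`, `x = (1 - cf) / Z ≥ 0`.
Then `gapEnergy m (s ρ a / (2 m)) ψ = N e₀ (1 + (y + s x) Z / (4 π))` and
* (LB) `PLBStatement`: `Jf s - ε ≤ y + s x` for all `ψ`, `0 < s ≤ 1`; also for `s = 0` by `O.een_final` (`Jf 0 = 4 π · 128 / (15 √π)`, `O.FE2_c`, `Jf_zero_eq`);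
* (UB) `PUBStatement`: a state `φ` with `y ≤ Jf s - s Dg s + ε`, `x ≤ Dg s + ε`.
`law_pt`: `ψ` gap ground state: `y + s x ≤ Jf s + 2 ε`; (LB) at `s' = s - h` and `s' = s + h` (`≤ 1`): `(s - s') x ≤ Jf s - Jf s' + 3 ε`, `Jf_sub_le`, `Jf_sub_ge`, `Dg_left`, `Dg_right`
(all in Q03). Existence: `PEXStatement` and the state from `PUBStatement`. `en_pt`: (LB), (UB) at `s`; for `s = 0`: `O.een_final`.
-/

set_option autoImplicit false
set_option linter.unusedSectionVars false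
set_option linter.unusedVariables false
open MeasureTheory Function Filter Topology Set
open scoped ENNReal

namespace Pool.Agent.Lib.MP_4952d6_mp.LG

open LA

lemma P22_cf {m R₀ : ℝ} {v : (Fin 3 → ℝ) → ℝ} {N : ℕ} {L : ℝ} (hN : 1 ≤ N) (hL : 0 < L)
    {ψ : (Fin N → Fin 3 → ℝ) → ℂ} (h : Admissible m R₀ v N L ψ) : 0 ≤ 1 - condFraction N L ψ := by
  rw [condFraction_eq hN hL h, sub_sub_cancel]
  exact div_nonneg (Finset.sum_nonneg fun i _ => nuQ_nonneg _ _) (Nat.cast_nonneg _)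

/-- The gap energy as a real number. -/
lemma P22_gap {m R₀ g : ℝ} {v : (Fin 3 → ℝ) → ℝ} {N : ℕ} {L : ℝ} (hN : 1 ≤ N) (hL : 0 < L)
    (hg : 0 ≤ g) {ψ : (Fin N → Fin 3 → ℝ) → ℂ} (h : Admissible m R₀ v N L ψ) :
    gapEnergy m g v N L ψ
      = ENNReal.ofReal ((energy m v N L ψ).toReal + g * (N * (1 - condFraction N L ψ))) := by
  have h1 := P22_cf hN hL h
  unfold gapEnergy
  rw [ENNReal.ofReal_add ENNReal.toReal_nonneg (by positivity), ENNReal.ofReal_toReal h.2.2.2.ne]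

lemma P22_pos {m R₀ R : ℝ} {v : (Fin 3 → ℝ) → ℝ} (h : Phys m R₀ R v) : 0 < scatLen m R₀ v :=
  (O.een_final m R₀ R v h.hm h.hR0 h.hv h.hv0 h.hrad h.hsupp h.hgen).1

/-- (LB) in real numbers. -/
lemma P22_lb (hL : PLBStatement) {m R₀ R : ℝ} {v : (Fin 3 → ℝ) → ℝ} (h : Phys m R₀ R v) {s ε : ℝ}
    (hs : 0 < s) (hs1 : s ≤ 1) (hε : 0 < ε) : Dilute fun ρ N => ∀ ψ : (Fin N → Fin 3 → ℝ) → ℂ,
      Admissible m R₀ v N (side ρ N) ψ →
      N * (2 * Real.pi / m * ρ * scatLen m R₀ v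
          * (1 + (Jf s / (4 * Real.pi) - ε) * Real.sqrt (ρ * scatLen m R₀ v ^ 3)))
        ≤ (energy m v N (side ρ N) ψ).toReal
          + s * (ρ * scatLen m R₀ v / (2 * m)) * (N * (1 - condFraction N (side ρ N) ψ)) := by
  have ha := P22_pos h
  refine (Dilute.and (Dilute.small one_pos 1)
    (hL m R₀ R v h.hm h.hR0 h.hR h.hv h.hv0 h.hrad h.hsupp h.hgen s ε hs hs1 hε)).mono
    fun ρ N hρ hP ψ hψ => ?_
  obtain ⟨⟨-, hN⟩, hP⟩ := hP
  have hLs := side_pos hρ hN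
  have hg : 0 ≤ s * (ρ * scatLen m R₀ v / (2 * m)) := by
    have := h.hm
    positivity
  have h1 := hP ψ hψ
  rw [P22_gap hN hLs hg hψ] at h1
  refine (ENNReal.ofReal_le_ofReal_iff ?_).1 h1
  exact add_nonneg ENNReal.toReal_nonneg
    (mul_nonneg hg (mul_nonneg (Nat.cast_nonneg _) (P22_cf hN hLs hψ)))

/-- (UB) in real numbers. -/
lemma P22_ub (hU : PUBStatement) {m R₀ R : ℝ} {v : (Fin 3 → ℝ) → ℝ} (h : Phys m R₀ R v) {s ε : ℝ}
    (hs : 0 < s) (hs1 : s ≤ 1) (hε : 0 < ε) : Dilute fun ρ N => ∃ φ : (Fin N → Fin 3 → ℝ) → ℂ,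
      Admissible m R₀ v N (side ρ N) φ ∧
      (energy m v N (side ρ N) φ).toReal
          + s * (ρ * scatLen m R₀ v / (2 * m)) * (N * (1 - condFraction N (side ρ N) φ))
        ≤ N * (2 * Real.pi / m * ρ * scatLen m R₀ v
          * (1 + (Jf s / (4 * Real.pi) + ε) * Real.sqrt (ρ * scatLen m R₀ v ^ 3))) := by
  have ha := P22_pos h
  have hm := h.hm
  have hπ := Real.pi_pos
  refine (Dilute.and (Dilute.small one_pos 1)
    (hU m R₀ R v h.hm h.hR0 h.hR h.hv h.hv0 h.hrad h.hsupp h.hgen s (ε / 2) hs hs1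
      (half_pos hε))).mono fun ρ N hρ hP => ?_
  obtain ⟨⟨-, hN⟩, φ, hφ, hE, hD⟩ := hP
  refine ⟨φ, hφ, ?_⟩
  have hN0 : (0:ℝ) ≤ N := Nat.cast_nonneg _
  generalize hZ : Real.sqrt (ρ * scatLen m R₀ v ^ 3) = Z at hE hD ⊢
  have hZ0 : 0 ≤ Z := by rw [← hZ]; exact Real.sqrt_nonneg _
  generalize scatLen m R₀ v = a at ha hE hD hZ ⊢
  have hJ : 0 ≤ Jf s - s * Dg s := by
    have h2 := Jf_support (s := s) (t := 0) hs.le le_rfl
    have h3 : 0 ≤ Jf 0 := by
      rw [Jf_zero_eq]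
      positivity
    linarith
  have hE' : (energy m v N (side ρ N) φ).toReal ≤ N * (2 * Real.pi / m * ρ * a
      * (1 + ((Jf s - s * Dg s) / (4 * Real.pi) + ε / 2) * Z)) := by
    refine ENNReal.toReal_le_of_le_ofReal ?_ hE
    have h4 : 0 ≤ (Jf s - s * Dg s) / (4 * Real.pi) := by positivity
    positivity
  have hD' : s * (ρ * a / (2 * m)) * (N * (1 - condFraction N (side ρ N) φ))
      ≤ s * (ρ * a / (2 * m)) * (N * ((Dg s + ε / 2) * Z)) :=
    mul_le_mul_of_nonneg_left (mul_le_mul_of_nonneg_left hD hN0) (by positivity)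
  refine (add_le_add hE' hD').trans ?_
  have e1 : N * (2 * Real.pi / m * ρ * a
      * (1 + ((Jf s - s * Dg s) / (4 * Real.pi) + ε / 2) * Z))
      + s * (ρ * a / (2 * m)) * (N * ((Dg s + ε / 2) * Z))
      = N * (2 * Real.pi / m * ρ * a * (1 + (Jf s / (4 * Real.pi) + ε / 2) * Z))
        + N * (ρ * a / (2 * m)) * Z * (s * (ε / 2)) := by
    field_simp
    ring
  have e2 : N * (2 * Real.pi / m * ρ * a * (1 + (Jf s / (4 * Real.pi) + ε) * Z))
      = N * (2 * Real.pi / m * ρ * a * (1 + (Jf s / (4 * Real.pi) + ε / 2) * Z))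
        + N * (ρ * a / (2 * m)) * Z * (2 * Real.pi * ε) := by
    field_simp
    ring
  rw [e1, e2]
  refine add_le_add le_rfl (mul_le_mul_of_nonneg_left ?_ (by positivity))
  have := Real.pi_gt_three
  nlinarith

lemma P22_min {m R₀ g : ℝ} {v : (Fin 3 → ℝ) → ℝ} {N : ℕ} {L : ℝ} (hN : 1 ≤ N) (hL : 0 < L)
    (hg : 0 ≤ g) {ψ φ : (Fin N → Fin 3 → ℝ) → ℂ} (h : IsGapGround m R₀ g v N L ψ)
    (hφ : Admissible m R₀ v N L φ) :
    (energy m v N L ψ).toReal + g * (N * (1 - condFraction N L ψ))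
      ≤ (energy m v N L φ).toReal + g * (N * (1 - condFraction N L φ)) := by
  have h1 := h.2 φ hφ
  rw [P22_gap hN hL hg h.1, P22_gap hN hL hg hφ] at h1
  refine (ENNReal.ofReal_le_ofReal_iff ?_).1 h1
  exact add_nonneg ENNReal.toReal_nonneg
    (mul_nonneg hg (mul_nonneg (Nat.cast_nonneg _) (P22_cf hN hL hφ)))

/-- The Griffiths step. -/
lemma P22_step {K E D Z s t J J' ε : ℝ} (hK : 0 < K)
    (h1 : E + s * (K / (4 * Real.pi)) * D ≤ K * (1 + (J / (4 * Real.pi) + ε) * Z))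
    (h2 : K * (1 + (J' / (4 * Real.pi) - ε) * Z) ≤ E + t * (K / (4 * Real.pi)) * D) :
    (s - t) * D ≤ (J - J' + 8 * Real.pi * ε) * Z := by
  have hπ := Real.pi_pos
  have h3 : K / (4 * Real.pi) * ((s - t) * D)
      ≤ K / (4 * Real.pi) * ((J - J' + 8 * Real.pi * ε) * Z) := by
    have e1 : K / (4 * Real.pi) * ((J - J' + 8 * Real.pi * ε) * Z)
        = K * (1 + (J / (4 * Real.pi) + ε) * Z) - K * (1 + (J' / (4 * Real.pi) - ε) * Z) := by
      field_simp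
      ring
    rw [e1]
    nlinarith
  exact le_of_mul_le_mul_left h3 (by positivity)

lemma P22_units {m ρ a N s D : ℝ} (hm : 0 < m) :
    s * (ρ * a / (2 * m)) * (N * D) = s * (N * (2 * Real.pi / m * ρ * a) / (4 * Real.pi)) * D := by
  have hπ := Real.pi_pos
  field_simp
  ring

theorem law_pt (hL : PLBStatement) (hU : PUBStatement) (hE : PEXStatement) {m R₀ R : ℝ}
    {v : (Fin 3 → ℝ) → ℝ} (h : Phys m R₀ R v) : LawPt m R₀ (scatLen m R₀ v) v := by
  intro s ε hs hs1 hε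
  have ha := P22_pos h
  have hm := h.hm
  have hπ := Real.pi_pos
  obtain ⟨t₁, ht₁, ht₁s, -, hD₁⟩ := Dg_left hs (ε := ε / 4) (by positivity)
  obtain ⟨t₂, ht₂, ht₂s, hD₂⟩ := Dg_right hs.le (ε := min (ε / 4) (1 - s))
    (lt_min (by positivity) (by linarith))
  have ht₂1 : t₂ ≤ 1 := by
    have := min_le_right (ε / 4) (1 - s)
    linarith
  have hD₂' : Dg s - ε / 4 ≤ Dg t₂ := by
    have := min_le_left (ε / 4) (1 - s)
    linarith
  obtain ⟨d, hd⟩ : ∃ d, d = min (s - t₁) (t₂ - s) := ⟨_, rfl⟩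
  have hd0 : 0 < d := by rw [hd]; exact lt_min (by linarith) (by linarith)
  have hd1 : d ≤ s - t₁ := by rw [hd]; exact min_le_left _ _
  have hd2 : d ≤ t₂ - s := by rw [hd]; exact min_le_right _ _
  have hε' : 0 < ε * d / (32 * Real.pi) := by positivity
  have h8 : 8 * Real.pi * (ε * d / (32 * Real.pi)) = ε / 4 * d := by field_simp; ring
  refine (((Dilute.small one_pos 1).and (P22_ub hU h hs hs1.le hε')).and
    ((P22_lb hL h ht₁ (by linarith) hε').and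
      (P22_lb hL h (s := t₂) (by linarith) ht₂1 hε'))).mono fun ρ N hρ hP => ?_
  obtain ⟨⟨⟨-, hN⟩, φ, hφ, hub⟩, hlb1, hlb2⟩ := hP
  have hLs := side_pos hρ hN
  have hN0 : (0:ℝ) < N := by exact_mod_cast hN
  have hg : 0 ≤ s * (ρ * scatLen m R₀ v / (2 * m)) := by positivity
  refine ⟨hE N m R₀ _ _ v hm hLs h.hR0 hg hN h.hv.1.aemeasurable ⟨φ, hφ⟩, fun ψ hψ => ?_⟩
  have h1 := (P22_min hN hLs hg hψ hφ).trans hub
  have h2 := hlb1 ψ hψ.1
  have h3 := hlb2 ψ hψ.1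
  have hZ0 : 0 ≤ Real.sqrt (ρ * scatLen m R₀ v ^ 3) := Real.sqrt_nonneg _
  generalize Real.sqrt (ρ * scatLen m R₀ v ^ 3) = Z at h1 h2 h3 hZ0 ⊢
  generalize scatLen m R₀ v = a at ha h1 h2 h3
  generalize 1 - condFraction N (side ρ N) ψ = D at h1 h2 h3 ⊢
  generalize (energy m v N (side ρ N) ψ).toReal = E at h1 h2 h3
  have hK : 0 < N * (2 * Real.pi / m * ρ * a) := by positivity
  rw [P22_units hm, ← mul_assoc (N : ℝ) (2 * Real.pi / m * ρ * a)] at h1 h2 h3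
  have h4 := P22_step hK h1 h2
  have h5 := P22_step hK h1 h3
  rw [h8] at h4 h5
  have h6 := Jf_sub_le ht₁.le ht₁s.le
  have h7 := Jf_sub_ge hs.le ht₂.le
  rw [abs_le]
  constructor
  · have h9 : (t₂ - s) * ((Dg s - ε) * Z) ≤ (t₂ - s) * D := by
      have h10 : (Dg s - ε) * (t₂ - s) ≤ -(Jf s - Jf t₂ + ε / 4 * d) := by nlinarith
      have h11 := mul_le_mul_of_nonneg_right h10 hZ0
      nlinarith
    have h12 := le_of_mul_le_mul_left h9 (by linarith)
    linarith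
  · have h9 : (s - t₁) * D ≤ (s - t₁) * ((Dg s + ε) * Z) := by
      have h10 : Jf s - Jf t₁ + ε / 4 * d ≤ (Dg s + ε) * (s - t₁) := by nlinarith
      have h11 := mul_le_mul_of_nonneg_right h10 hZ0
      nlinarith
    have h12 := le_of_mul_le_mul_left h9 (by linarith)
    linarith

theorem en_pt (hL : PLBStatement) (hU : PUBStatement) (hE : PEXStatement) {m R₀ R : ℝ}
    {v : (Fin 3 → ℝ) → ℝ} (h : Phys m R₀ R v) : EnPt m R₀ (scatLen m R₀ v) v := by
  intro s ε hs hs1 hε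
  have ha := P22_pos h
  have hm := h.hm
  have hπ := Real.pi_pos
  rcases hs.eq_or_lt with hs0 | hs0
  · subst hs0
    have h1 := (O.een_final m R₀ R v h.hm h.hR0 h.hv h.hv0 h.hrad h.hsupp h.hgen).2 ε hε
    refine ((Dilute.small one_pos 1).and h1).mono fun ρ N hρ hP => ?_
    obtain ⟨⟨-, hN⟩, ⟨ψ₀, hψ₀⟩, hall⟩ := hP
    have e : ∀ ψ : (Fin N → Fin 3 → ℝ) → ℂ,
        gapEnergy m (0 * (ρ * scatLen m R₀ v / (2 * m))) v N (side ρ N) ψ
          = energy m v N (side ρ N) ψ := fun ψ => by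
      unfold gapEnergy
      simp
    have hN0 : (0:ℝ) < N := by exact_mod_cast hN
    refine ⟨⟨ψ₀, hψ₀.1, fun φ hφ => ?_⟩, fun ψ hψ => ?_⟩
    · rw [e, e]
      exact hψ₀.2 φ hφ
    · have hg : O.IsGround m R₀ v N (side ρ N) ψ := by
        refine ⟨hψ.1, fun φ hφ => ?_⟩
        have h2 := hψ.2 φ hφ
        rwa [e, e] at h2
      obtain ⟨hlo, hup⟩ := hall ψ hg
      rw [e]
      have hfin := hψ.1.2.2.2.ne
      refine ⟨hfin, ?_⟩
      have hJ : Jf 0 / (4 * Real.pi) = 128 / (15 * Real.sqrt Real.pi) := by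
        rw [Jf_zero_eq, ← O.FE2_c]
        field_simp
      rw [hJ]
      have hsp : 0 < Real.sqrt Real.pi := Real.sqrt_pos.2 hπ
      have hZ0 : 0 ≤ Real.sqrt (ρ * scatLen m R₀ v ^ 3) := Real.sqrt_nonneg _
      generalize Real.sqrt (ρ * scatLen m R₀ v ^ 3) = Z at hlo hup hZ0 ⊢
      generalize scatLen m R₀ v = a at ha hlo hup ⊢
      generalize energy m v N (side ρ N) ψ = E at hlo hup hfin ⊢
      have h3 := (ENNReal.ofReal_le_iff_le_toReal hfin).1 hlo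
      have h4 : E.toReal ≤ _ := ENNReal.toReal_le_of_le_ofReal (by positivity) hup
      rw [abs_le]
      have e5 : E.toReal = N * (E.toReal / N) := by field_simp
      rw [e5] at h3 h4
      have h5 := le_of_mul_le_mul_left h3 hN0
      have h6 := le_of_mul_le_mul_left h4 hN0
      have e6 : 2 * Real.pi / m * ρ * a = 2 * Real.pi * ρ * a / m := by ring
      rw [e6] at h5 h6
      constructor
      · nlinarith
      · nlinarith
  · have hε2 : 0 < ε / 2 := half_pos hε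
    refine (((Dilute.small one_pos 1).and (P22_ub hU h hs0 hs1 hε)).and
      (P22_lb hL h hs0 hs1 hε)).mono fun ρ N hρ hP => ?_
    obtain ⟨⟨⟨-, hN⟩, φ, hφ, hub⟩, hlb⟩ := hP
    have hLs := side_pos hρ hN
    have hN0 : (0:ℝ) < N := by exact_mod_cast hN
    have hg : 0 ≤ s * (ρ * scatLen m R₀ v / (2 * m)) := by positivity
    refine ⟨hE N m R₀ _ _ v hm hLs h.hR0 hg hN h.hv.1.aemeasurable ⟨φ, hφ⟩, fun ψ hψ => ?_⟩
    have h1 := (P22_min hN hLs hg hψ hφ).trans hub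
    have h2 := hlb ψ hψ.1
    have hnn : 0 ≤ (energy m v N (side ρ N) ψ).toReal
        + s * (ρ * scatLen m R₀ v / (2 * m)) * (N * (1 - condFraction N (side ρ N) ψ)) :=
      add_nonneg ENNReal.toReal_nonneg
        (mul_nonneg hg (mul_nonneg (Nat.cast_nonneg _) (P22_cf hN hLs hψ.1)))
    rw [P22_gap hN hLs hg hψ.1]
    refine ⟨ENNReal.ofReal_ne_top, ?_⟩
    rw [ENNReal.toReal_ofReal hnn]
    generalize (energy m v N (side ρ N) ψ).toReal
        + s * (ρ * scatLen m R₀ v / (2 * m)) * (N * (1 - condFraction N (side ρ N) ψ)) = E at h1 h2 ⊢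
    have hZ0 : 0 ≤ Real.sqrt (ρ * scatLen m R₀ v ^ 3) := Real.sqrt_nonneg _
    generalize Real.sqrt (ρ * scatLen m R₀ v ^ 3) = Z at h1 h2 hZ0 ⊢
    generalize scatLen m R₀ v = a at ha h1 h2 ⊢
    rw [abs_le]
    have e5 : E = N * (E / N) := by field_simp
    rw [e5] at h1 h2
    have h5 := le_of_mul_le_mul_left h1 hN0
    have h6 := le_of_mul_le_mul_left h2 hN0
    have e6 : 2 * Real.pi / m * ρ * a = 2 * Real.pi * ρ * a / m := by ring
    rw [e6] at h5 h6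
    constructor
    · nlinarith
    · nlinarith

end Pool.Agent.Lib.MP_4952d6_mp.LG
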