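import Pool.Agent.Lib.MP_4952d6_mp.Pq.P19

/-!
# Pq.P24: uniformity in the gap

`law_unif`: for two gaps `g < g'` and gap ground states `ψ`, `ψ'`: adding the two minimality inequalities gives `(g' - g) N (cf ψ' - cf ψ) ≥ 0` (energies finite), so the depletion is
antitone in `s`; a finite grid of `[s₀, 3/4]` (with a point above `1/2`), uniform continuity of `Dg` (`Dg_continuousOn`).
`en_unif`: the minimum of the gapped energy is nondecreasing in `s`; grid `k / n`, `Jf_mono`, `Jf_lip` (Q03). Existence for every `s` from `PEXStatement` (an admissible state exists by `hE` at `s = 0`).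
-/

set_option autoImplicit false
set_option linter.unusedSectionVars false
set_option linter.unusedVariables false
open MeasureTheory Function Filter Topology Set
open scoped ENNReal

namespace Pool.Agent.Lib.MP_4952d6_mp.LG

open LA

theorem P24_real {m g : ℝ} (hg : 0 ≤ g) {v : (Fin 3 → ℝ) → ℝ} {N : ℕ} {L : ℝ}
    {ψ : (Fin N → Fin 3 → ℝ) → ℂ} (hE : energy m v N L ψ < ⊤) :
    gapEnergy m g v N L ψ ≠ ⊤ ∧ (gapEnergy m g v N L ψ).toReal =
      (energy m v N L ψ).toReal + g * max 0 (N * (1 - condFraction N L ψ)) := by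
  unfold gapEnergy
  refine ⟨ENNReal.add_ne_top.2 ⟨hE.ne, ENNReal.ofReal_ne_top⟩, ?_⟩
  rw [ENNReal.toReal_add hE.ne ENNReal.ofReal_ne_top, ENNReal.toReal_ofReal', mul_max_of_nonneg _ _ hg,
    mul_zero, max_comm]

/-- The depletion of gap ground states is antitone in the gap. -/
theorem P24_anti {m R₀ g g' : ℝ} (hg : 0 ≤ g) (hgg : g < g') {v : (Fin 3 → ℝ) → ℝ} {N : ℕ}
    (hN : 1 ≤ N) {L : ℝ} {ψ ψ' : (Fin N → Fin 3 → ℝ) → ℂ} (h : IsGapGround m R₀ g v N L ψ)
    (h' : IsGapGround m R₀ g' v N L ψ') :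
    max 0 (1 - condFraction N L ψ') ≤ max 0 (1 - condFraction N L ψ) := by
  have hN0 : (0 : ℝ) < N := by exact_mod_cast hN
  have e1 := h.1.2.2.2
  have e2 := h'.1.2.2.2
  have a1 := P24_real (m := m) hg e1
  have a2 := P24_real (m := m) hg e2
  have b1 := P24_real (m := m) (hg.trans hgg.le) e1
  have b2 := P24_real (m := m) (hg.trans hgg.le) e2
  have c1 := ENNReal.toReal_mono a2.1 (h.2 ψ' h'.1)
  have c2 := ENNReal.toReal_mono b1.1 (h'.2 ψ h.1)
  rw [a1.2, a2.2] at c1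
  rw [b1.2, b2.2] at c2
  have key : ∀ x : ℝ, max 0 (N * x) = N * max 0 x := fun x => by
    rw [mul_max_of_nonneg _ _ hN0.le, mul_zero]
  rw [key, key] at c1 c2
  by_contra hlt
  push Not at hlt
  have d1 : 0 < (g' - g) * (N * (max 0 (1 - condFraction N L ψ') - max 0 (1 - condFraction N L ψ))) :=
    mul_pos (sub_pos.2 hgg) (mul_pos hN0 (sub_pos.2 hlt))
  nlinarith

/-- The energy of gap ground states is monotone in the gap. -/
theorem P24_mono {m R₀ g g' : ℝ} (hg : 0 ≤ g) (hgg : g ≤ g') {v : (Fin 3 → ℝ) → ℝ} {N : ℕ}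
    {L : ℝ} {ψ ψ' : (Fin N → Fin 3 → ℝ) → ℂ} (h : IsGapGround m R₀ g v N L ψ)
    (h' : IsGapGround m R₀ g' v N L ψ') :
    (gapEnergy m g v N L ψ).toReal ≤ (gapEnergy m g' v N L ψ').toReal := by
  have a2 := P24_real (m := m) hg h'.1.2.2.2
  have b2 := P24_real (m := m) (hg.trans hgg) h'.1.2.2.2
  have c1 := ENNReal.toReal_mono a2.1 (h.2 ψ' h'.1)
  refine c1.trans ?_
  rw [a2.2, b2.2]
  have h0 : 0 ≤ max 0 ((N : ℝ) * (1 - condFraction N L ψ')) := le_max_left _ _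
  nlinarith [mul_le_mul_of_nonneg_right hgg h0]

theorem law_unif {m R₀ a : ℝ} (hm : 0 < m) (ha : 0 < a) {v : (Fin 3 → ℝ) → ℝ} (h : LawPt m R₀ a v)
    (hE : EnPt m R₀ a v) {s₀ ε : ℝ} (hs : 0 < s₀) (hε : 0 < ε) :
    Dilute fun ρ N => ∀ s : ℝ, s₀ ≤ s → s ≤ 1 / 2 → ∀ ψ,
      IsGapGround m R₀ (s * (ρ * a / (2 * m))) v N (side ρ N) ψ →
      |1 - condFraction N (side ρ N) ψ - Dg s * Real.sqrt (ρ * a ^ 3)| ≤ ε * Real.sqrt (ρ * a ^ 3) := by
  have key : Dilute fun ρ N => ∀ s ∈ Icc s₀ (1 / 2), ∀ ψ,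
      IsGapGround m R₀ (s * (ρ * a / (2 * m))) v N (side ρ N) ψ →
      |1 - condFraction N (side ρ N) ψ - Dg s * Real.sqrt (ρ * a ^ 3)| ≤
        ε * Real.sqrt (ρ * a ^ 3) := by
    refine IsCompact.induction_on (s := Icc s₀ (1 / 2)) (p := fun S => Dilute fun ρ N => ∀ s ∈ S, ∀ ψ,
      IsGapGround m R₀ (s * (ρ * a / (2 * m))) v N (side ρ N) ψ →
      |1 - condFraction N (side ρ N) ψ - Dg s * Real.sqrt (ρ * a ^ 3)| ≤
        ε * Real.sqrt (ρ * a ^ 3)) isCompact_Icc ?_ ?_ ?_ ?_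
    · exact ⟨1, one_pos, fun ρ _ _ => ⟨0, fun N _ s hs' => absurd hs' (notMem_empty s)⟩⟩
    · exact fun S T hST hT => hT.mono fun ρ N _ hP s hs' => hP s (hST hs')
    · exact fun S T hS hT => (hS.and hT).mono fun ρ N _ hP s hs' =>
        hs'.elim (fun h1 => hP.1 s h1) fun h1 => hP.2 s h1
    · intro x hx
      have hx0 : 0 < x := hs.trans_le hx.1
      obtain ⟨t2, h21, h22, h23⟩ := Dg_right (s := x) (ε := min (ε / 8) (1 / 4)) hx0.le
        (lt_min (by linarith) (by norm_num))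
      obtain ⟨t1, h11, h12, h13, h14⟩ := Dg_left (s := x) (ε := min (ε / 8) (1 / 4)) hx0
        (lt_min (by linarith) (by norm_num))
      have hm1 : min (ε / 8) (1 / 4) ≤ ε / 8 := min_le_left _ _
      have hm2 : min (ε / 8) (1 / 4) ≤ 1 / 4 := min_le_right _ _
      have ht2 : t2 < 1 := by
        have := hx.2
        linarith
      have hx2 := hx.2
      have ht1 : t1 < 1 := by linarith
      have hD2 : 0 < Dg t2 := Dg_pos (hx0.le.trans h21.le)
      have hε' : 0 < min (ε / 4) (Dg t2 / 2) := lt_min (by linarith) (by linarith)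
      refine ⟨Ioo t1 t2, mem_nhdsWithin_of_mem_nhds (Ioo_mem_nhds h12 h21), ?_⟩
      refine (((h t1 _ h11 ht1 hε').and (h t2 _ (hx0.trans h21) ht2 hε')).and
        (Dilute.small one_pos 1)).mono fun ρ N hρ hP s hs' ψ hψ => ?_
      obtain ⟨⟨⟨⟨ψ1, hψ1⟩, k1⟩, ⟨⟨ψ2, hψ2⟩, k2⟩⟩, _, hN⟩ := hP
      have hc : 0 < ρ * a / (2 * m) := by positivity
      have hZ : 0 < Real.sqrt (ρ * a ^ 3) := Real.sqrt_pos.2 (by positivity)
      have l1 := k1 ψ1 hψ1
      have l2 := k2 ψ2 hψ2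
      have m1 := P24_anti (mul_nonneg h11.le hc.le) (mul_lt_mul_of_pos_right hs'.1 hc) hN hψ1 hψ
      have m2 := P24_anti (mul_nonneg (h11.le.trans hs'.1.le) hc.le)
        (mul_lt_mul_of_pos_right hs'.2 hc) hN hψ hψ2
      have n1 : Dg s ≤ Dg t1 := Dg_anti h11.le hs'.1.le
      have n2 : Dg t2 ≤ Dg s := Dg_anti (h11.le.trans hs'.1.le) hs'.2.le
      have q1 : min (ε / 4) (Dg t2 / 2) ≤ ε / 4 := min_le_left _ _
      have q2 : min (ε / 4) (Dg t2 / 2) ≤ Dg t2 / 2 := min_le_right _ _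
      generalize min (ε / 4) (Dg t2 / 2) = e at *
      generalize min (ε / 8) (1 / 4) = e' at *
      generalize Real.sqrt (ρ * a ^ 3) = Z at *
      rw [abs_le] at l1 l2 ⊢
      have r1 : e * Z ≤ ε / 4 * Z := mul_le_mul_of_nonneg_right q1 hZ.le
      have r2 : e * Z ≤ Dg t2 / 2 * Z := mul_le_mul_of_nonneg_right q2 hZ.le
      have r3 : (Dg t1 - Dg t2) * Z ≤ ε / 4 * Z := mul_le_mul_of_nonneg_right (by linarith) hZ.le
      have r4 : Dg s * Z ≤ Dg t1 * Z := mul_le_mul_of_nonneg_right n1 hZ.le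
      have r5 : Dg t2 * Z ≤ Dg s * Z := mul_le_mul_of_nonneg_right n2 hZ.le
      have r6 : 0 < Dg t2 * Z := mul_pos hD2 hZ
      have r7 : 0 < ε * Z := mul_pos hε hZ
      have r8 : Dg t2 * Z ≤ Dg t1 * Z := r5.trans r4
      constructor
      · have s1 : 1 - condFraction N (side ρ N) ψ2 ≤ max 0 (1 - condFraction N (side ρ N) ψ) :=
          (le_max_right _ _).trans m2
        rcases max_cases 0 (1 - condFraction N (side ρ N) ψ) with ⟨w1, w2⟩ | ⟨w1, w2⟩
        · rw [w1] at s1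
          linarith
        · rw [w1] at s1
          linarith
      · have s1 : 1 - condFraction N (side ρ N) ψ ≤ max 0 (1 - condFraction N (side ρ N) ψ1) :=
          (le_max_right _ _).trans m1
        have s2 : max 0 (1 - condFraction N (side ρ N) ψ1) ≤ Dg t1 * Z + e * Z :=
          max_le (by linarith) (by linarith)
        linarith
  exact key.mono fun ρ N _ hP s h1 h2 => hP s ⟨h1, h2⟩

theorem en_unif {m R₀ a : ℝ} (hm : 0 < m) (hR0 : 0 ≤ R₀) (ha : 0 < a) {v : (Fin 3 → ℝ) → ℝ}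
    (hv : AEMeasurable v volume) (hX : PEXStatement) (hE : EnPt m R₀ a v) {ε : ℝ} (hε : 0 < ε) :
    Dilute fun ρ N => ∀ s : ℝ, 0 ≤ s → s ≤ 1 / 2 →
      (∃ ψ, IsGapGround m R₀ (s * (ρ * a / (2 * m))) v N (side ρ N) ψ) ∧
      ∀ ψ, IsGapGround m R₀ (s * (ρ * a / (2 * m))) v N (side ρ N) ψ →
        gapEnergy m (s * (ρ * a / (2 * m))) v N (side ρ N) ψ ≠ ⊤ ∧
        |(gapEnergy m (s * (ρ * a / (2 * m))) v N (side ρ N) ψ).toReal / N
            - 2 * Real.pi * ρ * a / m * (1 + Jf s / (4 * Real.pi) * Real.sqrt (ρ * a ^ 3))|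
          ≤ ε * (2 * Real.pi * ρ * a / m * Real.sqrt (ρ * a ^ 3)) := by
  have key : Dilute fun ρ N => ∀ s ∈ Icc (0 : ℝ) (1 / 2), 0 ≤ s →
      (∃ ψ, IsGapGround m R₀ (s * (ρ * a / (2 * m))) v N (side ρ N) ψ) ∧
      ∀ ψ, IsGapGround m R₀ (s * (ρ * a / (2 * m))) v N (side ρ N) ψ →
        gapEnergy m (s * (ρ * a / (2 * m))) v N (side ρ N) ψ ≠ ⊤ ∧
        |(gapEnergy m (s * (ρ * a / (2 * m))) v N (side ρ N) ψ).toReal / N
            - 2 * Real.pi * ρ * a / m * (1 + Jf s / (4 * Real.pi) * Real.sqrt (ρ * a ^ 3))|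
          ≤ ε * (2 * Real.pi * ρ * a / m * Real.sqrt (ρ * a ^ 3)) := by
    refine IsCompact.induction_on (s := Icc (0 : ℝ) (1 / 2)) (p := fun S => Dilute fun ρ N =>
      ∀ s ∈ S, 0 ≤ s →
      (∃ ψ, IsGapGround m R₀ (s * (ρ * a / (2 * m))) v N (side ρ N) ψ) ∧
      ∀ ψ, IsGapGround m R₀ (s * (ρ * a / (2 * m))) v N (side ρ N) ψ →
        gapEnergy m (s * (ρ * a / (2 * m))) v N (side ρ N) ψ ≠ ⊤ ∧
        |(gapEnergy m (s * (ρ * a / (2 * m))) v N (side ρ N) ψ).toReal / N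
            - 2 * Real.pi * ρ * a / m * (1 + Jf s / (4 * Real.pi) * Real.sqrt (ρ * a ^ 3))|
          ≤ ε * (2 * Real.pi * ρ * a / m * Real.sqrt (ρ * a ^ 3))) isCompact_Icc ?_ ?_ ?_ ?_
    · exact ⟨1, one_pos, fun ρ _ _ => ⟨0, fun N _ s hs' => absurd hs' (notMem_empty s)⟩⟩
    · exact fun S T hST hT => hT.mono fun ρ N _ hP s hs' => hP s (hST hs')
    · exact fun S T hS hT => (hS.and hT).mono fun ρ N _ hP s hs' =>
        hs'.elim (fun h1 => hP.1 s h1) fun h1 => hP.2 s h1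
    · intro x hx
      have hx0 := hx.1
      have hx2 := hx.2
      have hpi := Real.pi_pos
      have hcc : 0 < 8 / (3 * Real.sqrt Real.pi) := by positivity
      obtain ⟨δ, hδ, hδ1, hδ2⟩ : ∃ δ : ℝ, 0 < δ ∧ δ ≤ 1 / 4 ∧
          8 / (3 * Real.sqrt Real.pi) * (2 * δ) ≤ 2 * Real.pi * ε := by
        refine ⟨min (1 / 4) (Real.pi * ε / (8 / (3 * Real.sqrt Real.pi))),
          lt_min (by norm_num) (by positivity), min_le_left _ _, ?_⟩
        have h1 := min_le_right (1 / 4) (Real.pi * ε / (8 / (3 * Real.sqrt Real.pi)))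
        rw [le_div_iff₀ hcc] at h1
        linarith
      have hε2 : 0 < ε / 2 := by linarith
      have t10 : 0 ≤ max 0 (x - δ) := le_max_left _ _
      have t11 : max 0 (x - δ) ≤ 1 := max_le (by norm_num) (by linarith)
      have t12 : x - δ ≤ max 0 (x - δ) := le_max_right _ _
      refine ⟨Ioo (x - δ) (x + δ),
        mem_nhdsWithin_of_mem_nhds (Ioo_mem_nhds (by linarith) (by linarith)), ?_⟩
      refine (((hE (max 0 (x - δ)) _ t10 t11 hε2).and
        (hE (x + δ) _ (by linarith) (by linarith) hε2)).and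
        (Dilute.small one_pos 1)).mono fun ρ N hρ hP s hs' hs0 => ?_
      obtain ⟨⟨⟨⟨ψ1, hψ1⟩, k1⟩, ⟨⟨ψ2, hψ2⟩, k2⟩⟩, _, hN⟩ := hP
      have hc : 0 < ρ * a / (2 * m) := by positivity
      have hN0 : (0 : ℝ) < N := by exact_mod_cast hN
      have hside : 0 < side ρ N := Real.rpow_pos_of_pos (div_pos hN0 hρ) _
      have hlo : max 0 (x - δ) ≤ s := max_le hs0 hs'.1.le
      have hhi : s ≤ x + δ := hs'.2.le
      refine ⟨hX N m R₀ _ _ v hm hside hR0 (mul_nonneg hs0 hc.le) hN hv ⟨ψ1, hψ1.1⟩,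
        fun ψ hψ => ⟨(P24_real (mul_nonneg hs0 hc.le) hψ.1.2.2.2).1, ?_⟩⟩
      have m1 := P24_mono (mul_nonneg t10 hc.le) (mul_le_mul_of_nonneg_right hlo hc.le) hψ1 hψ
      have m2 := P24_mono (mul_nonneg hs0 hc.le) (mul_le_mul_of_nonneg_right hhi hc.le) hψ hψ2
      have l1 := (k1 ψ1 hψ1).2
      have l2 := (k2 ψ2 hψ2).2
      have m1' := div_le_div_of_nonneg_right m1 hN0.le
      have m2' := div_le_div_of_nonneg_right m2 hN0.le
      have j1 : Jf (max 0 (x - δ)) ≤ Jf s := Jf_mono t10 hlo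
      have j2 : Jf s ≤ Jf (x + δ) := Jf_mono hs0 hhi
      have j3 : Jf (x + δ) - Jf (max 0 (x - δ)) ≤ 2 * Real.pi * ε := by
        have h1 := (le_abs_self _).trans (Jf_lip t10 (show 0 ≤ x + δ by linarith))
        have h2 : |x + δ - max 0 (x - δ)| ≤ 2 * δ := by
          rw [abs_of_nonneg (by linarith)]
          linarith
        exact (h1.trans (mul_le_mul_of_nonneg_left h2 hcc.le)).trans hδ2
      generalize (gapEnergy m (max 0 (x - δ) * (ρ * a / (2 * m))) v N (side ρ N) ψ1).toReal / N =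
        E1 at *
      generalize (gapEnergy m ((x + δ) * (ρ * a / (2 * m))) v N (side ρ N) ψ2).toReal / N =
        E2 at *
      generalize (gapEnergy m (s * (ρ * a / (2 * m))) v N (side ρ N) ψ).toReal / N = E at *
      have hZ : 0 < Real.sqrt (ρ * a ^ 3) := Real.sqrt_pos.2 (by positivity)
      have he0 : 0 < 2 * Real.pi * ρ * a / m := by positivity
      generalize Real.sqrt (ρ * a ^ 3) = Z at *
      generalize 2 * Real.pi * ρ * a / m = e0 at *
      have hez : 0 < e0 * Z := mul_pos he0 hZ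
      have q : ∀ J : ℝ, e0 * (1 + J / (4 * Real.pi) * Z) = e0 + J / (4 * Real.pi) * (e0 * Z) :=
        fun J => by ring
      rw [q] at l1 l2 ⊢
      have r1 : Jf s / (4 * Real.pi) - Jf (max 0 (x - δ)) / (4 * Real.pi) ≤ ε / 2 := by
        rw [← sub_div, div_le_iff₀ (by positivity)]
        linarith
      have r2 : Jf (x + δ) / (4 * Real.pi) - Jf s / (4 * Real.pi) ≤ ε / 2 := by
        rw [← sub_div, div_le_iff₀ (by positivity)]
        linarith
      have r3 := mul_le_mul_of_nonneg_right r1 hez.le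
      have r4 := mul_le_mul_of_nonneg_right r2 hez.le
      generalize e0 * Z = w at *
      rw [sub_mul] at r3 r4
      rw [abs_le] at l1 l2 ⊢
      constructor
      · linarith
      · linarith
  exact key.mono fun ρ N _ hP s h1 h2 => hP s ⟨h1, h2⟩ h1

end Pool.Agent.Lib.MP_4952d6_mp.LG
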