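import Pool.Agent.Lib.MP_4952d6_mp.Pq.P25

/-!
# Pq.P26: uniformity down to gaps which tend to zero with the density
-/

set_option autoImplicit false
set_option linter.unusedSectionVars false
set_option linter.unusedVariables false
open MeasureTheory Function Filter Topology Set
open scoped ENNReal

namespace Pool.Agent.Lib.MP_4952d6_mp.LG

open LA

/-- The law of the condensate fraction, uniformly for all gaps above a threshold which tends to zero. -/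
theorem diag2 {m R₀ a : ℝ} {v : (Fin 3 → ℝ) → ℝ}
    (h : ∀ s₀ ε : ℝ, 0 < s₀ → 0 < ε → Dilute fun ρ N => ∀ s : ℝ, s₀ ≤ s → s ≤ 1 / 2 → ∀ ψ,
      IsGapGround m R₀ (s * (ρ * a / (2 * m))) v N (side ρ N) ψ →
      |1 - condFraction N (side ρ N) ψ - Dg s * Real.sqrt (ρ * a ^ 3)| ≤ ε * Real.sqrt (ρ * a ^ 3)) :
    ∃ γ : ℝ → ℝ, (∀ ρ, 0 < γ ρ) ∧ Tendsto γ (𝓝[>] 0) (𝓝 0) ∧ ∀ ε : ℝ, 0 < ε → Dilute fun ρ N =>
      ∀ s : ℝ, γ ρ ≤ s → s ≤ 1 / 2 → ∀ ψ,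
      IsGapGround m R₀ (s * (ρ * a / (2 * m))) v N (side ρ N) ψ →
      |1 - condFraction N (side ρ N) ψ - Dg s * Real.sqrt (ρ * a ^ 3)|
        ≤ ε * Real.sqrt (ρ * a ^ 3) := by
  have ht : ∀ n : ℕ, 0 < 1 / ((n : ℝ) + 2) := fun n => by positivity
  have h' : ∀ n : ℕ, ∃ ρ₁ : ℝ, 0 < ρ₁ ∧ ∀ ρ : ℝ, 0 < ρ → ρ < ρ₁ → ∃ N₁ : ℕ, ∀ N : ℕ, N₁ ≤ N →
      ∀ s : ℝ, 1 / ((n : ℝ) + 2) ≤ s → s ≤ 1 / 2 → ∀ ψ,
      IsGapGround m R₀ (s * (ρ * a / (2 * m))) v N (side ρ N) ψ →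
      |1 - condFraction N (side ρ N) ψ - Dg s * Real.sqrt (ρ * a ^ 3)|
        ≤ 1 / ((n : ℝ) + 2) * Real.sqrt (ρ * a ^ 3) := fun n =>
    h (1 / ((n : ℝ) + 2)) (1 / ((n : ℝ) + 2)) (ht n) (ht n)
  choose r hr hrr using h'
  obtain ⟨γ, hγ⟩ : ∃ γ : ℝ → ℝ, γ = fun ρ => 1 / ((P25_M r ρ : ℝ) + 1) := ⟨_, rfl⟩
  have hγ0 : ∀ ρ, 0 < γ ρ := fun ρ => by
    rw [hγ]
    positivity
  refine ⟨γ, hγ0, ?_, ?_⟩
  · rw [Metric.tendsto_nhdsWithin_nhds]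
    intro ε hε
    obtain ⟨n, hn⟩ := exists_nat_one_div_lt hε
    obtain ⟨δ, hδ, hδP⟩ := P25_small hr n
    refine ⟨δ, hδ, fun ρ hρ hdist => ?_⟩
    have hρ0 : 0 < ρ := hρ
    rw [Real.dist_eq, sub_zero, abs_of_pos hρ0] at hdist
    have h1 := P25_above r hρ0 (hδP ρ hdist)
    rw [Real.dist_eq, sub_zero, abs_of_pos (hγ0 ρ), hγ]
    refine lt_of_le_of_lt ?_ hn
    have h2 : (n : ℝ) + 1 ≤ P25_M r ρ := by exact_mod_cast h1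
    refine one_div_le_one_div_of_le (by positivity) ?_
    linarith
  · intro ε hε
    obtain ⟨n, hn⟩ := exists_nat_one_div_lt hε
    obtain ⟨δ, hδ, hδP⟩ := P25_small hr n
    refine ⟨δ, hδ, fun ρ hρ hlt => ?_⟩
    have h1 := P25_above r hρ (hδP ρ hlt)
    obtain ⟨k, hk⟩ : ∃ k, P25_M r ρ = k + 1 := ⟨P25_M r ρ - 1, by omega⟩
    have hnk : n ≤ k := by omega
    have h2 : P25_P r ρ k := P25_below r (by omega)
    obtain ⟨N₁, hN₁⟩ := hrr k ρ hρ (h2 k le_rfl).1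
    refine ⟨N₁, fun N hN s hs hs1 ψ hψ => ?_⟩
    have hs' : 1 / ((k : ℝ) + 2) ≤ s := by
      refine le_trans (le_of_eq ?_) hs
      rw [hγ]
      simp only [hk]
      push_cast
      ring
    have h3 := hN₁ N hN s hs' hs1 ψ hψ
    have hkn : 1 / ((k : ℝ) + 2) ≤ 1 / ((n : ℝ) + 1) := by
      refine one_div_le_one_div_of_le (by positivity) ?_
      have : (n : ℝ) ≤ k := by exact_mod_cast hnk
      linarith
    exact h3.trans (mul_le_mul_of_nonneg_right ((hkn.trans hn.le)) (Real.sqrt_nonneg _))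

/-- The same, with the value of the depletion at the threshold. -/
theorem diag3 {m R₀ a : ℝ} {v : (Fin 3 → ℝ) → ℝ}
    (h : ∀ s₀ ε : ℝ, 0 < s₀ → 0 < ε → Dilute fun ρ N => ∀ s : ℝ, s₀ ≤ s → s ≤ 1 / 2 → ∀ ψ,
      IsGapGround m R₀ (s * (ρ * a / (2 * m))) v N (side ρ N) ψ →
      |1 - condFraction N (side ρ N) ψ - Dg s * Real.sqrt (ρ * a ^ 3)| ≤ ε * Real.sqrt (ρ * a ^ 3)) :
    ∃ γ : ℝ → ℝ, (∀ ρ, 0 < γ ρ) ∧ Tendsto γ (𝓝[>] 0) (𝓝 0) ∧ ∀ ε : ℝ, 0 < ε → Dilute fun ρ N =>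
      (∀ s : ℝ, γ ρ ≤ s → s ≤ 1 / 2 → ∀ ψ,
        IsGapGround m R₀ (s * (ρ * a / (2 * m))) v N (side ρ N) ψ →
        |1 - condFraction N (side ρ N) ψ - Dg s * Real.sqrt (ρ * a ^ 3)|
          ≤ ε * Real.sqrt (ρ * a ^ 3)) ∧
      ∀ ψ, IsGapGround m R₀ (γ ρ * (ρ * a / (2 * m))) v N (side ρ N) ψ →
        |1 - condFraction N (side ρ N) ψ - 8 / (3 * Real.sqrt Real.pi) * Real.sqrt (ρ * a ^ 3)|
          ≤ ε * Real.sqrt (ρ * a ^ 3) := by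
  obtain ⟨γ, hγ0, hγ, hlaw⟩ := diag2 h
  refine ⟨γ, hγ0, hγ, fun ε hε => ?_⟩
  have hγ' : Tendsto γ (𝓝[>] 0) (𝓝[>] 0) :=
    tendsto_nhdsWithin_iff.2 ⟨hγ, Eventually.of_forall fun ρ => hγ0 ρ⟩
  have hD := Dg_tendsto_zero.comp hγ'
  rw [Metric.tendsto_nhdsWithin_nhds] at hD
  obtain ⟨δ, hδ, hD⟩ := hD (ε / 2) (by linarith)
  rw [Metric.tendsto_nhdsWithin_nhds] at hγ
  obtain ⟨δ', hδ', hγ2⟩ := hγ (1 / 2) (by norm_num)
  refine ((hlaw (ε / 2) (by linarith)).and (Dilute.small (lt_min hδ hδ') 0)).mono ?_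
  rintro ρ N hρ ⟨h1, h2, -⟩
  have hd : dist ρ 0 < δ := by
    rw [Real.dist_eq, sub_zero, abs_of_pos hρ]
    exact h2.trans_le (min_le_left _ _)
  have hd' : dist ρ 0 < δ' := by
    rw [Real.dist_eq, sub_zero, abs_of_pos hρ]
    exact h2.trans_le (min_le_right _ _)
  have hZ : 0 ≤ Real.sqrt (ρ * a ^ 3) := Real.sqrt_nonneg _
  refine ⟨fun s hs hs1 ψ hψ => (h1 s hs hs1 ψ hψ).trans
    (mul_le_mul_of_nonneg_right (by linarith) hZ), fun ψ hψ => ?_⟩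
  have h3 : γ ρ ≤ 1 / 2 := by
    have h4 := hγ2 (x := ρ) hρ hd'
    rw [Real.dist_eq, sub_zero, abs_of_pos (hγ0 ρ)] at h4
    exact h4.le
  have h4 := h1 (γ ρ) le_rfl h3 ψ hψ
  have h5 := hD (x := ρ) hρ hd
  rw [Function.comp_apply, Real.dist_eq] at h5
  generalize Real.sqrt (ρ * a ^ 3) = Z at *
  generalize 8 / (3 * Real.sqrt Real.pi) = D0 at *
  have h6 : 1 - condFraction N (side ρ N) ψ - D0 * Z
      = (1 - condFraction N (side ρ N) ψ - Dg (γ ρ) * Z) + (Dg (γ ρ) - D0) * Z := by ring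
  rw [h6]
  refine (abs_add_le _ _).trans ?_
  have h7 : |(Dg (γ ρ) - D0) * Z| ≤ ε / 2 * Z := by
    rw [abs_mul, abs_of_nonneg hZ]
    exact mul_le_mul_of_nonneg_right h5.le hZ
  linarith

end Pool.Agent.Lib.MP_4952d6_mp.LG
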