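import Pool.Agent.Lib.MP_4952d6_mp.Pq.P23

/-!
# Pq.P27: the optimal relation between energy and condensate fraction; all gaps
-/

set_option autoImplicit false
set_option linter.unusedSectionVars false
set_option linter.unusedVariables false
open MeasureTheory Function Filter Topology Set
open scoped ENNReal

namespace Pool.Agent.Lib.MP_4952d6_mp.LG

open LA

/-- States of small energy have at least the depletion of the law. -/
theorem trade_low (hL : PLBStatement) {m R₀ R : ℝ}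
    {v : (Fin 3 → ℝ) → ℝ} (h : Phys m R₀ R v) {a : ℝ} (ha : a = scatLen m R₀ v) {s ε : ℝ}
    (hs : 0 ≤ s) (hs1 : s ≤ 1 / 2) (hε : 0 < ε) :
    ∃ η : ℝ, 0 < η ∧ Dilute fun ρ N => ∀ ψ : (Fin N → Fin 3 → ℝ) → ℂ,
      Admissible m R₀ v N (side ρ N) ψ →
      energy m v N (side ρ N) ψ ≤ ENNReal.ofReal (N * (2 * Real.pi / m * ρ * a
          * (1 + ((Jf s - s * Dg s) / (4 * Real.pi) + η) * Real.sqrt (ρ * a ^ 3)))) →
      (Dg s - ε) * Real.sqrt (ρ * a ^ 3) ≤ 1 - condFraction N (side ρ N) ψ := by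
  subst ha
  have hpi := Real.pi_pos
  have hm := h.hm
  obtain ⟨t, hst, ht1, htD⟩ := Dg_right hs (lt_min (half_pos hε) (by norm_num : (0:ℝ) < 1 / 2))
  have ht0 : 0 < t := by linarith
  have ht1' : t ≤ 1 := by
    have := min_le_right (ε / 2) (1 / 2)
    linarith
  have htD' : Dg s - ε / 2 ≤ Dg t := by
    have := min_le_left (ε / 2) (1 / 2)
    linarith
  have hε1 : 0 < ε * t / (16 * Real.pi) := by positivity
  have d1 : Dilute fun ρ N => ∀ ψ : (Fin N → Fin 3 → ℝ) → ℂ,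
        Admissible m R₀ v N (side ρ N) ψ →
        ENNReal.ofReal (N * (2 * Real.pi / m * ρ * scatLen m R₀ v
          * (1 + (Jf t / (4 * Real.pi) - ε * t / (16 * Real.pi)) *
            Real.sqrt (ρ * scatLen m R₀ v ^ 3))))
            ≤ gapEnergy m (t * (ρ * scatLen m R₀ v / (2 * m))) v N (side ρ N) ψ :=
    hL m R₀ R v h.hm h.hR0 h.hR h.hv h.hv0 h.hrad h.hsupp h.hgen t _ ht0 ht1' hε1
  refine ⟨ε * t / (16 * Real.pi), hε1, (d1.and (Dilute.small one_pos 1)).mono ?_⟩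
  rintro ρ N hρ ⟨h1, -, hN⟩ ψ hψ h3
  have ha := P23_a h
  have hcf := P23_cf hρ hN hψ
  have h4 := h1 ψ hψ
  have hN0 : (0 : ℝ) < N := by exact_mod_cast hN
  set a := scatLen m R₀ v with hadef
  set Z := Real.sqrt (ρ * a ^ 3) with hZ
  have hZ0 : 0 < Z := Real.sqrt_pos.2 (by positivity)
  have hJ := P23_JD hs
  have hJ0 := P23_J0n
  have hJs : 0 ≤ Jf s - s * Dg s := hJ0.trans hJ
  unfold gapEnergy at h4
  have h5 := h4.trans (add_le_add_left h3 _)
  rw [← ENNReal.ofReal_add (by positivity) (by positivity)] at h5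
  have h6 := (ENNReal.ofReal_le_ofReal_iff (by positivity)).1 h5
  have hq : 0 < (N : ℝ) * (2 * Real.pi / m * ρ * a) := by positivity
  have e1 : (N : ℝ) * (2 * Real.pi / m * ρ * a * (1 + (Jf t / (4 * Real.pi) -
      ε * t / (16 * Real.pi)) * Z)) = (N : ℝ) * (2 * Real.pi / m * ρ * a) *
      (1 + (Jf t / (4 * Real.pi) - ε * t / (16 * Real.pi)) * Z) := by ring
  have e2 : (N : ℝ) * (2 * Real.pi / m * ρ * a * (1 + ((Jf s - s * Dg s) / (4 * Real.pi) +
      ε * t / (16 * Real.pi)) * Z)) +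
      t * (ρ * a / (2 * m)) * (N * (1 - condFraction N (side ρ N) ψ)) =
      (N : ℝ) * (2 * Real.pi / m * ρ * a) *
      ((1 + ((Jf s - s * Dg s) / (4 * Real.pi) + ε * t / (16 * Real.pi)) * Z) +
        t / (4 * Real.pi) * (1 - condFraction N (side ρ N) ψ)) := by
    field_simp
    ring
  rw [e1, e2] at h6
  have h7 := le_of_mul_le_mul_left h6 hq
  have h8 : t / (4 * Real.pi) * ((Dg s - ε) * Z) ≤
      t / (4 * Real.pi) * (1 - condFraction N (side ρ N) ψ) := by
    have g1 := Jf_sub_ge hs hst.le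
    have g2 := Dg_anti hs hst.le
    have g3 : t * Dg t ≤ Jf t - (Jf s - s * Dg s) := by nlinarith
    have g4 : t * (Dg s - ε / 2) ≤ Jf t - (Jf s - s * Dg s) :=
      (mul_le_mul_of_nonneg_left htD' ht0.le).trans g3
    have g5 : t * (Dg s - ε / 2) / (4 * Real.pi) ≤ (Jf t - (Jf s - s * Dg s)) / (4 * Real.pi) :=
      div_le_div_of_nonneg_right g4 (by positivity)
    have g6 := mul_le_mul_of_nonneg_right g5 hZ0.le
    have e3 : (1 + (Jf t / (4 * Real.pi) - ε * t / (16 * Real.pi)) * Z) -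
        (1 + ((Jf s - s * Dg s) / (4 * Real.pi) + ε * t / (16 * Real.pi)) * Z)
        = (Jf t - (Jf s - s * Dg s)) / (4 * Real.pi) * Z - ε * t / (8 * Real.pi) * Z := by
      field_simp
      ring
    have e4 : t / (4 * Real.pi) * ((Dg s - ε) * Z)
        = t * (Dg s - ε / 2) / (4 * Real.pi) * Z - ε * t / (8 * Real.pi) * Z := by
      field_simp
      ring
    linarith
  exact le_of_mul_le_mul_left h8 (by positivity)

/-- and this is optimal -/
theorem trade_up (hU : PUBStatement) {m R₀ R : ℝ}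
    {v : (Fin 3 → ℝ) → ℝ} (h : Phys m R₀ R v) {a : ℝ} (ha : a = scatLen m R₀ v) {s ε : ℝ}
    (hs : 0 ≤ s) (hs1 : s ≤ 1 / 2) (hε : 0 < ε) :
    Dilute fun ρ N => ∃ ψ : (Fin N → Fin 3 → ℝ) → ℂ, Admissible m R₀ v N (side ρ N) ψ ∧
      energy m v N (side ρ N) ψ ≤ ENNReal.ofReal (N * (2 * Real.pi / m * ρ * a
          * (1 + ((Jf s - s * Dg s) / (4 * Real.pi) + ε) * Real.sqrt (ρ * a ^ 3)))) ∧
      1 - condFraction N (side ρ N) ψ ≤ (Dg s + ε) * Real.sqrt (ρ * a ^ 3) := by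
  subst ha
  rcases hs.eq_or_lt with h0 | h0
  · subst h0
    have h1 := P23_up hU h hε
    simp only [Dg_zero, zero_mul, sub_zero]
    exact h1
  · exact hU m R₀ R v h.hm h.hR0 h.hR h.hv h.hv0 h.hrad h.hsupp h.hgen s ε h0 (by linarith) hε

/-- The depletion for all gaps. -/
theorem bec2 (hU : PUBStatement) (hX : PEXStatement) {m R₀ R : ℝ}
    {v : (Fin 3 → ℝ) → ℝ} (h : Phys m R₀ R v) {a : ℝ} (ha : a = scatLen m R₀ v) {ε : ℝ}
    (hε : 0 < ε) :
    Dilute fun ρ N => ∀ g : ℝ, 0 < g → (∃ ψ, IsGapGround m R₀ g v N (side ρ N) ψ) ∧ ∀ ψ,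
      IsGapGround m R₀ g v N (side ρ N) ψ → 1 - condFraction N (side ρ N) ψ
        ≤ (8 / (3 * Real.sqrt Real.pi) + ε * (1 + ρ * a / (m * g))) * Real.sqrt (ρ * a ^ 3) := by
  subst ha
  have hpi := Real.pi_pos
  have hm := h.hm
  have ha := P23_a h
  have hε1 : 0 < ε / (4 * Real.pi) := by positivity
  refine (((P23_up hU h hε1).and (P23_lb0 h hε1)).and (Dilute.small one_pos 1)).mono ?_
  rintro ρ N hρ ⟨⟨⟨φ, hφ, h1, h2⟩, h3⟩, -, hN⟩ g hg0
  refine ⟨hX N m R₀ g (side ρ N) v h.hm (side_pos hρ hN) h.hR0 hg0.le hN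
    h.hv.aestronglyMeasurable.aemeasurable ⟨φ, hφ⟩, ?_⟩
  rintro ψ ⟨hψ, h4⟩
  have hN0 : (0 : ℝ) < N := by exact_mod_cast hN
  have h5 := h3 ψ hψ
  have h6 := h4 φ hφ
  have hcf := P23_cf hρ hN hψ
  have hcf' := P23_cf hρ hN hφ
  set a := scatLen m R₀ v with hadef
  set Z := Real.sqrt (ρ * a ^ 3) with hZ
  have hZ0 : 0 < Z := Real.sqrt_pos.2 (by positivity)
  set e := ε / (4 * Real.pi) with he
  have hJ0 := P23_J0n
  unfold gapEnergy at h6
  have h7 : ENNReal.ofReal (N * (2 * Real.pi / m * ρ * a * (1 + (Jf 0 / (4 * Real.pi) - e) * Z)) +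
      g * (N * (1 - condFraction N (side ρ N) ψ))) ≤
      ENNReal.ofReal (N * (2 * Real.pi / m * ρ * a * (1 + (Jf 0 / (4 * Real.pi) + e) * Z)) +
      g * (N * (1 - condFraction N (side ρ N) φ))) := by
    rw [ENNReal.ofReal_add (p := N * (2 * Real.pi / m * ρ * a *
      (1 + (Jf 0 / (4 * Real.pi) + e) * Z))) (by positivity) (by positivity)]
    refine ENNReal.ofReal_add_le.trans ((add_le_add_left h5 _).trans (h6.trans ?_))
    exact add_le_add_left h1 _
  have h8 := (ENNReal.ofReal_le_ofReal_iff (by positivity)).1 h7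
  have h9 : g * N * (1 - condFraction N (side ρ N) ψ) ≤
      g * N * ((8 / (3 * Real.sqrt Real.pi) + ε * (1 + ρ * a / (m * g))) * Z) := by
    have h10 : g * N * (1 - condFraction N (side ρ N) φ)
        ≤ g * N * ((8 / (3 * Real.sqrt Real.pi) + e) * Z) :=
      mul_le_mul_of_nonneg_left h2 (by positivity)
    have e1 : (N : ℝ) * (2 * Real.pi / m * ρ * a * (1 + (Jf 0 / (4 * Real.pi) + e) * Z)) -
        N * (2 * Real.pi / m * ρ * a * (1 + (Jf 0 / (4 * Real.pi) - e) * Z)) =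
        g * N * (ε * (ρ * a / (m * g)) * Z) := by
      rw [he]
      field_simp
      ring
    have h11 : e ≤ ε := by
      rw [he]
      refine div_le_self hε.le ?_
      have := Real.pi_gt_three
      linarith
    have h12 : g * N * ((8 / (3 * Real.sqrt Real.pi) + e) * Z)
        ≤ g * N * ((8 / (3 * Real.sqrt Real.pi) + ε) * Z) := by gcongr
    have e2 : g * N * ((8 / (3 * Real.sqrt Real.pi) + ε * (1 + ρ * a / (m * g))) * Z)
        = g * N * ((8 / (3 * Real.sqrt Real.pi) + ε) * Z) + g * N * (ε * (ρ * a / (m * g)) * Z) := by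
      ring
    rw [e2]
    linarith
  exact le_of_mul_le_mul_left h9 (by positivity)

end Pool.Agent.Lib.MP_4952d6_mp.LG
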