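import Pool.Agent.Lib.MP_4952d6_mp.Pq.P16
import Pool.Agent.Lib.MP_4952d6_mp.Pq.P17
import Pool.Agent.Lib.MP_4952d6_mp.Pq.P18
import Pool.Agent.Lib.MP_4952d6_mp.Pq.P21
import Pool.Agent.Lib.MP_4952d6_mp.Pq.P22
import Pool.Agent.Lib.MP_4952d6_mp.Pq.P27
import Pool.Agent.Lib.MP_4952d6_mp.Pq.P24
import Pool.Agent.Lib.MP_4952d6_mp.Pq.P26

/-!
# Pq.P20: assembly
-/

set_option autoImplicit false
set_option linter.unusedSectionVars false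
set_option linter.unusedVariables false
open MeasureTheory Function Filter Topology Set
open scoped ENNReal

namespace Pool.Agent.Lib.MP_4952d6_mp.LG

open LA

theorem pub_statement : PUBStatement := pub_of ug_statement

theorem plb_statement : PLBStatement := plb_of (lbg_torus ug_statement tg_statement)

/-- **The laws of the gas with a gap**, final form. -/
theorem gap_full {m R₀ R' : ℝ} {v : (Fin 3 → ℝ) → ℝ} (hm : 0 < m) (hR0 : 0 ≤ R₀) (hv : Integrable v)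
    (hv0 : ∀ x, 0 ≤ v x) (hrad : ∀ x y : Fin 3 → ℝ, ∑ α, x α ^ 2 = ∑ α, y α ^ 2 → v x = v y)
    (hsupp' : ∀ x : Fin 3 → ℝ, R' ^ 2 ≤ ∑ α, x α ^ 2 → v x = 0) (hgen : 0 < R₀ ∨ 0 < ∫ x, v x)
    {a : ℝ} (ha : a = scatLen m R₀ v) :
    0 < a ∧
    (∀ ε : ℝ, 0 < ε → Dilute fun ρ N => ∀ s : ℝ, 0 ≤ s → s ≤ 1 / 2 →
      (∃ ψ, IsGapGround m R₀ (s * (ρ * a / (2 * m))) v N (side ρ N) ψ) ∧
      ∀ ψ, IsGapGround m R₀ (s * (ρ * a / (2 * m))) v N (side ρ N) ψ →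
        gapEnergy m (s * (ρ * a / (2 * m))) v N (side ρ N) ψ ≠ ⊤ ∧
        |(gapEnergy m (s * (ρ * a / (2 * m))) v N (side ρ N) ψ).toReal / N
            - 2 * Real.pi * ρ * a / m * (1 + Jf s / (4 * Real.pi) * Real.sqrt (ρ * a ^ 3))|
          ≤ ε * (2 * Real.pi * ρ * a / m * Real.sqrt (ρ * a ^ 3))) ∧
    (∃ γ : ℝ → ℝ, (∀ ρ, 0 < γ ρ) ∧ Tendsto γ (𝓝[>] 0) (𝓝 0) ∧ ∀ ε : ℝ, 0 < ε → Dilute fun ρ N =>
      (∀ s : ℝ, γ ρ ≤ s → s ≤ 1 / 2 → ∀ ψ,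
        IsGapGround m R₀ (s * (ρ * a / (2 * m))) v N (side ρ N) ψ →
        |1 - condFraction N (side ρ N) ψ - Dg s * Real.sqrt (ρ * a ^ 3)|
          ≤ ε * Real.sqrt (ρ * a ^ 3)) ∧
      ∀ ψ, IsGapGround m R₀ (γ ρ * (ρ * a / (2 * m))) v N (side ρ N) ψ →
        |1 - condFraction N (side ρ N) ψ - 8 / (3 * Real.sqrt Real.pi) * Real.sqrt (ρ * a ^ 3)|
          ≤ ε * Real.sqrt (ρ * a ^ 3)) ∧
    (∀ ε : ℝ, 0 < ε → Dilute fun ρ N => ∀ g : ℝ, 0 < g →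
      (∃ ψ, IsGapGround m R₀ g v N (side ρ N) ψ) ∧ ∀ ψ,
      IsGapGround m R₀ g v N (side ρ N) ψ → 1 - condFraction N (side ρ N) ψ
        ≤ (8 / (3 * Real.sqrt Real.pi) + ε * (1 + ρ * a / (m * g))) * Real.sqrt (ρ * a ^ 3)) ∧
    (∀ s ε : ℝ, 0 ≤ s → s ≤ 1 / 2 → 0 < ε →
      ∃ η : ℝ, 0 < η ∧ Dilute fun ρ N => ∀ ψ : (Fin N → Fin 3 → ℝ) → ℂ,
      Admissible m R₀ v N (side ρ N) ψ →
      energy m v N (side ρ N) ψ ≤ ENNReal.ofReal (N * (2 * Real.pi / m * ρ * a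
          * (1 + ((Jf s - s * Dg s) / (4 * Real.pi) + η) * Real.sqrt (ρ * a ^ 3)))) →
      (Dg s - ε) * Real.sqrt (ρ * a ^ 3) ≤ 1 - condFraction N (side ρ N) ψ) ∧
    (∀ s ε : ℝ, 0 ≤ s → s ≤ 1 / 2 → 0 < ε →
      Dilute fun ρ N => ∃ ψ : (Fin N → Fin 3 → ℝ) → ℂ, Admissible m R₀ v N (side ρ N) ψ ∧
      energy m v N (side ρ N) ψ ≤ ENNReal.ofReal (N * (2 * Real.pi / m * ρ * a
          * (1 + ((Jf s - s * Dg s) / (4 * Real.pi) + ε) * Real.sqrt (ρ * a ^ 3)))) ∧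
      1 - condFraction N (side ρ N) ψ ≤ (Dg s + ε) * Real.sqrt (ρ * a ^ 3)) := by
  obtain ⟨R, hR, hsupp⟩ : ∃ R : ℝ, R₀ < R ∧ ∀ x : Fin 3 → ℝ, R ^ 2 ≤ ∑ α, x α ^ 2 → v x = 0 :=
    ⟨|R'| + R₀ + 1, by linarith [abs_nonneg R'], fun x hx => hsupp' x (le_trans (by
      rw [← sq_abs R']
      exact pow_le_pow_left₀ (abs_nonneg R') (by linarith) 2) hx)⟩
  have hP : Phys m R₀ R v := ⟨hm, hR0, hR, hv, hv0, hrad, hsupp, hgen⟩
  have ha0 : 0 < a := by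
    rw [ha]
    exact (O.F4_trunc hm hR0 hR hv hv0 hrad hsupp hgen).1
  have hLaw : LawPt m R₀ a v := by
    rw [ha]
    exact law_pt plb_statement pub_statement pex_statement hP
  have hEn : EnPt m R₀ a v := by
    rw [ha]
    exact en_pt plb_statement pub_statement pex_statement hP
  have hU : ∀ s₀ ε : ℝ, 0 < s₀ → 0 < ε → Dilute fun ρ N => ∀ s : ℝ, s₀ ≤ s → s ≤ 1 / 2 → ∀ ψ,
      IsGapGround m R₀ (s * (ρ * a / (2 * m))) v N (side ρ N) ψ →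
      |1 - condFraction N (side ρ N) ψ - Dg s * Real.sqrt (ρ * a ^ 3)| ≤ ε * Real.sqrt (ρ * a ^ 3) :=
    fun s₀ ε hs hε => law_unif hm ha0 hLaw hEn hs hε
  exact ⟨ha0, fun ε hε => en_unif hm hR0 ha0 hv.aestronglyMeasurable.aemeasurable pex_statement hEn hε,
    diag3 hU, fun ε hε => bec2 pub_statement pex_statement hP ha hε,
    fun s ε hs hs1 hε => trade_low plb_statement hP ha hs hs1 hε,
    fun s ε hs hs1 hε => trade_up pub_statement hP ha hs hs1 hε⟩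

end Pool.Agent.Lib.MP_4952d6_mp.LG
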