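import Pool.Agent.Lib.MP_4952d6_mp.Pq.P19

/-!
# Pq.P23: almost minimisers; condensation with a very small gap

Elementary. Fix `ρ, N`; `Z = √(ρ a³)`, `e₀ = 2 π ρ a / m`; for an admissible `ψ` (finite energy) put `energy ψ = N e₀ (1 + y Z / (4 π))`, `x = (1 - cf) / Z ≥ 0`.
Then `gapEnergy m (s ρ a / (2 m)) ψ = N e₀ (1 + (y + s x) Z / (4 π))` and
* (LB) `PLBStatement`: `Jf s - ε ≤ y + s x` for all `ψ`, `0 < s ≤ 1`; also for `s = 0` by `O.een_final` (`Jf 0 = 4 π · 128 / (15 √π)`, `O.FE2_c`, `Jf_zero_eq`);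
* (UB) `PUBStatement`: a state `φ` with `y ≤ Jf s - s Dg s + ε`, `x ≤ Dg s + ε`.
`near_low`: `y ≤ y φ + 4 π η..`; UB and LB at the same small `s`: `s x ≥ s Dg s - 8 π ε₁ - 2 η`.
`near_up`: UB at small `s` and (LB) at `0` (`O.een_final`).   `bec`: `g N (1 - cf ψ) ≤ energy φ - energy ψ + g N (1 - cf φ)`, `φ` from UB at small `s`, `energy ψ` from below by `O.een_final`.
-/

set_option autoImplicit false
set_option linter.unusedSectionVars false
set_option linter.unusedVariables false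
open MeasureTheory Function Filter Topology Set
open scoped ENNReal

namespace Pool.Agent.Lib.MP_4952d6_mp.LG

open LA

theorem P23_cf {m R₀ : ℝ} {v : (Fin 3 → ℝ) → ℝ} {ρ : ℝ} (hρ : 0 < ρ) {N : ℕ} (hN : 1 ≤ N)
    {ψ : (Fin N → Fin 3 → ℝ) → ℂ} (h : Admissible m R₀ v N (side ρ N) ψ) :
    0 ≤ 1 - condFraction N (side ρ N) ψ := by
  rw [condFraction_eq hN (side_pos hρ hN) h]
  have : 0 ≤ (∑ i, nuQ (fc (TT N (side ρ N) ψ)) i) / N :=
    div_nonneg (Finset.sum_nonneg fun i _ => nuQ_nonneg _ _) (Nat.cast_nonneg _)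
  linarith

theorem P23_a {m R₀ R : ℝ} {v : (Fin 3 → ℝ) → ℝ} (h : Phys m R₀ R v) : 0 < scatLen m R₀ v :=
  (O.een_final m R₀ R v h.hm h.hR0 h.hv h.hv0 h.hrad h.hsupp h.hgen).1

theorem P23_J0 : Jf 0 / (4 * Real.pi) = 128 / (15 * Real.sqrt Real.pi) := by
  have hpi := Real.pi_pos
  rw [Jf_zero_eq, ← O.FE2_c]
  field_simp

/-- lower bound of the energy of all states -/
theorem P23_lb0 {m R₀ R : ℝ} {v : (Fin 3 → ℝ) → ℝ} (h : Phys m R₀ R v) {ε : ℝ} (hε : 0 < ε) :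
    Dilute fun ρ N => ∀ ψ : (Fin N → Fin 3 → ℝ) → ℂ, Admissible m R₀ v N (side ρ N) ψ →
      ENNReal.ofReal (N * (2 * Real.pi / m * ρ * scatLen m R₀ v
          * (1 + (Jf 0 / (4 * Real.pi) - ε) * Real.sqrt (ρ * scatLen m R₀ v ^ 3))))
            ≤ energy m v N (side ρ N) ψ := by
  obtain ⟨-, h1⟩ := O.een_final m R₀ R v h.hm h.hR0 h.hv h.hv0 h.hrad h.hsupp h.hgen
  obtain ⟨ρ₁, hρ₁, h2⟩ := h1 ε hε
  refine ⟨ρ₁, hρ₁, fun ρ hρ hlt => ?_⟩
  obtain ⟨N₁, h3⟩ := h2 ρ hρ hlt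
  refine ⟨N₁, fun N hN ψ hψ => ?_⟩
  obtain ⟨⟨ψ₀, hψ₀⟩, h4⟩ := h3 N hN
  have h5 := (h4 ψ₀ hψ₀).1
  rw [P23_J0]
  exact h5.trans (hψ₀.2 ψ hψ)

theorem P23_real {A B C D : ℝ} {x y : ℝ≥0∞} (h1 : ENNReal.ofReal A ≤ x + ENNReal.ofReal B)
    (h2 : x ≤ y + ENNReal.ofReal C) (h3 : y ≤ ENNReal.ofReal D) (hB : 0 ≤ B) (hC : 0 ≤ C)
    (hD : 0 ≤ D) : A ≤ D + C + B := by
  have h4 : ENNReal.ofReal A ≤ ENNReal.ofReal (D + C + B) := by
    rw [ENNReal.ofReal_add (by positivity) hB, ENNReal.ofReal_add hD hC]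
    exact h1.trans (add_le_add_left (h2.trans (add_le_add_left h3 _)) _)
  exact (ENNReal.ofReal_le_ofReal_iff (by positivity)).1 h4

theorem P23_JD {s : ℝ} (hs : 0 ≤ s) : Jf 0 ≤ Jf s - s * Dg s := by
  have h := Jf_support hs (le_refl (0 : ℝ))
  linarith

theorem P23_J0n : 0 ≤ Jf 0 := by
  rw [Jf_zero_eq]
  positivity

/-- almost minimisers have at least the depletion of the law -/
theorem near_low (hL : PLBStatement) (hU : PUBStatement) {m R₀ R : ℝ}
    {v : (Fin 3 → ℝ) → ℝ} (h : Phys m R₀ R v) {a : ℝ} (ha : a = scatLen m R₀ v) {ε : ℝ} (hε : 0 < ε) :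
    ∃ η : ℝ, 0 < η ∧ Dilute fun ρ N => ∀ ψ,
      IsNear m R₀ (η * (N * (ρ * a / m) * Real.sqrt (ρ * a ^ 3))) v N (side ρ N) ψ →
      (8 / (3 * Real.sqrt Real.pi) - ε) * Real.sqrt (ρ * a ^ 3) ≤ 1 - condFraction N (side ρ N) ψ := by
  subst ha
  have hpi := Real.pi_pos
  have hm := h.hm
  obtain ⟨s, hs, hs1, hsD⟩ := Dg_right (le_refl (0 : ℝ)) (lt_min (half_pos hε) one_pos)
  rw [Dg_zero] at hsD
  have hs1' : s ≤ 1 := hs1.trans (by rw [zero_add]; exact min_le_right _ _)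
  have hsD' : 8 / (3 * Real.sqrt Real.pi) - ε / 2 ≤ Dg s := by
    have := min_le_left (ε / 2) 1
    linarith
  have hε1 : 0 < ε * s / (32 * Real.pi) := by positivity
  have d1 : Dilute fun ρ N => ∀ ψ : (Fin N → Fin 3 → ℝ) → ℂ,
        Admissible m R₀ v N (side ρ N) ψ →
        ENNReal.ofReal (N * (2 * Real.pi / m * ρ * scatLen m R₀ v
          * (1 + (Jf s / (4 * Real.pi) - ε * s / (32 * Real.pi)) *
            Real.sqrt (ρ * scatLen m R₀ v ^ 3))))
            ≤ gapEnergy m (s * (ρ * scatLen m R₀ v / (2 * m))) v N (side ρ N) ψ :=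
    hL m R₀ R v h.hm h.hR0 h.hR h.hv h.hv0 h.hrad h.hsupp h.hgen s _ hs hs1' hε1
  have d2 : Dilute fun ρ N => ∃ φ : (Fin N → Fin 3 → ℝ) → ℂ,
        Admissible m R₀ v N (side ρ N) φ ∧
        energy m v N (side ρ N) φ ≤ ENNReal.ofReal (N * (2 * Real.pi / m * ρ * scatLen m R₀ v
          * (1 + ((Jf s - s * Dg s) / (4 * Real.pi) + ε * s / (32 * Real.pi)) *
            Real.sqrt (ρ * scatLen m R₀ v ^ 3)))) ∧
        1 - condFraction N (side ρ N) φ ≤ (Dg s + ε * s / (32 * Real.pi)) *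
          Real.sqrt (ρ * scatLen m R₀ v ^ 3) :=
    hU m R₀ R v h.hm h.hR0 h.hR h.hv h.hv0 h.hrad h.hsupp h.hgen s _ hs hs1' hε1
  refine ⟨ε * s / 8, by positivity, ((d1.and d2).and (Dilute.small one_pos 1)).mono ?_⟩
  rintro ρ N hρ ⟨⟨h1, φ, hφ, h2, -⟩, -, hN⟩ ψ ⟨hψ, h3⟩
  have ha := P23_a h
  have hcf := P23_cf hρ hN hψ
  have h4 := h1 ψ hψ
  have h5 := h3 φ hφ
  have hN0 : (0 : ℝ) < N := by exact_mod_cast hN
  set a := scatLen m R₀ v with hadef
  set Z := Real.sqrt (ρ * a ^ 3) with hZ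
  have hZ0 : 0 < Z := Real.sqrt_pos.2 (by positivity)
  have hJ := P23_JD hs.le
  have hJ0 := P23_J0n
  unfold gapEnergy at h4
  have h6 := P23_real h4 h5 h2 (by positivity) (by positivity) (by
    have : 0 ≤ Jf s - s * Dg s := hJ0.trans hJ
    positivity)
  -- divide by `N (2 π / m) ρ a`
  have hq : 0 < (N : ℝ) * (2 * Real.pi / m * ρ * a) := by positivity
  have e1 : (N : ℝ) * (2 * Real.pi / m * ρ * a * (1 + (Jf s / (4 * Real.pi) -
      ε * s / (32 * Real.pi)) * Z)) = (N : ℝ) * (2 * Real.pi / m * ρ * a) *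
      (1 + (Jf s / (4 * Real.pi) - ε * s / (32 * Real.pi)) * Z) := by ring
  have e2 : (N : ℝ) * (2 * Real.pi / m * ρ * a * (1 + ((Jf s - s * Dg s) / (4 * Real.pi) +
      ε * s / (32 * Real.pi)) * Z)) + ε * s / 8 * (N * (ρ * a / m) * Z) +
      s * (ρ * a / (2 * m)) * (N * (1 - condFraction N (side ρ N) ψ)) =
      (N : ℝ) * (2 * Real.pi / m * ρ * a) *
      ((1 + ((Jf s - s * Dg s) / (4 * Real.pi) + ε * s / (32 * Real.pi)) * Z) +
        ε * s / (16 * Real.pi) * Z + s / (4 * Real.pi) * (1 - condFraction N (side ρ N) ψ)) := by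
    field_simp
    ring
  rw [e1, e2] at h6
  have h7 := le_of_mul_le_mul_left h6 hq
  have h8 : s / (4 * Real.pi) * ((8 / (3 * Real.sqrt Real.pi) - ε) * Z) ≤
      s / (4 * Real.pi) * (1 - condFraction N (side ρ N) ψ) := by
    have e3 : (1 + (Jf s / (4 * Real.pi) - ε * s / (32 * Real.pi)) * Z) -
        ((1 + ((Jf s - s * Dg s) / (4 * Real.pi) + ε * s / (32 * Real.pi)) * Z) +
        ε * s / (16 * Real.pi) * Z) = s / (4 * Real.pi) * ((Dg s - ε / 2) * Z) := by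
      field_simp
      ring
    have h9 : s / (4 * Real.pi) * ((8 / (3 * Real.sqrt Real.pi) - ε) * Z) ≤
        s / (4 * Real.pi) * ((Dg s - ε / 2) * Z) := by
      refine mul_le_mul_of_nonneg_left (mul_le_mul_of_nonneg_right ?_ hZ0.le) (by positivity)
      linarith
    linarith
  exact le_of_mul_le_mul_left h8 (by positivity)

/-- upper bound for the trial state with a small parameter -/
theorem P23_up (hU : PUBStatement) {m R₀ R : ℝ} {v : (Fin 3 → ℝ) → ℝ} (h : Phys m R₀ R v)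
    {ε : ℝ} (hε : 0 < ε) :
    Dilute fun ρ N => ∃ φ : (Fin N → Fin 3 → ℝ) → ℂ,
        Admissible m R₀ v N (side ρ N) φ ∧
        energy m v N (side ρ N) φ ≤ ENNReal.ofReal (N * (2 * Real.pi / m * ρ * scatLen m R₀ v
          * (1 + (Jf 0 / (4 * Real.pi) + ε) * Real.sqrt (ρ * scatLen m R₀ v ^ 3)))) ∧
        1 - condFraction N (side ρ N) φ ≤ (8 / (3 * Real.sqrt Real.pi) + ε) *
          Real.sqrt (ρ * scatLen m R₀ v ^ 3) := by
  have hpi := Real.pi_pos
  have hD0 := Dg_pos (le_refl (0 : ℝ))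
  obtain ⟨s, hs, hs1, hsε⟩ : ∃ s : ℝ, 0 < s ∧ s ≤ 1 ∧ s * Dg 0 ≤ 2 * Real.pi * ε := by
    refine ⟨min 1 (2 * Real.pi * ε / Dg 0), lt_min one_pos (by positivity), min_le_left _ _, ?_⟩
    have h1 := min_le_right 1 (2 * Real.pi * ε / Dg 0)
    have h2 := mul_le_mul_of_nonneg_right h1 hD0.le
    rwa [div_mul_cancel₀ _ hD0.ne'] at h2
  have d2 : Dilute fun ρ N => ∃ φ : (Fin N → Fin 3 → ℝ) → ℂ,
        Admissible m R₀ v N (side ρ N) φ ∧
        energy m v N (side ρ N) φ ≤ ENNReal.ofReal (N * (2 * Real.pi / m * ρ * scatLen m R₀ v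
          * (1 + ((Jf s - s * Dg s) / (4 * Real.pi) + ε / 2) *
            Real.sqrt (ρ * scatLen m R₀ v ^ 3)))) ∧
        1 - condFraction N (side ρ N) φ ≤ (Dg s + ε / 2) *
          Real.sqrt (ρ * scatLen m R₀ v ^ 3) :=
    hU m R₀ R v h.hm h.hR0 h.hR h.hv h.hv0 h.hrad h.hsupp h.hgen s _ hs hs1 (half_pos hε)
  refine (d2.and (Dilute.small one_pos 1)).mono ?_
  rintro ρ N hρ ⟨⟨φ, hφ, h2, h3⟩, -, hN⟩
  have ha := P23_a h
  have hm := h.hm
  have hN0 : (0 : ℝ) < N := by exact_mod_cast hN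
  have hZ0 : 0 ≤ Real.sqrt (ρ * scatLen m R₀ v ^ 3) := Real.sqrt_nonneg _
  refine ⟨φ, hφ, h2.trans (ENNReal.ofReal_le_ofReal ?_), h3.trans ?_⟩
  · refine mul_le_mul_of_nonneg_left (mul_le_mul_of_nonneg_left ?_ (by positivity)) hN0.le
    have h4 : (Jf s - s * Dg s) / (4 * Real.pi) + ε / 2 ≤ Jf 0 / (4 * Real.pi) + ε := by
      have h5 := Jf_sub_le (le_refl (0 : ℝ)) hs.le
      have h6 := mul_nonneg hs.le (Dg_nonneg hs.le)
      have h7 : (Jf s - s * Dg s) / (4 * Real.pi) ≤ Jf 0 / (4 * Real.pi) + ε / 2 := by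
        rw [div_add' _ _ _ (by positivity), div_le_div_iff_of_pos_right (by positivity)]
        linarith
      linarith
    have h8 := mul_le_mul_of_nonneg_right h4 hZ0
    linarith
  · refine mul_le_mul_of_nonneg_right ?_ hZ0
    have := Dg_le hs.le
    linarith

/-- and for some of them this is sharp -/
theorem near_up (hU : PUBStatement) {m R₀ R : ℝ}
    {v : (Fin 3 → ℝ) → ℝ} (h : Phys m R₀ R v) {a : ℝ} (ha : a = scatLen m R₀ v) {ε η : ℝ} (hε : 0 < ε)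
    (hη : 0 < η) :
    Dilute fun ρ N => ∃ ψ,
      IsNear m R₀ (η * (N * (ρ * a / m) * Real.sqrt (ρ * a ^ 3))) v N (side ρ N) ψ ∧
      1 - condFraction N (side ρ N) ψ ≤ (8 / (3 * Real.sqrt Real.pi) + ε) * Real.sqrt (ρ * a ^ 3) := by
  subst ha
  have hpi := Real.pi_pos
  have hm := h.hm
  have hε1 : 0 < min ε (η / (4 * Real.pi)) := lt_min hε (by positivity)
  refine (((P23_up hU h hε1).and (P23_lb0 h hε1)).and (Dilute.small one_pos 1)).mono ?_
  rintro ρ N hρ ⟨⟨⟨φ, hφ, h1, h2⟩, h3⟩, -, hN⟩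
  have ha := P23_a h
  have hN0 : (0 : ℝ) < N := by exact_mod_cast hN
  have hZ0 : 0 ≤ Real.sqrt (ρ * scatLen m R₀ v ^ 3) := Real.sqrt_nonneg _
  refine ⟨φ, ⟨hφ, fun χ hχ => ?_⟩, h2.trans (mul_le_mul_of_nonneg_right ?_ hZ0)⟩
  · have h4 := h3 χ hχ
    have h5 : (N : ℝ) * (2 * Real.pi / m * ρ * scatLen m R₀ v
          * (1 + (Jf 0 / (4 * Real.pi) + min ε (η / (4 * Real.pi))) *
            Real.sqrt (ρ * scatLen m R₀ v ^ 3))) ≤
        N * (2 * Real.pi / m * ρ * scatLen m R₀ v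
          * (1 + (Jf 0 / (4 * Real.pi) - min ε (η / (4 * Real.pi))) *
            Real.sqrt (ρ * scatLen m R₀ v ^ 3))) +
        η * (N * (ρ * scatLen m R₀ v / m) * Real.sqrt (ρ * scatLen m R₀ v ^ 3)) := by
      have e : η * (N * (ρ * scatLen m R₀ v / m) * Real.sqrt (ρ * scatLen m R₀ v ^ 3)) =
          N * (2 * Real.pi / m * ρ * scatLen m R₀ v *
            (2 * (η / (4 * Real.pi)) * Real.sqrt (ρ * scatLen m R₀ v ^ 3))) := by
        field_simp
        ring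
      rw [e, ← mul_add, ← mul_add]
      refine mul_le_mul_of_nonneg_left (mul_le_mul_of_nonneg_left ?_ (by positivity)) hN0.le
      have h6 := mul_le_mul_of_nonneg_right (min_le_right ε (η / (4 * Real.pi))) hZ0
      linarith
    refine h1.trans ((ENNReal.ofReal_le_ofReal h5).trans (ENNReal.ofReal_add_le.trans ?_))
    exact add_le_add_left h4 _
  · have := min_le_left ε (η / (4 * Real.pi))
    linarith

/-- Bose-Einstein condensation with a gap below the energy scale of the correction term -/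
theorem bec (hU : PUBStatement) {m R₀ R : ℝ}
    {v : (Fin 3 → ℝ) → ℝ} (h : Phys m R₀ R v) {a : ℝ} (ha : a = scatLen m R₀ v) {c ε : ℝ} (hc : 0 < c)
    (hε : 0 < ε) :
    Dilute fun ρ N => ∀ g : ℝ, c * (ρ * a / m * Real.sqrt (ρ * a ^ 3)) ≤ g → ∀ ψ,
      IsGapGround m R₀ g v N (side ρ N) ψ → 1 - condFraction N (side ρ N) ψ ≤ ε := by
  subst ha
  have hpi := Real.pi_pos
  have hm := h.hm
  have ha := P23_a h
  have hD0 : 0 < 8 / (3 * Real.sqrt Real.pi) := by positivity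
  have hε1 : 0 < min 1 (c * ε / (8 * Real.pi)) := lt_min one_pos (by positivity)
  obtain ⟨r, hr⟩ : ∃ r : ℝ, r = (ε / (2 * (8 / (3 * Real.sqrt Real.pi) + 1))) ^ 2 /
    scatLen m R₀ v ^ 3 := ⟨_, rfl⟩
  have hr0 : 0 < r := by rw [hr]; positivity
  refine (((P23_up hU h hε1).and (P23_lb0 h hε1)).and (Dilute.small hr0 1)).mono ?_
  rintro ρ N hρ ⟨⟨⟨φ, hφ, h1, h2⟩, h3⟩, hρr, hN⟩ g hg ψ ⟨hψ, h4⟩
  have hN0 : (0 : ℝ) < N := by exact_mod_cast hN
  have h5 := h3 ψ hψ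
  have h6 := h4 φ hφ
  have hcf := P23_cf hρ hN hψ
  have hcf' := P23_cf hρ hN hφ
  have hZr : Real.sqrt (ρ * scatLen m R₀ v ^ 3) ≤
      ε / (2 * (8 / (3 * Real.sqrt Real.pi) + 1)) := by
    refine Real.sqrt_le_iff.2 ⟨by positivity, ?_⟩
    rw [hr, lt_div_iff₀ (by positivity)] at hρr
    exact hρr.le
  set a := scatLen m R₀ v with hadef
  set Z := Real.sqrt (ρ * a ^ 3) with hZ
  have hZ0 : 0 < Z := Real.sqrt_pos.2 (by positivity)
  have hg0 : 0 < g := lt_of_lt_of_le (by positivity) hg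
  set e := min 1 (c * ε / (8 * Real.pi)) with he
  have hJ0 := P23_J0n
  unfold gapEnergy at h6
  have h7 : ENNReal.ofReal (N * (2 * Real.pi / m * ρ * a * (1 + (Jf 0 / (4 * Real.pi) - e) * Z)) +
      g * (N * (1 - condFraction N (side ρ N) ψ))) ≤
      ENNReal.ofReal (N * (2 * Real.pi / m * ρ * a * (1 + (Jf 0 / (4 * Real.pi) + e) * Z)) +
      g * (N * (1 - condFraction N (side ρ N) φ))) := by
    rw [ENNReal.ofReal_add (p := N * (2 * Real.pi / m * ρ * a *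
      (1 + (Jf 0 / (4 * Real.pi) + e) * Z))) (by positivity) (by positivity)]
    refine ENNReal.ofReal_add_le.trans ((add_le_add_left h5 _).trans (h6.trans ?_))
    exact add_le_add_left h1 _
  have h8 := (ENNReal.ofReal_le_ofReal_iff (by positivity)).1 h7
  have h9 : g * N * (1 - condFraction N (side ρ N) ψ) ≤
      N * (2 * Real.pi / m * ρ * a * (2 * e * Z)) +
      g * N * (1 - condFraction N (side ρ N) φ) := by
    have e1 : (N : ℝ) * (2 * Real.pi / m * ρ * a * (1 + (Jf 0 / (4 * Real.pi) + e) * Z)) -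
        N * (2 * Real.pi / m * ρ * a * (1 + (Jf 0 / (4 * Real.pi) - e) * Z)) =
        N * (2 * Real.pi / m * ρ * a * (2 * e * Z)) := by ring
    linarith
  have h10 : (N : ℝ) * (2 * Real.pi / m * ρ * a * (2 * e * Z)) ≤ g * N * (ε / 2) := by
    have e2 : (N : ℝ) * (2 * Real.pi / m * ρ * a * (2 * e * Z)) =
        N * (ρ * a / m * Z) * (4 * Real.pi * e) := by ring
    have h11 : 4 * Real.pi * e ≤ c * (ε / 2) := by
      have h12 := mul_le_mul_of_nonneg_left (min_le_right 1 (c * ε / (8 * Real.pi)))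
        (by positivity : (0 : ℝ) ≤ 4 * Real.pi)
      have e3 : 4 * Real.pi * (c * ε / (8 * Real.pi)) = c * (ε / 2) := by
        field_simp
        ring
      rw [e3] at h12
      exact h12
    rw [e2]
    calc (N : ℝ) * (ρ * a / m * Z) * (4 * Real.pi * e)
        ≤ N * (ρ * a / m * Z) * (c * (ε / 2)) := mul_le_mul_of_nonneg_left h11 (by positivity)
      _ = N * (ε / 2) * (c * (ρ * a / m * Z)) := by ring
      _ ≤ N * (ε / 2) * g := mul_le_mul_of_nonneg_left hg (by positivity)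
      _ = g * N * (ε / 2) := by ring
  have h13 : 1 - condFraction N (side ρ N) φ ≤ ε / 2 := by
    have h14 : (8 / (3 * Real.sqrt Real.pi) + e) * Z ≤
        (8 / (3 * Real.sqrt Real.pi) + 1) * (ε / (2 * (8 / (3 * Real.sqrt Real.pi) + 1))) := by
      refine mul_le_mul ?_ hZr hZ0.le (by positivity)
      have := min_le_left 1 (c * ε / (8 * Real.pi))
      linarith
    have e4 : (8 / (3 * Real.sqrt Real.pi) + 1) * (ε / (2 * (8 / (3 * Real.sqrt Real.pi) + 1))) =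
        ε / 2 := by
      have h15 : (8 / (3 * Real.sqrt Real.pi) + 1) ≠ 0 := by positivity
      field_simp
    rw [e4] at h14
    exact h2.trans h14
  have h16 : g * N * (1 - condFraction N (side ρ N) ψ) ≤ g * N * ε := by
    have h17 := mul_le_mul_of_nonneg_left h13 (by positivity : 0 ≤ g * N)
    linarith
  exact le_of_mul_le_mul_left h16 (by positivity)

end Pool.Agent.Lib.MP_4952d6_mp.LG
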