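import Pool.Agent.Lib.MP_4952d6_mp.Pq.P19

/-!
# Pq.P25: the diagonal form

`h` for `s₀ = ε = 1 / (n + 2)` gives thresholds `rₙ`. For `ρ > 0` let `M ρ` be the first number `m` such that `ρ < rⱼ` and `ρ < 1 / (j + 1)` fails for some `j ≤ m`, and
`γ ρ = 1 / (2 (M ρ + 1))` (`g = γ ρ a / m = s ρ a / (2 m)`, `s = 2 γ = 1 / (M + 1) ≤ 1 / 2`).
-/

set_option autoImplicit false
set_option linter.unusedSectionVars false
set_option linter.unusedVariables false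
open MeasureTheory Function Filter Topology Set
open scoped ENNReal

namespace Pool.Agent.Lib.MP_4952d6_mp.LG

open LA

/-- all thresholds up to `k` -/
def P25_P (r : ℕ → ℝ) (ρ : ℝ) (k : ℕ) : Prop := ∀ j ≤ k, ρ < r j ∧ ρ < 1 / ((j : ℝ) + 1)

open Classical in
/-- the first threshold that fails -/
noncomputable def P25_M (r : ℕ → ℝ) (ρ : ℝ) : ℕ :=
  if h : ∃ k, ¬ P25_P r ρ k then Nat.find h else 0

theorem P25_ex (r : ℕ → ℝ) {ρ : ℝ} (hρ : 0 < ρ) : ∃ k, ¬ P25_P r ρ k := by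
  obtain ⟨k, hk⟩ := exists_nat_one_div_lt hρ
  refine ⟨k, fun h => ?_⟩
  have := (h k le_rfl).2
  linarith

theorem P25_below (r : ℕ → ℝ) {ρ : ℝ} {k : ℕ} (hk : k < P25_M r ρ) : P25_P r ρ k := by
  classical
  unfold P25_M at hk
  split_ifs at hk with h
  · have := Nat.find_min h hk
    exact not_not.1 this
  · exact absurd hk (Nat.not_lt_zero k)

theorem P25_above (r : ℕ → ℝ) {ρ : ℝ} (hρ : 0 < ρ) {k : ℕ} (hk : P25_P r ρ k) :
    k < P25_M r ρ := by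
  classical
  by_contra hcon
  have h := P25_ex r hρ
  have e : P25_M r ρ = Nat.find h := by
    unfold P25_M
    rw [dif_pos h]
  rw [e, not_lt] at hcon
  exact Nat.find_spec h fun j hj => hk j (hj.trans hcon)

theorem P25_small {r : ℕ → ℝ} (hr : ∀ n, 0 < r n) (k : ℕ) :
    ∃ δ : ℝ, 0 < δ ∧ ∀ ρ, ρ < δ → P25_P r ρ k := by
  induction k with
  | zero =>
    refine ⟨min (r 0) 1, lt_min (hr 0) one_pos, fun ρ hρ j hj => ?_⟩
    have hj0 : j = 0 := by omega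
    subst hj0
    refine ⟨hρ.trans_le (min_le_left _ _), ?_⟩
    have := hρ.trans_le (min_le_right (r 0) 1)
    simpa using this
  | succ k ih =>
    obtain ⟨δ, hδ, h⟩ := ih
    refine ⟨min δ (min (r (k + 1)) (1 / (((k + 1 : ℕ) : ℝ) + 1))),
      lt_min hδ (lt_min (hr _) (by positivity)), fun ρ hρ j hj => ?_⟩
    rcases Nat.lt_or_ge j (k + 1) with h1 | h1
    · exact h ρ (hρ.trans_le (min_le_left _ _)) j (by omega)
    · have hj0 : j = k + 1 := by omega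
      subst hj0
      have h2 := hρ.trans_le (min_le_right _ _)
      exact ⟨h2.trans_le (min_le_left _ _), h2.trans_le (min_le_right _ _)⟩

theorem diag {m R₀ a : ℝ} (hm : 0 < m) (ha : 0 < a) {v : (Fin 3 → ℝ) → ℝ}
    (h : ∀ s₀ ε : ℝ, 0 < s₀ → 0 < ε → Dilute fun ρ N => ∀ s : ℝ, s₀ ≤ s → s ≤ 1 / 2 → ∀ ψ,
      IsGapGround m R₀ (s * (ρ * a / (2 * m))) v N (side ρ N) ψ →
      |1 - condFraction N (side ρ N) ψ - Dg s * Real.sqrt (ρ * a ^ 3)| ≤ ε * Real.sqrt (ρ * a ^ 3)) :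
    ∃ γ : ℝ → ℝ, (∀ ρ, 0 < γ ρ) ∧ Tendsto γ (𝓝[>] 0) (𝓝 0) ∧ ∀ ε : ℝ, 0 < ε → Dilute fun ρ N => ∀ ψ,
      IsGapGround m R₀ (γ ρ * (ρ * a / m)) v N (side ρ N) ψ →
      |1 - condFraction N (side ρ N) ψ - 8 / (3 * Real.sqrt Real.pi) * Real.sqrt (ρ * a ^ 3)|
        ≤ ε * Real.sqrt (ρ * a ^ 3) := by
  have ht : ∀ n : ℕ, 0 < 1 / ((n : ℝ) + 2) := fun n => by positivity
  have h' : ∀ n : ℕ, ∃ ρ₁ : ℝ, 0 < ρ₁ ∧ ∀ ρ : ℝ, 0 < ρ → ρ < ρ₁ → ∃ N₁ : ℕ, ∀ N : ℕ, N₁ ≤ N →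
      ∀ s : ℝ, 1 / ((n : ℝ) + 2) ≤ s → s ≤ 1 / 2 → ∀ ψ,
      IsGapGround m R₀ (s * (ρ * a / (2 * m))) v N (side ρ N) ψ →
      |1 - condFraction N (side ρ N) ψ - Dg s * Real.sqrt (ρ * a ^ 3)|
        ≤ 1 / ((n : ℝ) + 2) * Real.sqrt (ρ * a ^ 3) := fun n =>
    h (1 / ((n : ℝ) + 2)) (1 / ((n : ℝ) + 2)) (ht n) (ht n)
  choose r hr hrr using h'
  obtain ⟨γ, hγ⟩ : ∃ γ : ℝ → ℝ, γ = fun ρ => 1 / (2 * ((P25_M r ρ : ℝ) + 1)) := ⟨_, rfl⟩
  have hγ0 : ∀ ρ, 0 < γ ρ := fun ρ => by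
    rw [hγ]
    positivity
  refine ⟨γ, hγ0, ?_, ?_⟩
  · rw [Metric.tendsto_nhdsWithin_nhds]
    intro ε hε
    obtain ⟨n, hn⟩ := exists_nat_one_div_lt hε
    obtain ⟨δ, hδ, hδP⟩ := P25_small hr n
    refine ⟨δ, hδ, fun ρ hρ hdist => ?_⟩
    have hρ0 : 0 < ρ := hρ
    rw [Real.dist_eq, sub_zero, abs_of_pos hρ0] at hdist
    have h1 := P25_above r hρ0 (hδP ρ hdist)
    rw [Real.dist_eq, sub_zero, abs_of_pos (hγ0 ρ), hγ]
    refine lt_of_le_of_lt ?_ hn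
    have h2 : (n : ℝ) + 1 ≤ P25_M r ρ := by exact_mod_cast h1
    refine one_div_le_one_div_of_le (by positivity) ?_
    linarith
  · intro ε hε
    -- the value of `Dg` at small gaps
    have hD : ∀ᶠ s in 𝓝[>] (0:ℝ), |Dg s - 8 / (3 * Real.sqrt Real.pi)| < ε / 2 := by
      have h1 := Dg_tendsto_zero
      rw [Metric.tendsto_nhds] at h1
      filter_upwards [h1 (ε / 2) (by linarith)] with s hs
      rwa [Real.dist_eq] at hs
    obtain ⟨δ', hδ', hδ'P⟩ := mem_nhdsGT_iff_exists_Ioo_subset.mp hD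
    have hδ0 : (0:ℝ) < δ' := hδ'
    obtain ⟨n, hn⟩ := exists_nat_one_div_lt (lt_min hδ0 (by linarith : 0 < ε / 2))
    obtain ⟨δ, hδ, hδP⟩ := P25_small hr n
    refine ⟨δ, hδ, fun ρ hρ hlt => ?_⟩
    have h1 := P25_above r hρ (hδP ρ hlt)
    obtain ⟨k, hk⟩ : ∃ k, P25_M r ρ = k + 1 := ⟨P25_M r ρ - 1, by omega⟩
    have hnk : n ≤ k := by omega
    have h2 : P25_P r ρ k := P25_below r (by omega)
    obtain ⟨N₁, hN₁⟩ := hrr k ρ hρ (h2 k le_rfl).1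
    refine ⟨N₁, fun N hN ψ hψ => ?_⟩
    have hs : 1 / (2 * ((P25_M r ρ : ℝ) + 1)) * (ρ * a / m)
        = 1 / ((k : ℝ) + 2) * (ρ * a / (2 * m)) := by
      rw [hk]
      push_cast
      field_simp
      ring
    have hψ' : IsGapGround m R₀ (1 / ((k : ℝ) + 2) * (ρ * a / (2 * m))) v N (side ρ N) ψ := by
      rw [← hs]
      rw [hγ] at hψ
      exact hψ
    have hle : 1 / ((k : ℝ) + 2) ≤ 1 / 2 := by
      refine one_div_le_one_div_of_le (by norm_num) ?_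
      have : (0:ℝ) ≤ k := Nat.cast_nonneg k
      linarith
    have h3 := hN₁ N hN (1 / ((k : ℝ) + 2)) le_rfl hle ψ hψ'
    have hkn : 1 / ((k : ℝ) + 2) ≤ 1 / ((n : ℝ) + 1) := by
      refine one_div_le_one_div_of_le (by positivity) ?_
      have : (n : ℝ) ≤ k := by exact_mod_cast hnk
      linarith
    have h4 : |Dg (1 / ((k : ℝ) + 2)) - 8 / (3 * Real.sqrt Real.pi)| < ε / 2 := by
      refine hδ'P ⟨ht k, ?_⟩
      exact (hkn.trans_lt hn).trans_le (min_le_left _ _)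
    have h5 : 1 / ((k : ℝ) + 2) ≤ ε / 2 := ((hkn.trans_lt hn).trans_le (min_le_right _ _)).le
    have hZ : 0 ≤ Real.sqrt (ρ * a ^ 3) := Real.sqrt_nonneg _
    generalize Real.sqrt (ρ * a ^ 3) = Z at *
    generalize 8 / (3 * Real.sqrt Real.pi) = D0 at *
    have h6 : 1 - condFraction N (side ρ N) ψ - D0 * Z
        = (1 - condFraction N (side ρ N) ψ - Dg (1 / ((k : ℝ) + 2)) * Z)
          + (Dg (1 / ((k : ℝ) + 2)) - D0) * Z := by ring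
    rw [h6]
    refine (abs_add_le _ _).trans ?_
    have h7 : |(Dg (1 / ((k : ℝ) + 2)) - D0) * Z| ≤ ε / 2 * Z := by
      rw [abs_mul, abs_of_nonneg hZ]
      exact mul_le_mul_of_nonneg_right h4.le hZ
    have h8 : 1 / ((k : ℝ) + 2) * Z ≤ ε / 2 * Z := mul_le_mul_of_nonneg_right h5 hZ
    linarith

end Pool.Agent.Lib.MP_4952d6_mp.LG
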