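import Pool.Agent.Lib.MP_4952d6_mp.Pk.G17

/-!
# Condensation under a small gap: depletion of the Jastrow state, one point bound in the gas

`A(y) = ∏ F (y - x j)`, `F = f²`. The depletion of the Jastrow state is `E_n[Var_y ∏ f (y - x j)] / r_n`, `n = N - 1`. Here the
numerator is bounded by `E_n[(∏ f (x j) - c)²]`, `c = exp (- n u_0)`, with the second moment of the field (`Xg_var`, `S_sum_abs`)
and the lower bound for its truncated second moment (`G_lower`), which bounds the tail.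
-/

set_option autoImplicit false
set_option linter.unusedSectionVars false
set_option linter.unusedVariables false
open MeasureTheory Function Filter Topology Set

namespace Pool.Agent.Lib.MP_4952d6_mp

/-! ### Elementary inequalities -/

theorem Q01_exp_pos {t : ℝ} (ht : 0 ≤ t) : (1 - Real.exp (-t)) ^ 2 ≤ t ^ 2 := by
  have h1 : Real.exp (-t) ≤ 1 := Real.exp_le_one_iff.2 (by linarith)
  have h2 : 1 - t ≤ Real.exp (-t) := by linarith [Real.add_one_le_exp (-t)]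
  exact pow_le_pow_left₀ (by linarith) (by linarith) 2

theorem Q01_exp_neg {t K : ℝ} (ht : t ≤ 0) (hK : -K ≤ t) :
    (1 - Real.exp (-t)) ^ 2 ≤ t ^ 2 * Real.exp (2 * K) := by
  have h1 : 1 ≤ Real.exp (-t) := Real.one_le_exp (by linarith)
  -- e^(-t) - 1 ≤ (-t) e^(-t)
  have h2 : Real.exp (-t) - 1 ≤ (-t) * Real.exp (-t) := by
    have h3 := Real.add_one_le_exp t
    have h4 : Real.exp t * Real.exp (-t) = 1 := by rw [← Real.exp_add, add_neg_cancel, Real.exp_zero]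
    have h5 : (t + 1) * Real.exp (-t) ≤ 1 := by
      calc (t + 1) * Real.exp (-t) ≤ Real.exp t * Real.exp (-t) :=
            mul_le_mul_of_nonneg_right h3 (Real.exp_pos _).le
        _ = 1 := h4
    linarith
  have h3 : Real.exp (-t) ≤ Real.exp K := Real.exp_le_exp.2 (by linarith)
  have h4 : Real.exp (-t) - 1 ≤ (-t) * Real.exp K :=
    h2.trans (mul_le_mul_of_nonneg_left h3 (by linarith))
  have h5 : (1 - Real.exp (-t)) ^ 2 = (Real.exp (-t) - 1) ^ 2 := by ring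
  rw [h5]
  calc (Real.exp (-t) - 1) ^ 2 ≤ ((-t) * Real.exp K) ^ 2 := pow_le_pow_left₀ (by linarith) h4 2
    _ = t ^ 2 * (Real.exp K * Real.exp K) := by ring
    _ = t ^ 2 * Real.exp (2 * K) := by rw [← Real.exp_add, two_mul]

theorem Q01_Tr_sq {s : ℝ} (hs : 0 < s) (y : ℝ) : 0 ≤ y ^ 2 - Tr s y ^ 2 := by
  have h := abs_Tr_le hs y
  have h1 := pow_le_pow_left₀ (abs_nonneg _) h 2
  rw [sq_abs, sq_abs] at h1
  linarith

theorem Q01_Tr_tail {s y : ℝ} (hs : 0 < s) (hy : 4 * s ^ 2 ≤ y ^ 2) :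
    y ^ 2 / 4 ≤ y ^ 2 - Tr s y ^ 2 := by
  have hp := GO1_pos hs y
  have h1 : Tr s y ^ 2 = y ^ 2 * (s ^ 2 / (s ^ 2 + y ^ 2)) ^ 2 := by
    unfold Tr
    rw [div_pow, div_pow]
    ring
  have h2 : s ^ 2 / (s ^ 2 + y ^ 2) ≤ 1 / 2 := by
    rw [div_le_div_iff₀ hp (by norm_num)]
    nlinarith [sq_nonneg s]
  have h3 : 0 ≤ s ^ 2 / (s ^ 2 + y ^ 2) := by positivity
  have h4 : (s ^ 2 / (s ^ 2 + y ^ 2)) ^ 2 ≤ (1 / 2) ^ 2 := pow_le_pow_left₀ h3 h2 2
  rw [h1]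
  have h5 := mul_le_mul_of_nonneg_left h4 (sq_nonneg y)
  linarith

/-- Pointwise bound: the square of `1 - e^(-t)` by the square of `t` and the part of `(2 t)²` lost by the truncation. -/
theorem Q01_point {s K t : ℝ} (hs : 0 < s) (hs1 : s ≤ 1 / 2) (hK : 0 ≤ K) (ht : -K ≤ t) :
    (1 - Real.exp (-t)) ^ 2
      ≤ (1 + 4 * s) * t ^ 2 + Real.exp (2 * K) * ((2 * t) ^ 2 - Tr s (2 * t) ^ 2) := by
  have h0 := Q01_Tr_sq hs (2 * t)
  have hE : 0 < Real.exp (2 * K) := Real.exp_pos _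
  have h1 : 0 ≤ Real.exp (2 * K) * ((2 * t) ^ 2 - Tr s (2 * t) ^ 2) := mul_nonneg hE.le h0
  have h2 : 0 ≤ s * t ^ 2 := mul_nonneg hs.le (sq_nonneg t)
  rcases le_or_gt 0 t with h | h
  · have := Q01_exp_pos h
    linarith
  · rcases le_or_gt (-s) t with h' | h'
    · have h3 := Q01_exp_neg h.le h'
      have h4 : Real.exp (2 * s) ≤ 1 + 4 * s := by
        have h5 : |2 * s| ≤ 1 := by rw [abs_of_pos (by linarith)]; linarith
        have h6 := Real.abs_exp_sub_one_le h5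
        rw [abs_of_pos (by linarith : (0:ℝ) < 2 * s)] at h6
        have h7 := le_abs_self (Real.exp (2 * s) - 1)
        linarith
      have h5 := mul_le_mul_of_nonneg_left h4 (sq_nonneg t)
      linarith
    · have h3 := Q01_exp_neg h.le ht
      have h4 : 4 * s ^ 2 ≤ (2 * t) ^ 2 := by nlinarith
      have h5 := Q01_Tr_tail hs h4
      have h6 : (2 * t) ^ 2 / 4 = t ^ 2 := by ring
      rw [h6] at h5
      have h7 := mul_le_mul_of_nonneg_left h5 hE.le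
      have h8 : 0 ≤ (1 + 4 * s) * t ^ 2 := by nlinarith [sq_nonneg t]
      linarith

/-- `(B x - c)²` with `0 ≤ B ≤ 1`, `0 ≤ x ≤ 1`. -/
theorem Q01_core {B x c η w : ℝ} (hB0 : 0 ≤ B) (hB1 : B ≤ 1) (hx0 : 0 ≤ x) (hx1 : x ≤ 1)
    (hη : 0 < η) (hw : 1 - B ≤ w) :
    (B * x - c) ^ 2 ≤ (1 + η) * (x - c) ^ 2 + (1 + 1 / η) * w := by
  have h1 : ((1 - B) * x) ^ 2 ≤ w := by
    have h2 : (1 - B) * x ≤ 1 - B := mul_le_of_le_one_right (by linarith) hx1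
    have h3 : 0 ≤ (1 - B) * x := mul_nonneg (by linarith) hx0
    have h4 : ((1 - B) * x) ^ 2 ≤ (1 - B) ^ 2 := pow_le_pow_left₀ h3 h2 2
    have h5 : (1 - B) ^ 2 ≤ 1 - B := by nlinarith
    linarith
  have h2 : (B * x - c) ^ 2 = ((x - c) - (1 - B) * x) ^ 2 := by ring
  rw [h2]
  have hη' : 0 < 1 / η := by positivity
  have h3 : -2 * ((x - c) * ((1 - B) * x)) ≤ η * (x - c) ^ 2 + 1 / η * ((1 - B) * x) ^ 2 := by
    have h4 : 0 ≤ (η * (x - c) + (1 - B) * x) ^ 2 / η := by positivity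
    have h5 : (η * (x - c) + (1 - B) * x) ^ 2 / η
        = η * (x - c) ^ 2 + 2 * ((x - c) * ((1 - B) * x)) + 1 / η * ((1 - B) * x) ^ 2 := by
      field_simp
      ring
    rw [h5] at h4
    linarith
  have h6 : (1 / η) * ((1 - B) * x) ^ 2 ≤ 1 / η * w := mul_le_mul_of_nonneg_left h1 hη'.le
  nlinarith

/-! ### The second moment of the field -/

theorem Q01_Vn {D : Dat} (n : ℕ) :
    n * tsum0 (fun p => D.uh p ^ 2 * D.Ss 1 n p) = D.Vn n / 4 := by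
  unfold Dat.Vn
  rw [← tsum0_const_mul, div_eq_inv_mul, ← tsum0_const_mul]
  refine tsum0_congr fun p _ => ?_
  unfold Dat.Ss
  ring

theorem Q01_second {K q a : ℝ} {N : ℕ} {D : Dat} (h : GasOK K q a N D)
    (hK : Real.exp (2 * K) * q ^ 20 ≤ 1) {n : ℕ} (hn : n ≤ N) (hn2 : N ≤ 2 * n) :
    Eg (D.F 0 1) n (fun x => (Xg D.ul x 0 - n * D.uh 0) ^ 2)
      ≤ D.Vn n / 4 + 30000 * K ^ 9 * q ^ 209 := by
  have hD := h.gd.ok
  have hq := h.gd.q0
  have hK1 := h.gd.C1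
  have hK0 : 0 < K := by linarith
  have hn1 := GU_n_pos h hn2
  have hF : GasFn lam3 (D.F 0 1) := F_gas hD le_rfl zero_le_one zero_le_one
  have hZ := h.Zpos 0 1 le_rfl zero_le_one zero_le_one le_rfl n (by omega)
  obtain ⟨sA, hA⟩ := S_sum_abs h hK hn hn2
  obtain ⟨s1, -⟩ := h.uS 0 1 le_rfl zero_le_one zero_le_one le_rfl n hn1 hn
  rw [Xg_var hD hF hn1 hZ.ne']
  have hS : ∀ p, 0 ≤ Sg (D.F 0 1) n p := Sg_nonneg hF n
  have hu0 := hD.uh_nonneg 0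
  have sQ : sm0 (fun p => D.uh p ^ 2 * D.Ss 1 n p) := by
    refine sm0_of (uh_sq_summable hD) fun p _ => ?_
    obtain ⟨-, h3, h4⟩ := GU_Ss hD n p
    rw [abs_of_nonneg (mul_nonneg (sq_nonneg _) h3)]
    exact mul_le_of_le_one_right (sq_nonneg _) h4
  have sA' := sA.const_mul (D.uh 0)
  have hpt : ∀ p, D.uh p ^ 2 * Sg (D.F 0 1) n p
      ≤ D.uh p ^ 2 * D.Ss 1 n p + D.uh 0 * (D.uh p * |Sg (D.F 0 1) n p - D.Ss 1 n p|) := by
    intro p
    have h1 := le_abs_self (Sg (D.F 0 1) n p - D.Ss 1 n p)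
    have h2 := abs_nonneg (Sg (D.F 0 1) n p - D.Ss 1 n p)
    have h3 := hD.uh_nonneg p
    have h4 := h.gd.uh_le p
    have h5 : D.uh p * (D.uh p * |Sg (D.F 0 1) n p - D.Ss 1 n p|)
        ≤ D.uh 0 * (D.uh p * |Sg (D.F 0 1) n p - D.Ss 1 n p|) :=
      mul_le_mul_of_nonneg_right h4 (mul_nonneg h3 h2)
    have h6 : D.uh p ^ 2 * (Sg (D.F 0 1) n p - D.Ss 1 n p)
        ≤ D.uh p ^ 2 * |Sg (D.F 0 1) n p - D.Ss 1 n p| := mul_le_mul_of_nonneg_left h1 (sq_nonneg _)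
    nlinarith
  have s2 : sm0 (fun p => D.uh p ^ 2 * Sg (D.F 0 1) n p) := by
    have hs1 := s1.const_mul (D.uh 0)
    unfold sm0 at hs1 ⊢
    refine Summable.of_nonneg_of_le (fun p => ?_) (fun p => ?_) hs1
    · split_ifs
      · exact le_rfl
      · exact mul_nonneg (sq_nonneg _) (hS p)
    · split_ifs
      · exact le_rfl
      · have h2 := mul_le_mul_of_nonneg_right (h.gd.uh_le p) (mul_nonneg (hD.uh_nonneg p) (hS p))
        calc D.uh p ^ 2 * Sg (D.F 0 1) n p = D.uh p * (D.uh p * Sg (D.F 0 1) n p) := by ring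
          _ ≤ _ := h2
  have h3 := tsum0_mono s2 (sQ.add sA') fun p _ => hpt p
  rw [tsum0_add sQ sA', tsum0_const_mul] at h3
  have h4 := mul_le_mul_of_nonneg_left h3 (Nat.cast_nonneg (α := ℝ) n)
  rw [mul_add, Q01_Vn] at h4
  refine h4.trans ?_
  have h5 : (n : ℝ) * D.uh 0 ≤ K := by
    have h6 : (n : ℝ) ≤ N := Nat.cast_le.2 hn
    exact (mul_le_mul_of_nonneg_right h6 hu0).trans h.gd.uh0
  have h6 : 0 ≤ tsum0 (fun p => D.uh p * |Sg (D.F 0 1) n p - D.Ss 1 n p|) :=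
    tsum0_nonneg fun p _ => mul_nonneg (hD.uh_nonneg p) (abs_nonneg _)
  have h7 : (n : ℝ) * (D.uh 0 * tsum0 (fun p => D.uh p * |Sg (D.F 0 1) n p - D.Ss 1 n p|))
      ≤ K * (30000 * K ^ 8 * q ^ 209) := by
    calc (n : ℝ) * (D.uh 0 * tsum0 (fun p => D.uh p * |Sg (D.F 0 1) n p - D.Ss 1 n p|))
        = (n * D.uh 0) * tsum0 (fun p => D.uh p * |Sg (D.F 0 1) n p - D.Ss 1 n p|) := by ring
      _ ≤ K * (30000 * K ^ 8 * q ^ 209) := mul_le_mul h5 hA h6 hK0.le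
  have h8 : K * (30000 * K ^ 8 * q ^ 209) = 30000 * K ^ 9 * q ^ 209 := by ring
  linarith

/-! ### The one point bound -/

theorem Q01_sq_Ag {f F : T3 → ℝ} (hf : ∀ x, f x ^ 2 = F x) {n : ℕ} (x : Fin n → T3) (y : T3) :
    Ag f x y ^ 2 = Ag F x y := by
  unfold Ag
  rw [← Finset.prod_pow]
  exact Finset.prod_congr rfl fun j _ => hf _

theorem Q01_Ag_bm {f : T3 → ℝ} (hf : BM f) (n : ℕ) (y : T3) :
    BM (fun x : Fin n → T3 => Ag f x y) :=
  BM.finset_prod _ fun j _ => hf.comp (measurable_sub' measurable_const (measurable_pi_apply j))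

/-- Mean of `(1 - e^(-t))²`, `t = X - n u_0`. -/
theorem Q01_exp_mean {K q a : ℝ} {N : ℕ} {D : Dat} (h : GasOK K q a N D)
    (hK : Real.exp (2 * K) * q ^ 20 ≤ 1) {n : ℕ} (hn : n ≤ N) (hn2 : N ≤ 2 * n) :
    Eg (D.F 0 1) n (fun x => (1 - Real.exp (-(Xg D.ul x 0 - n * D.uh 0))) ^ 2)
      ≤ D.Vn n / 4 + 300000 * Real.exp (2 * K) * K ^ 9 * q ^ 209 := by
  have hD := h.gd.ok
  have hq := h.gd.q0
  have hq1 : q ≤ 1 := by linarith [h.gd.q1]
  have hK1 := h.gd.C1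
  have hK0 : 0 < K := by linarith
  have hF : GasFn lam3 (D.F 0 1) := F_gas hD le_rfl zero_le_one zero_le_one
  have hs : 0 < q ^ 18 := by positivity
  have hs1 : q ^ 18 ≤ 1 / 2 := by
    calc q ^ 18 ≤ q ^ 1 := pow_le_pow_of_le_one hq.le hq1 (by norm_num)
      _ ≤ 1 / 2 := by rw [pow_one]; exact h.gd.q1
  have hu0 := hD.uh_nonneg 0
  have hnu : (n : ℝ) * D.uh 0 ≤ K := by
    have h6 : (n : ℝ) ≤ N := Nat.cast_le.2 hn
    exact (mul_le_mul_of_nonneg_right h6 hu0).trans h.gd.uh0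
  have hX0 : ∀ x : Fin n → T3, 0 ≤ Xg D.ul x 0 := fun x =>
    Finset.sum_nonneg fun j _ => hD.ul_nonneg _
  have bX : BM (fun x : Fin n → T3 => Xg D.ul x 0) := Xg_bm hD n 0
  have bt : BM (fun x : Fin n → T3 => Xg D.ul x 0 - n * D.uh 0) := bX.sub (BM.const _)
  have bT : BM (fun x : Fin n → T3 => Tr (q ^ 18) (2 * Xg D.ul x 0 - 2 * n * D.uh 0) ^ 2) :=
    (GP1_G_bm hD hs _ n).pow 2
  have b4 : BM (fun x : Fin n → T3 => 4 * (Xg D.ul x 0 - n * D.uh 0) ^ 2) := (bt.pow 2).const_mul 4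
  have bexp : BM (fun x : Fin n → T3 => (1 - Real.exp (-(Xg D.ul x 0 - n * D.uh 0))) ^ 2) := by
    refine ((BM.const 1).sub ?_).pow 2
    refine BM.of_mem_Icc (a := 0) (b := Real.exp K) ?_ fun x => ⟨(Real.exp_pos _).le, ?_⟩
    · exact Real.measurable_exp.comp bt.neg.1
    · exact Real.exp_le_exp.2 (by linarith [hX0 x])
  have hpt : ∀ x : Fin n → T3, (1 - Real.exp (-(Xg D.ul x 0 - n * D.uh 0))) ^ 2
      ≤ (1 + 4 * q ^ 18) * (Xg D.ul x 0 - n * D.uh 0) ^ 2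
        + Real.exp (2 * K) * (4 * (Xg D.ul x 0 - n * D.uh 0) ^ 2
          - Tr (q ^ 18) (2 * Xg D.ul x 0 - 2 * n * D.uh 0) ^ 2) := by
    intro x
    have h1 := Q01_point (K := K) hs hs1 hK0.le (t := Xg D.ul x 0 - n * D.uh 0)
      (by linarith [hX0 x])
    have e1 : 2 * (Xg D.ul x 0 - n * D.uh 0) = 2 * Xg D.ul x 0 - 2 * n * D.uh 0 := by ring
    have e2 : (2 * (Xg D.ul x 0 - n * D.uh 0)) ^ 2 = 4 * (Xg D.ul x 0 - n * D.uh 0) ^ 2 := by ring
    rw [e2, e1] at h1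
    exact h1
  have h1 := Eg_mono hF bexp (((bt.pow 2).const_mul (1 + 4 * q ^ 18)).add
    ((b4.sub bT).const_mul (Real.exp (2 * K)))) hpt
  rw [Eg_add hF ((bt.pow 2).const_mul (1 + 4 * q ^ 18)) ((b4.sub bT).const_mul (Real.exp (2 * K))),
    Eg_const_mul, Eg_const_mul, Eg_sub hF b4 bT, Eg_const_mul] at h1
  refine h1.trans ?_
  have h2 := Q01_second h hK hn hn2
  have h3 := G_lower h hn
  obtain ⟨-, hV0, hV1⟩ := Vn_bounds h hn
  have hS0 : 0 ≤ Eg (D.F 0 1) n (fun x => (Xg D.ul x 0 - n * D.uh 0) ^ 2) :=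
    Eg_nonneg hF fun x => sq_nonneg _
  set S := Eg (D.F 0 1) n (fun x => (Xg D.ul x 0 - n * D.uh 0) ^ 2) with hS
  set T := Eg (D.F 0 1) n (fun x => Tr (q ^ 18) (2 * Xg D.ul x 0 - 2 * n * D.uh 0) ^ 2) with hT
  set V := D.Vn n with hV
  have hE1 : 1 ≤ Real.exp (2 * K) := Real.one_le_exp (by linarith)
  have hK9 : K ≤ K ^ 9 := le_self_pow₀ hK1 (by norm_num)
  have hK49 : K ^ 4 ≤ K ^ 9 := pow_le_pow_right₀ hK1 (by norm_num)
  have q1 : q ^ 220 ≤ q ^ 209 := pow_le_pow_of_le_one hq.le hq1 (by norm_num)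
  have q2 : q ^ 218 ≤ q ^ 209 := pow_le_pow_of_le_one hq.le hq1 (by norm_num)
  have q3 : q ^ 227 ≤ q ^ 209 := pow_le_pow_of_le_one hq.le hq1 (by norm_num)
  have m0 : 0 ≤ K ^ 9 * q ^ 209 := by positivity
  have m1 : K ^ 4 * q ^ 220 ≤ K ^ 9 * q ^ 209 := by gcongr
  have m2 : K * q ^ 218 ≤ K ^ 9 * q ^ 209 := by gcongr
  have m3 : K ^ 9 * q ^ 227 ≤ K ^ 9 * q ^ 209 := by gcongr
  have h4 : 4 * S - T ≤ 121000 * (K ^ 9 * q ^ 209) := by linarith
  have h5 : Real.exp (2 * K) * (4 * S - T) ≤ Real.exp (2 * K) * (121000 * (K ^ 9 * q ^ 209)) :=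
    mul_le_mul_of_nonneg_left h4 (by linarith)
  have h6 : 4 * q ^ 18 * S ≤ 120004 * (K ^ 9 * q ^ 209) := by
    have h7 : S ≤ K * q ^ 200 + 30000 * K ^ 9 * q ^ 209 := by linarith
    have h8 : 4 * q ^ 18 * S ≤ 4 * q ^ 18 * (K * q ^ 200 + 30000 * K ^ 9 * q ^ 209) :=
      mul_le_mul_of_nonneg_left h7 (by positivity)
    have h9 : 4 * q ^ 18 * (K * q ^ 200 + 30000 * K ^ 9 * q ^ 209)
        = 4 * (K * q ^ 218) + 120000 * (K ^ 9 * q ^ 227) := by ring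
    linarith
  have h7 : K ^ 9 * q ^ 209 ≤ Real.exp (2 * K) * (K ^ 9 * q ^ 209) := by
    have := mul_le_mul_of_nonneg_right hE1 m0
    linarith
  have e1 : (1 + 4 * q ^ 18) * S = S + 4 * q ^ 18 * S := by ring
  have e2 : 300000 * Real.exp (2 * K) * K ^ 9 * q ^ 209
      = 300000 * (Real.exp (2 * K) * (K ^ 9 * q ^ 209)) := by ring
  have e3 : Real.exp (2 * K) * (121000 * (K ^ 9 * q ^ 209))
      = 121000 * (Real.exp (2 * K) * (K ^ 9 * q ^ 209)) := by ring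
  rw [e1, e2]
  rw [e3] at h5
  linarith

/-- The one point bound for the depletion of the Jastrow state. -/
theorem Q01_gas {K q a : ℝ} {N : ℕ} {D : Dat} (h : GasOK K q a N D)
    (hK : Real.exp (2 * K) * q ^ 20 ≤ 1) {n : ℕ} (hn : n ≤ N) (hn2 : N ≤ 2 * n)
    {f : T3 → ℝ} (hfm : BM f) (hf0 : ∀ x, 0 ≤ f x) (hf : ∀ x, f x ^ 2 = D.F 0 1 x) :
    Eg (D.F 0 1) n (fun x => (Ag f x 0 - Real.exp (-(n * D.uh 0))) ^ 2)
      ≤ (D.Vn n / 4 + 1500000 * Real.exp (2 * K) * K ^ 9 * q ^ 209) * rg (D.F 0 1) n := by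
  have hD := h.gd.ok
  have hq := h.gd.q0
  have hq1 : q ≤ 1 := by linarith [h.gd.q1]
  have hK1 := h.gd.C1
  have hK0 : 0 < K := by linarith
  have hF : GasFn lam3 (D.F 0 1) := F_gas hD le_rfl zero_le_one zero_le_one
  have hZ := h.Zpos 0 1 le_rfl zero_le_one zero_le_one le_rfl n (by omega)
  have hu0 := hD.uh_nonneg 0
  have bFc : BM D.Fc := ⟨(hD.Fc_WD 0).sm.measurable, (hD.Fc_WD 0).bdd⟩
  have b1 : BM (fun z => 1 - D.Fc z) := (BM.const 1).sub bFc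
  have bY : BM (fun x : Fin n → T3 => Xg (fun z => 1 - D.Fc z) x 0) := GT_Xg_bm b1 n 0
  have bX : BM (fun x : Fin n → T3 => Xg D.ul x 0) := Xg_bm hD n 0
  have hX0 : ∀ x : Fin n → T3, 0 ≤ Xg D.ul x 0 := fun x =>
    Finset.sum_nonneg fun j _ => hD.ul_nonneg _
  have hη : 0 < q ^ 20 := by positivity
  set c := Real.exp (-(n * D.uh 0)) with hc
  have hc0 : 0 < c := Real.exp_pos _
  have bexp : BM (fun x : Fin n → T3 => (1 - Real.exp (-(Xg D.ul x 0 - n * D.uh 0))) ^ 2) := by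
    refine ((BM.const 1).sub ?_).pow 2
    refine BM.of_mem_Icc (a := 0) (b := Real.exp (n * D.uh 0)) ?_ fun x => ⟨(Real.exp_pos _).le, ?_⟩
    · exact Real.measurable_exp.comp (bX.sub (BM.const _)).neg.1
    · exact Real.exp_le_exp.2 (by linarith [hX0 x])
  have bA : BM (fun x : Fin n → T3 => (Ag f x 0 - c) ^ 2) :=
    ((Q01_Ag_bm hfm n 0).sub (BM.const c)).pow 2
  have hpt : ∀ x : Fin n → T3, (Ag f x 0 - c) ^ 2
      ≤ (1 + q ^ 20) * c ^ 2 * (1 - Real.exp (-(Xg D.ul x 0 - n * D.uh 0))) ^ 2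
        + (1 + 1 / q ^ 20) * Xg (fun z => 1 - D.Fc z) x 0 := by
    intro x
    have h1 := one_sub_Ag_Fr hD (le_refl (0:ℝ)) zero_le_one x 0
    have hA0 : 0 ≤ Ag (D.Fr 0) x 0 :=
      Finset.prod_nonneg fun j _ => (Fr_bounds hD le_rfl zero_le_one _).1
    have hA1 : Ag (D.Fr 0) x 0 ≤ 1 := by linarith [h1.1]
    set B := Real.sqrt (Ag (D.Fr 0) x 0) with hB
    have hB0 : 0 ≤ B := Real.sqrt_nonneg _
    have hB2 : B ^ 2 = Ag (D.Fr 0) x 0 := Real.sq_sqrt hA0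
    have hB1 : B ≤ 1 := by
      exact Real.sqrt_le_iff.2 ⟨zero_le_one, by rw [one_pow]; exact hA1⟩
    have hBw : 1 - B ≤ Xg (fun z => 1 - D.Fc z) x 0 := by
      have : B ^ 2 ≤ B := by nlinarith
      linarith [h1.2]
    have hx1 : Real.exp (-(Xg D.ul x 0)) ≤ 1 := Real.exp_le_one_iff.2 (by linarith [hX0 x])
    have hAf : Ag f x 0 = B * Real.exp (-(Xg D.ul x 0)) := by
      have h2 : Ag f x 0 ^ 2 = (B * Real.exp (-(Xg D.ul x 0))) ^ 2 := by
        rw [Q01_sq_Ag hf, Ag_F hD, mul_pow, hB2, ← Real.exp_nat_mul]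
        congr 2
        push_cast
        ring
      have h3 : 0 ≤ Ag f x 0 := Finset.prod_nonneg fun j _ => hf0 _
      have h4 : 0 ≤ B * Real.exp (-(Xg D.ul x 0)) := mul_nonneg hB0 (Real.exp_pos _).le
      exact (pow_left_inj₀ h3 h4 two_ne_zero).1 h2
    have h5 := Q01_core (c := c) hB0 hB1 (Real.exp_pos (-(Xg D.ul x 0))).le hx1 hη hBw
    rw [← hAf] at h5
    have h6 : Real.exp (-(Xg D.ul x 0)) = c * Real.exp (-(Xg D.ul x 0 - n * D.uh 0)) := by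
      rw [hc, ← Real.exp_add]
      congr 1
      ring
    have h7 : (Real.exp (-(Xg D.ul x 0)) - c) ^ 2
        = c ^ 2 * (1 - Real.exp (-(Xg D.ul x 0 - n * D.uh 0))) ^ 2 := by
      rw [h6]
      ring
    rw [h7] at h5
    linarith
  have h1 := Eg_mono hF bA ((bexp.const_mul ((1 + q ^ 20) * c ^ 2)).add
    (bY.const_mul (1 + 1 / q ^ 20))) hpt
  rw [Eg_add hF (bexp.const_mul ((1 + q ^ 20) * c ^ 2)) (bY.const_mul (1 + 1 / q ^ 20)),
    Eg_const_mul, Eg_const_mul, Eg_Xg hF hZ.ne' b1] at h1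
  refine h1.trans ?_
  have h2 := Q01_exp_mean h hK hn hn2
  have h3 := log_rg_ge h hK hn
  have h4 := h.rge 0 1 le_rfl zero_le_one zero_le_one le_rfl n hn
  obtain ⟨-, hV0, hV1⟩ := Vn_bounds h hn
  have hI0 : 0 ≤ ∫ z, (1 - D.Fc z) ∂lam3 := integral_nonneg fun z => sub_nonneg.2 (hD.Fc_le z)
  have hI : n * ∫ z, (1 - D.Fc z) ∂lam3 ≤ K * q ^ 240 := by
    have h6 : (n : ℝ) ≤ N := Nat.cast_le.2 hn
    exact (mul_le_mul_of_nonneg_right h6 hI0).trans h.gd.Ic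
  set r := rg (D.F 0 1) n with hr
  have hr0 : 0 < r := lt_of_lt_of_le (by positivity) h4
  have hG0 : 0 ≤ Eg (D.F 0 1) n (fun x => (1 - Real.exp (-(Xg D.ul x 0 - n * D.uh 0))) ^ 2) :=
    Eg_nonneg hF fun x => sq_nonneg _
  set G := Eg (D.F 0 1) n (fun x => (1 - Real.exp (-(Xg D.ul x 0 - n * D.uh 0))) ^ 2) with hG
  set V := D.Vn n with hV
  set M := 300000 * Real.exp (2 * K) * K ^ 9 with hM
  have hE1 : 1 ≤ Real.exp (2 * K) := Real.one_le_exp (by linarith)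
  have hK9 : 1 ≤ K ^ 9 := one_le_pow₀ hK1
  have hM0 : 0 < M := by positivity
  -- `K ^ 2 ≤ M / 5`
  have hKM : 5 * K ^ 2 ≤ M := by
    have h5 : K ^ 2 ≤ K ^ 9 := pow_le_pow_right₀ hK1 (by norm_num)
    have h6 : K ^ 9 ≤ Real.exp (2 * K) * K ^ 9 := le_mul_of_one_le_left (by positivity) hE1
    have h7 : 0 ≤ Real.exp (2 * K) * K ^ 9 := by positivity
    have h8 : M = 300000 * (Real.exp (2 * K) * K ^ 9) := by rw [hM]; ring
    rw [h8]
    linarith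
  -- `c² ≤ (1 + q^20) r`
  have hsmall := h.small
  have hK20 : 1 ≤ K ^ 20 := one_le_pow₀ hK1
  have hq3 : q ≤ 1 / 1000 := by nlinarith
  have hc2 : c ^ 2 ≤ (1 + q ^ 20) * r := by
    have h5 : c ^ 2 = Real.exp (-(2 * n * D.uh 0)) := by
      rw [hc, ← Real.exp_nat_mul]
      congr 1
      push_cast
      ring
    have h6 : -(2 * n * D.uh 0) ≤ Real.log r + 5000 * K ^ 8 * q ^ 218 := by linarith
    have h7 : c ^ 2 ≤ r * Real.exp (5000 * K ^ 8 * q ^ 218) := by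
      rw [h5]
      refine (Real.exp_le_exp.2 h6).trans (le_of_eq ?_)
      rw [Real.exp_add, Real.exp_log hr0]
    have h8 : 5000 * K ^ 8 * q ^ 218 ≤ q ^ 20 / 2 := by
      have h9 : K ^ 8 ≤ K ^ 20 := pow_le_pow_right₀ hK1 (by norm_num)
      have h10 : K ^ 8 * q ≤ 1 / 1000 := by
        have := mul_le_mul_of_nonneg_right h9 hq.le
        linarith
      have h11 : q ^ 197 ≤ 1 / 1000 := by
        calc q ^ 197 ≤ q ^ 1 := pow_le_pow_of_le_one hq.le hq1 (by norm_num)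
          _ ≤ 1 / 1000 := by rw [pow_one]; exact hq3
      have h12 : (K ^ 8 * q) * q ^ 197 ≤ 1 / 1000 * (1 / 1000) :=
        mul_le_mul h10 h11 (by positivity) (by norm_num)
      have h13 : 5000 * K ^ 8 * q ^ 218 = 5000 * ((K ^ 8 * q) * q ^ 197) * q ^ 20 := by ring
      rw [h13]
      have h14 : 5000 * ((K ^ 8 * q) * q ^ 197) ≤ 1 / 2 := by linarith
      have := mul_le_mul_of_nonneg_right h14 hη.le
      linarith
    have h9 : q ^ 20 ≤ 1 := pow_le_one₀ hq.le hq1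
    have h10 : Real.exp (5000 * K ^ 8 * q ^ 218) ≤ 1 + q ^ 20 := by
      have h11 : 0 ≤ 5000 * K ^ 8 * q ^ 218 := by positivity
      have h12 : |5000 * K ^ 8 * q ^ 218| ≤ 1 := by rw [abs_of_nonneg h11]; linarith
      have h13 := Real.abs_exp_sub_one_le h12
      rw [abs_of_nonneg h11] at h13
      have h14 := le_abs_self (Real.exp (5000 * K ^ 8 * q ^ 218) - 1)
      linarith
    calc c ^ 2 ≤ r * Real.exp (5000 * K ^ 8 * q ^ 218) := h7
      _ ≤ r * (1 + q ^ 20) := mul_le_mul_of_nonneg_left h10 hr0.le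
      _ = (1 + q ^ 20) * r := by ring
  -- the main part
  have hq20 : q ^ 20 ≤ 1 := pow_le_one₀ hq.le hq1
  have hmain : (1 + q ^ 20) * c ^ 2 * G ≤ (G + 3 * q ^ 20 * G) * r := by
    have h5 : (1 + q ^ 20) * c ^ 2 ≤ (1 + q ^ 20) * ((1 + q ^ 20) * r) :=
      mul_le_mul_of_nonneg_left hc2 (by positivity)
    have h6 : (1 + q ^ 20) * ((1 + q ^ 20) * r) ≤ (1 + 3 * q ^ 20) * r := by
      have h7 : (1 + q ^ 20) * (1 + q ^ 20) ≤ 1 + 3 * q ^ 20 := by nlinarith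
      calc (1 + q ^ 20) * ((1 + q ^ 20) * r) = ((1 + q ^ 20) * (1 + q ^ 20)) * r := by ring
        _ ≤ _ := mul_le_mul_of_nonneg_right h7 hr0.le
    calc (1 + q ^ 20) * c ^ 2 * G ≤ (1 + 3 * q ^ 20) * r * G :=
          mul_le_mul_of_nonneg_right (h5.trans h6) hG0
      _ = (G + 3 * q ^ 20 * G) * r := by ring
  have hGle : G + 3 * q ^ 20 * G ≤ V / 4 + (4 * M + 3 * K) * q ^ 209 := by
    have h5 : G ≤ K * q ^ 200 + M * q ^ 209 := by linarith
    have h6 : 3 * q ^ 20 * G ≤ 3 * q ^ 20 * (K * q ^ 200 + M * q ^ 209) :=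
      mul_le_mul_of_nonneg_left h5 (by positivity)
    have h7 : 3 * q ^ 20 * (K * q ^ 200 + M * q ^ 209) = 3 * (K * q ^ 220) + 3 * (M * q ^ 229) := by
      ring
    have h8 : K * q ^ 220 ≤ K * q ^ 209 :=
      mul_le_mul_of_nonneg_left (pow_le_pow_of_le_one hq.le hq1 (by norm_num)) hK0.le
    have h9 : M * q ^ 229 ≤ M * q ^ 209 :=
      mul_le_mul_of_nonneg_left (pow_le_pow_of_le_one hq.le hq1 (by norm_num)) hM0.le
    have h10 : (4 * M + 3 * K) * q ^ 209 = M * q ^ 209 + 3 * (M * q ^ 209) + 3 * (K * q ^ 209) := by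
      ring
    rw [h10]
    linarith
  -- the core part
  have hcore : (1 + 1 / q ^ 20) * (n * ∫ z, (1 - D.Fc z) ∂lam3) ≤ 2 * K ^ 2 * q ^ 209 * r := by
    have h5 : 1 + 1 / q ^ 20 ≤ 2 / q ^ 20 := by
      have h6 : 1 ≤ 1 / q ^ 20 := by rw [le_div_iff₀ hη]; linarith
      have h7 : 2 / q ^ 20 = 1 / q ^ 20 + 1 / q ^ 20 := by ring
      rw [h7]
      linarith
    have h6 : 0 ≤ n * ∫ z, (1 - D.Fc z) ∂lam3 := mul_nonneg (Nat.cast_nonneg _) hI0
    calc (1 + 1 / q ^ 20) * (n * ∫ z, (1 - D.Fc z) ∂lam3)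
        ≤ 2 / q ^ 20 * (K * q ^ 240) := mul_le_mul h5 hI h6 (by positivity)
      _ = 2 * K * q ^ 220 * 1 := by
          field_simp
      _ ≤ 2 * K * q ^ 220 * (K * r) := by
          refine mul_le_mul_of_nonneg_left ?_ (by positivity)
          have := mul_le_mul_of_nonneg_left h4 hK0.le
          rw [mul_one_div_cancel hK0.ne'] at this
          exact this
      _ = 2 * K ^ 2 * r * q ^ 220 := by ring
      _ ≤ 2 * K ^ 2 * r * q ^ 209 :=
          mul_le_mul_of_nonneg_left (pow_le_pow_of_le_one hq.le hq1 (by norm_num)) (by positivity)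
      _ = _ := by ring
  have hfin : (G + 3 * q ^ 20 * G) * r ≤ (V / 4 + (4 * M + 3 * K) * q ^ 209) * r :=
    mul_le_mul_of_nonneg_right hGle hr0.le
  have hlast : (V / 4 + (4 * M + 3 * K) * q ^ 209) * r + 2 * K ^ 2 * q ^ 209 * r
      ≤ (V / 4 + 1500000 * Real.exp (2 * K) * K ^ 9 * q ^ 209) * r := by
    have h5 : 1500000 * Real.exp (2 * K) * K ^ 9 = 5 * M := by rw [hM]; ring
    rw [h5]
    have h6 : 3 * K + 2 * K ^ 2 ≤ 5 * K ^ 2 := by nlinarith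
    have h7 : (V / 4 + (4 * M + 3 * K) * q ^ 209) * r + 2 * K ^ 2 * q ^ 209 * r
        = (V / 4 + (4 * M + (3 * K + 2 * K ^ 2)) * q ^ 209) * r := by ring
    rw [h7]
    refine mul_le_mul_of_nonneg_right ?_ hr0.le
    have h8 : (4 * M + (3 * K + 2 * K ^ 2)) * q ^ 209 ≤ 5 * M * q ^ 209 :=
      mul_le_mul_of_nonneg_right (by linarith) (by positivity)
    linarith
  linarith

end Pool.Agent.Lib.MP_4952d6_mp
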