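import Pool.Agent.Lib.MP_4952d6_mp.Pq.Q01
import Pool.Agent.Lib.MP_4952d6_mp.Pk.G21

/-!
# Condensation under a small gap: depletion of the Jastrow state

`nuQ (fc φ) i ≤ ∫ |φ - g|²` for every `g` which does not depend on `x i`. For the Jastrow state `φ = s ∏ f (x k - x l)` and
`g = s c ∏_{k, l ≠ i} f (x k - x l)` this is `E_n[(∏ f (y - x j) - c)²] / r_n`, `n = N - 1`.
-/

set_option autoImplicit false
set_option linter.unusedSectionVars false
set_option linter.unusedVariables false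
open MeasureTheory Function Filter Topology Set ComplexConjugate

namespace Pool.Agent.Lib.MP_4952d6_mp

/-! ### Functions which do not depend on one particle -/

theorem Q02_fc_translate {ι : Type*} [Fintype ι] {φ : (ι → T3) → ℂ} (c : ι → T3)
    (k : ι → Fin 3 → ℤ) : fc (fun x => φ (x + c)) k = chN k c * fc φ k := by
  have hb := borel_config ι
  have hh := piN_haar ι
  unfold fc
  have e : ∀ x : ι → T3, conj (chN k x) * φ (x + c)
      = chN k c * (conj (chN k (x + c)) * φ (x + c)) := by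
    intro x
    rw [chN_add_arg, map_mul]
    have h := conj_chN_mul_self k c
    calc conj (chN k x) * φ (x + c) = conj (chN k x) * φ (x + c) * (conj (chN k c) * chN k c) := by
          rw [h, mul_one]
      _ = _ := by ring
  rw [integral_congr_ae (Eventually.of_forall e), integral_const_mul]
  congr 1
  exact integral_add_right_eq_self (μ := piN ι) (fun x => conj (chN k x) * φ x) c

theorem Q02_fc_zero {ι : Type*} [Fintype ι] [DecidableEq ι] {g : (ι → T3) → ℂ} {i : ι}
    (hg : ∀ (x : ι → T3) (z : T3), g (update x i z) = g x) {k : ι → Fin 3 → ℤ} (hk : k i ≠ 0) :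
    fc g k = 0 := by
  obtain ⟨s, hs⟩ := exists_ch_eq_neg_one hk
  have h1 := Q02_fc_translate (φ := g) (Pi.single i s) k
  have h2 : (fun x : ι → T3 => g (x + Pi.single i s)) = g := by
    funext x
    have h3 : x + Pi.single i s = update x i (x i + s) := by
      funext j
      rcases eq_or_ne j i with h | h
      · subst h
        rw [Pi.add_apply, Pi.single_eq_same, update_self]
      · rw [Pi.add_apply, Pi.single_eq_of_ne h, add_zero, update_of_ne h]
    rw [h3, hg]
  rw [h2, chN_single, hs] at h1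
  have h3 : (2 : ℂ) * fc g k = 0 := by linear_combination h1
  exact (mul_eq_zero.1 h3).resolve_left two_ne_zero

theorem Q02_nuQ_le {ι : Type*} [Fintype ι] [DecidableEq ι] {φ g : (ι → T3) → ℂ}
    (hφ : MemLp φ 2 (piN ι)) (hg2 : MemLp g 2 (piN ι)) {i : ι}
    (hg : ∀ (x : ι → T3) (z : T3), g (update x i z) = g x) :
    nuQ (fc φ) i ≤ ∫ x, ‖φ x - g x‖ ^ 2 ∂(piN ι) := by
  have hd : MemLp (fun x => φ x - g x) 2 (piN ι) := hφ.sub hg2
  have h1 := parseval_sq hd
  have hfc : ∀ k, fc (fun x => φ x - g x) k = fc φ k - fc g k := by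
    intro k
    unfold fc
    have hi : ∀ {u : (ι → T3) → ℂ}, MemLp u 2 (piN ι) →
        Integrable (fun x => conj (chN k x) * u x) (piN ι) := by
      intro u hu
      have h2 : Integrable u (piN ι) := hu.integrable (by norm_num)
      refine h2.bdd_mul (c := 1) ?_ (Eventually.of_forall fun x => ?_)
      · exact (Complex.continuous_conj.comp (chN_continuous k)).aestronglyMeasurable
      · rw [Complex.norm_conj, chN_norm]
    rw [← integral_sub (hi hφ) (hi hg2)]
    refine integral_congr_ae (Eventually.of_forall fun x => ?_)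
    dsimp only
    ring
  rw [← h1.tsum_eq]
  unfold nuQ
  refine Summable.tsum_le_tsum (fun k => ?_) ?_ h1.summable
  · split_ifs with hk
    · rw [hfc, Q02_fc_zero hg hk, sub_zero]
    · exact sq_nonneg _
  · refine Summable.of_nonneg_of_le (fun k => ?_) (fun k => ?_) h1.summable
    · split_ifs
      · exact sq_nonneg _
      · exact le_rfl
    · split_ifs with hk
      · rw [hfc, Q02_fc_zero hg hk, sub_zero]
      · exact sq_nonneg _

/-! ### The Jastrow state -/

theorem Q02_pairW_sq {ι : Type*} [Fintype ι] [LinearOrder ι] (f : T3 → ℝ) (S : Finset ι)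
    (x : ι → T3) : pairW f S x ^ 2 = pairW (fun y => f y ^ 2) S x := by
  unfold pairW
  rw [← Finset.prod_pow]
  refine Finset.prod_congr rfl fun k _ => ?_
  rw [← Finset.prod_pow]

theorem Q02_gasFn_sq {f : T3 → ℝ} (hf : GasFn lam3 f) : GasFn lam3 (fun y => f y ^ 2) where
  meas := hf.meas.pow_const 2
  nonneg := fun y => sq_nonneg _
  le_one := fun y => pow_le_one₀ (hf.nonneg y) (hf.le_one y)
  even := fun y => by rw [hf.even]

/-- The one point expectation does not depend on the point. -/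
theorem Q02_Eg_point {f F : T3 → ℝ} (hf : GasFn lam3 f) (hF : GasFn lam3 F) (n : ℕ) (c : ℝ)
    (y : T3) : Eg F n (fun x => (Ag f x y - c) ^ 2) = Eg F n (fun x => (Ag f x 0 - c) ^ 2) := by
  have bA : BM (fun x : Fin n → T3 => (Ag f x 0 - c) ^ 2) :=
    ((GC_Ag_bm hf n 0).sub (BM.const c)).pow 2
  have h1 := Eg_shift hF bA (-y)
  rw [← h1]
  congr 1
  funext x
  have h2 : Ag f (fun i => x i + -y) 0 = Ag f x y := by
    unfold Ag
    refine Finset.prod_congr rfl fun j _ => ?_
    show f (0 - (x j + -y)) = f (y - x j)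
    congr 1
    abel
  rw [h2]

/-- The integral for the first particle. -/
theorem Q02_int_zero {f : T3 → ℝ} (hf : GasFn lam3 f) {n : ℕ}
    (hZ : 0 < Zg (fun y => f y ^ 2) n) (c : ℝ) :
    ∫ x, (pairW f Finset.univ x - c * pairW f (Finset.univ.erase 0) x) ^ 2 ∂(piN (Fin (n + 1)))
      = Eg (fun y => f y ^ 2) n (fun x => (Ag f x 0 - c) ^ 2) * Zg (fun y => f y ^ 2) n := by
  have hF := Q02_gasFn_sq hf
  have b1 : BM (fun x : Fin (n + 1) → T3 =>
      (pairW f Finset.univ x - c * pairW f (Finset.univ.erase 0) x) ^ 2) :=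
    ((pairW_bm hf _).sub ((pairW_bm hf _).const_mul c)).pow 2
  rw [integral_cons b1]
  have h1 : ∀ (x : Fin n → T3) (y : T3),
      (pairW f Finset.univ (Fin.cons y x : Fin (n + 1) → T3)
        - c * pairW f (Finset.univ.erase 0) (Fin.cons y x : Fin (n + 1) → T3)) ^ 2
      = (Ag f x y - c) ^ 2 * Wg (fun y => f y ^ 2) x := by
    intro x y
    have h2 : pairW f Finset.univ (Fin.cons y x : Fin (n + 1) → T3) = Wg f x * Ag f x y :=
      Wg_cons hf x y
    have h3 : pairW f (Finset.univ.erase 0) (Fin.cons y x : Fin (n + 1) → T3) = Wg f x := by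
      have h4 : (Finset.univ.erase (0 : Fin (n + 1)))
          = (Finset.univ : Finset (Fin n)).map ⟨Fin.succ, Fin.succ_injective n⟩ := by
        ext k
        simp only [Finset.mem_erase, Finset.mem_univ, and_true, Finset.mem_map, true_and,
          Function.Embedding.coeFn_mk]
        constructor
        · intro hk
          obtain ⟨j, rfl⟩ := Fin.exists_succ_eq.mpr hk
          exact ⟨j, rfl⟩
        · rintro ⟨j, rfl⟩
          exact Fin.succ_ne_zero j
      rw [h4]
      unfold Wg pairW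
      rw [Finset.prod_map]
      refine Finset.prod_congr rfl fun k _ => ?_
      rw [Finset.filter_map, Finset.prod_map]
      refine Finset.prod_congr ?_ fun l _ => ?_
      · ext l
        simp
      · simp
    rw [h2, h3]
    have h5 : Wg (fun y => f y ^ 2) x = Wg f x ^ 2 := by
      unfold Wg
      rw [Q02_pairW_sq]
    rw [h5]
    ring
  simp only [h1]
  have b2 : BM (uncurry fun (x : Fin n → T3) (y : T3) =>
      (Ag f x y - c) ^ 2 * Wg (fun y => f y ^ 2) x) :=
    (((Ag_bm hf n).sub (BM.const c)).pow 2).mul ((Wg_bm hF n).comp measurable_fst)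
  rw [GD1_swap b2]
  have h3 : ∀ y, ∫ x, (Ag f x y - c) ^ 2 * Wg (fun y => f y ^ 2) x ∂(piN (Fin n))
      = Eg (fun y => f y ^ 2) n (fun x => (Ag f x 0 - c) ^ 2) * Zg (fun y => f y ^ 2) n := by
    intro y
    rw [GD1_Eg_mul hZ.ne' (fun x => (Ag f x y - c) ^ 2), Q02_Eg_point hf hF n c y]
  simp only [h3, integral_const, probReal_univ, one_smul]

/-- The same for every particle. -/
theorem Q02_int {f : T3 → ℝ} (hf : GasFn lam3 f) {n : ℕ}
    (hZ : 0 < Zg (fun y => f y ^ 2) n) (c : ℝ) (i : Fin (n + 1)) :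
    ∫ x, (pairW f Finset.univ x - c * pairW f (Finset.univ.erase i) x) ^ 2 ∂(piN (Fin (n + 1)))
      = Eg (fun y => f y ^ 2) n (fun x => (Ag f x 0 - c) ^ 2) * Zg (fun y => f y ^ 2) n := by
  rw [← Q02_int_zero hf hZ c]
  have h1 := GD2_integral_perm (Equiv.swap (0 : Fin (n + 1)) i)
    (fun x => (pairW f Finset.univ x - c * pairW f (Finset.univ.erase 0) x) ^ 2)
  rw [← h1]
  refine integral_congr_ae (Eventually.of_forall fun x => ?_)
  dsimp only
  rw [GA_pairW_perm hf, GA_pairW_perm hf, Finset.map_univ_equiv, Finset.map_erase,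
    Finset.map_univ_equiv]
  simp

/-- Depletion of the Jastrow state. -/
theorem Q02_nuQ_jas {f : T3 → ℝ} (hf : GasFn lam3 f) {n : ℕ}
    (hZ : 0 < Zg (fun y => f y ^ 2) n) (hZ1 : 0 < Zg (fun y => f y ^ 2) (n + 1)) (c s : ℝ)
    (hs : s ^ 2 * Zg (fun y => f y ^ 2) (n + 1) = 1) (i : Fin (n + 1)) :
    nuQ (fc (fun x : Fin (n + 1) → T3 => (s : ℂ) * (jasT f x : ℂ))) i
      ≤ Eg (fun y => f y ^ 2) n (fun x => (Ag f x 0 - c) ^ 2) / rg (fun y => f y ^ 2) n := by
  have hF := Q02_gasFn_sq hf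
  have hmem : ∀ {u : (Fin (n + 1) → T3) → ℝ}, BM u →
      MemLp (fun x => (s : ℂ) * (u x : ℂ)) 2 (piN (Fin (n + 1))) := fun hu =>
    (JData.memLp_of_bm (μ := piN (Fin (n + 1))) hu).const_mul _
  have b1 : BM (fun x : Fin (n + 1) → T3 => jasT f x) := pairW_bm hf _
  have b2 : BM (fun x : Fin (n + 1) → T3 => c * pairW f (Finset.univ.erase i) x) :=
    (pairW_bm hf _).const_mul c
  have h1 := Q02_nuQ_le (hmem b1) (hmem b2) (i := i) (fun x z => by
    rw [pairW_update_of_notMem (Finset.notMem_erase i Finset.univ)])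
  refine h1.trans (le_of_eq ?_)
  have h2 : ∀ x : Fin (n + 1) → T3,
      ‖(s : ℂ) * (jasT f x : ℂ) - (s : ℂ) * ((c * pairW f (Finset.univ.erase i) x : ℝ) : ℂ)‖ ^ 2
      = s ^ 2 * (pairW f Finset.univ x - c * pairW f (Finset.univ.erase i) x) ^ 2 := by
    intro x
    have h3 : (s : ℂ) * (jasT f x : ℂ) - (s : ℂ) * ((c * pairW f (Finset.univ.erase i) x : ℝ) : ℂ)
        = ((s * (pairW f Finset.univ x - c * pairW f (Finset.univ.erase i) x) : ℝ) : ℂ) := by
      unfold jasT
      push_cast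
      ring
    rw [h3, Complex.norm_real, Real.norm_eq_abs, sq_abs, mul_pow]
  simp only [h2]
  rw [integral_const_mul, Q02_int hf hZ c i]
  have h4 := Zg_succ hF hZ
  have hr : 0 < rg (fun y => f y ^ 2) n := by
    rw [h4] at hZ1
    exact pos_of_mul_pos_left hZ1 hZ.le
  rw [h4] at hs
  rw [eq_div_iff hr.ne']
  calc s ^ 2 * (Eg (fun y => f y ^ 2) n (fun x => (Ag f x 0 - c) ^ 2) * Zg (fun y => f y ^ 2) n)
        * rg (fun y => f y ^ 2) n
      = (s ^ 2 * (rg (fun y => f y ^ 2) n * Zg (fun y => f y ^ 2) n))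
        * Eg (fun y => f y ^ 2) n (fun x => (Ag f x 0 - c) ^ 2) := by ring
    _ = _ := by rw [hs, one_mul]

theorem Q02_Vn_mono {K q a : ℝ} {N : ℕ} {D : Dat} (h : GasOK K q a N D) {n m : ℕ} (hnm : n ≤ m)
    (hm : m ≤ N) : D.Vn n ≤ D.Vn m := by
  have hD := h.gd.ok
  unfold Dat.Vn
  refine tsum0_mono (Vn_bounds h (hnm.trans hm)).1 (Vn_bounds h hm).1 fun p _ => ?_
  have hu := hD.uh_nonneg p
  have h1 : (n : ℝ) ≤ m := Nat.cast_le.2 hnm
  have h2 : 0 < 1 + 2 * (n : ℝ) * D.uh p := by positivity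
  have h3 : 0 < 1 + 2 * (m : ℝ) * D.uh p := by positivity
  rw [div_le_div_iff₀ h2 h3]
  have h4 : (n : ℝ) * D.uh p ^ 2 ≤ m * D.uh p ^ 2 := mul_le_mul_of_nonneg_right h1 (sq_nonneg _)
  nlinarith

/-- **Depletion of the normalised Jastrow state** of the upper bound. -/
theorem Q02_dep {K q a : ℝ} {N : ℕ} {D : Dat} (h : GasOK K q a N D)
    (hK : Real.exp (2 * K) * q ^ 20 ≤ 1) (hN : 2 ≤ N) {f : T3 → ℝ} (hf : GasFn lam3 f)
    (hfF : ∀ x, f x ^ 2 = D.F 0 1 x) (i : Fin N) :
    nuQ (fc (fun x : Fin N → T3 =>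
        (((Real.sqrt (Zg (fun y => f y ^ 2) N))⁻¹ : ℝ) : ℂ) * (jasT f x : ℂ))) i
      ≤ D.Vn N / 4 + 1500000 * Real.exp (2 * K) * K ^ 9 * q ^ 209 := by
  obtain ⟨n, rfl⟩ : ∃ n, N = n + 1 := ⟨N - 1, by omega⟩
  have e : (fun y => f y ^ 2) = D.F 0 1 := funext hfF
  have hZ := h.Zpos 0 1 le_rfl zero_le_one zero_le_one le_rfl n (by omega)
  have hZ1 := h.Zpos 0 1 le_rfl zero_le_one zero_le_one le_rfl (n + 1) (by omega)
  have h4 := h.rge 0 1 le_rfl zero_le_one zero_le_one le_rfl n (by omega)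
  have hK0 : 0 < K := by linarith [h.gd.C1]
  have hr : 0 < rg (D.F 0 1) n := lt_of_lt_of_le (by positivity) h4
  rw [← e] at hZ hZ1
  have h1 := Q02_nuQ_jas hf hZ hZ1 (Real.exp (-(n * D.uh 0)))
    ((Real.sqrt (Zg (fun y => f y ^ 2) (n + 1)))⁻¹) (by
      rw [inv_pow, Real.sq_sqrt hZ1.le, inv_mul_cancel₀ hZ1.ne']) i
  refine h1.trans ?_
  rw [e, div_le_iff₀ hr]
  have h2 := Q01_gas h hK (n := n) (by omega) (by omega) hf.bm hf.nonneg hfF
  refine h2.trans (mul_le_mul_of_nonneg_right ?_ hr.le)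
  have h3 := Q02_Vn_mono h (Nat.le_succ n) le_rfl
  linarith

end Pool.Agent.Lib.MP_4952d6_mp
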